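import Pool.Agent.H102R3.DMRot

set_option autoImplicit false
set_option linter.unusedSectionVars false

/-!
# Coercivity of the quadratic form and comparison with simple random walk
-/

namespace Pool.H102.DM

open Finset
open Pool.H102.DP (sg sg_hasSum sg_hasSum' sg_intertwine sg_shift sg_mono ip ip_comm ip_single_left ip_smul_left ip_smul_right ip_sum_right ip_self_nonneg EB exists_eb lapl Sf lapl_form lapl_symm)

variable {U I : Type} [Fintype U] [DecidableEq U] [Fintype I] [DecidableEq I]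

/-- the vacuum configuration of the rotated basis -/
def z0 : Cf I := fun _ => false

open Classical in
noncomputable def emb : (U → ℝ) →ₗ[ℝ] (U × Cf I → ℝ) where
  toFun f z := if z.2 = z0 then f z.1 else 0
  map_add' f g := by
    funext z; simp only [Pi.add_apply]; split_ifs <;> simp
  map_smul' c f := by
    funext z; simp only [Pi.smul_apply, smul_eq_mul, RingHom.id_apply]; split_ifs <;> simp

theorem ip_emb (f : U → ℝ) (G : U × Cf I → ℝ) : ip (emb f) G = ip f (fun x => G (x, z0)) := by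
  classical
  rw [ip_prod, ip]
  refine Finset.sum_congr rfl fun x _ => ?_
  rw [Finset.sum_eq_single z0]
  · simp [emb]
  · intro ξ _ h; simp [emb, h]
  · intro h; exact absurd (Finset.mem_univ _) h

open Classical in
/-- squared norm of the part orthogonal to the vacuum -/
noncomputable def gn (F : U × Cf I → ℝ) (x : U) : ℝ := ∑ ξ, if ξ = z0 then 0 else F (x, ξ) ^ 2

theorem gn_nonneg (F : U × Cf I → ℝ) (x : U) : 0 ≤ gn F x :=
  Finset.sum_nonneg fun ξ _ => by split_ifs <;> positivity

theorem cnt_nonneg (ξ : Cf I) : 0 ≤ cnt ξ := Finset.sum_nonneg fun e _ => by split_ifs <;> norm_num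

theorem one_le_cnt (ξ : Cf I) (h : ξ ≠ z0) : 1 ≤ cnt ξ := by
  obtain ⟨e, he⟩ : ∃ e, ξ e = true := by
    by_contra hcon
    push Not at hcon
    exact h (funext fun e => by simpa [z0] using hcon e)
  have := Finset.single_le_sum (f := fun e => if ξ e = true then (1:ℝ) else 0)
    (fun e _ => by split_ifs <;> norm_num) (Finset.mem_univ e)
  simp only [he, if_true] at this
  exact this

theorem vv_false_sq (p : ℝ) (hp : 0 ≤ p) : vv p false ^ 2 = p := by
  show (√p) ^ 2 = p
  exact Real.sq_sqrt hp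

theorem vv_true_sq (p : ℝ) (hp1 : p ≤ 1) : vv p true ^ 2 = 1 - p := by
  show (-√(1 - p)) ^ 2 = 1 - p
  rw [neg_sq]; exact Real.sq_sqrt (by linarith)

/-- `∑ (v·a)² ≤ 2 ∑ a²` -/
theorem DD_le (p : ℝ) (hp : 0 ≤ p) (hp1 : p ≤ 1) (e : I) (a : Cf I → ℝ) :
    ∑ ξ, DD p e a ξ * DD p e a ξ ≤ 2 * ∑ ξ, a ξ ^ 2 := by
  rw [← sum_upd e]
  refine Finset.sum_le_sum fun ξ _ => ?_
  have h1 := vv_false_sq p hp
  have h2 := vv_true_sq p hp1
  have h3 : DD p e a ξ = vv p false * a (Function.update ξ e false)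
    + vv p true * a (Function.update ξ e true) := rfl
  rw [h3]
  generalize a (Function.update ξ e false) = u
  generalize a (Function.update ξ e true) = w
  generalize vv p false = v0 at *
  generalize vv p true = v1 at *
  have h5 : v0 ^ 2 + v1 ^ 2 = 1 := by rw [h1, h2]; ring
  nlinarith [sq_nonneg (v1 * u - v0 * w)]

/-- lower bound of `∑ (v·a)²` by the vacuum component -/
theorem DD_ge (p : ℝ) (hp : 0 ≤ p) (hp1 : p ≤ 1) (e : I) (a : Cf I → ℝ) :
    p * a z0 ^ 2 ≤ ∑ ξ, DD p e a ξ * DD p e a ξ + 2 * a (Function.update z0 e true) ^ 2 := by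
  classical
  have hne : z0 ≠ Function.update (z0 : Cf I) e true := by
    intro h
    have := congrFun h e
    simp [z0] at this
  have h1 : DD p e a z0 * DD p e a z0 + DD p e a (Function.update z0 e true) *
      DD p e a (Function.update z0 e true) ≤ ∑ ξ, DD p e a ξ * DD p e a ξ := by
    rw [← Finset.sum_pair (f := fun ξ => DD p e a ξ * DD p e a ξ) hne]
    exact Finset.sum_le_sum_of_subset_of_nonneg (Finset.subset_univ _)
      fun _ _ _ => mul_self_nonneg _
  rw [DD_upd] at h1
  have h2 : Function.update (z0 : Cf I) e false = z0 := by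
    have : (z0 : Cf I) e = false := rfl
    conv_lhs => rw [← this]
    exact Function.update_eq_self e z0
  have h3 : DD p e a z0 = vv p false * a z0 + vv p true * a (Function.update z0 e true) := by
    unfold DD; rw [h2]
  rw [h3] at h1
  have h4 := vv_false_sq p hp
  have h5 := vv_true_sq p hp1
  refine le_trans ?_ (add_le_add_left h1 _)
  generalize a z0 = u at *
  generalize a (Function.update z0 e true) = w at *
  generalize vv p false = v0 at *
  generalize vv p true = v1 at *
  rw [← h4]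
  have h6 : v1 ^ 2 ≤ 1 := by rw [h5]; linarith
  nlinarith [sq_nonneg (v0 * u + 2 * (v1 * w)), sq_nonneg w]

open Classical in
/-- **coercivity** -/
theorem coercive (ed : U → U → I) (adj : U → U → Prop) (hadj : ∀ x y, adj x y → adj y x)
    (b : U → ℝ) (hb : ∀ x, 0 ≤ b x) (μ p d : ℝ)
    (hμ : 0 < μ) (hp : 0 ≤ p) (hp1 : p ≤ 1)
    (hd : ∀ x, ∑ y, (if adj x y then (1:ℝ) else 0) ≤ d) (F : U × Cf I → ℝ) :
    p * Sf adj b (fun x => F (x, z0)) (fun x => F (x, z0)) + ∑ x, gn F x ≤
      (2 + (4 * d + 1) / μ) * Bf ed adj b μ p F F := by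
  set B := Bf ed adj b μ p F F with hB
  set T1 := ∑ x, ∑ ξ, b x * (F (x, ξ) * F (x, ξ)) with hT1
  set T2 := ∑ x, ∑ ξ, cnt ξ * (F (x, ξ) * F (x, ξ)) with hT2
  set T3 := ∑ x, ∑ y, (if adj x y then
      ∑ ξ, DD p (ed x y) (fun ξ => F (x, ξ) - F (y, ξ)) ξ *
        DD p (ed x y) (fun ξ => F (x, ξ) - F (y, ξ)) ξ else 0) with hT3
  set g := ∑ x, gn F x with hg
  have hBeq : B = T1 + μ * T2 + (1/4) * T3 := rfl
  have hT1n : 0 ≤ T1 := Finset.sum_nonneg fun x _ => Finset.sum_nonneg fun ξ _ =>
    mul_nonneg (hb x) (mul_self_nonneg _)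
  have hT2n : 0 ≤ T2 := Finset.sum_nonneg fun x _ => Finset.sum_nonneg fun ξ _ =>
    mul_nonneg (cnt_nonneg ξ) (mul_self_nonneg _)
  have hT3n : 0 ≤ T3 := Finset.sum_nonneg fun x _ => Finset.sum_nonneg fun y _ => by
    split_ifs
    · exact Finset.sum_nonneg fun ξ _ => mul_self_nonneg _
    · exact le_rfl
  have hgn : 0 ≤ g := Finset.sum_nonneg fun x _ => gn_nonneg F x
  have hgT2 : g ≤ T2 := by
    refine Finset.sum_le_sum fun x _ => Finset.sum_le_sum fun ξ _ => ?_
    split_ifs with h
    · exact mul_nonneg (cnt_nonneg ξ) (mul_self_nonneg _)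
    · have := one_le_cnt ξ h
      nlinarith [mul_self_nonneg (F (x, ξ))]
  have hb1 : ∑ x, b x * (F (x, z0) * F (x, z0)) ≤ T1 := by
    refine Finset.sum_le_sum fun x _ => ?_
    exact Finset.single_le_sum (f := fun ξ => b x * (F (x, ξ) * F (x, ξ)))
      (fun ξ _ => mul_nonneg (hb x) (mul_self_nonneg _)) (Finset.mem_univ z0)
  have hpt : ∀ x y, p * ((F (x, z0) - F (y, z0)) * (F (x, z0) - F (y, z0))) ≤
      ∑ ξ, DD p (ed x y) (fun ξ => F (x, ξ) - F (y, ξ)) ξ *
        DD p (ed x y) (fun ξ => F (x, ξ) - F (y, ξ)) ξ + (4 * gn F x + 4 * gn F y) := by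
    intro x y
    have h1 := DD_ge p hp hp1 (ed x y) (fun ξ => F (x, ξ) - F (y, ξ))
    set δ : Cf I := Function.update z0 (ed x y) true with hδ
    have hne : δ ≠ z0 := by
      intro h
      have := congrFun h (ed x y)
      simp [hδ, z0] at this
    have h2 : ∀ x', F (x', δ) ^ 2 ≤ gn F x' := by
      intro x'
      have := Finset.single_le_sum (f := fun ξ => if ξ = z0 then 0 else F (x', ξ) ^ 2)
        (fun ξ _ => by split_ifs <;> positivity) (Finset.mem_univ δ)
      simp only [if_neg hne] at this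
      exact this
    have h3 := h2 x
    have h4 := h2 y
    have h5 : (F (x, δ) - F (y, δ)) ^ 2 ≤ 2 * F (x, δ) ^ 2 + 2 * F (y, δ) ^ 2 := by
      nlinarith [sq_nonneg (F (x, δ) + F (y, δ))]
    have h6 : p * ((F (x, z0) - F (y, z0)) * (F (x, z0) - F (y, z0))) =
      p * (F (x, z0) - F (y, z0)) ^ 2 := by ring
    rw [h6]
    linarith
  have hsum : p * ∑ x, ∑ y, (if adj x y then (F (x, z0) - F (y, z0)) * (F (x, z0) - F (y, z0))
      else 0) ≤ T3 + 8 * d * g := by
    have h1 : p * ∑ x, ∑ y, (if adj x y then (F (x, z0) - F (y, z0)) * (F (x, z0) - F (y, z0))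
      else 0) ≤ T3 + ∑ x, ∑ y, (if adj x y then (4 * gn F x + 4 * gn F y) else 0) := by
      rw [hT3, ← Finset.sum_add_distrib, Finset.mul_sum]
      refine Finset.sum_le_sum fun x _ => ?_
      rw [← Finset.sum_add_distrib, Finset.mul_sum]
      refine Finset.sum_le_sum fun y _ => ?_
      split_ifs
      · exact hpt x y
      · simp
    have h2 : ∑ x, ∑ y, (if adj x y then (4 * gn F x + 4 * gn F y) else 0) =
        ∑ x, ∑ y, (if adj x y then 8 * gn F x else 0) := by
      have h3 : ∑ x, ∑ y, (if adj x y then 4 * gn F y else 0) =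
          ∑ x, ∑ y, (if adj x y then 4 * gn F x else 0) := by
        rw [Finset.sum_comm]
        refine Finset.sum_congr rfl fun x _ => Finset.sum_congr rfl fun y _ => ?_
        by_cases hxy : adj x y
        · rw [if_pos hxy, if_pos (hadj _ _ hxy)]
        · rw [if_neg hxy, if_neg (fun h => hxy (hadj _ _ h))]
      have h4 : ∑ x, ∑ y, (if adj x y then (4 * gn F x + 4 * gn F y) else 0) =
          ∑ x, ∑ y, (if adj x y then 4 * gn F x else 0) +
          ∑ x, ∑ y, (if adj x y then 4 * gn F y else 0) := by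
        rw [← Finset.sum_add_distrib]
        refine Finset.sum_congr rfl fun x _ => ?_
        rw [← Finset.sum_add_distrib]
        refine Finset.sum_congr rfl fun y _ => ?_
        split_ifs <;> simp
      rw [h4, h3, ← Finset.sum_add_distrib]
      refine Finset.sum_congr rfl fun x _ => ?_
      rw [← Finset.sum_add_distrib]
      refine Finset.sum_congr rfl fun y _ => ?_
      split_ifs <;> ring
    have h5 : ∑ x, ∑ y, (if adj x y then 8 * gn F x else 0) ≤ 8 * d * g := by
      rw [hg, Finset.mul_sum]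
      refine Finset.sum_le_sum fun x _ => ?_
      have h6 : ∑ y, (if adj x y then 8 * gn F x else 0) =
          (∑ y, (if adj x y then (1:ℝ) else 0)) * (8 * gn F x) := by
        rw [Finset.sum_mul]
        refine Finset.sum_congr rfl fun y _ => ?_
        split_ifs <;> ring
      rw [h6]
      have h7 := mul_le_mul_of_nonneg_right (hd x) (show 0 ≤ 8 * gn F x by
        have := gn_nonneg F x; linarith)
      linarith
    linarith
  have hS : p * Sf adj b (fun x => F (x, z0)) (fun x => F (x, z0)) ≤ 2 * B + 4 * d * g := by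
    rw [Sf]
    have h1 : p * ∑ x, b x * (F (x, z0) * F (x, z0)) ≤ T1 := by
      have h2 : 0 ≤ ∑ x, b x * (F (x, z0) * F (x, z0)) :=
        Finset.sum_nonneg fun x _ => mul_nonneg (hb x) (mul_self_nonneg _)
      nlinarith
    have h3 : 0 ≤ μ * T2 := mul_nonneg hμ.le hT2n
    rw [hBeq]
    nlinarith
  have hgB : g ≤ B / μ := by
    rw [le_div_iff₀ hμ, hBeq]
    nlinarith
  have hd0 : 0 ≤ 4 * d + 1 ∨ IsEmpty U := by
    rcases isEmpty_or_nonempty U with h | ⟨⟨x⟩⟩
    · right; exact h
    · left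
      have h1 := hd x
      have h2 : (0:ℝ) ≤ ∑ y, (if adj x y then (1:ℝ) else 0) :=
        Finset.sum_nonneg fun y _ => by split_ifs <;> norm_num
      linarith
  rcases hd0 with hd0 | hemp
  · have h1 := mul_le_mul_of_nonneg_left hgB hd0
    calc p * Sf adj b (fun x => F (x, z0)) (fun x => F (x, z0)) + g ≤ 2 * B + (4 * d + 1) * g := by
          linarith
      _ ≤ 2 * B + (4 * d + 1) * (B / μ) := by linarith
      _ = (2 + (4 * d + 1) / μ) * B := by ring
  · have hg0 : g = 0 := by rw [hg]; simp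
    have hB0 : B = 0 := by rw [hBeq, hT1, hT2, hT3]; simp
    have hS0 : Sf adj b (fun x => F (x, z0)) (fun x => F (x, z0)) = 0 := by rw [Sf]; simp
    rw [hg0, hB0, hS0]; simp

end Pool.H102.DM
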