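import Pool.Agent.H102R3.DPTrace

set_option autoImplicit false
set_option linter.unusedSectionVars false

/-!
# Pointwise bounds and Cheeger's inequality in finite volume
-/

namespace Pool.H102.DP

open Finset

variable {U : Type} [Fintype U] [DecidableEq U]
  (adj : U → U → Prop) (hadj : ∀ x y, adj x y → adj y x) (b : U → ℝ) (hb : ∀ x, 0 ≤ b x) (μ p : ℝ)

include hb in
theorem Sf_nonneg (f : U → ℝ) : 0 ≤ Sf adj b f f := by
  classical
  refine add_nonneg (Finset.sum_nonneg fun x _ => mul_nonneg (hb x) (mul_self_nonneg _)) ?_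
  refine mul_nonneg (by norm_num) (Finset.sum_nonneg fun x _ => Finset.sum_nonneg fun y _ => ?_)
  split_ifs
  · exact mul_self_nonneg _
  · exact le_rfl

include hb in
theorem Bf_nonneg (hμ : 0 ≤ μ) (F : U × Conf U → ℝ) : 0 ≤ Bf adj b μ p F F := by
  classical
  refine add_nonneg (add_nonneg ?_ ?_) ?_
  · exact Finset.sum_nonneg fun x _ => Finset.sum_nonneg fun ξ _ =>
      mul_nonneg (hb x) (mul_self_nonneg _)
  · exact mul_nonneg hμ (Finset.sum_nonneg fun x _ => Finset.sum_nonneg fun ξ _ =>
      mul_nonneg (cnt_nonneg ξ) (mul_self_nonneg _))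
  · refine mul_nonneg (by norm_num) (Finset.sum_nonneg fun x _ => Finset.sum_nonneg fun y _ => ?_)
    split_ifs
    · exact Finset.sum_nonneg fun ξ _ => mul_self_nonneg _
    · exact le_rfl

include hadj in
theorem annealed_decay (hp : 0 ≤ p) (hp1 : p ≤ 1) (κ0 : ℝ)
    (hκ : ∀ F, κ0 * ip F F ≤ Bf adj b μ p F F) (t : ℝ) (ht : 0 ≤ t) (x : U) :
    annealed adj b μ p t x x ≤ Real.exp (-(κ0 * t)) := by
  obtain ⟨E⟩ := exists_eb (rgen adj b μ p) (rgen_symm adj hadj b μ p)
  rw [annealed_spec adj b μ p hp hp1 t E]
  have h1 : ∀ k, E.l k ≤ -κ0 := by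
    intro k
    have h2 := form_eq adj hadj b μ p (E.w k) (E.w k)
    rw [E.eig, ip_smul_right, E.norm, mul_one] at h2
    have h3 := hκ (E.w k)
    rw [E.norm] at h3
    linarith
  have h2 : ∑ k, (E.w k (x, z0)) ^ 2 = 1 := by
    have h2 := E.parseval (emb (Pi.single x 1)) (emb (Pi.single x 1))
    have h3 : ∀ k, ip (E.w k) (emb (Pi.single x 1)) = E.w k (x, z0) := by
      intro k
      rw [ip_comm, ip_emb, ip_single_left]
    rw [ip_emb, ip_single_left] at h2
    simp only [h3] at h2
    have h4 : emb (Pi.single x (1:ℝ)) (x, (z0 : Conf U)) = 1 := by simp [emb]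
    rw [h4] at h2
    rw [h2]
    exact Finset.sum_congr rfl fun k _ => by ring
  calc ∑ k, Real.exp (t * E.l k) * (E.w k (x, z0)) ^ 2
      ≤ ∑ k, Real.exp (-(κ0 * t)) * (E.w k (x, z0)) ^ 2 := by
        refine Finset.sum_le_sum fun k _ => mul_le_mul_of_nonneg_right (Real.exp_le_exp.2 ?_) (sq_nonneg _)
        have := mul_le_mul_of_nonneg_left (h1 k) ht
        linarith
    _ = Real.exp (-(κ0 * t)) := by rw [← Finset.mul_sum, h2, mul_one]

include hadj in
theorem plain_decay (κ0 : ℝ)
    (hκ : ∀ f, κ0 * ip f f ≤ Sf adj b f f) (t : ℝ) (ht : 0 ≤ t) (x : U) :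
    plain adj b t x x ≤ Real.exp (-(κ0 * t)) := by
  obtain ⟨E⟩ := exists_eb (lapl adj b) (lapl_symm adj hadj b)
  rw [plain_spec adj b t E]
  have h1 : ∀ k, E.l k ≤ -κ0 := by
    intro k
    have h2 := lapl_form adj hadj b (E.w k) (E.w k)
    rw [E.eig, ip_smul_right, E.norm, mul_one] at h2
    have h3 := hκ (E.w k)
    rw [E.norm] at h3
    linarith
  have h2 : ∑ k, (E.w k x) ^ 2 = 1 := by
    have h2 := E.parseval (Pi.single x 1) (Pi.single x 1)
    have h3 : ∀ k, ip (E.w k) (Pi.single x 1) = E.w k x := by
      intro k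
      rw [ip_comm, ip_single_left]
    rw [ip_single_left] at h2
    simp only [h3, Pi.single_eq_same] at h2
    rw [h2]
    exact Finset.sum_congr rfl fun k _ => by ring
  calc ∑ k, Real.exp (t * E.l k) * (E.w k x) ^ 2
      ≤ ∑ k, Real.exp (-(κ0 * t)) * (E.w k x) ^ 2 := by
        refine Finset.sum_le_sum fun k _ => mul_le_mul_of_nonneg_right (Real.exp_le_exp.2 ?_) (sq_nonneg _)
        have := mul_le_mul_of_nonneg_left (h1 k) ht
        linarith
    _ = Real.exp (-(κ0 * t)) := by rw [← Finset.mul_sum, h2, mul_one]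

include hadj hb in
theorem plain_anti (s t : ℝ) (hst : s ≤ t) (x : U) :
    plain adj b t x x ≤ plain adj b s x x := by
  obtain ⟨E⟩ := exists_eb (lapl adj b) (lapl_symm adj hadj b)
  rw [plain_spec adj b t E, plain_spec adj b s E]
  refine Finset.sum_le_sum fun k _ => mul_le_mul_of_nonneg_right (Real.exp_le_exp.2 ?_) (sq_nonneg _)
  have h2 := lapl_form adj hadj b (E.w k) (E.w k)
  rw [E.eig, ip_smul_right, E.norm, mul_one] at h2
  have h3 := Sf_nonneg adj b hb (E.w k)
  have h4 : E.l k ≤ 0 := by linarith
  nlinarith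

open Classical in
include hadj in
theorem Sf_single (hirr : ∀ x, ¬ adj x x) (x : U) :
    Sf adj b (Pi.single x 1) (Pi.single x 1) = b x + ∑ y, (if adj x y then (1:ℝ) else 0) := by
  have h1 := lapl_form adj hadj b (Pi.single x 1) (Pi.single x 1)
  rw [ip_single_left] at h1
  have h2 : lapl adj b (Pi.single x 1) x = - (b x + ∑ y, (if adj x y then (1:ℝ) else 0)) := by
    simp only [lapl, LinearMap.coe_mk, AddHom.coe_mk, Pi.single_eq_same]
    have h3 : ∀ y, (if adj x y then (Pi.single x (1:ℝ) : U → ℝ) y - 1 else 0) =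
        - (if adj x y then (1:ℝ) else 0) := by
      intro y
      by_cases h : adj x y
      · have hne : y ≠ x := by rintro rfl; exact hirr y h
        rw [if_pos h, if_pos h, Pi.single_eq_of_ne hne]; ring
      · rw [if_neg h, if_neg h, neg_zero]
    rw [Finset.sum_congr rfl (fun y _ => h3 y), Finset.sum_neg_distrib]
    ring
  linarith

open Classical in
include hadj in
theorem annealed_lower (hp : 0 ≤ p) (hp1 : p ≤ 1) (hirr : ∀ x, ¬ adj x x) (t : ℝ) (ht : 0 ≤ t)
    (x : U) : Real.exp (-((b x + ∑ y, (if adj x y then (1:ℝ) else 0)) * t)) ≤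
      annealed adj b μ p t x x := by
  obtain ⟨E⟩ := exists_eb (rgen adj b μ p) (rgen_symm adj hadj b μ p)
  rw [annealed_eq adj b μ p t hp hp1]
  have hn : ip (emb (Pi.single x (1:ℝ))) (emb (Pi.single x (1:ℝ))) = 1 := by
    rw [ip_emb, ip_single_left]; simp [emb]
  refine le_trans (Real.exp_le_exp.2 ?_) (E.jensen t _ hn)
  rw [form_eq adj hadj, ← Sf_single adj hadj b hirr x]
  have := mul_le_mul_of_nonneg_left (Bf_emb_le adj b μ p hp hp1 (Pi.single x (1:ℝ))) ht
  linarith

open Classical in
include hadj in
theorem plain_lower (hirr : ∀ x, ¬ adj x x) (t : ℝ)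
    (x : U) : Real.exp (-((b x + ∑ y, (if adj x y then (1:ℝ) else 0)) * t)) ≤
      plain adj b t x x := by
  obtain ⟨E⟩ := exists_eb (lapl adj b) (lapl_symm adj hadj b)
  have h1 : plain adj b t x x = ip (Pi.single x 1) (sg (lapl adj b) t (Pi.single x 1)) := by
    rw [ip_single_left, plain]
    have h2 : (fun z => if z = x then (1:ℝ) else 0) = Pi.single x 1 := by
      funext z
      rw [Pi.single_apply]
    rw [h2]
  rw [h1]
  have hn : ip (Pi.single x (1:ℝ)) (Pi.single x (1:ℝ)) = 1 := by
    rw [ip_single_left]; simp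
  refine le_trans (Real.exp_le_exp.2 ?_) (E.jensen t _ hn)
  rw [lapl_form adj hadj, ← Sf_single adj hadj b hirr x]
  linarith

open Classical in
/-- co-area inequality -/
theorem coarea (h : ℝ)
    (hiso : ∀ A : Finset U, h * A.card ≤ ∑ x ∈ A, (b x + ∑ y, if adj x y ∧ y ∉ A then (1:ℝ) else 0))
    (n : ℕ) : ∀ g : U → ℝ, (∀ x, 0 ≤ g x) → (Finset.univ.filter fun x => g x ≠ 0).card ≤ n →
      h * ∑ x, g x ≤ ∑ x, b x * g x + ∑ x, ∑ y, if adj x y then max (g x - g y) 0 else 0 := by
  induction n with
  | zero =>
    intro g _ hs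
    have h1 : ∀ x, g x = 0 := by
      intro x
      by_contra hx
      have : x ∈ Finset.univ.filter fun x => g x ≠ 0 := Finset.mem_filter.2 ⟨Finset.mem_univ _, hx⟩
      have := Finset.card_pos.2 ⟨x, this⟩
      omega
    simp [h1]
  | succ n ih =>
    intro g hg hs
    set s := Finset.univ.filter fun x => g x ≠ 0 with hsdef
    rcases s.eq_empty_or_nonempty with hse | hsn
    · exact ih g hg (by rw [← hsdef, hse]; simp)
    · obtain ⟨x0, hx0, hmin⟩ := Finset.exists_min_image s g hsn
      set m := g x0 with hm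
      have hm0 : 0 < m := lt_of_le_of_ne (hg x0) (Ne.symm (Finset.mem_filter.1 hx0).2)
      let g' : U → ℝ := fun x => if x ∈ s then g x - m else 0
      have hg' : ∀ x, 0 ≤ g' x := by
        intro x
        simp only [g']
        split_ifs with hx
        · linarith [hmin x hx]
        · exact le_rfl
      have hns : ∀ x, x ∉ s → g x = 0 := by
        intro x hx
        by_contra hx'
        exact hx (Finset.mem_filter.2 ⟨Finset.mem_univ _, hx'⟩)
      have hcard : (Finset.univ.filter fun x => g' x ≠ 0).card ≤ n := by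
        have hsub : (Finset.univ.filter fun x => g' x ≠ 0) ⊆ s.erase x0 := by
          intro x hx
          have hx' := (Finset.mem_filter.1 hx).2
          have hxs : x ∈ s := by
            by_contra hcon
            exact hx' (by simp only [g', if_neg hcon])
          refine Finset.mem_erase.2 ⟨?_, hxs⟩
          rintro rfl
          exact hx' (by simp only [g', if_pos hxs]; rw [← hm]; ring)
        have := Finset.card_le_card hsub
        rw [Finset.card_erase_of_mem hx0] at this
        omega
      have hI := ih g' hg' hcard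
      have hA := mul_le_mul_of_nonneg_left (hiso s) hm0.le
      have e1 : ∑ x, g x = m * s.card + ∑ x, g' x := by
        have : ∀ x, g x = (if x ∈ s then m else 0) + g' x := by
          intro x
          simp only [g']
          split_ifs with hx
          · ring
          · rw [hns x hx]; ring
        rw [Finset.sum_congr rfl (fun x _ => this x), Finset.sum_add_distrib]
        simp [mul_comm]
      have e2 : ∑ x, b x * g x = m * ∑ x ∈ s, b x + ∑ x, b x * g' x := by
        have : ∀ x, b x * g x = (if x ∈ s then m * b x else 0) + b x * g' x := by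
          intro x
          simp only [g']
          split_ifs with hx
          · ring
          · rw [hns x hx]; ring
        rw [Finset.sum_congr rfl (fun x _ => this x), Finset.sum_add_distrib, Finset.mul_sum]
        simp
      have e3 : m * ∑ x ∈ s, ∑ y, (if adj x y ∧ y ∉ s then (1:ℝ) else 0) +
          ∑ x, ∑ y, (if adj x y then max (g' x - g' y) 0 else 0) ≤
          ∑ x, ∑ y, (if adj x y then max (g x - g y) 0 else 0) := by
        have h1 : m * ∑ x ∈ s, ∑ y, (if adj x y ∧ y ∉ s then (1:ℝ) else 0) =
            ∑ x, ∑ y, (if x ∈ s ∧ adj x y ∧ y ∉ s then m else 0) := by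
          rw [Finset.mul_sum, ← Finset.sum_subset (Finset.subset_univ s)]
          · refine Finset.sum_congr rfl fun x hx => ?_
            rw [Finset.mul_sum]
            refine Finset.sum_congr rfl fun y _ => ?_
            simp only [hx, true_and]
            split_ifs <;> simp
          · intro x _ hx
            simp [hx]
        rw [h1, ← Finset.sum_add_distrib]
        refine Finset.sum_le_sum fun x _ => ?_
        rw [← Finset.sum_add_distrib]
        refine Finset.sum_le_sum fun y _ => ?_
        by_cases hxy : adj x y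
        · simp only [hxy, if_true, true_and]
          by_cases hx : x ∈ s
          · by_cases hy : y ∈ s
            · simp only [g', hx, hy, if_true, not_true_eq_false, and_false, if_false, zero_add]
              have : g x - m - (g y - m) = g x - g y := by ring
              rw [this]
            · simp only [g', hx, hy, if_true, not_false_eq_true, and_true, if_false]
              rw [hns y hy, sub_zero, sub_zero]
              have h3 := hmin x hx
              rw [max_eq_left (by linarith), max_eq_left (by linarith)]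
              linarith
          · simp only [g', hx, if_false, false_and, zero_add]
            rw [hns x hx]
            split_ifs with hy
            · have h3 := hmin y hy
              rw [max_eq_right (by linarith), max_eq_right (by linarith)]
            · simp [hns y hy]
        · simp [hxy]
      have e4 : ∑ x ∈ s, (b x + ∑ y, if adj x y ∧ y ∉ s then (1:ℝ) else 0) =
          ∑ x ∈ s, b x + ∑ x ∈ s, ∑ y, (if adj x y ∧ y ∉ s then (1:ℝ) else 0) :=
        Finset.sum_add_distrib
      rw [e4] at hA
      rw [e1, e2]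
      nlinarith

open Classical in
include hadj hb in
/-- Cheeger's inequality -/
theorem cheeger (h d : ℝ) (hh : 0 < h) (hd0 : 0 < d)
    (hd : ∀ x, ∑ y, (if adj x y then (1:ℝ) else 0) ≤ d)
    (hiso : ∀ A : Finset U, h * A.card ≤ ∑ x ∈ A, (b x + ∑ y, if adj x y ∧ y ∉ A then (1:ℝ) else 0))
    (f : U → ℝ) : (h / 2) / (1 + 4 * d / h) * ip f f ≤ Sf adj b f f := by
  have h1 := coarea adj b h hiso (Finset.univ.filter fun x => (f x) ^ 2 ≠ 0).card
    (fun x => (f x) ^ 2) (fun x => sq_nonneg _) le_rfl
  set N := ∑ x, (f x) ^ 2 with hN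
  have hN0 : 0 ≤ N := Finset.sum_nonneg fun _ _ => sq_nonneg _
  have hip : ip f f = N := Finset.sum_congr rfl fun _ _ => by ring
  set T1 := ∑ x, b x * (f x) ^ 2 with hT1
  set D := ∑ x, ∑ y, (if adj x y then (f x - f y) * (f x - f y) else 0) with hD
  have hT1n : 0 ≤ T1 := Finset.sum_nonneg fun x _ => mul_nonneg (hb x) (sq_nonneg _)
  have hDn : 0 ≤ D := Finset.sum_nonneg fun x _ => Finset.sum_nonneg fun y _ => by
    split_ifs
    · exact mul_self_nonneg _
    · exact le_rfl
  have hS : Sf adj b f f = T1 + (1/2) * D := by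
    rw [Sf, hT1, hD]
    congr 1
    exact Finset.sum_congr rfl fun _ _ => by ring
  have h2 : ∑ x, ∑ y, (if adj x y then max (f x ^ 2 - f y ^ 2) 0 else 0) ≤
      (2 * d / h) * D + (h / 2) * N := by
    have h3 : ∀ x y, max (f x ^ 2 - f y ^ 2) 0 ≤ (2 * d / h) * ((f x - f y) * (f x - f y)) +
        (h / (4 * d)) * (f x ^ 2 + f y ^ 2) := by
      intro x y
      have hc : (0:ℝ) < 2 * d / h := by positivity
      have hc' : (0:ℝ) < h / (4 * d) := by positivity
      have hmul : (2 * d / h) * (h / (4 * d)) = 1 / 2 := by field_simp; norm_num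
      refine max_le ?_ (add_nonneg (mul_nonneg hc.le (mul_self_nonneg _)) (by positivity))
      set α := 2 * d / h
      set β := h / (4 * d)
      -- (f x - f y) (f x + f y) ≤ α a² + (β/2)·b², with b² ≤ 2 (x² + y²)
      have h4 : f x ^ 2 - f y ^ 2 ≤ α * (f x - f y) ^ 2 + (β / 2) * (f x + f y) ^ 2 := by
        have h5 : 0 ≤ (2 * α * (f x - f y) - (f x + f y)) ^ 2 := sq_nonneg _
        have h6 : 0 < α := hc
        have h7 : α * β = 1/2 := hmul
        have h8 : 0 ≤ (2 * α * (f x - f y) - (f x + f y)) ^ 2 / (4 * α) :=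
          div_nonneg h5 (by linarith)
        have h9 : (2 * α * (f x - f y) - (f x + f y)) ^ 2 / (4 * α) =
            α * (f x - f y) ^ 2 - (f x - f y) * (f x + f y) + (f x + f y) ^ 2 / (4 * α) := by
          field_simp
          ring
        have h10 : (f x + f y) ^ 2 / (4 * α) = (β / 2) * (f x + f y) ^ 2 := by
          have : β = 1 / (2 * α) := by
            field_simp
            linarith
          rw [this]
          field_simp
          norm_num
        rw [h9, h10] at h8
        nlinarith
      have h11 : (β / 2) * (f x + f y) ^ 2 ≤ β * (f x ^ 2 + f y ^ 2) := by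
        have : (f x + f y) ^ 2 ≤ 2 * (f x ^ 2 + f y ^ 2) := by nlinarith [sq_nonneg (f x - f y)]
        nlinarith
      nlinarith
    have h4 : ∑ x, ∑ y, (if adj x y then max (f x ^ 2 - f y ^ 2) 0 else 0) ≤
        (2 * d / h) * D + (h / (4 * d)) * ∑ x, ∑ y, (if adj x y then (f x ^ 2 + f y ^ 2) else 0) := by
      rw [hD, Finset.mul_sum, Finset.mul_sum, ← Finset.sum_add_distrib]
      refine Finset.sum_le_sum fun x _ => ?_
      rw [Finset.mul_sum, Finset.mul_sum, ← Finset.sum_add_distrib]
      refine Finset.sum_le_sum fun y _ => ?_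
      split_ifs
      · exact h3 x y
      · simp
    have h5 : ∑ x, ∑ y, (if adj x y then (f x ^ 2 + f y ^ 2) else 0) ≤ 2 * d * N := by
      have h6 : ∑ x, ∑ y, (if adj x y then f y ^ 2 else 0) =
          ∑ x, ∑ y, (if adj x y then f x ^ 2 else 0) := by
        rw [Finset.sum_comm]
        refine Finset.sum_congr rfl fun x _ => Finset.sum_congr rfl fun y _ => ?_
        by_cases hxy : adj x y
        · rw [if_pos hxy, if_pos (hadj _ _ hxy)]
        · rw [if_neg hxy, if_neg (fun h => hxy (hadj _ _ h))]
      have h7 : ∑ x, ∑ y, (if adj x y then (f x ^ 2 + f y ^ 2) else 0) =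
          ∑ x, ∑ y, (if adj x y then f x ^ 2 else 0) + ∑ x, ∑ y, (if adj x y then f y ^ 2 else 0) := by
        rw [← Finset.sum_add_distrib]
        refine Finset.sum_congr rfl fun x _ => ?_
        rw [← Finset.sum_add_distrib]
        exact Finset.sum_congr rfl fun y _ => by split_ifs <;> simp
      have h8 : ∑ x, ∑ y, (if adj x y then f x ^ 2 else 0) ≤ d * N := by
        rw [hN, Finset.mul_sum]
        refine Finset.sum_le_sum fun x _ => ?_
        have : ∑ y, (if adj x y then f x ^ 2 else 0) =
            (∑ y, (if adj x y then (1:ℝ) else 0)) * f x ^ 2 := by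
          rw [Finset.sum_mul]
          exact Finset.sum_congr rfl fun y _ => by split_ifs <;> simp
        rw [this]
        exact mul_le_mul_of_nonneg_right (hd x) (sq_nonneg _)
      rw [h7, h6]; linarith
    have h9 : (h / (4 * d)) * (2 * d * N) = (h / 2) * N := by field_simp; ring
    have h10 := mul_le_mul_of_nonneg_left h5 (show 0 ≤ h / (4 * d) by positivity)
    linarith
  have h3 : (h / 2) * N ≤ (1 + 4 * d / h) * Sf adj b f f := by
    rw [hS]
    have e1 : (1 + 4 * d / h) * (T1 + (1/2) * D) =
      T1 + (4 * d / h) * T1 + (1/2) * D + (2 * d / h) * D := by ring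
    have e2 : 0 ≤ (4 * d / h) * T1 := by positivity
    rw [e1]
    linarith
  rw [hip, div_mul_eq_mul_div, div_le_iff₀ (by positivity)]
  linarith

end Pool.H102.DP
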