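import Pool.Agent.H102R3.DMDecay
import Pool.Agent.H102R3.DPBounds

set_option autoImplicit false
set_option linter.unusedSectionVars false

/-!
# The mixing estimate for the full process
-/

namespace Pool.H102.DM

open Finset
open Pool.H102.DP (sg sg_hasSum sg_hasSum' sg_intertwine sg_shift sg_mono ip ip_comm ip_single_left ip_smul_left ip_smul_right ip_sum_right ip_self_nonneg EB exists_eb lapl Sf lapl_form lapl_symm Sf_spec Sf_nonneg plain plain_spec plain_trace)

section srw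

variable {U : Type} [Fintype U] [DecidableEq U] (adj : U → U → Prop)
  (hadj : ∀ x y, adj x y → adj y x)

include hadj in
theorem l0_nonpos (E0 : EB (lapl adj (fun _ => 0))) (i : U) : E0.l i ≤ 0 := by
  have h2 := lapl_form adj hadj (fun _ => 0) (E0.w i) (E0.w i)
  rw [E0.eig, ip_smul_right, E0.norm, mul_one] at h2
  have h3 := Sf_nonneg adj (fun _ => 0) (fun _ => le_rfl) (E0.w i)
  linarith

theorem lapl_one : lapl adj (fun _ => 0) (fun _ => (1:ℝ)) = 0 := by
  funext x
  simp [lapl]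

theorem exists_zero [Nonempty U] (E0 : EB (lapl adj (fun _ => 0))) : ∃ i, E0.l i = 0 := by
  by_contra hcon
  push Not at hcon
  have h1 : ∀ i, ip (E0.w i) (fun _ => (1:ℝ)) = 0 := by
    intro i
    have h2 := E0.form (E0.w i) (fun _ => 1)
    rw [lapl_one] at h2
    have h3 : ip (E0.w i) (0 : U → ℝ) = 0 := by simp [ip]
    rw [h3, Finset.sum_eq_single i] at h2
    · rw [E0.norm, one_mul] at h2
      exact (mul_eq_zero.1 h2.symm).resolve_left (hcon i)
    · intro j _ hj; rw [E0.orth _ _ hj]; ring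
    · intro h; exact absurd (Finset.mem_univ _) h
  have h2 := E0.expand (fun _ => (1:ℝ))
  simp only [h1, zero_smul, Finset.sum_const_zero] at h2
  obtain ⟨x⟩ := ‹Nonempty U›
  have := congrFun h2 x
  simp at this

include hadj in
/-- sharpening of the trace bound -/
theorem trace_cube [Nonempty U] (E0 : EB (lapl adj (fun _ => 0))) (R T : ℝ) (hR : 0 ≤ R)
    (h : ∑ i, Real.exp (R * E0.l i) - 1 ≤ 1 / 4) (hT : 3 * R ≤ T) :
    ∑ i, Real.exp (T * E0.l i) ≤ 1 + 1 / 64 := by
  classical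
  obtain ⟨i0, hi0⟩ := exists_zero adj E0
  have h1 : ∀ t : ℝ, ∑ i, Real.exp (t * E0.l i) =
      1 + ∑ i ∈ Finset.univ.erase i0, Real.exp (t * E0.l i) := by
    intro t
    rw [← Finset.add_sum_erase _ _ (Finset.mem_univ i0), hi0]
    simp
  rw [h1] at h ⊢
  set s := ∑ i ∈ Finset.univ.erase i0, Real.exp (R * E0.l i) with hs
  have hs0 : 0 ≤ s := Finset.sum_nonneg fun i _ => Real.exp_nonneg _
  have hs1 : s ≤ 1 / 4 := by linarith
  have h2 : ∑ i ∈ Finset.univ.erase i0, Real.exp (T * E0.l i) ≤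
      ∑ i ∈ Finset.univ.erase i0, Real.exp (R * E0.l i) * (s * s) := by
    refine Finset.sum_le_sum fun i hi => ?_
    have h3 : Real.exp (R * E0.l i) ≤ s :=
      Finset.single_le_sum (f := fun i => Real.exp (R * E0.l i))
        (fun i _ => Real.exp_nonneg _) hi
    have h4 : Real.exp (T * E0.l i) ≤ Real.exp (R * E0.l i) *
        (Real.exp (R * E0.l i) * Real.exp (R * E0.l i)) := by
      rw [← Real.exp_add, ← Real.exp_add]
      refine Real.exp_le_exp.2 ?_
      have := l0_nonpos adj hadj E0 i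
      nlinarith
    refine h4.trans (mul_le_mul_of_nonneg_left ?_ (Real.exp_nonneg _))
    exact mul_le_mul h3 h3 (Real.exp_nonneg _) hs0
  rw [← Finset.sum_mul] at h2
  have h5 : s * (s * s) ≤ 1 / 64 := by
    have : s * s ≤ 1 / 16 := by nlinarith
    nlinarith [mul_nonneg hs0 hs0]
  linarith

end srw

variable {U I : Type} [Fintype U] [DecidableEq U] [Fintype I] [DecidableEq I]

variable (ed : U → U → I) (adj : U → U → Prop) (μ p : ℝ)

open Classical in
theorem mixing_core [Nonempty U] (hp : 0 < p) (hp1 : p < 1) (hμ : 0 < μ)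
    (hed : ∀ x y, ed x y = ed y x) (hadj : ∀ x y, adj x y → adj y x)
    (htr : ∀ x y : U, ∃ g : Aut ed adj, g.φ x = y) (d c : ℝ)
    (hd : ∀ x, ∑ y, (if adj x y then (1:ℝ) else 0) ≤ d)
    (hc0 : 0 ≤ c) (hc : c * (2 + (4 * d + 1) / μ) ≤ 1)
    (E0 : EB (lapl adj (fun _ => 0))) (R : ℝ) (hR : 0 ≤ R)
    (hE0 : ∑ i, Real.exp (R * E0.l i) - 1 ≤ 1 / 4)
    (s1 s2 t : ℝ) (hs1 : 0 ≤ s1) (hs2 : 0 ≤ s2) (ht : 0 ≤ t)
    (h1 : Fintype.card I * (Real.exp (-(μ * s1)) / (p * (1 - p))) ≤ 1 / 2)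
    (h2 : 2 * Fintype.card U * Real.exp (-(c * s2)) ≤ 1)
    (h3 : 3 * R ≤ 2 * t * (c * p))
    (h4 : Real.exp (-(c * t)) *
        (Fintype.card U * (1 + Real.exp (-(μ * t))) ^ Fintype.card I) ≤ 1 / 32)
    (z w : U × Cf I) :
    |Fintype.card U * qq ed adj μ p (2 * (s1 + s2 + t)) z w - 1| ≤ 1 / 4 := by
  have hn : (0:ℝ) < Fintype.card U := by
    have : 0 < Fintype.card U := Fintype.card_pos
    exact_mod_cast this
  have hcoer : ∀ F : U × Cf I → ℝ,
      (c * p) * Sf adj (fun _ => 0) (fun x => F (x, z0)) (fun x => F (x, z0)) +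
      c * ∑ x, gn F x ≤ Bf ed adj (fun _ => 0) μ p F F := by
    intro F
    have e1 := coercive ed adj hadj (fun _ => 0) (fun _ => le_rfl) μ p d hμ hp.le hp1.le hd F
    have e2 : 0 ≤ Bf ed adj (fun _ => 0) μ p F F := by
      refine add_nonneg (add_nonneg ?_ ?_) ?_
      · exact Finset.sum_nonneg fun x _ => Finset.sum_nonneg fun ξ _ => by simp
      · exact mul_nonneg hμ.le (Finset.sum_nonneg fun x _ => Finset.sum_nonneg fun ξ _ =>
          mul_nonneg (cnt_nonneg ξ) (mul_self_nonneg _))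
      · refine mul_nonneg (by norm_num) (Finset.sum_nonneg fun x _ => Finset.sum_nonneg fun y _ => ?_)
        split_ifs
        · exact Finset.sum_nonneg fun ξ _ => mul_self_nonneg _
        · exact le_rfl
    have e3 := mul_le_mul_of_nonneg_left e1 hc0
    have e4 := mul_le_mul_of_nonneg_right hc e2
    calc _ = c * (p * Sf adj (fun _ => 0) (fun x => F (x, z0)) (fun x => F (x, z0)) +
          ∑ x, gn F x) := by ring
      _ ≤ c * ((2 + (4 * d + 1) / μ) * Bf ed adj (fun _ => 0) μ p F F) := e3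
      _ = c * (2 + (4 * d + 1) / μ) * Bf ed adj (fun _ => 0) μ p F F := by ring
      _ ≤ 1 * Bf ed adj (fun _ => 0) μ p F F := e4
      _ = _ := one_mul _
  obtain ⟨E⟩ := exists_eb (rgen ed adj (fun _ => 0) μ p) (rgen_symm ed adj hed hadj (fun _ => 0) μ p)
  have htr1 := trace_upper ed adj (fun _ => 0) μ p (fun _ => le_rfl) E E0 hed hadj (c * p) c hcoer t ht
  have htr2 := trace_cube adj hadj E0 R (2 * t * (c * p)) hR hE0 h3
  have htr3 : ∑ k, Real.exp (2 * t * E.l k) - 1 ≤ 1 / 16 := by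
    have : (1:ℝ) / 64 + 1 / 32 ≤ 1 / 16 := by norm_num
    linarith
  have hdt := dd_trace ed adj μ p hed hadj hp hp1 t E
  have hkey : ∀ z, hh ed adj μ p (s1 + s2 + t) z ≤ 1 / 2 := by
    intro z
    have e1 := hh_sub ed adj μ p hed hadj hp hp1 hμ.le (s1 + s2) t (by linarith) z
    rw [← ker_apply] at e1
    have e2 := smoothing ed adj μ p hp hp1 hμ.le hed hadj htr (c * p) c hcoer
      (hh ed adj μ p t) (fun g z => g.hh_act hed hadj μ p t hp hp1 z) s1 s2 hs1 hs2 h1 h2 z
    refine e1.trans (e2.trans ?_)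
    have e3 : ∑ w : U × Cf I, bern p w.2 * hh ed adj μ p t w ^ 2 =
        Fintype.card U * (∑ k, Real.exp (2 * t * E.l k) - 1) := by
      rw [← hdt]
      refine Finset.sum_congr rfl fun w _ => ?_
      unfold hh
      rw [Real.sq_sqrt (dd_nonneg ed adj μ p t w)]
    rw [e3, mul_div_assoc, mul_comm (Fintype.card U : ℝ), div_mul_cancel₀ _ hn.ne']
    have e4 : √(∑ k, Real.exp (2 * t * E.l k) - 1) ≤ 1 / 4 := by
      rw [show (1:ℝ) / 4 = √(1 / 16) from by
        rw [show (1:ℝ) / 16 = (1 / 4) ^ 2 from by norm_num, Real.sqrt_sq (by norm_num)]]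
      exact Real.sqrt_le_sqrt htr3
    linarith
  refine (dist_le ed adj μ p hed hadj (s1 + s2 + t) z w).trans ?_
  calc hh ed adj μ p (s1 + s2 + t) z * hh ed adj μ p (s1 + s2 + t) w ≤ (1 / 2) * (1 / 2) :=
        mul_le_mul (hkey z) (hkey w) (hh_nonneg ed adj μ p _ w) (by norm_num)
    _ = 1 / 4 := by norm_num

end Pool.H102.DM
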