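import Pool.Agent.H102R3.DMDist

set_option autoImplicit false
set_option linter.unusedSectionVars false

/-!
# Decay on invariant functions, pointwise bounds for the transition probabilities
-/

namespace Pool.H102.DM

open Finset
open Pool.H102.DP (sg sg_hasSum sg_hasSum' sg_intertwine sg_shift sg_mono ip ip_comm ip_single_left ip_smul_left ip_smul_right ip_sum_right ip_self_nonneg EB exists_eb lapl Sf lapl_form lapl_symm Sf_spec)

variable {U I : Type} [Fintype U] [DecidableEq U] [Fintype I] [DecidableEq I]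

variable (ed : U → U → I) (adj : U → U → Prop) (μ p : ℝ)

/-- spectral decay without vacuum part -/
theorem decay (hed : ∀ x y, ed x y = ed y x) (hadj : ∀ x y, adj x y → adj y x) (a c : ℝ)
    (hc : ∀ F : U × Cf I → ℝ, a * Sf adj (fun _ => 0) (fun x => F (x, z0)) (fun x => F (x, z0)) +
      c * ∑ x, gn F x ≤ Bf ed adj (fun _ => 0) μ p F F) (H : U × Cf I → ℝ)
    (hH : ∀ t : ℝ, 0 ≤ t → ∀ x, sg (rgen ed adj (fun _ => 0) μ p) t H (x, z0) = 0)
    (t : ℝ) (ht : 0 ≤ t) :
    ip (sg (rgen ed adj (fun _ => 0) μ p) t H) (sg (rgen ed adj (fun _ => 0) μ p) t H) ≤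
      Real.exp (-(2 * c * t)) * ip H H := by
  obtain ⟨E⟩ := exists_eb (rgen ed adj (fun _ => 0) μ p) (rgen_symm ed adj hed hadj (fun _ => 0) μ p)
  set A := rgen ed adj (fun _ => 0) μ p with hA
  have hcoef : ∀ (t : ℝ) (k : U × Cf I), ip (E.w k) (sg A t H) = Real.exp (t * E.l k) * ip (E.w k) H := by
    intro t k
    rw [E.sg_form, Finset.sum_eq_single k]
    · rw [E.norm, one_mul]
    · intro j _ hj; rw [E.orth _ _ hj]; ring
    · intro h; exact absurd (Finset.mem_univ _) h
  have hnorm : ∀ t, ip (sg A t H) (sg A t H) =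
      ∑ k, Real.exp (2 * t * E.l k) * (ip (E.w k) H) ^ 2 := by
    intro t
    rw [E.parseval]
    refine Finset.sum_congr rfl fun k _ => ?_
    rw [hcoef]
    have : Real.exp (2 * t * E.l k) = Real.exp (t * E.l k) * Real.exp (t * E.l k) := by
      rw [← Real.exp_add]; congr 1; ring
    rw [this]; ring
  have hform : ∀ t, 0 ≤ t → ∑ k, (E.l k + c) * (Real.exp (2 * t * E.l k) * (ip (E.w k) H) ^ 2) ≤ 0 := by
    intro t ht
    have h1 := hc (sg A t H)
    have h2 := norm_split (sg A t H)
    have h3 : ∀ x, sg A t H (x, z0) = 0 := hH t ht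
    have h4 : Sf adj (fun _ => (0:ℝ)) (fun x => sg A t H (x, z0)) (fun x => sg A t H (x, z0)) = 0 := by
      simp only [h3]
      simp [Sf]
    simp only [h3] at h2
    rw [h4, mul_zero, zero_add] at h1
    rw [zero_pow two_ne_zero, Finset.sum_const_zero, zero_add] at h2
    rw [← h2, hnorm, Bf_spec ed adj (fun _ => 0) μ p E hed hadj] at h1
    have h5 : ∑ k, (-E.l k) * ip (E.w k) (sg A t H) ^ 2 =
        - ∑ k, E.l k * (Real.exp (2 * t * E.l k) * (ip (E.w k) H) ^ 2) := by
      rw [← Finset.sum_neg_distrib]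
      refine Finset.sum_congr rfl fun k _ => ?_
      rw [hcoef]
      have : Real.exp (2 * t * E.l k) = Real.exp (t * E.l k) * Real.exp (t * E.l k) := by
        rw [← Real.exp_add]; congr 1; ring
      rw [this]; ring
    rw [h5, Finset.mul_sum] at h1
    simp only [add_mul, Finset.sum_add_distrib]
    linarith
  -- the function g
  let g : ℝ → ℝ := fun t => ∑ k, Real.exp (2 * t * (E.l k + c)) * (ip (E.w k) H) ^ 2
  have hder : ∀ t, HasDerivAt g (∑ k, (2 * (E.l k + c)) * (Real.exp (2 * t * (E.l k + c)) *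
      (ip (E.w k) H) ^ 2)) t := by
    intro t
    have h1 : ∀ k ∈ (Finset.univ : Finset (U × Cf I)),
        HasDerivAt (fun t => Real.exp (2 * t * (E.l k + c)) * (ip (E.w k) H) ^ 2)
          ((2 * (E.l k + c)) * (Real.exp (2 * t * (E.l k + c)) * (ip (E.w k) H) ^ 2)) t := by
      intro k _
      have h2 : HasDerivAt (fun t : ℝ => 2 * t * (E.l k + c)) (2 * (E.l k + c)) t := by
        have := ((hasDerivAt_id t).const_mul 2).mul_const (E.l k + c)
        simpa using this
      have h3 := (h2.exp).mul_const ((ip (E.w k) H) ^ 2)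
      refine h3.congr_deriv ?_
      ring
    exact HasDerivAt.fun_sum h1
  have hanti : AntitoneOn g (Set.Ici 0) := by
    refine antitoneOn_of_deriv_nonpos (convex_Ici 0)
      (fun t _ => (hder t).continuousAt.continuousWithinAt)
      (fun t _ => (hder t).differentiableAt.differentiableWithinAt) (fun t ht => ?_)
    rw [interior_Ici] at ht
    rw [(hder t).deriv]
    have h1 := hform t (le_of_lt ht)
    have h2 : ∑ k, (2 * (E.l k + c)) * (Real.exp (2 * t * (E.l k + c)) * (ip (E.w k) H) ^ 2) =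
        (2 * Real.exp (2 * t * c)) *
          ∑ k, (E.l k + c) * (Real.exp (2 * t * E.l k) * (ip (E.w k) H) ^ 2) := by
      rw [Finset.mul_sum]
      refine Finset.sum_congr rfl fun k _ => ?_
      have : Real.exp (2 * t * (E.l k + c)) = Real.exp (2 * t * c) * Real.exp (2 * t * E.l k) := by
        rw [← Real.exp_add]; congr 1; ring
      rw [this]; ring
    rw [h2]
    exact mul_nonpos_of_nonneg_of_nonpos (by positivity) h1
  have h1 := hanti (Set.mem_Ici.2 le_rfl) (Set.mem_Ici.2 ht) ht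
  have h2 : g 0 = ip H H := by
    show ∑ k, Real.exp (2 * 0 * (E.l k + c)) * (ip (E.w k) H) ^ 2 = _
    rw [E.parseval]
    refine Finset.sum_congr rfl fun k _ => ?_
    simp
    ring
  have h3 : g t = Real.exp (2 * c * t) * ip (sg A t H) (sg A t H) := by
    rw [hnorm, Finset.mul_sum]
    refine Finset.sum_congr rfl fun k _ => ?_
    have : Real.exp (2 * t * (E.l k + c)) = Real.exp (2 * c * t) * Real.exp (2 * t * E.l k) := by
      rw [← Real.exp_add]; congr 1; ring
    rw [this]; ring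
  rw [h2, h3] at h1
  have h4 : Real.exp (-(2 * c * t)) * Real.exp (2 * c * t) = 1 := by
    rw [← Real.exp_add]; simp
  calc ip (sg A t H) (sg A t H) = Real.exp (-(2 * c * t)) * (Real.exp (2 * c * t) *
      ip (sg A t H) (sg A t H)) := by rw [← mul_assoc, h4, one_mul]
    _ ≤ _ := mul_le_mul_of_nonneg_left h1 (Real.exp_nonneg _)

theorem abs_xx_mul (hp : 0 < p) (hp1 : p < 1) (a b : Bool) :
    xx p true a * xx p true b ≤ 1 / (p * (1 - p)) ∧ -1 ≤ xx p true a * xx p true b := by
  have hq : 0 < 1 - p := by linarith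
  have hs : 0 < √p := Real.sqrt_pos.2 hp
  have hc : 0 < √(1 - p) := Real.sqrt_pos.2 hq
  have h1 : √p * √p = p := Real.mul_self_sqrt hp.le
  have h2 : √(1 - p) * √(1 - p) = 1 - p := Real.mul_self_sqrt hq.le
  have hpq : 0 < p * (1 - p) := mul_pos hp hq
  have hbig : 1 ≤ 1 / (p * (1 - p)) := by
    rw [le_div_iff₀ hpq]; nlinarith
  cases a <;> cases b <;> simp only [xx]
  · have e : √p / √(1 - p) * (√p / √(1 - p)) = p / (1 - p) := by
      rw [div_mul_div_comm, h1, h2]
    rw [e]
    refine ⟨?_, by have := div_pos hp hq; linarith⟩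
    rw [div_le_div_iff₀ hq hpq]; nlinarith
  · have e : √p / √(1 - p) * -(√(1 - p) / √p) = -1 := by field_simp
    rw [e]; exact ⟨by linarith, le_rfl⟩
  · have e : -(√(1 - p) / √p) * (√p / √(1 - p)) = -1 := by field_simp
    rw [e]; exact ⟨by linarith, le_rfl⟩
  · have e : -(√(1 - p) / √p) * -(√(1 - p) / √p) = (1 - p) / p := by
      rw [neg_mul_neg, div_mul_div_comm, h1, h2]
    rw [e]
    refine ⟨?_, by have := div_pos hq hp; linarith⟩
    rw [div_le_div_iff₀ hp hpq]; nlinarith

/-- probability that the environment is in a given state -/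
theorem env_prob (hp : 0 < p) (hp1 : p < 1) (s : ℝ) (z : U × Cf I) (η' : Cf I) :
    sg (gen ed adj (fun _ => 0) μ p) s (fun w => if w.2 = η' then 1 else 0) z =
      ∏ e, ((if η' e = true then p else 1 - p) *
        (1 + Real.exp (-(μ * s)) * (xx p true (z.2 e) * xx p true (η' e)))) := by
  rw [sg_gen_eq ed adj μ p hp hp1]
  have h1 : hat p (fun w : U × Cf I => if w.2 = η' then (1:ℝ) else 0) = fun w => chi p w.2 η' := by
    funext w
    show ∑ η, chi p w.2 η * (if η = η' then (1:ℝ) else 0) = _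
    simp
  rw [h1, ip_uu]
  have h2 : ∀ ξ : Cf I, X p ξ z.2 * sg (rgen ed adj (fun _ => 0) μ p) s (fun w => chi p w.2 η') (z.1, ξ) =
      ∏ e, (fun e c => xx p c (z.2 e) * (if c = true then Real.exp (-(μ * s)) else 1) * κ p c (η' e))
        e (ξ e) := by
    intro ξ
    rw [sg_indep ed adj μ p (fun ξ => chi p ξ η')]
    have h3 : Real.exp (s * (-(μ * cnt ξ))) = ∏ e, (if ξ e = true then Real.exp (-(μ * s)) else 1) := by
      have : s * (-(μ * cnt ξ)) = ∑ e, (if ξ e = true then -(μ * s) else 0) := by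
        rw [cnt, Finset.mul_sum, ← Finset.sum_neg_distrib, Finset.mul_sum]
        refine Finset.sum_congr rfl fun e _ => ?_
        split_ifs <;> ring
      rw [this, Real.exp_sum]
      refine Finset.prod_congr rfl fun e _ => ?_
      split_ifs <;> simp
    show X p ξ z.2 * (Real.exp (s * (-(μ * cnt ξ))) * chi p ξ η') = _
    rw [h3]
    unfold X chi
    rw [← Finset.prod_mul_distrib, ← Finset.prod_mul_distrib]
    refine Finset.prod_congr rfl fun e _ => ?_
    simp only
    ring
  rw [Finset.sum_congr rfl (fun ξ _ => h2 ξ)]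
  have h4 : ∑ ξ : Cf I, ∏ e, (fun e c => xx p c (z.2 e) *
      (if c = true then Real.exp (-(μ * s)) else 1) * κ p c (η' e)) e (ξ e) =
      ∏ e : I, ∑ c : Bool, (fun e c => xx p c (z.2 e) *
      (if c = true then Real.exp (-(μ * s)) else 1) * κ p c (η' e)) e c := by
    rw [Finset.prod_univ_sum, Fintype.piFinset_univ]
  rw [h4]
  refine Finset.prod_congr rfl fun e _ => ?_
  rw [Fintype.sum_bool]
  simp only [if_true, Bool.false_eq_true, if_false]
  rw [kappa_xx p hp hp1 true, kappa_xx p hp hp1 false]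
  have h5 : ∀ a, xx p false a = 1 := fun _ => rfl
  rw [h5, h5]
  ring

theorem ker_le (hp : 0 < p) (hp1 : p < 1) (hμ : 0 ≤ μ) (s : ℝ) (hs : 0 ≤ s)
    (hs1 : Fintype.card I * (Real.exp (-(μ * s)) / (p * (1 - p))) ≤ 1 / 2) (z w : U × Cf I) :
    ker ed adj μ p s z w ≤ 2 * bern p w.2 := by
  have hq : 0 < 1 - p := by linarith
  have hpq : 0 < p * (1 - p) := mul_pos hp hq
  have h1 : ker ed adj μ p s z w ≤
      sg (gen ed adj (fun _ => 0) μ p) s (fun v => if v.2 = w.2 then 1 else 0) z := by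
    rw [ker_apply]
    have h2 := Finset.single_le_sum (f := fun v : U × Cf I => ker ed adj μ p s z v *
      (if v.2 = w.2 then (1:ℝ) else 0)) (fun v _ => mul_nonneg
        (ker_nonneg ed adj μ p hμ hp.le hp1.le s hs z v) (by split_ifs <;> norm_num))
        (Finset.mem_univ w)
    simp only [if_true, mul_one] at h2
    exact h2
  refine h1.trans ?_
  rw [env_prob ed adj μ p hp hp1, Finset.prod_mul_distrib]
  have hE : Real.exp (-(μ * s)) ≤ 1 := Real.exp_le_one_iff.2 (by have := mul_nonneg hμ hs; linarith)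
  have hE0 : 0 < Real.exp (-(μ * s)) := Real.exp_pos _
  set ε := Real.exp (-(μ * s)) / (p * (1 - p)) with hε
  have hε0 : 0 ≤ ε := by positivity
  have h3 : ∏ e, (1 + Real.exp (-(μ * s)) * (xx p true (z.2 e) * xx p true (w.2 e))) ≤
      ∏ _e : I, (1 + ε) := by
    refine Finset.prod_le_prod (fun e _ => ?_) (fun e _ => ?_)
    · have := (abs_xx_mul p hp hp1 (z.2 e) (w.2 e)).2
      nlinarith
    · have := (abs_xx_mul p hp hp1 (z.2 e) (w.2 e)).1
      have h4 := mul_le_mul_of_nonneg_left this hE0.le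
      have h5 : Real.exp (-(μ * s)) * (1 / (p * (1 - p))) = ε := by rw [hε]; ring
      linarith
  have h4 : ∏ _e : I, (1 + ε) ≤ 2 := by
    rw [Finset.prod_const, Finset.card_univ]
    have h5 : (1 + ε) ≤ Real.exp ε := by have := Real.add_one_le_exp ε; linarith
    have h6 : (1 + ε) ^ Fintype.card I ≤ Real.exp (Fintype.card I * ε) := by
      rw [Real.exp_nat_mul]
      exact pow_le_pow_left₀ (by linarith) h5 _
    have h7 : Real.exp (Fintype.card I * ε) ≤ Real.exp (1 / 2) := Real.exp_le_exp.2 hs1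
    have h8 : Real.exp (1 / 2) ≤ 2 := by
      have h9 : Real.exp (1 / 2) * Real.exp (1 / 2) = Real.exp 1 := by
        rw [← Real.exp_add]; norm_num
      have h10 := Real.exp_one_lt_d9
      have h11 := Real.exp_pos (1 / 2)
      nlinarith
    linarith
  have h5 : 0 ≤ ∏ e, (if w.2 e = true then p else 1 - p) :=
    Finset.prod_nonneg fun e _ => by split_ifs <;> linarith
  have h6 := mul_le_mul_of_nonneg_left (h3.trans h4) h5
  calc _ ≤ (∏ e, (if w.2 e = true then p else 1 - p)) * 2 := h6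
    _ = 2 * bern p w.2 := by rw [bern]; ring

/-- Cauchy-Schwarz for weighted sums -/
theorem wcs {Z : Type} [Fintype Z] (w F : Z → ℝ) (hw : ∀ z, 0 ≤ w z) :
    ∑ z, w z * |F z| ≤ √(∑ z, w z) * √(∑ z, w z * F z ^ 2) := by
  have h1 := Finset.sum_mul_sq_le_sq_mul_sq Finset.univ (fun z => √(w z)) (fun z => √(w z) * |F z|)
  have h2 : ∀ z, √(w z) * (√(w z) * |F z|) = w z * |F z| := fun z => by
    rw [← mul_assoc, Real.mul_self_sqrt (hw z)]
  have h3 : ∀ z, √(w z) ^ 2 = w z := fun z => Real.sq_sqrt (hw z)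
  have h4 : ∀ z, (√(w z) * |F z|) ^ 2 = w z * F z ^ 2 := fun z => by
    rw [mul_pow, h3, sq_abs]
  simp only [h2, h3, h4] at h1
  rw [← Real.sqrt_mul (Finset.sum_nonneg fun z _ => hw z)]
  exact Real.le_sqrt_of_sq_le h1

/-- the main smoothing estimate -/
theorem smoothing [Nonempty U] (hp : 0 < p) (hp1 : p < 1) (hμ : 0 ≤ μ)
    (hed : ∀ x y, ed x y = ed y x) (hadj : ∀ x y, adj x y → adj y x)
    (htr : ∀ x y : U, ∃ g : Aut ed adj, g.φ x = y) (a c : ℝ)
    (hc : ∀ F : U × Cf I → ℝ, a * Sf adj (fun _ => 0) (fun x => F (x, z0)) (fun x => F (x, z0)) +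
      c * ∑ x, gn F x ≤ Bf ed adj (fun _ => 0) μ p F F)
    (h : U × Cf I → ℝ) (hinv : ∀ (g : Aut ed adj) z, h (g.act z) = h z)
    (s1 s2 : ℝ) (hs1 : 0 ≤ s1) (hs2 : 0 ≤ s2)
    (h1 : Fintype.card I * (Real.exp (-(μ * s1)) / (p * (1 - p))) ≤ 1 / 2)
    (h2 : 2 * Fintype.card U * Real.exp (-(c * s2)) ≤ 1) (z : U × Cf I) :
    sg (gen ed adj (fun _ => 0) μ p) (s1 + s2) h z ≤
      2 * √((∑ w : U × Cf I, bern p w.2 * h w ^ 2) / Fintype.card U) := by
  classical
  have hn : (0:ℝ) < Fintype.card U := by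
    have : 0 < Fintype.card U := Fintype.card_pos
    exact_mod_cast this
  have hbp : ∀ η : Cf I, 0 < bern p η := bern_pos p hp hp1
  have hbs : ∑ w : U × Cf I, bern p w.2 = Fintype.card U := by
    rw [Fintype.sum_prod_type]
    simp only
    rw [Finset.sum_congr rfl (fun x _ => bern_sum (I := I) p)]
    simp
  set S := ∑ w : U × Cf I, bern p w.2 * h w ^ 2 with hS
  have hS0 : 0 ≤ S := Finset.sum_nonneg fun w _ => mul_nonneg (hbp _).le (sq_nonneg _)
  set m : ℝ := (∑ w : U × Cf I, bern p w.2 * h w) / Fintype.card U with hm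
  set F : U × Cf I → ℝ := h - fun _ => m with hF
  have hsum : ∑ w : U × Cf I, bern p w.2 * h w = m * Fintype.card U := by
    rw [hm]; field_simp
  have hF0 : ∑ w : U × Cf I, bern p w.2 * F w = 0 := by
    have : ∀ w : U × Cf I, bern p w.2 * F w = bern p w.2 * h w - bern p w.2 * m := fun w => by
      rw [hF]; simp [mul_sub]
    rw [Finset.sum_congr rfl (fun w _ => this w), Finset.sum_sub_distrib, hsum, ← Finset.sum_mul, hbs]
    ring
  have hFS : ∑ w : U × Cf I, bern p w.2 * F w ^ 2 ≤ S := by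
    have h3 : ∀ w : U × Cf I, bern p w.2 * F w ^ 2 =
        bern p w.2 * h w ^ 2 - 2 * m * (bern p w.2 * h w) + bern p w.2 * m ^ 2 := fun w => by
      rw [hF]; simp only [Pi.sub_apply]; ring
    rw [Finset.sum_congr rfl (fun w _ => h3 w), Finset.sum_add_distrib, Finset.sum_sub_distrib,
      ← Finset.mul_sum, hsum, ← Finset.sum_mul, hbs]
    nlinarith [mul_nonneg hn.le (sq_nonneg m)]
  -- invariance
  have hFinv : ∀ (g : Aut ed adj), g.J F = F := by
    intro g
    funext w
    show F (g.act w) = F w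
    rw [hF]
    simp only [Pi.sub_apply]
    rw [hinv g w]
  have hinvt : ∀ (t : ℝ) (g : Aut ed adj) w,
      sg (gen ed adj (fun _ => 0) μ p) t F (g.act w) = sg (gen ed adj (fun _ => 0) μ p) t F w := by
    intro t g w
    rw [g.sg_J, hFinv]
  have hH : ∀ t : ℝ, 0 ≤ t → ∀ x, sg (rgen ed adj (fun _ => 0) μ p) t (hat p F) (x, z0) = 0 := by
    intro t _ x
    have e1 : ∀ x, sg (rgen ed adj (fun _ => 0) μ p) t (hat p F) (x, z0) =
        ∑ η, bern p η * sg (gen ed adj (fun _ => 0) μ p) t F (x, η) := by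
      intro x
      rw [← sg_intertwine (gen ed adj (fun _ => 0) μ p) (rgen ed adj (fun _ => 0) μ p) (hat p)
        (hat_gen ed adj (fun _ => 0) μ p hp.le hp1.le)]
      show ∑ η, chi p z0 η * sg (gen ed adj (fun _ => 0) μ p) t F (x, η) = _
      refine Finset.sum_congr rfl fun η _ => ?_
      congr 1
      exact chi_zero p η
    have e2 : ∀ y, ∑ η, bern p η * sg (gen ed adj (fun _ => 0) μ p) t F (y, η) =
        ∑ η, bern p η * sg (gen ed adj (fun _ => 0) μ p) t F (x, η) := by
      intro y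
      obtain ⟨g, hg⟩ := htr x y
      rw [← hg]
      exact g.avg_act p _ (fun w => hinvt t g w) x
    have e3 : ∑ y, sg (rgen ed adj (fun _ => 0) μ p) t (hat p F) (y, z0) = 0 := by
      have e4 : ip vac (sg (rgen ed adj (fun _ => 0) μ p) t (hat p F)) = ip vac (hat p F) := by
        rw [sg_symm _ (rgen_symm ed adj hed hadj (fun _ => 0) μ p), sg_vac]
      have e5 : ∀ G : U × Cf I → ℝ, ip vac G = ∑ y, G (y, z0) := by
        intro G
        rw [ip_prod]
        refine Finset.sum_congr rfl fun y _ => ?_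
        rw [Finset.sum_eq_single z0]
        · simp [vac]
        · intro ξ _ h; simp [vac, h]
        · intro h; exact absurd (Finset.mem_univ _) h
      rw [e5, e5] at e4
      rw [e4]
      have e6 : ∀ y, hat p F (y, z0) = ∑ η, bern p η * F (y, η) := by
        intro y
        show ∑ η, chi p z0 η * F (y, η) = _
        refine Finset.sum_congr rfl fun η _ => ?_
        congr 1
        exact chi_zero p η
      rw [Finset.sum_congr rfl (fun y _ => e6 y), ← hF0, Fintype.sum_prod_type]
    rw [Finset.sum_congr rfl (fun y _ => e1 y), Finset.sum_congr rfl (fun y _ => e2 y),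
      Finset.sum_const, Finset.card_univ, nsmul_eq_mul] at e3
    rw [e1]
    exact (mul_eq_zero.1 e3).resolve_left hn.ne'
  have hdec := decay ed adj μ p hed hadj a c hc (hat p F) hH s2 hs2
  have hnorm1 : ip (hat p F) (hat p F) = ∑ w : U × Cf I, bern p w.2 * F w ^ 2 := by
    rw [← parseval_uu p hp hp1]
    refine Finset.sum_congr rfl fun w _ => ?_
    rw [ip_uu_hat p hp hp1]; ring
  have hnorm2 : ip (sg (rgen ed adj (fun _ => 0) μ p) s2 (hat p F))
      (sg (rgen ed adj (fun _ => 0) μ p) s2 (hat p F)) =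
      ∑ w : U × Cf I, bern p w.2 * (sg (gen ed adj (fun _ => 0) μ p) s2 F w) ^ 2 := by
    rw [← parseval_uu p hp hp1]
    refine Finset.sum_congr rfl fun w _ => ?_
    rw [← sg_gen_eq ed adj μ p hp hp1]; ring
  rw [hnorm1, hnorm2] at hdec
  set G := sg (gen ed adj (fun _ => 0) μ p) s2 F with hG
  have hG2 : ∑ w : U × Cf I, bern p w.2 * G w ^ 2 ≤ Real.exp (-(2 * c * s2)) * S :=
    hdec.trans (mul_le_mul_of_nonneg_left hFS (Real.exp_nonneg _))
  have hconst : sg (gen ed adj (fun _ => 0) μ p) (s1 + s2) (fun _ => m) = fun _ => m :=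
    sg_kernel_zero _ _ (gen_const ed adj μ p m) _
  have hdecomp : h = F + fun _ => m := by rw [hF]; simp
  have e1 : sg (gen ed adj (fun _ => 0) μ p) (s1 + s2) h z =
      sg (gen ed adj (fun _ => 0) μ p) s1 G z + m := by
    conv_lhs => rw [hdecomp]
    rw [map_add, hconst, sg_add]
    rfl
  have e2 : sg (gen ed adj (fun _ => 0) μ p) s1 G z ≤ 2 * ∑ w : U × Cf I, bern p w.2 * |G w| := by
    rw [ker_apply, Finset.mul_sum]
    refine Finset.sum_le_sum fun w _ => ?_
    have e3 := ker_le ed adj μ p hp hp1 hμ s1 hs1 h1 z w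
    have e4 := ker_nonneg ed adj μ p hμ hp.le hp1.le s1 hs1 z w
    calc ker ed adj μ p s1 z w * G w ≤ ker ed adj μ p s1 z w * |G w| :=
          mul_le_mul_of_nonneg_left (le_abs_self _) e4
      _ ≤ 2 * bern p w.2 * |G w| := mul_le_mul_of_nonneg_right e3 (abs_nonneg _)
      _ = _ := by ring
  have e3 := wcs (fun w : U × Cf I => bern p w.2) G (fun w => (hbp _).le)
  have e4 := wcs (fun w : U × Cf I => bern p w.2) h (fun w => (hbp _).le)
  rw [hbs] at e3 e4
  have e5 : √(∑ w : U × Cf I, bern p w.2 * G w ^ 2) ≤ Real.exp (-(c * s2)) * √S := by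
    refine (Real.sqrt_le_sqrt hG2).trans (le_of_eq ?_)
    rw [Real.sqrt_mul (Real.exp_nonneg _)]
    congr 1
    rw [show Real.exp (-(2 * c * s2)) = Real.exp (-(c * s2)) ^ 2 from by
      rw [← Real.exp_nat_mul]; congr 1; push_cast; ring]
    exact Real.sqrt_sq (Real.exp_nonneg _)
  have e6 : m ≤ √(S / Fintype.card U) := by
    have e7 : ∑ w : U × Cf I, bern p w.2 * h w ≤ √(Fintype.card U) * √S := by
      refine le_trans (Finset.sum_le_sum fun w _ => ?_) e4
      exact mul_le_mul_of_nonneg_left (le_abs_self _) (hbp _).le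
    rw [hm, div_le_iff₀ hn, Real.sqrt_div hS0]
    have e8 : √S / √(Fintype.card U) * Fintype.card U = √(Fintype.card U) * √S := by
      have e9 : √(Fintype.card U : ℝ) ≠ 0 := (Real.sqrt_pos.2 hn).ne'
      rw [div_mul_eq_mul_div, div_eq_iff e9]
      have := Real.mul_self_sqrt hn.le
      calc √S * Fintype.card U = √S * (√(Fintype.card U) * √(Fintype.card U)) := by rw [this]
        _ = _ := by ring
    rw [e8]; exact e7
  have e7 : 2 * (√(Fintype.card U) * (Real.exp (-(c * s2)) * √S)) ≤ √(S / Fintype.card U) := by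
    rw [Real.sqrt_div hS0, le_div_iff₀ (Real.sqrt_pos.2 hn)]
    have e8 := Real.mul_self_sqrt hn.le
    have e9 : 0 ≤ √S := Real.sqrt_nonneg _
    calc 2 * (√(Fintype.card U) * (Real.exp (-(c * s2)) * √S)) * √(Fintype.card U) =
        (2 * (√(Fintype.card U) * √(Fintype.card U)) * Real.exp (-(c * s2))) * √S := by ring
      _ = (2 * Fintype.card U * Real.exp (-(c * s2))) * √S := by rw [e8]
      _ ≤ 1 * √S := mul_le_mul_of_nonneg_right h2 e9
      _ = √S := one_mul _
  have e8 : 2 * ∑ w : U × Cf I, bern p w.2 * |G w| ≤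
      2 * (√(Fintype.card U) * (Real.exp (-(c * s2)) * √S)) := by
    refine mul_le_mul_of_nonneg_left (e3.trans ?_) (by norm_num)
    exact mul_le_mul_of_nonneg_left e5 (Real.sqrt_nonneg _)
  rw [e1]
  linarith

end Pool.H102.DM
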