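import Pool.Agent.H102R3.DMUni

set_option autoImplicit false
set_option linter.unusedSectionVars false

/-!
# Distances to stationarity of the full process
-/

namespace Pool.H102.DM

open Finset
open Pool.H102.DP (sg sg_hasSum sg_hasSum' sg_intertwine sg_shift sg_mono ip ip_comm ip_single_left ip_smul_left ip_smul_right ip_sum_right ip_self_nonneg EB exists_eb lapl Sf lapl_form lapl_symm Sf_spec)

variable {U I : Type} [Fintype U] [DecidableEq U] [Fintype I] [DecidableEq I]

section

variable (ed : U → U → I) (adj : U → U → Prop) (μ p : ℝ)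

theorem rgen_indep (g : Cf I → ℝ) : rgen ed adj (fun _ => 0) μ p (fun w => g w.2) =
    fun w => (-(μ * cnt w.2)) * g w.2 := by
  classical
  funext w
  simp only [rgen, LinearMap.coe_mk, AddHom.coe_mk]
  have h1 : ∀ y, (if adj w.1 y then
      vv p (w.2 (ed w.1 y)) * DD p (ed w.1 y) (fun ξ => g ξ - g ξ) w.2 else 0) = 0 := by
    intro y
    split_ifs
    · simp [DD]
    · rfl
  rw [Finset.sum_congr rfl (fun y _ => h1 y)]
  simp

theorem sg_indep (g : Cf I → ℝ) (t : ℝ) (w : U × Cf I) :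
    sg (rgen ed adj (fun _ => 0) μ p) t (fun w => g w.2) w =
      Real.exp (t * (-(μ * cnt w.2))) * g w.2 := by
  have h1 : ∀ n : ℕ, ((rgen ed adj (fun _ => 0) μ p) ^ n) (fun w => g w.2) =
      fun w => (-(μ * cnt w.2)) ^ n * g w.2 := by
    intro n
    induction n with
    | zero => funext w; simp
    | succ n ih =>
      rw [pow_succ']
      show rgen ed adj (fun _ => 0) μ p (((rgen ed adj (fun _ => 0) μ p) ^ n) (fun w => g w.2)) = _
      rw [ih, rgen_indep ed adj μ p (fun ξ => (-(μ * cnt ξ)) ^ n * g ξ)]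
      funext w
      rw [pow_succ]; ring
  exact sg_eigen _ _ (fun w => -(μ * cnt w.2)) (fun n z => by rw [h1]) t w

/-- the vacuum vector -/
noncomputable def vac : U × Cf I → ℝ := fun w => if w.2 = z0 then 1 else 0

theorem cnt_z0 : cnt (z0 : Cf I) = 0 := by simp [cnt, z0]

theorem sg_vac (t : ℝ) : sg (rgen ed adj (fun _ => 0) μ p) t (vac : U × Cf I → ℝ) = vac := by
  funext w
  have h1 := sg_indep ed adj μ p (fun ξ => if ξ = z0 then 1 else 0) t w
  show sg (rgen ed adj (fun _ => 0) μ p) t (fun w => if w.2 = z0 then 1 else 0) w = _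
  rw [h1]
  show _ = if w.2 = z0 then 1 else 0
  split_ifs with h
  · rw [h, cnt_z0]; simp
  · simp

theorem ip_uu_vac (z : U × Cf I) : ip (uu p z) vac = 1 := by
  rw [ip_uu, Finset.sum_eq_single z0]
  · rw [X_zero]; simp [vac]
  · intro ξ _ h; simp [vac, h]
  · intro h; exact absurd (Finset.mem_univ _) h

theorem ip_vac_vac : ip (vac : U × Cf I → ℝ) vac = Fintype.card U := by
  rw [ip_prod]
  have h1 : ∀ x : U, ∑ ξ : Cf I, (vac : U × Cf I → ℝ) (x, ξ) * vac (x, ξ) = 1 := by
    intro x
    rw [Finset.sum_eq_single z0]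
    · simp [vac]
    · intro ξ _ h; simp [vac, h]
    · intro h; exact absurd (Finset.mem_univ _) h
  rw [Finset.sum_congr rfl (fun x _ => h1 x)]; simp

theorem ip_sub_left (F G H : U × Cf I → ℝ) : ip (F - G) H = ip F H - ip G H := by
  simp [ip, sub_mul, Finset.sum_sub_distrib]

theorem ip_sub_right (F G H : U × Cf I → ℝ) : ip H (F - G) = ip H F - ip H G := by
  rw [ip_comm, ip_sub_left, ip_comm F, ip_comm G]

/-- centred evaluation vectors at time `t` -/
noncomputable def vt (t : ℝ) (z : U × Cf I) : U × Cf I → ℝ :=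
  sg (rgen ed adj (fun _ => 0) μ p) t (uu p z - (Fintype.card U : ℝ)⁻¹ • vac)

/-- squared `L²` distance to stationarity at time `t` -/
noncomputable def dd (t : ℝ) (z : U × Cf I) : ℝ :=
  Fintype.card U * ip (vt ed adj μ p t z) (vt ed adj μ p t z)

noncomputable def hh (t : ℝ) (z : U × Cf I) : ℝ := √(dd ed adj μ p t z)

theorem dd_nonneg (t : ℝ) (z : U × Cf I) : 0 ≤ dd ed adj μ p t z :=
  mul_nonneg (Nat.cast_nonneg _) (ip_self_nonneg _)

theorem hh_nonneg (t : ℝ) (z : U × Cf I) : 0 ≤ hh ed adj μ p t z := Real.sqrt_nonneg _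

variable (hed : ∀ x y, ed x y = ed y x) (hadj : ∀ x y, adj x y → adj y x)

include hed hadj in
theorem qq_sub [Nonempty U] (t : ℝ) (z w : U × Cf I) :
    Fintype.card U * qq ed adj μ p (2 * t) z w - 1 =
      Fintype.card U * ip (vt ed adj μ p t z) (vt ed adj μ p t w) := by
  have hn : (Fintype.card U : ℝ) ≠ 0 := by
    have : 0 < Fintype.card U := Fintype.card_pos
    positivity
  have hsymm := sg_symm _ (rgen_symm ed adj hed hadj (fun _ => 0) μ p)
  have h1 : ip (vt ed adj μ p t z) (vt ed adj μ p t w) =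
      ip (uu p z - (Fintype.card U : ℝ)⁻¹ • vac)
        (sg (rgen ed adj (fun _ => 0) μ p) (2 * t) (uu p w - (Fintype.card U : ℝ)⁻¹ • vac)) := by
    unfold vt
    rw [two_mul, sg_add, ← hsymm]
  have h2 : ip (vac : U × Cf I → ℝ) (sg (rgen ed adj (fun _ => 0) μ p) (2 * t) (uu p w)) = 1 := by
    rw [hsymm, sg_vac, ip_comm, ip_uu_vac]
  rw [h1, map_sub, map_smul, sg_vac, ip_sub_left, ip_sub_right, ip_sub_right, ip_smul_left,
    ip_smul_left, ip_smul_right, ip_smul_right, ip_uu_vac, ip_vac_vac, h2]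
  unfold qq
  field_simp
  ring

include hed hadj in
theorem dd_eq [Nonempty U] (t : ℝ) (z : U × Cf I) :
    dd ed adj μ p t z = Fintype.card U * qq ed adj μ p (2 * t) z z - 1 :=
  (qq_sub ed adj μ p hed hadj t z z).symm

include hed hadj in
theorem dist_le [Nonempty U] (t : ℝ) (z w : U × Cf I) :
    |Fintype.card U * qq ed adj μ p (2 * t) z w - 1| ≤ hh ed adj μ p t z * hh ed adj μ p t w := by
  rw [qq_sub ed adj μ p hed hadj, abs_mul, Nat.abs_cast]
  have h1 := ip_cs (vt ed adj μ p t z) (vt ed adj μ p t w)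
  have hn : (0:ℝ) ≤ Fintype.card U := Nat.cast_nonneg _
  unfold hh dd
  rw [Real.sqrt_mul hn, Real.sqrt_mul hn]
  calc (Fintype.card U : ℝ) * |ip (vt ed adj μ p t z) (vt ed adj μ p t w)| ≤
      Fintype.card U * (√(ip (vt ed adj μ p t z) (vt ed adj μ p t z)) *
        √(ip (vt ed adj μ p t w) (vt ed adj μ p t w))) := mul_le_mul_of_nonneg_left h1 hn
    _ = (√(Fintype.card U) * √(Fintype.card U)) * (√(ip (vt ed adj μ p t z) (vt ed adj μ p t z)) *
        √(ip (vt ed adj μ p t w) (vt ed adj μ p t w))) := by rw [Real.mul_self_sqrt hn]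
    _ = _ := by ring

variable (hp : 0 < p) (hp1 : p < 1)

include hed hadj hp hp1 in
/-- subharmonicity of the `L²` distance -/
theorem hh_sub [Nonempty U] (hμ : 0 ≤ μ) (s t : ℝ) (hs : 0 ≤ s) (z : U × Cf I) :
    hh ed adj μ p (s + t) z ≤ ∑ w, ker ed adj μ p s z w * hh ed adj μ p t w := by
  have hk := fun w => ker_nonneg ed adj μ p hμ hp.le hp1.le s hs z w
  have h0 : 0 ≤ ∑ w, ker ed adj μ p s z w * hh ed adj μ p t w :=
    Finset.sum_nonneg fun w _ => mul_nonneg (hk w) (hh_nonneg ed adj μ p t w)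
  refine Real.sqrt_le_iff.2 ⟨h0, ?_⟩
  have h1 : qq ed adj μ p (2 * (s + t)) z z =
      ∑ v, ∑ w, ker ed adj μ p s z v * ker ed adj μ p s z w * qq ed adj μ p (2 * t) v w := by
    have e1 : 2 * (s + t) = s + (s + 2 * t) := by ring
    rw [e1, qq_add ed adj μ p hp hp1]
    refine Finset.sum_congr rfl fun v _ => ?_
    rw [qq_symm ed adj μ p hed hadj, qq_add ed adj μ p hp hp1, Finset.mul_sum]
    refine Finset.sum_congr rfl fun w _ => ?_
    rw [qq_symm ed adj μ p hed hadj (2 * t) w v]; ring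
  have h2 : ∑ v, ∑ w, ker ed adj μ p s z v * ker ed adj μ p s z w = 1 := by
    have h3 := ker_sum ed adj μ p s z
    rw [← Finset.sum_mul_sum, h3, mul_one]
  have h4 : dd ed adj μ p (s + t) z = ∑ v, ∑ w, ker ed adj μ p s z v * ker ed adj μ p s z w *
      (Fintype.card U * qq ed adj μ p (2 * t) v w - 1) := by
    rw [dd_eq ed adj μ p hed hadj, h1]
    have h5 : ∀ v w, ker ed adj μ p s z v * ker ed adj μ p s z w *
      (Fintype.card U * qq ed adj μ p (2 * t) v w - 1) =
      Fintype.card U * (ker ed adj μ p s z v * ker ed adj μ p s z w * qq ed adj μ p (2 * t) v w) -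
      ker ed adj μ p s z v * ker ed adj μ p s z w := fun v w => by ring
    simp only [h5, Finset.sum_sub_distrib, ← Finset.mul_sum]
    congr 1
    rw [← h2]
    simp only [Finset.mul_sum]
  rw [h4, sq, Finset.sum_mul_sum]
  refine Finset.sum_le_sum fun v _ => Finset.sum_le_sum fun w _ => ?_
  have h6 := (le_abs_self _).trans (dist_le ed adj μ p hed hadj t v w)
  have h7 := mul_le_mul_of_nonneg_left h6 (mul_nonneg (hk v) (hk w))
  calc _ ≤ ker ed adj μ p s z v * ker ed adj μ p s z w *
      (hh ed adj μ p t v * hh ed adj μ p t w) := h7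
    _ = _ := by ring

include hed hadj hp hp1 in
/-- the average of the squared distances is a trace -/
theorem dd_trace [Nonempty U] (t : ℝ) (E : EB (rgen ed adj (fun _ => 0) μ p)) :
    ∑ z : U × Cf I, bern p z.2 * dd ed adj μ p t z =
      Fintype.card U * (∑ k, Real.exp (2 * t * E.l k) - 1) := by
  have h1 : ∑ z : U × Cf I, bern p z.2 * qq ed adj μ p (2 * t) z z =
      ∑ k, Real.exp (2 * t * E.l k) := by
    have h2 : ∀ z : U × Cf I, bern p z.2 * qq ed adj μ p (2 * t) z z =
        ∑ k, Real.exp (2 * t * E.l k) * (bern p z.2 * (ip (uu p z) (E.w k) * ip (uu p z) (E.w k))) := by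
      intro z
      unfold qq
      rw [E.sg_form, Finset.mul_sum]
      refine Finset.sum_congr rfl fun k _ => ?_
      rw [ip_comm (E.w k) (uu p z)]; ring
    rw [Finset.sum_congr rfl (fun z _ => h2 z), Finset.sum_comm]
    refine Finset.sum_congr rfl fun k _ => ?_
    rw [← Finset.mul_sum, parseval_uu p hp hp1, E.norm, mul_one]
  have h3 : ∑ z : U × Cf I, bern p z.2 = Fintype.card U := by
    rw [Fintype.sum_prod_type]
    simp only
    rw [Finset.sum_congr rfl (fun x _ => bern_sum (I := I) p)]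
    simp
  have h4 : ∀ z : U × Cf I, bern p z.2 * dd ed adj μ p t z =
      Fintype.card U * (bern p z.2 * qq ed adj μ p (2 * t) z z) - bern p z.2 := by
    intro z
    rw [dd_eq ed adj μ p hed hadj]; ring
  rw [Finset.sum_congr rfl (fun z _ => h4 z), Finset.sum_sub_distrib, ← Finset.mul_sum, h1, h3]
  ring

end

/-! ### automorphisms -/

/-- a symmetry of the graph with its action on the edges -/
structure Aut (ed : U → U → I) (adj : U → U → Prop) where
  φ : U ≃ U
  ψ : I ≃ I
  h1 : ∀ x y, adj (φ x) (φ y) ↔ adj x y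
  h2 : ∀ x y, adj x y → ed (φ x) (φ y) = ψ (ed x y)

namespace Aut

variable {ed : U → U → I} {adj : U → U → Prop} (g : Aut ed adj)

/-- action on states -/
def act : U × Cf I ≃ U × Cf I where
  toFun z := (g.φ z.1, fun e => z.2 (g.ψ.symm e))
  invFun z := (g.φ.symm z.1, fun e => z.2 (g.ψ e))
  left_inv z := by simp
  right_inv z := by simp

/-- action on functions -/
def J : (U × Cf I → ℝ) →ₗ[ℝ] (U × Cf I → ℝ) where
  toFun F z := F (g.act z)
  map_add' _ _ := rfl
  map_smul' _ _ := rfl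

theorem upd (η : Cf I) (e : I) (c : Bool) :
    (fun e' => Function.update η e c (g.ψ.symm e')) =
      Function.update (fun e' => η (g.ψ.symm e')) (g.ψ e) c := by
  funext e'
  by_cases h : e' = g.ψ e
  · subst h; simp
  · rw [Function.update_of_ne h, Function.update_of_ne]
    intro h'
    apply h
    rw [← h']; simp

theorem J_gen (μ p : ℝ) (F : U × Cf I → ℝ) :
    g.J (gen ed adj (fun _ => 0) μ p F) = gen ed adj (fun _ => 0) μ p (g.J F) := by
  classical
  funext z
  obtain ⟨x, η⟩ := z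
  show gen ed adj (fun _ => 0) μ p F (g.φ x, fun e => η (g.ψ.symm e)) = _
  simp only [gen, LinearMap.coe_mk, AddHom.coe_mk, zero_mul, sub_zero]
  congr 1
  · rw [← Equiv.sum_comp g.φ]
    refine Finset.sum_congr rfl fun y _ => ?_
    by_cases hxy : adj x y
    · have h3 : adj (g.φ x) (g.φ y) := (g.h1 x y).2 hxy
      rw [g.h2 x y hxy]
      simp only [h3, hxy, true_and, Equiv.symm_apply_apply]
      rfl
    · have h3 : ¬ adj (g.φ x) (g.φ y) := fun h => hxy ((g.h1 x y).1 h)
      simp only [h3, hxy, false_and, if_false]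
  · congr 1
    rw [← Equiv.sum_comp g.ψ]
    refine Finset.sum_congr rfl fun e _ => ?_
    rw [← g.upd, ← g.upd]
    rfl

theorem sg_J (μ p t : ℝ) (F : U × Cf I → ℝ) (z : U × Cf I) :
    sg (gen ed adj (fun _ => 0) μ p) t F (g.act z) = sg (gen ed adj (fun _ => 0) μ p) t (g.J F) z := by
  have h1 := sg_intertwine (gen ed adj (fun _ => 0) μ p) (gen ed adj (fun _ => 0) μ p) g.J
    (fun F => g.J_gen μ p F) t F
  exact congrFun h1 z

theorem ker_act (μ p t : ℝ) (z w : U × Cf I) :
    ker ed adj μ p t (g.act z) (g.act w) = ker ed adj μ p t z w := by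
  have h : g.J (Pi.single (g.act w) 1) = Pi.single w 1 := by
    funext v
    show (Pi.single (g.act w) (1:ℝ) : U × Cf I → ℝ) (g.act v) = (Pi.single w (1:ℝ) : U × Cf I → ℝ) v
    rw [Pi.single_apply, Pi.single_apply]
    simp
  unfold ker
  rw [g.sg_J, h]

theorem bern_act (p : ℝ) (z : U × Cf I) : bern p (g.act z).2 = bern p z.2 := by
  show ∏ e, (if z.2 (g.ψ.symm e) = true then p else 1 - p) = _
  rw [Equiv.prod_comp g.ψ.symm (fun e => if z.2 e = true then p else 1 - p)]
  rfl

theorem qq_act (μ p t : ℝ) (hp : 0 < p) (hp1 : p < 1) (z w : U × Cf I) :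
    qq ed adj μ p t (g.act z) (g.act w) = qq ed adj μ p t z w := by
  have h1 := g.ker_act μ p t z w
  rw [ker_eq ed adj μ p hp hp1, ker_eq ed adj μ p hp hp1, g.bern_act] at h1
  exact mul_left_cancel₀ (bern_pos p hp hp1 _).ne' h1

theorem hh_act [Nonempty U] (hed : ∀ x y, ed x y = ed y x) (hadj : ∀ x y, adj x y → adj y x)
    (μ p t : ℝ) (hp : 0 < p) (hp1 : p < 1) (z : U × Cf I) :
    hh ed adj μ p t (g.act z) = hh ed adj μ p t z := by
  unfold hh
  rw [dd_eq ed adj μ p hed hadj, dd_eq ed adj μ p hed hadj, g.qq_act μ p _ hp hp1]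

theorem avg_act (p : ℝ) (F : U × Cf I → ℝ) (hF : ∀ z, F (g.act z) = F z) (x : U) :
    ∑ η, bern p η * F (g.φ x, η) = ∑ η, bern p η * F (x, η) := by
  let e : Cf I ≃ Cf I :=
    { toFun := fun η e => η (g.ψ.symm e)
      invFun := fun η e => η (g.ψ e)
      left_inv := fun η => by simp
      right_inv := fun η => by simp }
  rw [← Equiv.sum_comp e]
  refine Finset.sum_congr rfl fun η _ => ?_
  have h1 : bern p (e η) = bern p η := g.bern_act p (x, η)
  have h2 : F (g.φ x, e η) = F (x, η) := hF (x, η)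
  rw [h1, h2]

end Aut

end Pool.H102.DM
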