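import Pool.Agent.H102R3.DMGraph

set_option autoImplicit false
set_option linter.unusedSectionVars false

/-!
# Final assembly
-/

namespace Pool.H102.DM

open Finset Filter Topology
open Pool.H102.DP (sg sg_hasSum sg_hasSum' sg_intertwine sg_shift sg_mono ip ip_comm ip_single_left ip_smul_left ip_smul_right ip_sum_right ip_self_nonneg EB exists_eb lapl Sf lapl_form lapl_symm Sf_spec Sf_nonneg plain plain_spec plain_trace plain_lower)

theorem sg_zero {Z : Type} [Fintype Z] (A : (Z → ℝ) →ₗ[ℝ] (Z → ℝ)) (F : Z → ℝ) : sg A 0 F = F := by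
  unfold sg
  rw [zero_smul, NormedSpace.exp_zero]
  rfl

variable {V : Type} [Fintype V] [DecidableEq V] (G : SimpleGraph V) [DecidableRel G.Adj]

/-- degenerate case of a single vertex -/
theorem main_zero (hG : G.Connected) (hd : ∀ x, G.degree x = 0) (μ p : ℝ) :
    (0:ℝ) ∈ mixedSet (fullGen G μ p) (fullPi G p) := by
  have hno : ∀ x y, ¬ G.Adj x y := by
    intro x y h
    have h1 : 0 < G.degree x := (G.degree_pos_iff_exists_adj x).2 ⟨y, h⟩
    rw [hd] at h1
    exact lt_irrefl _ h1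
  have hsub : ∀ x y : V, x = y := by
    intro x y
    obtain ⟨w⟩ := hG.preconnected x y
    cases w with
    | nil => rfl
    | cons h _ => exact absurd h (hno _ _)
  obtain ⟨x0⟩ := hG.nonempty
  have hcard : Fintype.card V = 1 := Fintype.card_eq_one_iff.2 ⟨x0, fun y => hsub y x0⟩
  have hemp : IsEmpty G.edgeSet := by
    refine ⟨fun e => ?_⟩
    obtain ⟨e, he⟩ := e
    induction e using Sym2.ind with
    | _ x y => exact hno x y he
  refine ⟨le_rfl, fun z w => ?_⟩
  have hzw : z = w := by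
    refine Prod.ext (hsub _ _) (funext fun e => (hemp.false e).elim)
  unfold transition
  rw [sg_zero, if_pos hzw, fullPi, hcard]
  simp

theorem time_bound (d n μ p r L : ℝ) (hd1 : 1 ≤ d) (hn2 : 2 ≤ n) (hμ : 0 < μ) (hp : 0 < p)
    (hp1 : p < 1) (hL1 : Real.log n ≤ 2 * L) (hL2 : 1 ≤ 3 * L) (hL0 : 0 < L) (hrL : r ≤ 2 * L) :
    d * (2 * ((Real.log (n * d) - Real.log (p * (1 - p))) / (d * μ) + 7 / μ * Real.log (2 * n) +
      (21 / (2 * (μ * p)) * (r / d) + 7 / μ * Real.log (96 * n) +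
      Real.log (n * d) / (d * μ)))) ≤
      (320 * d + 56) * ((μ * p)⁻¹ * L + μ⁻¹ * |Real.log (1 - p)|) := by
  have hq : 0 < 1 - p := by linarith
  have hip : 1 ≤ p⁻¹ := (one_le_inv₀ hp).2 hp1.le
  have him : 0 < μ⁻¹ := inv_pos.2 hμ
  have hlogd : Real.log d ≤ d := by
    have := Real.log_le_sub_one_of_pos (show (0:ℝ) < d by linarith); linarith
  have hlnd : Real.log (n * d) ≤ 2 * L + 3 * d * L := by
    rw [Real.log_mul (by linarith) (by linarith)]
    have e1 : (d:ℝ) * 1 ≤ d * (3 * L) := mul_le_mul_of_nonneg_left hL2 (by linarith)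
    linarith
  have hl2n : Real.log (2 * n) ≤ 5 * L := by
    rw [Real.log_mul (by norm_num) (by linarith)]
    have := Real.log_two_lt_d9
    linarith
  have hl96 : Real.log (96 * n) ≤ 17 * L := by
    rw [Real.log_mul (by norm_num) (by linarith)]
    have h96 : Real.log 96 ≤ 5 := by
      rw [Real.log_le_iff_le_exp (by norm_num)]
      have e1 : Real.exp 5 = Real.exp 1 ^ 5 := by
        rw [← Real.exp_nat_mul]; norm_num
      have e2 := Real.exp_one_gt_d9
      rw [e1]
      calc (96:ℝ) ≤ 2.7182818283 ^ 5 := by norm_num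
        _ ≤ Real.exp 1 ^ 5 := pow_le_pow_left₀ (by norm_num) e2.le 5
    linarith
  have hlp : - Real.log p ≤ p⁻¹ * (3 * L) := by
    have e1 := Real.log_le_sub_one_of_pos (inv_pos.2 hp)
    rw [Real.log_inv] at e1
    have e2 : p⁻¹ * 1 ≤ p⁻¹ * (3 * L) := mul_le_mul_of_nonneg_left hL2 (by positivity)
    linarith
  have hlq : |Real.log (1 - p)| = - Real.log (1 - p) :=
    abs_of_nonpos (Real.log_nonpos hq.le (by linarith))
  have hsplit : Real.log (p * (1 - p)) = Real.log p + Real.log (1 - p) :=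
    Real.log_mul hp.ne' hq.ne'
  have hT : d * (2 * ((Real.log (n * d) - Real.log (p * (1 - p))) / (d * μ) + 7 / μ * Real.log (2 * n) +
      (21 / (2 * (μ * p)) * (r / d) + 7 / μ * Real.log (96 * n) +
      Real.log (n * d) / (d * μ)))) = μ⁻¹ * (4 * Real.log (n * d) + 2 * (- Real.log p) +
      2 * (- Real.log (1 - p)) + 14 * d * Real.log (2 * n) + 14 * d * Real.log (96 * n) +
      21 * (p⁻¹ * r)) := by
    rw [hsplit]
    have hd' : (d:ℝ) ≠ 0 := by linarith
    field_simp
    ring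
  rw [hT, hlq, mul_inv]
  have hLp : L ≤ p⁻¹ * L := le_mul_of_one_le_left hL0.le hip
  have hq0 : 0 ≤ - Real.log (1 - p) := by
    have := Real.log_nonpos hq.le (show 1 - p ≤ 1 by linarith); linarith
  have hfin : 4 * Real.log (n * d) + 2 * (- Real.log p) +
      2 * (- Real.log (1 - p)) + 14 * d * Real.log (2 * n) + 14 * d * Real.log (96 * n) +
      21 * (p⁻¹ * r) ≤ (320 * d + 56) * (p⁻¹ * L + - Real.log (1 - p)) := by
    have a1 : 14 * d * Real.log (2 * n) ≤ 14 * d * (5 * L) :=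
      mul_le_mul_of_nonneg_left hl2n (by positivity)
    have a2 : 14 * d * Real.log (96 * n) ≤ 14 * d * (17 * L) :=
      mul_le_mul_of_nonneg_left hl96 (by positivity)
    have a3 : p⁻¹ * r ≤ p⁻¹ * (2 * L) := mul_le_mul_of_nonneg_left hrL (by positivity)
    have a4 : (d:ℝ) * L ≤ d * (p⁻¹ * L) := mul_le_mul_of_nonneg_left hLp (by positivity)
    have a5 : 2 * (- Real.log (1 - p)) ≤ (320 * d + 56) * (- Real.log (1 - p)) :=
      mul_le_mul_of_nonneg_right (by linarith) hq0
    calc 4 * Real.log (n * d) + 2 * (- Real.log p) +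
      2 * (- Real.log (1 - p)) + 14 * d * Real.log (2 * n) + 14 * d * Real.log (96 * n) +
      21 * (p⁻¹ * r) ≤ 4 * (2 * L + 3 * d * L) + 2 * (p⁻¹ * (3 * L)) +
        (320 * d + 56) * (- Real.log (1 - p)) + 14 * d * (5 * L) + 14 * d * (17 * L) +
        21 * (p⁻¹ * (2 * L)) := by linarith
      _ = 8 * L + 320 * (d * L) + 48 * (p⁻¹ * L) + (320 * d + 56) * (- Real.log (1 - p)) := by ring
      _ ≤ 8 * (p⁻¹ * L) + 320 * (d * (p⁻¹ * L)) + 48 * (p⁻¹ * L) +
        (320 * d + 56) * (- Real.log (1 - p)) := by linarith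
      _ = _ := by ring
  calc _ ≤ μ⁻¹ * ((320 * d + 56) * (p⁻¹ * L + - Real.log (1 - p))) :=
        mul_le_mul_of_nonneg_left hfin him.le
    _ = _ := by ring

theorem main_pos (d : ℕ) (hd0 : 0 < d) (hG : G.Connected)
    (htr : ∀ x y : V, ∃ φ : G ≃g G, φ x = y) (hd : ∀ x, G.degree x = d)
    (μ p : ℝ) (hμ : 0 < μ) (hμ1 : μ ≤ 1) (hp : 0 < p) (hp1 : p < 1) :
    ∃ T ∈ mixedSet (fullGen G μ p) (fullPi G p), T ≤ (320 * d + 56) *
      ((μ * p)⁻¹ * mixTime (srwGen G) (unif V) + μ⁻¹ * |Real.log (1 - p)|) := by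
  classical
  have hne : Nonempty V := hG.nonempty
  obtain ⟨x0⟩ := hG.nonempty
  have hq : 0 < 1 - p := by linarith
  have hd1 : (1:ℝ) ≤ d := by exact_mod_cast hd0
  obtain ⟨y0, hxy⟩ : ∃ y, G.Adj x0 y := by
    rw [← G.degree_pos_iff_exists_adj, hd]; exact hd0
  let e0 : G.edgeSet := ⟨s(x0, y0), hxy⟩
  have hcard : 2 ≤ Fintype.card V := by
    have : 1 < Fintype.card V := Fintype.one_lt_card_iff.2 ⟨x0, y0, hxy.ne⟩
    exact this
  set n : ℝ := (Fintype.card V : ℝ) with hn
  have hn2 : (2:ℝ) ≤ n := by rw [hn]; exact_mod_cast hcard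
  have hI : 2 * (Fintype.card G.edgeSet : ℝ) = n * d := by
    have h1 := G.sum_degrees_eq_twice_card_edges
    rw [Finset.sum_congr rfl (fun x _ => hd x), Finset.sum_const, Finset.card_univ, smul_eq_mul,
      SimpleGraph.edgeFinset_card] at h1
    rw [hn]; exact_mod_cast h1.symm
  set L := mixTime (srwGen G) (unif V) with hL
  have hne0 := srw_nonempty G d hd hd0 hG
  have hlog2 : 0.6931471803 < Real.log 2 := Real.log_two_gt_d9
  have hlogn : Real.log 2 ≤ Real.log n := Real.log_le_log (by norm_num) hn2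
  have hL1 : Real.log n ≤ 2 * L := by
    have h1 : (1 / 2) * Real.log n ≤ L :=
      le_csInf hne0 fun t ht => srw_lower G d hd hd0 ⟨x0⟩ hcard t ht
    linarith
  have hL2 : 1 ≤ 3 * L := by linarith
  have hL0 : 0 < L := by linarith
  obtain ⟨r, hr, hrL⟩ : ∃ r ∈ mixedSet (srwGen G) (unif V), r < 2 * L :=
    exists_lt_of_csInf_lt hne0 (by show L < 2 * L; linarith)
  have hr0 : 0 ≤ r := hr.1
  obtain ⟨E0⟩ := exists_eb (lapl G.Adj (fun _ => 0)) (lapl_symm _ (adj_symm' G) _)
  have htrace := srw_trace G d hd hd0 ⟨x0⟩ E0 r hr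
  have hdμ : 0 < (d:ℝ) * μ := by positivity
  have hnd : 1 ≤ n * d := by nlinarith
  have hpq : 0 < p * (1 - p) := mul_pos hp hq
  have hpq1 : p * (1 - p) ≤ 1 := by nlinarith
  -- logs
  have hl1 : 0 ≤ Real.log (n * d) := Real.log_nonneg hnd
  have hl2 : 0 ≤ - Real.log (p * (1 - p)) := by
    have := Real.log_nonpos hpq.le hpq1; linarith
  have hl3 : 0 ≤ Real.log (2 * n) := Real.log_nonneg (by linarith)
  have hl4 : 0 ≤ Real.log (96 * n) := Real.log_nonneg (by linarith)
  set s1 : ℝ := (Real.log (n * d) - Real.log (p * (1 - p))) / (d * μ) with hs1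
  set s2 : ℝ := 7 / μ * Real.log (2 * n) with hs2
  set t : ℝ := 21 / (2 * (μ * p)) * (r / d) + 7 / μ * Real.log (96 * n) +
    Real.log (n * d) / (d * μ) with ht
  have hs10 : 0 ≤ s1 := div_nonneg (by linarith) hdμ.le
  have hs20 : 0 ≤ s2 := by positivity
  have ht1 : 0 ≤ 21 / (2 * (μ * p)) * (r / d) := by positivity
  have ht2 : 0 ≤ 7 / μ * Real.log (96 * n) := by positivity
  have ht3 : 0 ≤ Real.log (n * d) / (d * μ) := by positivity
  have ht0 : 0 ≤ t := by rw [ht]; linarith
  have hμp : 0 < μ * p := mul_pos hμ hp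
  have h1 : Fintype.card G.edgeSet * (Real.exp (-((d * μ) * s1)) / (p * (1 - p))) ≤ 1 / 2 := by
    have e1 : (d * μ) * s1 = Real.log (n * d) - Real.log (p * (1 - p)) := by
      rw [hs1]; field_simp
    have e2 : Real.exp (-((d * μ) * s1)) = p * (1 - p) / (n * d) := by
      rw [e1, neg_sub, Real.exp_sub, Real.exp_log hpq, Real.exp_log (by linarith)]
    rw [e2]
    have e3 : (Fintype.card G.edgeSet : ℝ) = n * d / 2 := by linarith
    rw [e3]
    have hnd' : n * d ≠ 0 := by linarith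
    have e4 : n * d / 2 * (p * (1 - p) / (n * d) / (p * (1 - p))) = 1 / 2 := by
      field_simp
    rw [e4]
  have h2 : 2 * n * Real.exp (-(μ / 7 * s2)) ≤ 1 := by
    have e1 : μ / 7 * s2 = Real.log (2 * n) := by rw [hs2]; field_simp
    rw [e1, Real.exp_neg, Real.exp_log (by linarith)]
    rw [mul_inv_cancel₀ (by linarith)]
  have h3 : 3 * (r / d) ≤ 2 * t * (μ / 7 * p) := by
    have e1 : 2 * (21 / (2 * (μ * p)) * (r / d)) * (μ / 7 * p) = 3 * (r / d) := by
      field_simp
      ring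
    have e2 : 21 / (2 * (μ * p)) * (r / d) ≤ t := by rw [ht]; linarith
    have e3 : 0 ≤ μ / 7 * p := by positivity
    have e4 := mul_le_mul_of_nonneg_right e2 e3
    linarith
  have h4 : Real.exp (-(μ / 7 * t)) *
        (n * (1 + Real.exp (-((d * μ) * t))) ^ Fintype.card G.edgeSet) ≤ 1 / 32 := by
    have e1 : Real.log (96 * n) ≤ μ / 7 * t := by
      have : μ / 7 * (7 / μ * Real.log (96 * n)) = Real.log (96 * n) := by field_simp
      have e2 : 7 / μ * Real.log (96 * n) ≤ t := by rw [ht]; linarith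
      have e3 := mul_le_mul_of_nonneg_left e2 (show 0 ≤ μ / 7 by positivity)
      linarith
    have e2 : Real.exp (-(μ / 7 * t)) ≤ 1 / (96 * n) := by
      have : Real.exp (-(Real.log (96 * n))) = 1 / (96 * n) := by
        rw [Real.exp_neg, Real.exp_log (by linarith), one_div]
      rw [← this]
      exact Real.exp_le_exp.2 (neg_le_neg e1)
    have e3 : Real.log (n * d) ≤ (d * μ) * t := by
      have : (d * μ) * (Real.log (n * d) / (d * μ)) = Real.log (n * d) := by field_simp
      have e4 : Real.log (n * d) / (d * μ) ≤ t := by rw [ht]; linarith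
      have e5 := mul_le_mul_of_nonneg_left e4 hdμ.le
      linarith
    have e4 : Real.exp (-((d * μ) * t)) ≤ 1 / (n * d) := by
      have : Real.exp (-(Real.log (n * d))) = 1 / (n * d) := by
        rw [Real.exp_neg, Real.exp_log (by linarith), one_div]
      rw [← this]
      exact Real.exp_le_exp.2 (neg_le_neg e3)
    have e5 : (1 + Real.exp (-((d * μ) * t))) ^ Fintype.card G.edgeSet ≤ 3 := by
      have e6 : 1 + Real.exp (-((d * μ) * t)) ≤ Real.exp (1 / (n * d)) := by
        have := Real.add_one_le_exp (1 / (n * d)); linarith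
      have e7 : (1 + Real.exp (-((d * μ) * t))) ^ Fintype.card G.edgeSet ≤
          Real.exp (1 / (n * d)) ^ Fintype.card G.edgeSet :=
        pow_le_pow_left₀ (by positivity) e6 _
      refine e7.trans ?_
      rw [← Real.exp_nat_mul]
      have e8 : (Fintype.card G.edgeSet : ℝ) * (1 / (n * d)) = 1 / 2 := by
        have e3 : (Fintype.card G.edgeSet : ℝ) = n * d / 2 := by linarith
        have hnd' : n * d ≠ 0 := by linarith
        rw [e3]
        field_simp
      rw [e8]
      have h9 : Real.exp (1 / 2) ≤ Real.exp 1 := Real.exp_le_exp.2 (by norm_num)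
      have h10 := Real.exp_one_lt_d9
      linarith
    calc Real.exp (-(μ / 7 * t)) *
        (n * (1 + Real.exp (-((d * μ) * t))) ^ Fintype.card G.edgeSet) ≤
        1 / (96 * n) * (n * 3) := by
          refine mul_le_mul e2 ?_ (by positivity) (by positivity)
          exact mul_le_mul_of_nonneg_left e5 (by linarith)
      _ = 1 / 32 := by field_simp; norm_num
  have hcc : μ / 7 * (2 + (4 * d + 1) / (d * μ)) ≤ 1 := by
    have e1 : (4 * (d:ℝ) + 1) / (d * μ) ≤ 5 / μ := by
      rw [div_le_div_iff₀ hdμ hμ]; nlinarith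
    have e2 : μ / 7 * (2 + (4 * d + 1) / (d * μ)) ≤ μ / 7 * (2 + 5 / μ) :=
      mul_le_mul_of_nonneg_left (by linarith) (by positivity)
    refine e2.trans ?_
    have e3 : μ / 7 * (2 + 5 / μ) = (2 * μ + 5) / 7 := by field_simp
    rw [e3]; linarith
  have hdeg : ∀ x, ∑ y, (@ite ℝ (G.Adj x y) (Classical.propDecidable _) (1:ℝ) 0) ≤ (d:ℝ) := by
    intro x
    have h4 : ∑ y, (@ite ℝ (G.Adj x y) (Classical.propDecidable _) (1:ℝ) 0) = G.degree x := by
      rw [SimpleGraph.degree, SimpleGraph.neighborFinset_eq_filter, Finset.card_filter]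
      push_cast
      refine Finset.sum_congr rfl fun y _ => ?_
      by_cases h : G.Adj x y <;> simp [h]
    rw [h4, hd]
  have hcore := mixing_core (edl G e0) G.Adj (d * μ) p hp hp1 hdμ (edl_symm G e0) (adj_symm' G)
    (fun x y => by
      obtain ⟨φ, hφ⟩ := htr x y
      exact ⟨autOf G e0 φ, hφ⟩) d (μ / 7) hdeg (by positivity) hcc E0 (r / d) (by positivity) htrace
    s1 s2 t hs10 hs20 ht0 h1 h2 h3 h4
  refine ⟨d * (2 * (s1 + s2 + t)), ⟨by positivity, fun z w => ?_⟩, ?_⟩
  · rw [transition_eq, fullGen_eq G d hd hd0 e0, sg_smul]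
    have e1 : 1 / (d:ℝ) * (d * (2 * (s1 + s2 + t))) = 2 * (s1 + s2 + t) := by field_simp
    rw [e1]
    have e2 : sg (gen (edl G e0) G.Adj (fun _ => 0) (d * μ) p) (2 * (s1 + s2 + t)) (Pi.single w 1) z =
        ker (edl G e0) G.Adj (d * μ) p (2 * (s1 + s2 + t)) z w := rfl
    rw [e2, ker_eq (edl G e0) G.Adj (d * μ) p hp hp1]
    have e3 : fullPi G p w = 1 / n * bern p w.2 := rfl
    have e4 : bern p w.2 ≠ 0 := (bern_pos p hp hp1 w.2).ne'
    have e5 : n ≠ 0 := by linarith
    have e6 : bern p w.2 * qq (edl G e0) G.Adj (d * μ) p (2 * (s1 + s2 + t)) z w / fullPi G p w =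
        n * qq (edl G e0) G.Adj (d * μ) p (2 * (s1 + s2 + t)) z w := by
      rw [e3]; field_simp
    rw [e6]
    exact hcore z w
  · exact time_bound d n μ p r L hd1 hn2 hμ hp hp1 hL1 hL2 hL0 hrL.le

end Pool.H102.DM
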