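import Pool.Agent.H102R3.DMCore

set_option autoImplicit false
set_option linter.unusedSectionVars false

/-!
# Mixing times of random walk on dynamical percolation on a finite graph: definitions and the
simple random walk side
-/

namespace Pool.H102.DM

open Finset Filter Topology
open Pool.H102.DP (sg sg_hasSum sg_hasSum' sg_intertwine sg_shift sg_mono ip ip_comm ip_single_left ip_smul_left ip_smul_right ip_sum_right ip_self_nonneg EB exists_eb lapl Sf lapl_form lapl_symm Sf_spec Sf_nonneg plain plain_spec plain_trace plain_lower)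

/-! ### definitions -/

/-- transition probabilities `exp (t A) (z, w)` of the continuous-time Markov chain with generator
`A` on the finite set `Z` -/
noncomputable def transition {Z : Type} [Fintype Z] [DecidableEq Z]
    (A : (Z → ℝ) →ₗ[ℝ] (Z → ℝ)) (t : ℝ) (z w : Z) : ℝ :=
  sg A t (fun v => if v = w then 1 else 0) z

/-- the times at which the chain with generator `A` and stationary law `π` is mixed in `L^∞` -/
def mixedSet {Z : Type} [Fintype Z] [DecidableEq Z] (A : (Z → ℝ) →ₗ[ℝ] (Z → ℝ)) (π : Z → ℝ) : Set ℝ :=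
  {t | 0 ≤ t ∧ ∀ z w, |transition A t z w / π w - 1| ≤ 1 / 4}

/-- the `L^∞` mixing time -/
noncomputable def mixTime {Z : Type} [Fintype Z] [DecidableEq Z]
    (A : (Z → ℝ) →ₗ[ℝ] (Z → ℝ)) (π : Z → ℝ) : ℝ := sInf (mixedSet A π)

variable {V : Type} [Fintype V] [DecidableEq V]

/-- generator of rate-one simple random walk on `G` -/
noncomputable def srwGen (G : SimpleGraph V) [DecidableRel G.Adj] : (V → ℝ) →ₗ[ℝ] (V → ℝ) where
  toFun f x := (1 / (G.degree x : ℝ)) * ∑ y, (if G.Adj x y then f y - f x else 0)
  map_add' f g := by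
    funext x
    simp only [Pi.add_apply]
    rw [← mul_add, ← Finset.sum_add_distrib]
    congr 1
    refine Finset.sum_congr rfl fun y _ => ?_
    split_ifs <;> ring
  map_smul' c f := by
    funext x
    simp only [Pi.smul_apply, smul_eq_mul, RingHom.id_apply]
    have h1 : ∀ y, (if G.Adj x y then c * f y - c * f x else 0) =
        c * (if G.Adj x y then f y - f x else 0) := by
      intro y; split_ifs <;> ring
    simp only [h1, ← Finset.mul_sum]
    ring

/-- generator of the full process (walk, environment) of random walk on dynamical percolation on `G`: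
at rate one the walker picks a uniform neighbour and moves there if the edge is open (`true`); every
edge rings at rate `μ` and is then resampled to open with probability `p` and closed with probability
`1 - p` -/
noncomputable def fullGen (G : SimpleGraph V) [DecidableRel G.Adj] (μ p : ℝ) :
    (V × (G.edgeSet → Bool) → ℝ) →ₗ[ℝ] (V × (G.edgeSet → Bool) → ℝ) where
  toFun F z := (1 / (G.degree z.1 : ℝ)) * ∑ y, (if h : G.Adj z.1 y then
      (if z.2 ⟨s(z.1, y), h⟩ = true then F (y, z.2) - F z else 0) else 0)
    + μ * ∑ e, ((1 - p) * F (z.1, Function.update z.2 e false)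
        + p * F (z.1, Function.update z.2 e true) - F z)
  map_add' F H := by
    funext z
    simp only [Pi.add_apply]
    have h1 : ∀ y, (if h : G.Adj z.1 y then
        (if z.2 ⟨s(z.1, y), h⟩ = true then F (y, z.2) + H (y, z.2) - (F z + H z) else 0) else 0) =
        (if h : G.Adj z.1 y then
        (if z.2 ⟨s(z.1, y), h⟩ = true then F (y, z.2) - F z else 0) else 0) +
        (if h : G.Adj z.1 y then
        (if z.2 ⟨s(z.1, y), h⟩ = true then H (y, z.2) - H z else 0) else 0) := by
      intro y; split_ifs <;> ring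
    have h2 : ∀ e, ((1 - p) * (F (z.1, Function.update z.2 e false) +
        H (z.1, Function.update z.2 e false))
        + p * (F (z.1, Function.update z.2 e true) + H (z.1, Function.update z.2 e true))
        - (F z + H z)) =
        ((1 - p) * F (z.1, Function.update z.2 e false)
        + p * F (z.1, Function.update z.2 e true) - F z) +
        ((1 - p) * H (z.1, Function.update z.2 e false)
        + p * H (z.1, Function.update z.2 e true) - H z) := by
      intro e; ring
    simp only [h1, h2, Finset.sum_add_distrib]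
    ring
  map_smul' c F := by
    funext z
    simp only [Pi.smul_apply, smul_eq_mul, RingHom.id_apply]
    have h1 : ∀ y, (if h : G.Adj z.1 y then
        (if z.2 ⟨s(z.1, y), h⟩ = true then c * F (y, z.2) - c * F z else 0) else 0) =
        c * (if h : G.Adj z.1 y then
        (if z.2 ⟨s(z.1, y), h⟩ = true then F (y, z.2) - F z else 0) else 0) := by
      intro y; split_ifs <;> ring
    have h2 : ∀ e, ((1 - p) * (c * F (z.1, Function.update z.2 e false))
        + p * (c * F (z.1, Function.update z.2 e true)) - c * F z) =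
        c * ((1 - p) * F (z.1, Function.update z.2 e false)
        + p * F (z.1, Function.update z.2 e true) - F z) := by
      intro e; ring
    simp only [h1, h2, ← Finset.mul_sum]
    ring

/-- the uniform law on the vertices -/
noncomputable def unif (V : Type) [Fintype V] : V → ℝ := fun _ => 1 / (Fintype.card V : ℝ)

/-- the stationary law of the full process: uniform times product Bernoulli -/
noncomputable def fullPi (G : SimpleGraph V) [DecidableRel G.Adj] (p : ℝ) :
    V × (G.edgeSet → Bool) → ℝ :=
  fun z => 1 / (Fintype.card V : ℝ) * ∏ e, (if z.2 e = true then p else 1 - p)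

/-! ### scaling -/

theorem sg_smul {Z : Type} [Fintype Z] (A : (Z → ℝ) →ₗ[ℝ] (Z → ℝ)) (c t : ℝ) :
    sg (c • A) t = sg A (c * t) := by
  unfold sg
  congr 1
  ext F z
  simp
  ring

theorem transition_eq {Z : Type} [Fintype Z] [DecidableEq Z]
    (A : (Z → ℝ) →ₗ[ℝ] (Z → ℝ)) (t : ℝ) (z w : Z) :
    transition A t z w = sg A t (Pi.single w 1) z := by
  have h : (fun v => if v = w then (1:ℝ) else 0) = Pi.single w 1 := by
    funext v
    rw [Pi.single_apply]
  unfold transition
  rw [h]

section

variable (G : SimpleGraph V) [DecidableRel G.Adj] (d : ℕ) (hd : ∀ x, G.degree x = d)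

include hd in
theorem srwGen_eq : srwGen G = (1 / (d:ℝ)) • lapl G.Adj (fun _ => 0) := by
  classical
  refine LinearMap.ext fun f => ?_
  funext x
  simp only [srwGen, LinearMap.coe_mk, AddHom.coe_mk, LinearMap.smul_apply, Pi.smul_apply,
    smul_eq_mul, lapl, zero_mul, sub_zero, hd]
  congr 1
  refine Finset.sum_congr rfl fun y _ => ?_
  by_cases h : G.Adj x y <;> simp [h]

/-- labels of edges -/
noncomputable def edl (e0 : G.edgeSet) (x y : V) : G.edgeSet :=
  if h : G.Adj x y then ⟨s(x, y), h⟩ else e0

theorem edl_symm (e0 : G.edgeSet) (x y : V) : edl G e0 x y = edl G e0 y x := by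
  unfold edl
  by_cases h : G.Adj x y
  · rw [dif_pos h, dif_pos h.symm]
    exact Subtype.ext Sym2.eq_swap
  · rw [dif_neg h, dif_neg (fun h' => h h'.symm)]

include hd in
theorem fullGen_eq (hd0 : 0 < d) (e0 : G.edgeSet) (μ p : ℝ) : fullGen G μ p =
    (1 / (d:ℝ)) • gen (edl G e0) G.Adj (fun _ => 0) (d * μ) p := by
  classical
  have hd' : (d:ℝ) ≠ 0 := by positivity
  refine LinearMap.ext fun F => ?_
  funext z
  simp only [fullGen, LinearMap.coe_mk, AddHom.coe_mk, LinearMap.smul_apply, Pi.smul_apply,
    smul_eq_mul, gen, zero_mul, sub_zero, hd]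
  rw [mul_add, ← mul_assoc, ← mul_assoc, one_div_mul_cancel hd', one_mul]
  congr 1
  congr 1
  refine Finset.sum_congr rfl fun y _ => ?_
  by_cases h : G.Adj z.1 y
  · rw [dif_pos h]
    have h1 : edl G e0 z.1 y = ⟨s(z.1, y), h⟩ := by unfold edl; rw [dif_pos h]
    rw [h1]
    simp only [h, true_and]
  · rw [dif_neg h, if_neg (fun h' => h h'.1)]

/-- symmetries from graph automorphisms -/
noncomputable def autOf (e0 : G.edgeSet) (φ : G ≃g G) : Aut (edl G e0) G.Adj where
  φ := φ.toEquiv
  ψ := φ.mapEdgeSet
  h1 x y := φ.map_adj_iff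
  h2 x y h := by
    have h' : G.Adj (φ x) (φ y) := φ.map_adj_iff.2 h
    show edl G e0 (φ x) (φ y) = _
    unfold edl
    rw [dif_pos h, dif_pos h']
    rfl

/-! ### simple random walk -/

theorem plain_two (adj : V → V → Prop) (t : ℝ) (E0 : EB (lapl adj (fun _ => 0))) (x y : V) :
    plain adj (fun _ => 0) t x y = ∑ i, Real.exp (t * E0.l i) * (E0.w i x * E0.w i y) := by
  have h1 : plain adj (fun _ => 0) t x y =
      ip (Pi.single x 1) (sg (lapl adj (fun _ => 0)) t (Pi.single y 1)) := by
    rw [ip_single_left, plain]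
    have h2 : (fun z => if z = y then (1:ℝ) else 0) = Pi.single y 1 := by
      funext z
      rw [Pi.single_apply]
    rw [h2]
  rw [h1, E0.sg_form]
  refine Finset.sum_congr rfl fun i _ => ?_
  have h2 : ∀ x, ip (E0.w i) (Pi.single x 1) = E0.w i x := fun x => by rw [ip_comm, ip_single_left]
  rw [h2, h2]

theorem adj_symm' : ∀ x y, G.Adj x y → G.Adj y x := fun _ _ h => h.symm

include hd in
theorem srw_transition (t : ℝ) (x y : V) :
    transition (srwGen G) t x y = plain G.Adj (fun _ => 0) (t / d) x y := by
  classical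
  unfold transition plain
  rw [srwGen_eq G d hd, sg_smul]
  have : 1 / (d:ℝ) * t = t / d := by ring
  rw [this]

theorem const_of_form (hG : G.Connected) (f : V → ℝ)
    (hf : Sf G.Adj (fun _ => 0) f f = 0) (x y : V) : f x = f y := by
  classical
  have h1 : ∑ x, ∑ y, (if G.Adj x y then (f x - f y) * (f x - f y) else 0) = 0 := by
    unfold Sf at hf
    simp only [zero_mul, Finset.sum_const_zero, zero_add] at hf
    have h2 : (1:ℝ) / 2 ≠ 0 := by norm_num
    have h3 := (mul_eq_zero.1 hf).resolve_left h2
    refine (Finset.sum_congr rfl fun x _ => Finset.sum_congr rfl fun y _ => ?_).trans h3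
    by_cases h : G.Adj x y <;> simp [h]
  have h2 : ∀ x y, G.Adj x y → f x = f y := by
    intro x y h
    have h3 := (Finset.sum_eq_zero_iff_of_nonneg (fun x _ => Finset.sum_nonneg fun y _ => by
      split_ifs
      · exact mul_self_nonneg _
      · exact le_rfl)).1 h1 x (Finset.mem_univ x)
    have h4 := (Finset.sum_eq_zero_iff_of_nonneg (fun y _ => by
      split_ifs
      · exact mul_self_nonneg _
      · exact le_rfl)).1 h3 y (Finset.mem_univ y)
    rw [if_pos h] at h4
    have := mul_self_eq_zero.1 h4
    linarith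
  obtain ⟨w⟩ := hG.preconnected x y
  induction w with
  | nil => rfl
  | cons h _ ih => exact (h2 _ _ h).trans ih

/-- the walk converges to equilibrium -/
theorem srw_tendsto (hG : G.Connected) (x y : V) :
    Tendsto (fun t : ℝ => Fintype.card V * plain G.Adj (fun _ => 0) t x y) atTop (𝓝 1) := by
  classical
  have hne : Nonempty V := ⟨x⟩
  have hn : (0:ℝ) < Fintype.card V := by
    have : 0 < Fintype.card V := Fintype.card_pos
    exact_mod_cast this
  obtain ⟨E0⟩ := exists_eb (lapl G.Adj (fun _ => 0)) (lapl_symm _ (adj_symm' G) _)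
  obtain ⟨i0, hi0⟩ := exists_zero G.Adj E0
  have hform : ∀ i, E0.l i = 0 → ∀ x y, E0.w i x = E0.w i y := by
    intro i hi x y
    refine const_of_form G hG (E0.w i) ?_ x y
    have h2 := lapl_form G.Adj (adj_symm' G) (fun _ => 0) (E0.w i) (E0.w i)
    rw [E0.eig, ip_smul_right, E0.norm, mul_one] at h2
    linarith
  have hc0 := hform i0 hi0
  have hw0 : Fintype.card V * (E0.w i0 x * E0.w i0 x) = 1 := by
    have h1 := E0.norm i0
    rw [ip] at h1
    have h2 : ∀ z, E0.w i0 z * E0.w i0 z = E0.w i0 x * E0.w i0 x := fun z => by rw [hc0 z x]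
    rw [Finset.sum_congr rfl (fun z _ => h2 z), Finset.sum_const, Finset.card_univ, nsmul_eq_mul] at h1
    exact h1
  have hneg : ∀ i, i ≠ i0 → E0.l i < 0 := by
    intro i hi
    refine lt_of_le_of_ne (l0_nonpos G.Adj (adj_symm' G) E0 i) fun h => ?_
    have h1 := E0.orth i i0 hi
    have h2 : ∀ z, E0.w i z * E0.w i0 z = E0.w i x * E0.w i0 x := fun z => by
      rw [hc0 z x, hform i h z x]
    rw [ip, Finset.sum_congr rfl (fun z _ => h2 z), Finset.sum_const, Finset.card_univ,
      nsmul_eq_mul] at h1
    have h3 := (mul_eq_zero.1 h1).resolve_left hn.ne'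
    rcases mul_eq_zero.1 h3 with h4 | h4
    · have h5 := E0.norm i
      rw [ip] at h5
      have h6 : ∀ z, E0.w i z * E0.w i z = 0 := fun z => by rw [hform i h z x, h4, mul_zero]
      rw [Finset.sum_congr rfl (fun z _ => h6 z), Finset.sum_const_zero] at h5
      exact zero_ne_one h5
    · rw [h4, mul_zero, mul_zero] at hw0
      exact zero_ne_one hw0
  have h1 : ∀ t, Fintype.card V * plain G.Adj (fun _ => 0) t x y = 1 +
      ∑ i ∈ Finset.univ.erase i0, Fintype.card V * (Real.exp (t * E0.l i) * (E0.w i x * E0.w i y)) := by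
    intro t
    rw [plain_two G.Adj t E0, ← Finset.add_sum_erase _ _ (Finset.mem_univ i0), mul_add, hi0, mul_zero,
      Real.exp_zero, one_mul, hc0 y x, hw0, Finset.mul_sum]
  have h2 : Tendsto (fun t : ℝ => 1 + ∑ i ∈ Finset.univ.erase i0,
      Fintype.card V * (Real.exp (t * E0.l i) * (E0.w i x * E0.w i y))) atTop
      (𝓝 (1 + ∑ i ∈ Finset.univ.erase i0, Fintype.card V * (0 * (E0.w i x * E0.w i y)))) := by
    refine tendsto_const_nhds.add (tendsto_finsetSum _ fun i hi => ?_)
    refine Tendsto.const_mul _ (Tendsto.mul_const _ ?_)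
    refine Real.tendsto_exp_atBot.comp ?_
    exact Tendsto.atTop_mul_const_of_neg (hneg i (Finset.ne_of_mem_erase hi)) tendsto_id
  simp only [zero_mul, mul_zero, Finset.sum_const_zero, add_zero] at h2
  refine h2.congr fun t => ?_
  rw [h1]

include hd in
theorem srw_nonempty (hd0 : 0 < d) (hG : G.Connected) : (mixedSet (srwGen G) (unif V)).Nonempty := by
  classical
  have hne : Nonempty V := hG.nonempty
  have hn : (0:ℝ) < Fintype.card V := by
    have : 0 < Fintype.card V := Fintype.card_pos
    exact_mod_cast this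
  have hdp : (0:ℝ) < d := by exact_mod_cast hd0
  have h1 : ∀ᶠ t : ℝ in atTop, ∀ x y, |Fintype.card V * plain G.Adj (fun _ => 0) t x y - 1| ≤ 1 / 4 := by
    refine Filter.eventually_all.2 fun x => Filter.eventually_all.2 fun y => ?_
    have h2 := srw_tendsto G hG x y
    have h3 := (Metric.tendsto_nhds.1 h2) (1 / 4) (by norm_num)
    filter_upwards [h3] with t ht
    rw [Real.dist_eq] at ht
    exact ht.le
  obtain ⟨t, ht, ht0⟩ := (h1.and (eventually_ge_atTop 0)).exists
  refine ⟨d * t, by positivity, fun x y => ?_⟩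
  rw [srw_transition G d hd]
  have h2 : (d:ℝ) * t / d = t := by field_simp
  rw [h2, unif]
  have h3 : plain G.Adj (fun _ => 0) t x y / (1 / (Fintype.card V : ℝ)) =
      Fintype.card V * plain G.Adj (fun _ => 0) t x y := by field_simp
  rw [h3]
  exact ht x y

include hd in
/-- a mixed time is at least `(1/2) log |V|` -/
theorem srw_lower (hd0 : 0 < d) (hne : Nonempty V) (hcard : 2 ≤ Fintype.card V) (t : ℝ)
    (ht : t ∈ mixedSet (srwGen G) (unif V)) : (1 / 2) * Real.log (Fintype.card V) ≤ t := by
  classical
  obtain ⟨x⟩ := hne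
  have hn : (2:ℝ) ≤ Fintype.card V := by exact_mod_cast hcard
  have hdp : (0:ℝ) < d := by exact_mod_cast hd0
  have h1 := (abs_le.1 (ht.2 x x)).2
  rw [srw_transition G d hd, unif] at h1
  have h2 := plain_lower G.Adj (adj_symm' G) (fun _ => 0) (fun x => G.loopless.irrefl x) (t / d) x
  have h3 : (0:ℝ) + ∑ y, (@ite ℝ (G.Adj x y) (Classical.propDecidable _) (1:ℝ) 0) = d := by
    have h4 : ∑ y, (@ite ℝ (G.Adj x y) (Classical.propDecidable _) (1:ℝ) 0) = G.degree x := by
      rw [SimpleGraph.degree, SimpleGraph.neighborFinset_eq_filter, Finset.card_filter]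
      push_cast
      refine Finset.sum_congr rfl fun y _ => ?_
      by_cases h : G.Adj x y <;> simp [h]
    rw [h4, hd]; ring
  rw [h3] at h2
  have h5 : (d:ℝ) * (t / d) = t := by field_simp
  rw [h5] at h2
  have h6 : plain G.Adj (fun _ => 0) (t / d) x x / (1 / (Fintype.card V : ℝ)) =
      Fintype.card V * plain G.Adj (fun _ => 0) (t / d) x x := by field_simp
  rw [h6] at h1
  have h7 : Fintype.card V * Real.exp (-t) ≤ 5 / 4 := by nlinarith
  have h8 : (Fintype.card V : ℝ) ≤ 5 / 4 * Real.exp t := by
    have h9 : Real.exp (-t) * Real.exp t = 1 := by rw [← Real.exp_add]; simp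
    have h10 := mul_le_mul_of_nonneg_right h7 (Real.exp_pos t).le
    calc (Fintype.card V : ℝ) = Fintype.card V * (Real.exp (-t) * Real.exp t) := by rw [h9, mul_one]
      _ = Fintype.card V * Real.exp (-t) * Real.exp t := by ring
      _ ≤ _ := h10
  have h9 : (Fintype.card V : ℝ) ≤ Real.exp (2 * t) := by
    have h10 : Real.exp (2 * t) = Real.exp t * Real.exp t := by rw [← Real.exp_add]; congr 1; ring
    rw [h10]
    have h11 := Real.exp_pos t
    nlinarith
  have h10 := (Real.log_le_iff_le_exp (by linarith)).2 h9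
  linarith

include hd in
theorem srw_trace (hd0 : 0 < d) (hne : Nonempty V) (E0 : EB (lapl G.Adj (fun _ => 0))) (t : ℝ)
    (ht : t ∈ mixedSet (srwGen G) (unif V)) :
    ∑ i, Real.exp (t / d * E0.l i) - 1 ≤ 1 / 4 := by
  classical
  have hn : (0:ℝ) < Fintype.card V := by
    have : 0 < Fintype.card V := Fintype.card_pos
    exact_mod_cast this
  rw [← plain_trace G.Adj (fun _ => 0) (t / d) E0]
  have h1 : ∀ x, plain G.Adj (fun _ => 0) (t / d) x x ≤ (5 / 4) / Fintype.card V := by
    intro x
    have h2 := (abs_le.1 (ht.2 x x)).2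
    rw [srw_transition G d hd, unif] at h2
    have h6 : plain G.Adj (fun _ => 0) (t / d) x x / (1 / (Fintype.card V : ℝ)) =
        Fintype.card V * plain G.Adj (fun _ => 0) (t / d) x x := by field_simp
    rw [h6] at h2
    rw [le_div_iff₀ hn]; linarith
  have h2 := Finset.sum_le_sum fun (x : V) (_ : x ∈ Finset.univ) => h1 x
  rw [Finset.sum_const, Finset.card_univ, nsmul_eq_mul, mul_div_cancel₀ _ hn.ne'] at h2
  linarith

end

end Pool.H102.DM
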