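import Pool.Agent.H102R3.DMFin

set_option autoImplicit false
set_option linter.unusedSectionVars false

/-!
# The rotated generator, its quadratic form and coercivity
-/

namespace Pool.H102.DM

open Finset
open Pool.H102.DP (sg sg_hasSum sg_hasSum' sg_intertwine sg_shift sg_mono ip ip_comm ip_single_left ip_smul_left ip_smul_right ip_sum_right ip_self_nonneg EB exists_eb)

variable {U I : Type} [Fintype U] [DecidableEq U] [Fintype I] [DecidableEq I]

/-- `v · G` in the coordinate `e` -/
noncomputable def DD (p : ℝ) (e : I) (G : Cf I → ℝ) (ξ : Cf I) : ℝ :=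
  vv p false * G (Function.update ξ e false) + vv p true * G (Function.update ξ e true)

theorem DD_upd (p : ℝ) (e : I) (G : Cf I → ℝ) (ξ : Cf I) (c : Bool) :
    DD p e G (Function.update ξ e c) = DD p e G ξ := by
  simp only [DD, Function.update_idem]

theorem DD_sub (p : ℝ) (e : I) (G H : Cf I → ℝ) (ξ : Cf I) :
    DD p e (fun ξ => G ξ - H ξ) ξ = DD p e G ξ - DD p e H ξ := by
  simp only [DD]; ring

/-- number of excited coordinates -/
noncomputable def cnt (ξ : Cf I) : ℝ := ∑ e, if ξ e = true then (1:ℝ) else 0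

open Classical in
noncomputable def rgen (ed : U → U → I) (adj : U → U → Prop) (b : U → ℝ) (μ p : ℝ) :
    (U × Cf I → ℝ) →ₗ[ℝ] (U × Cf I → ℝ) where
  toFun F z := ∑ y, (if adj z.1 y then
      vv p (z.2 (ed z.1 y)) * DD p (ed z.1 y) (fun ξ => F (y, ξ) - F (z.1, ξ)) z.2 else 0)
     - b z.1 * F z - μ * cnt z.2 * F z
  map_add' F G := by
    funext z
    simp only [Pi.add_apply, DD]
    rw [show ∀ a b c d e f : ℝ, (a - b - c) + (d - e - f) = (a + d) - (b + e) - (c + f) from
      fun a b c d e f => by ring, ← Finset.sum_add_distrib]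
    congr 1
    · congr 1
      · refine Finset.sum_congr rfl fun y _ => ?_
        split_ifs <;> ring
      · ring
    · ring
  map_smul' c F := by
    funext z
    simp only [Pi.smul_apply, smul_eq_mul, RingHom.id_apply, DD]
    rw [mul_sub, mul_sub, Finset.mul_sum]
    congr 1
    · congr 1
      · refine Finset.sum_congr rfl fun y _ => ?_
        split_ifs <;> ring
      · ring
    · ring

/-- the change of basis -/
noncomputable def hat (p : ℝ) : (U × Cf I → ℝ) →ₗ[ℝ] (U × Cf I → ℝ) where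
  toFun F z := ∑ η, chi p z.2 η * F (z.1, η)
  map_add' F G := by
    funext z
    simp only [Pi.add_apply, mul_add, Finset.sum_add_distrib]
  map_smul' c F := by
    funext z
    simp only [Pi.smul_apply, smul_eq_mul, RingHom.id_apply, Finset.mul_sum]
    exact Finset.sum_congr rfl fun η _ => by ring

theorem hat_gen (ed : U → U → I) (adj : U → U → Prop) (b : U → ℝ) (μ p : ℝ) (hp : 0 ≤ p) (hp1 : p ≤ 1)
    (F : U × Cf I → ℝ) : hat p (gen ed adj b μ p F) = rgen ed adj b μ p (hat p F) := by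
  classical
  funext z
  obtain ⟨x, ξ⟩ := z
  have h1 : ∀ y, ∑ η, chi p ξ η * (if adj x y ∧ η (ed x y) = true then F (y, η) - F (x, η) else 0) =
      if adj x y then vv p (ξ (ed x y)) * DD p (ed x y) (fun ξ => hat p F (y, ξ) - hat p F (x, ξ)) ξ
        else 0 := by
    intro y
    by_cases hxy : adj x y
    · simp only [hxy, true_and, if_true]
      rw [open_hat p hp hp1 (ed x y) ξ (fun η => F (y, η) - F (x, η))]
      simp only [DD, hat, LinearMap.coe_mk, AddHom.coe_mk, mul_sub, Finset.sum_sub_distrib]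
    · simp [hxy]
  have h2 : ∀ e, ∑ η, chi p ξ η * ((1 - p) * F (x, Function.update η e false)
        + p * F (x, Function.update η e true) - F (x, η)) =
        - ((if ξ e = true then (1:ℝ) else 0) * hat p F (x, ξ)) := by
    intro e
    have h3 := resample_hat p e ξ (fun η => F (x, η))
    simp only [mul_sub, Finset.sum_sub_distrib]
    rw [h3]
    simp only [hat, LinearMap.coe_mk, AddHom.coe_mk]
    split_ifs <;> ring
  have h4 : ∑ η, chi p ξ η * ∑ y, (if adj x y ∧ η (ed x y) = true then F (y, η) - F (x, η) else 0) =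
      ∑ y, (if adj x y then vv p (ξ (ed x y)) *
        DD p (ed x y) (fun ξ => hat p F (y, ξ) - hat p F (x, ξ)) ξ else 0) := by
    simp only [Finset.mul_sum]
    rw [Finset.sum_comm]
    exact Finset.sum_congr rfl fun y _ => h1 y
  have h5 : ∑ η, chi p ξ η * (μ * ∑ e, ((1 - p) * F (x, Function.update η e false)
        + p * F (x, Function.update η e true) - F (x, η))) = - (μ * cnt ξ * hat p F (x, ξ)) := by
    have h6 : ∀ η, chi p ξ η * (μ * ∑ e, ((1 - p) * F (x, Function.update η e false)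
        + p * F (x, Function.update η e true) - F (x, η))) =
        μ * ∑ e, chi p ξ η * ((1 - p) * F (x, Function.update η e false)
        + p * F (x, Function.update η e true) - F (x, η)) := by
      intro η
      rw [← Finset.mul_sum]; ring
    rw [Finset.sum_congr rfl (fun η _ => h6 η), ← Finset.mul_sum, Finset.sum_comm,
      Finset.sum_congr rfl (fun e _ => h2 e), Finset.sum_neg_distrib, ← Finset.sum_mul]
    rw [cnt]; ring
  show ∑ η, chi p ξ η * gen ed adj b μ p F (x, η) = _
  have h7 : ∀ η, chi p ξ η * gen ed adj b μ p F (x, η) =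
      chi p ξ η * ∑ y, (if adj x y ∧ η (ed x y) = true then F (y, η) - F (x, η) else 0)
      - b x * (chi p ξ η * F (x, η))
      + chi p ξ η * (μ * ∑ e, ((1 - p) * F (x, Function.update η e false)
        + p * F (x, Function.update η e true) - F (x, η))) := by
    intro η
    simp only [gen, LinearMap.coe_mk, AddHom.coe_mk]
    ring
  rw [Finset.sum_congr rfl (fun η _ => h7 η), Finset.sum_add_distrib, Finset.sum_sub_distrib, h4, h5,
    ← Finset.mul_sum]
  simp only [rgen, LinearMap.coe_mk, AddHom.coe_mk]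
  have h8 : ∑ η, chi p ξ η * F (x, η) = hat p F (x, ξ) := rfl
  rw [h8]
  ring

open Classical in
/-- the quadratic form -/
noncomputable def Bf (ed : U → U → I) (adj : U → U → Prop) (b : U → ℝ) (μ p : ℝ) (F G : U × Cf I → ℝ) : ℝ :=
  ∑ x, ∑ ξ, b x * (F (x, ξ) * G (x, ξ)) + μ * ∑ x, ∑ ξ, cnt ξ * (F (x, ξ) * G (x, ξ))
    + (1/4) * ∑ x, ∑ y, if adj x y then
      ∑ ξ, DD p (ed x y) (fun ξ => F (x, ξ) - F (y, ξ)) ξ * DD p (ed x y) (fun ξ => G (x, ξ) - G (y, ξ)) ξ
      else 0

theorem ip_prod (F G : U × Cf I → ℝ) : ip F G = ∑ x, ∑ ξ, F (x, ξ) * G (x, ξ) := by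
  rw [ip, Fintype.sum_prod_type]

theorem form_eq (ed : U → U → I) (adj : U → U → Prop) (hed : ∀ x y, ed x y = ed y x) (hadj : ∀ x y, adj x y → adj y x) (b : U → ℝ) (μ p : ℝ)
    (F G : U × Cf I → ℝ) : ip F (rgen ed adj b μ p G) = - Bf ed adj b μ p F G := by
  classical
  have h1 : ∀ x y, ∑ ξ, F (x, ξ) * (vv p (ξ (ed x y)) *
      DD p (ed x y) (fun ξ => G (y, ξ) - G (x, ξ)) ξ) =
      (1/2) * ∑ ξ, DD p (ed x y) (fun ξ => F (x, ξ)) ξ *
        DD p (ed x y) (fun ξ => G (y, ξ) - G (x, ξ)) ξ := by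
    intro x y
    have h2 := sum_upd (ed x y) (fun ξ => F (x, ξ) * (vv p (ξ (ed x y)) *
      DD p (ed x y) (fun ξ => G (y, ξ) - G (x, ξ)) ξ))
    simp only [DD_upd, Function.update_self] at h2
    have h3 : ∀ ξ, F (x, Function.update ξ (ed x y) false) * (vv p false *
        DD p (ed x y) (fun ξ => G (y, ξ) - G (x, ξ)) ξ) +
        F (x, Function.update ξ (ed x y) true) * (vv p true *
        DD p (ed x y) (fun ξ => G (y, ξ) - G (x, ξ)) ξ) =
        DD p (ed x y) (fun ξ => F (x, ξ)) ξ * DD p (ed x y) (fun ξ => G (y, ξ) - G (x, ξ)) ξ := by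
      intro ξ
      have : DD p (ed x y) (fun ξ => F (x, ξ)) ξ = vv p false * F (x, Function.update ξ (ed x y) false)
        + vv p true * F (x, Function.update ξ (ed x y) true) := rfl
      rw [this]; ring
    rw [Finset.sum_congr rfl (fun ξ _ => h3 ξ)] at h2
    linarith
  have h4 : ∑ x, ∑ ξ, F (x, ξ) * ∑ y, (if adj x y then vv p (ξ (ed x y)) *
      DD p (ed x y) (fun ξ => G (y, ξ) - G (x, ξ)) ξ else 0) =
      - ((1/4) * ∑ x, ∑ y, if adj x y then
      ∑ ξ, DD p (ed x y) (fun ξ => F (x, ξ) - F (y, ξ)) ξ * DD p (ed x y) (fun ξ => G (x, ξ) - G (y, ξ)) ξ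
      else 0) := by
    have h5 : ∀ x, ∑ ξ, F (x, ξ) * ∑ y, (if adj x y then vv p (ξ (ed x y)) *
        DD p (ed x y) (fun ξ => G (y, ξ) - G (x, ξ)) ξ else 0) =
        ∑ y, (if adj x y then (1/2) * ∑ ξ, DD p (ed x y) (fun ξ => F (x, ξ)) ξ *
        DD p (ed x y) (fun ξ => G (y, ξ) - G (x, ξ)) ξ else 0) := by
      intro x
      simp only [Finset.mul_sum]
      rw [Finset.sum_comm]
      refine Finset.sum_congr rfl fun y _ => ?_
      by_cases hxy : adj x y
      · simp only [hxy, if_true]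
        rw [h1, Finset.mul_sum]
      · simp [hxy]
    rw [Finset.sum_congr rfl (fun x _ => h5 x)]
    have h6 : ∑ x, ∑ y, (if adj x y then (1/2) * ∑ ξ, DD p (ed x y) (fun ξ => F (x, ξ)) ξ *
        DD p (ed x y) (fun ξ => G (y, ξ) - G (x, ξ)) ξ else 0) =
        ∑ x, ∑ y, (if adj x y then (1/2) * ∑ ξ, DD p (ed x y) (fun ξ => F (y, ξ)) ξ *
        DD p (ed x y) (fun ξ => G (x, ξ) - G (y, ξ)) ξ else 0) := by
      rw [Finset.sum_comm]
      refine Finset.sum_congr rfl fun x _ => Finset.sum_congr rfl fun y _ => ?_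
      have h7 : (ed y x) = (ed x y) := hed _ _
      by_cases hxy : adj x y
      · rw [if_pos hxy, if_pos (hadj _ _ hxy), h7]
      · rw [if_neg hxy, if_neg (fun h => hxy (hadj _ _ h))]
    have h8 : ∑ x, ∑ y, (if adj x y then (1/2) * ∑ ξ, DD p (ed x y) (fun ξ => F (x, ξ)) ξ *
        DD p (ed x y) (fun ξ => G (y, ξ) - G (x, ξ)) ξ else 0) +
        ∑ x, ∑ y, (if adj x y then (1/2) * ∑ ξ, DD p (ed x y) (fun ξ => F (y, ξ)) ξ *
        DD p (ed x y) (fun ξ => G (x, ξ) - G (y, ξ)) ξ else 0) =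
        - ((1/2) * ∑ x, ∑ y, if adj x y then
      ∑ ξ, DD p (ed x y) (fun ξ => F (x, ξ) - F (y, ξ)) ξ * DD p (ed x y) (fun ξ => G (x, ξ) - G (y, ξ)) ξ
      else 0) := by
      rw [← Finset.sum_add_distrib, Finset.mul_sum, ← Finset.sum_neg_distrib]
      refine Finset.sum_congr rfl fun x _ => ?_
      rw [← Finset.sum_add_distrib, Finset.mul_sum, ← Finset.sum_neg_distrib]
      refine Finset.sum_congr rfl fun y _ => ?_
      by_cases hxy : adj x y
      · simp only [hxy, if_true]
        rw [← mul_add, ← Finset.sum_add_distrib, ← mul_neg, ← Finset.sum_neg_distrib]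
        congr 1
        refine Finset.sum_congr rfl fun ξ _ => ?_
        simp only [DD_sub]
        ring
      · simp [hxy]
    linarith
  rw [ip_prod]
  have h9 : ∀ x ξ, F (x, ξ) * rgen ed adj b μ p G (x, ξ) =
      F (x, ξ) * ∑ y, (if adj x y then vv p (ξ (ed x y)) *
        DD p (ed x y) (fun ξ => G (y, ξ) - G (x, ξ)) ξ else 0) - b x * (F (x, ξ) * G (x, ξ))
        - μ * (cnt ξ * (F (x, ξ) * G (x, ξ))) := by
    intro x ξ
    simp only [rgen, LinearMap.coe_mk, AddHom.coe_mk]
    ring
  simp only [h9, Finset.sum_sub_distrib]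
  rw [h4, Bf]
  simp only [← Finset.mul_sum]
  ring

theorem rgen_symm (ed : U → U → I) (adj : U → U → Prop) (hed : ∀ x y, ed x y = ed y x) (hadj : ∀ x y, adj x y → adj y x) (b : U → ℝ) (μ p : ℝ)
    (F G : U × Cf I → ℝ) : ip F (rgen ed adj b μ p G) = ip (rgen ed adj b μ p F) G := by
  classical
  rw [ip_comm (rgen ed adj b μ p F) G, form_eq ed adj hed hadj, form_eq ed adj hed hadj, Bf, Bf]
  congr 2
  · congr 1
    · exact Finset.sum_congr rfl fun x _ => Finset.sum_congr rfl fun ξ _ => by ring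
    · congr 1
      exact Finset.sum_congr rfl fun x _ => Finset.sum_congr rfl fun ξ _ => by ring
  · congr 1
    refine Finset.sum_congr rfl fun x _ => Finset.sum_congr rfl fun y _ => ?_
    split_ifs
    · exact Finset.sum_congr rfl fun ξ _ => by ring
    · rfl

end Pool.H102.DM
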