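import Pool.Agent.H102R3.DMCoer

set_option autoImplicit false
set_option linter.unusedSectionVars false

/-!
# Trace of the full process
-/

namespace Pool.H102.DM

open Finset
open Pool.H102.DP (sg sg_hasSum sg_hasSum' sg_intertwine sg_shift sg_mono ip ip_comm ip_single_left ip_smul_left ip_smul_right ip_sum_right ip_self_nonneg EB exists_eb lapl Sf lapl_form lapl_symm Sf_spec)

variable {U I : Type} [Fintype U] [DecidableEq U] [Fintype I] [DecidableEq I]

theorem norm_split (F : U × Cf I → ℝ) :
    ip F F = ∑ x, (F (x, z0)) ^ 2 + ∑ x, gn F x := by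
  classical
  rw [ip_prod, ← Finset.sum_add_distrib]
  refine Finset.sum_congr rfl fun x _ => ?_
  unfold gn
  rw [← Finset.add_sum_erase _ _ (Finset.mem_univ z0), ← Finset.add_sum_erase (s := Finset.univ)
    (f := fun ξ => if ξ = z0 then 0 else F (x, ξ) ^ 2) (a := z0) (h := Finset.mem_univ z0)]
  simp only [if_true, zero_add]
  congr 1
  · ring
  · refine Finset.sum_congr rfl fun ξ hξ => ?_
    rw [if_neg (Finset.ne_of_mem_erase hξ)]; ring

section
variable (ed : U → U → I) (adj : U → U → Prop) (b : U → ℝ) (μ p : ℝ)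

theorem Bf_spec (E : EB (rgen ed adj b μ p)) (hed : ∀ x y, ed x y = ed y x)
    (hadj : ∀ x y, adj x y → adj y x) (F : U × Cf I → ℝ) :
    Bf ed adj b μ p F F = ∑ i, (- E.l i) * (ip (E.w i) F) ^ 2 := by
  have h1 := form_eq ed adj hed hadj b μ p F F
  rw [E.form] at h1
  have h2 : Bf ed adj b μ p F F = - ∑ i, E.l i * (ip (E.w i) F * ip (E.w i) F) := by linarith
  rw [h2, ← Finset.sum_neg_distrib]
  exact Finset.sum_congr rfl fun _ _ => by ring

/-- counting eigenvalues -/
theorem counting (E : EB (rgen ed adj b μ p)) (E0 : EB (lapl adj b)) (hed : ∀ x y, ed x y = ed y x)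
    (hadj : ∀ x y, adj x y → adj y x) (a c : ℝ)
    (hc : ∀ F : U × Cf I → ℝ, a * Sf adj b (fun x => F (x, z0)) (fun x => F (x, z0)) +
      c * ∑ x, gn F x ≤ Bf ed adj b μ p F F) (lam : ℝ) (hlam : lam < c) :
    (Finset.univ.filter fun k => - E.l k ≤ lam).card ≤
      (Finset.univ.filter fun i => a * (- E0.l i) ≤ lam).card := by
  classical
  set K := Finset.univ.filter fun k => - E.l k ≤ lam with hK
  set J := Finset.univ.filter fun i => a * (- E0.l i) ≤ lam with hJ
  let comb : (K → ℝ) →ₗ[ℝ] (U × Cf I → ℝ) :=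
    { toFun := fun a => ∑ k : K, a k • E.w k
      map_add' := fun a a' => by simp [add_smul, Finset.sum_add_distrib]
      map_smul' := fun r a => by simp [mul_smul, Finset.smul_sum] }
  let Φ : (K → ℝ) →ₗ[ℝ] (J → ℝ) :=
    { toFun := fun a i => ip (E0.w i) (fun x => comb a (x, z0))
      map_add' := fun a a' => by
        funext i
        simp only [map_add, Pi.add_apply, ip, mul_add, Finset.sum_add_distrib]
      map_smul' := fun r a => by
        funext i
        simp only [map_smul, Pi.smul_apply, smul_eq_mul, ip, RingHom.id_apply, Finset.mul_sum]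
        exact Finset.sum_congr rfl fun _ _ => by ring }
  have hcoef : ∀ (a : K → ℝ) (k : U × Cf I), ip (E.w k) (comb a) =
      if h : k ∈ K then a ⟨k, h⟩ else 0 := by
    intro a k
    show ip (E.w k) (∑ k' : K, a k' • E.w k') = _
    rw [ip_sum_right]
    by_cases h : k ∈ K
    · rw [dif_pos h, Finset.sum_eq_single ⟨k, h⟩]
      · rw [ip_smul_right, E.norm, mul_one]
      · intro k' _ hk'
        rw [ip_smul_right, E.orth _ _ (fun h' => hk' (Subtype.ext h'.symm)), mul_zero]
      · intro h'; exact absurd (Finset.mem_univ _) h'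
    · rw [dif_neg h]
      refine Finset.sum_eq_zero fun k' _ => ?_
      have hne : k ≠ k'.1 := fun h' => h (by rw [h']; exact k'.2)
      rw [ip_smul_right, E.orth _ _ hne, mul_zero]
  have hinj : Function.Injective Φ := by
    rw [← LinearMap.ker_eq_bot, LinearMap.ker_eq_bot']
    intro v hv
    set F := comb v with hF
    set f : U → ℝ := fun x => F (x, z0) with hf
    have h1 : ∀ i ∈ J, ip (E0.w i) f = 0 := fun i hi => congrFun hv ⟨i, hi⟩
    have h2 : Bf ed adj b μ p F F ≤ lam * ip F F := by
      rw [Bf_spec ed adj b μ p E hed hadj, E.parseval F F, Finset.mul_sum]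
      refine Finset.sum_le_sum fun k _ => ?_
      by_cases hk : k ∈ K
      · have h3 : - E.l k ≤ lam := (Finset.mem_filter.1 hk).2
        have h4 := mul_le_mul_of_nonneg_right h3 (sq_nonneg (ip (E.w k) F))
        linarith [h4, sq (ip (E.w k) F)]
      · rw [hF, hcoef, dif_neg hk]; simp
    have h5 := hc F
    have h6 := norm_split F
    have h7 : ∑ x, (F (x, z0)) ^ 2 = ∑ i, (ip (E0.w i) f) ^ 2 := by
      have h8 := E0.parseval f f
      have h9 : ip f f = ∑ x, (F (x, z0)) ^ 2 := Finset.sum_congr rfl fun _ _ => by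
        show _ * _ = _
        ring
      rw [← h9, h8]
      exact Finset.sum_congr rfl fun _ _ => by ring
    have h10 := Sf_spec adj b E0 hadj f
    have h11 : a * Sf adj b f f - lam * ∑ x, (F (x, z0)) ^ 2 =
        ∑ i, (a * (- E0.l i) - lam) * (ip (E0.w i) f) ^ 2 := by
      rw [h10, h7, Finset.mul_sum, Finset.mul_sum, ← Finset.sum_sub_distrib]
      exact Finset.sum_congr rfl fun _ _ => by ring
    have h12 : ∀ i, 0 ≤ (a * (- E0.l i) - lam) * (ip (E0.w i) f) ^ 2 := by
      intro i
      by_cases hi : i ∈ J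
      · rw [h1 i hi]; simp
      · have : lam < a * (- E0.l i) := by
          by_contra h
          exact hi (Finset.mem_filter.2 ⟨Finset.mem_univ _, not_lt.1 h⟩)
        exact mul_nonneg (by linarith) (sq_nonneg _)
    have h13 : 0 ≤ ∑ i, (a * (- E0.l i) - lam) * (ip (E0.w i) f) ^ 2 :=
      Finset.sum_nonneg fun i _ => h12 i
    have h14 : 0 ≤ ∑ x, gn F x := Finset.sum_nonneg fun x _ => gn_nonneg _ x
    have h15 : (c - lam) * ∑ x, gn F x + ∑ i, (a * (- E0.l i) - lam) * (ip (E0.w i) f) ^ 2 ≤ 0 := by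
      rw [← h11]
      rw [h6] at h2
      have : a * Sf adj b f f + c * ∑ x, gn F x ≤ lam * (∑ x, F (x, z0) ^ 2 + ∑ x, gn F x) :=
        h5.trans h2
      linarith
    have h16 : ∑ x, gn F x = 0 := by
      by_contra hne
      have : 0 < ∑ x, gn F x := lt_of_le_of_ne h14 (Ne.symm hne)
      have := mul_pos (sub_pos.2 hlam) this
      linarith
    have h17 : ∑ i, (a * (- E0.l i) - lam) * (ip (E0.w i) f) ^ 2 = 0 := by
      rw [h16, mul_zero] at h15
      linarith
    have h18 : ∀ i, ip (E0.w i) f = 0 := by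
      intro i
      by_cases hi : i ∈ J
      · exact h1 i hi
      · have h19 := (Finset.sum_eq_zero_iff_of_nonneg (fun i _ => h12 i)).1 h17 i (Finset.mem_univ i)
        have : lam < a * (- E0.l i) := by
          by_contra h
          exact hi (Finset.mem_filter.2 ⟨Finset.mem_univ _, not_lt.1 h⟩)
        rcases mul_eq_zero.1 h19 with h | h
        · exfalso; linarith
        · exact pow_eq_zero_iff two_ne_zero |>.1 h
    have h20 : ip F F = 0 := by
      rw [h6, h7, h16]
      simp [h18]
    funext k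
    have h21 : ip F F = ∑ k', (ip (E.w k') F) ^ 2 := by
      rw [E.parseval]; exact Finset.sum_congr rfl fun _ _ => by ring
    rw [h21] at h20
    have h22 := (Finset.sum_eq_zero_iff_of_nonneg (fun _ _ => sq_nonneg _)).1 h20 k.1 (Finset.mem_univ _)
    have h23 := pow_eq_zero_iff two_ne_zero |>.1 h22
    rw [hF, hcoef, dif_pos k.2] at h23
    exact h23
  have := LinearMap.finrank_le_finrank_of_injective hinj
  simpa using this

/-- trace of the number operator -/
theorem sum_exp_cnt (s : ℝ) : ∑ ξ : Cf I, Real.exp (-(s * cnt ξ)) =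
    (1 + Real.exp (-s)) ^ Fintype.card I := by
  have h1 : ∀ ξ : Cf I, Real.exp (-(s * cnt ξ)) = ∏ e, (if ξ e = true then Real.exp (-s) else 1) := by
    intro ξ
    rw [cnt, Finset.mul_sum, ← Finset.sum_neg_distrib, Real.exp_sum]
    refine Finset.prod_congr rfl fun e _ => ?_
    split_ifs <;> simp
  rw [Finset.sum_congr rfl (fun ξ _ => h1 ξ)]
  have h4 : ∑ η : Cf I, ∏ e, (if η e = true then Real.exp (-s) else 1) =
      ∏ e : I, ∑ c : Bool, (if c = true then Real.exp (-s) else 1) := by
    rw [Finset.prod_univ_sum, Fintype.piFinset_univ]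
  rw [h4]
  simp [add_comm]

/-- the trace of the full semigroup is at most the trace of the environment dynamics -/
theorem trace_env (hb : ∀ x, 0 ≤ b x) (E : EB (rgen ed adj b μ p))
    (hed : ∀ x y, ed x y = ed y x) (hadj : ∀ x y, adj x y → adj y x) (t : ℝ) (ht : 0 ≤ t) :
    ∑ k, Real.exp (t * E.l k) ≤
      Fintype.card U * (1 + Real.exp (-(μ * t))) ^ Fintype.card I := by
  classical
  have h1 : ∀ k, Real.exp (t * E.l k) ≤ ∑ z, (E.w k z * E.w k z) * Real.exp (-(μ * t * cnt z.2)) := by
    intro k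
    have hBn : μ * ∑ z : U × Cf I, cnt z.2 * (E.w k z * E.w k z) ≤ - E.l k := by
      have h2 := form_eq ed adj hed hadj b μ p (E.w k) (E.w k)
      rw [E.eig, ip_smul_right, E.norm, mul_one] at h2
      have h3 : μ * ∑ z : U × Cf I, cnt z.2 * (E.w k z * E.w k z) ≤
          Bf ed adj b μ p (E.w k) (E.w k) := by
        rw [Bf, Fintype.sum_prod_type]
        have h4 : 0 ≤ ∑ x, ∑ ξ, b x * (E.w k (x, ξ) * E.w k (x, ξ)) :=
          Finset.sum_nonneg fun x _ => Finset.sum_nonneg fun ξ _ =>
            mul_nonneg (hb x) (mul_self_nonneg _)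
        have h5 : 0 ≤ ∑ x, ∑ y, (if adj x y then
            ∑ ξ, DD p (ed x y) (fun ξ => E.w k (x, ξ) - E.w k (y, ξ)) ξ *
              DD p (ed x y) (fun ξ => E.w k (x, ξ) - E.w k (y, ξ)) ξ else 0) :=
          Finset.sum_nonneg fun x _ => Finset.sum_nonneg fun y _ => by
            split_ifs
            · exact Finset.sum_nonneg fun ξ _ => mul_self_nonneg _
            · exact le_rfl
        simp only
        linarith
      linarith
    have hw1 : ∑ z, E.w k z * E.w k z = 1 := E.norm k
    have h6 := convexOn_exp.map_sum_le (t := Finset.univ) (w := fun z => E.w k z * E.w k z)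
      (p := fun z => -(μ * t * cnt z.2)) (fun i _ => mul_self_nonneg _) hw1 (fun i _ => Set.mem_univ _)
    simp only [smul_eq_mul] at h6
    refine le_trans (Real.exp_le_exp.2 ?_) h6
    have h7 : ∑ z, E.w k z * E.w k z * -(μ * t * cnt z.2) =
        - (t * (μ * ∑ z : U × Cf I, cnt z.2 * (E.w k z * E.w k z))) := by
      rw [Finset.mul_sum, Finset.mul_sum, ← Finset.sum_neg_distrib]
      exact Finset.sum_congr rfl fun z _ => by ring
    rw [h7]
    have := mul_le_mul_of_nonneg_left hBn ht
    linarith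
  have h2 : ∀ z : U × Cf I, ∑ k, E.w k z * E.w k z = 1 := by
    intro z
    have h3 := E.parseval (Pi.single z 1) (Pi.single z 1)
    have h4 : ∀ k, ip (E.w k) (Pi.single z 1) = E.w k z := by
      intro k
      rw [ip_comm, ip_single_left]
    rw [ip_single_left] at h3
    simp only [h4] at h3
    rw [← h3]; simp
  calc ∑ k, Real.exp (t * E.l k) ≤
      ∑ k, ∑ z, (E.w k z * E.w k z) * Real.exp (-(μ * t * cnt z.2)) :=
        Finset.sum_le_sum fun k _ => h1 k
    _ = ∑ z, (∑ k, E.w k z * E.w k z) * Real.exp (-(μ * t * cnt z.2)) := by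
        rw [Finset.sum_comm]
        exact Finset.sum_congr rfl fun z _ => by rw [Finset.sum_mul]
    _ = ∑ z : U × Cf I, Real.exp (-(μ * t * cnt z.2)) :=
        Finset.sum_congr rfl fun z _ => by rw [h2, one_mul]
    _ = ∑ x : U, ∑ ξ : Cf I, Real.exp (-(μ * t * cnt ξ)) := by rw [Fintype.sum_prod_type]
    _ = Fintype.card U * (1 + Real.exp (-(μ * t))) ^ Fintype.card I := by
        rw [Finset.sum_congr rfl (fun x _ => sum_exp_cnt (I := I) (μ * t)), Finset.sum_const,
          Finset.card_univ, nsmul_eq_mul]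

/-- **upper bound** of the full trace -/
theorem trace_upper (hb : ∀ x, 0 ≤ b x) (E : EB (rgen ed adj b μ p)) (E0 : EB (lapl adj b))
    (hed : ∀ x y, ed x y = ed y x) (hadj : ∀ x y, adj x y → adj y x) (a c : ℝ)
    (hc : ∀ F : U × Cf I → ℝ, a * Sf adj b (fun x => F (x, z0)) (fun x => F (x, z0)) +
      c * ∑ x, gn F x ≤ Bf ed adj b μ p F F) (t : ℝ) (ht : 0 ≤ t) :
    ∑ k, Real.exp (2 * t * E.l k) ≤
      ∑ i, Real.exp (2 * t * a * E0.l i) + Real.exp (-(c * t)) *
        (Fintype.card U * (1 + Real.exp (-(μ * t))) ^ Fintype.card I) := by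
  classical
  let J : Finset (U × Cf I) := Finset.univ.filter fun k => - E.l k < c
  have h1 : ∑ k, Real.exp (2 * t * E.l k) =
      ∑ k ∈ J, Real.exp (2 * t * E.l k) + ∑ k ∈ Jᶜ, Real.exp (2 * t * E.l k) :=
    (Finset.sum_add_sum_compl J _).symm
  have h2 : ∑ k ∈ Jᶜ, Real.exp (2 * t * E.l k) ≤ Real.exp (-(c * t)) *
        (Fintype.card U * (1 + Real.exp (-(μ * t))) ^ Fintype.card I) := by
    calc ∑ k ∈ Jᶜ, Real.exp (2 * t * E.l k) ≤
        ∑ k ∈ Jᶜ, Real.exp (-(c * t)) * Real.exp (t * E.l k) := by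
          refine Finset.sum_le_sum fun k hk => ?_
          rw [← Real.exp_add]
          refine Real.exp_le_exp.2 ?_
          have h3 : c ≤ - E.l k := by
            by_contra h
            exact (Finset.mem_compl.1 hk) (Finset.mem_filter.2 ⟨Finset.mem_univ _, not_le.1 h⟩)
          nlinarith
      _ = Real.exp (-(c * t)) * ∑ k ∈ Jᶜ, Real.exp (t * E.l k) := by rw [Finset.mul_sum]
      _ ≤ Real.exp (-(c * t)) * ∑ k, Real.exp (t * E.l k) := by
          refine mul_le_mul_of_nonneg_left ?_ (Real.exp_nonneg _)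
          exact Finset.sum_le_sum_of_subset_of_nonneg (Finset.subset_univ _)
            fun k _ _ => Real.exp_nonneg _
      _ ≤ _ := mul_le_mul_of_nonneg_left (trace_env ed adj b μ p hb E hed hadj t ht)
          (Real.exp_nonneg _)
  -- matching
  let tt : J → Finset U := fun k => Finset.univ.filter fun i => a * (- E0.l i) ≤ - E.l k
  obtain ⟨σ, hσ, hσ'⟩ := (Finset.all_card_le_biUnion_card_iff_exists_injective tt).1 (by
    intro s
    rcases s.eq_empty_or_nonempty with h | h
    · simp [h]
    · obtain ⟨k, hk, hmax⟩ := Finset.exists_max_image s (fun k => - E.l k.1) h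
      have h3 : s.card ≤ (Finset.univ.filter fun k' : U × Cf I => - E.l k' ≤ - E.l k.1).card := by
        rw [← Finset.card_map (Function.Embedding.subtype _)]
        refine Finset.card_le_card fun k' hk' => ?_
        obtain ⟨k'', hk'', rfl⟩ := Finset.mem_map.1 hk'
        exact Finset.mem_filter.2 ⟨Finset.mem_univ _, hmax k'' hk''⟩
      have h4 := counting ed adj b μ p E E0 hed hadj a c hc (- E.l k.1) ((Finset.mem_filter.1 k.2).2)
      refine h3.trans (h4.trans (Finset.card_le_card ?_))
      exact Finset.subset_biUnion_of_mem tt hk)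
  have h5 : ∑ k ∈ J, Real.exp (2 * t * E.l k) ≤ ∑ i, Real.exp (2 * t * a * E0.l i) := by
    calc ∑ k ∈ J, Real.exp (2 * t * E.l k)
        = ∑ k : J, Real.exp (2 * t * E.l k) := (Finset.sum_coe_sort J _).symm
      _ ≤ ∑ k : J, Real.exp (2 * t * a * E0.l (σ k)) := by
          refine Finset.sum_le_sum fun k _ => Real.exp_le_exp.2 ?_
          have h6 := (Finset.mem_filter.1 (hσ' k)).2
          nlinarith
      _ = ∑ i ∈ Finset.univ.image σ, Real.exp (2 * t * a * E0.l i) := by
          rw [Finset.sum_image (fun a _ b _ hab => hσ hab)]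
      _ ≤ ∑ i, Real.exp (2 * t * a * E0.l i) :=
          Finset.sum_le_sum_of_subset_of_nonneg (Finset.subset_univ _) fun _ _ _ => Real.exp_nonneg _
  linarith

end

end Pool.H102.DM
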