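import Pool.Agent.H102R3.DMTrace

set_option autoImplicit false
set_option linter.unusedSectionVars false

/-!
# Unitarity of the change of basis, transition densities
-/

namespace Pool.H102.DM

open Finset
open Pool.H102.DP (sg sg_hasSum sg_hasSum' sg_intertwine sg_shift sg_mono ip ip_comm ip_single_left ip_smul_left ip_smul_right ip_sum_right ip_self_nonneg EB exists_eb lapl Sf lapl_form lapl_symm Sf_spec)

/-! ### general facts on semigroups -/

section general

variable {Z : Type} [Fintype Z]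

theorem sg_add (A : (Z → ℝ) →ₗ[ℝ] (Z → ℝ)) (s t : ℝ) (F : Z → ℝ) :
    sg A (s + t) F = sg A s (sg A t F) := by
  have h2 : Commute (s • LinearMap.toContinuousLinearMap A) (t • LinearMap.toContinuousLinearMap A) :=
    (Commute.refl (LinearMap.toContinuousLinearMap A)).smul_left s |>.smul_right t
  unfold sg
  let _ : NormedAlgebra ℚ ((Z → ℝ) →L[ℝ] (Z → ℝ)) := NormedAlgebra.restrictScalars ℚ ℝ _
  rw [add_smul, NormedSpace.exp_add_of_commute h2]
  rfl

theorem sg_expand [DecidableEq Z] (A : (Z → ℝ) →ₗ[ℝ] (Z → ℝ)) (t : ℝ) (F : Z → ℝ) (z : Z) :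
    sg A t F z = ∑ w, sg A t (Pi.single w 1) z * F w := by
  have h1 : F = ∑ w, F w • (Pi.single w (1:ℝ) : Z → ℝ) := by
    funext v
    rw [Finset.sum_apply]
    simp [Pi.single_apply]
  conv_lhs => rw [h1]
  rw [map_sum, Finset.sum_apply]
  refine Finset.sum_congr rfl fun w _ => ?_
  rw [map_smul, Pi.smul_apply, smul_eq_mul, mul_comm]

theorem sg_kernel_nonneg (A : (Z → ℝ) →ₗ[ℝ] (Z → ℝ)) (c : ℝ)
    (hA : ∀ F : Z → ℝ, (∀ z, 0 ≤ F z) → ∀ z, 0 ≤ A F z + c * F z)
    (t : ℝ) (ht : 0 ≤ t) (F : Z → ℝ) (hF : ∀ z, 0 ≤ F z) (z : Z) : 0 ≤ sg A t F z := by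
  rw [sg_shift A c, Pi.smul_apply, smul_eq_mul]
  refine mul_nonneg (Real.exp_nonneg _) ?_
  set K := A + c • LinearMap.id with hK
  have hKF : ∀ F z, K F z = A F z + c * F z := fun F z => by simp [hK]
  have hpos : ∀ (n : ℕ) z, 0 ≤ (K ^ n) F z := by
    intro n
    induction n with
    | zero => exact hF
    | succ n ih =>
      intro z
      rw [pow_succ']
      show 0 ≤ K ((K ^ n) F) z
      rw [hKF]; exact hA _ ih z
  exact (sg_hasSum' K t F z).nonneg fun n => mul_nonneg (by positivity) (hpos n z)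

theorem sg_eigen (A : (Z → ℝ) →ₗ[ℝ] (Z → ℝ)) (F : Z → ℝ) (l : Z → ℝ)
    (h : ∀ n : ℕ, ∀ z, (A ^ n) F z = l z ^ n * F z) (t : ℝ) (z : Z) :
    sg A t F z = Real.exp (t * l z) * F z := by
  have h1 := sg_hasSum' A t F z
  have h2 : HasSum (fun n : ℕ => (t ^ n / (n.factorial : ℝ)) * (A ^ n) F z)
      (Real.exp (t * l z) * F z) := by
    have h4 := (NormedSpace.expSeries_div_hasSum_exp (𝔸 := ℝ) (t * l z)).mul_right (F z)
    rw [← Real.exp_eq_exp_ℝ] at h4
    refine h4.congr_fun fun n => ?_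
    rw [h, mul_pow]; ring
  exact h1.unique h2

theorem sg_kernel_zero (A : (Z → ℝ) →ₗ[ℝ] (Z → ℝ)) (F : Z → ℝ) (h : A F = 0) (t : ℝ) :
    sg A t F = F := by
  funext z
  have h1 := sg_eigen A F (fun _ => 0) (fun n => by
    cases n with
    | zero => intro z; simp
    | succ n =>
      intro z
      rw [pow_succ]
      show (A ^ n) (A F) z = _
      rw [h]; simp) t z
  simpa using h1

theorem sg_symm [DecidableEq Z] (A : (Z → ℝ) →ₗ[ℝ] (Z → ℝ)) (hA : ∀ F G, ip F (A G) = ip (A F) G)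
    (t : ℝ) (F G : Z → ℝ) : ip F (sg A t G) = ip (sg A t F) G := by
  obtain ⟨E⟩ := exists_eb A hA
  rw [ip_comm (sg A t F) G, E.sg_form, E.sg_form]
  exact Finset.sum_congr rfl fun _ _ => by ring

theorem ip_cs (F G : Z → ℝ) : |ip F G| ≤ √(ip F F) * √(ip G G) := by
  have h1 := Finset.sum_mul_sq_le_sq_mul_sq Finset.univ F G
  have h2 : ip F F = ∑ i, F i ^ 2 := Finset.sum_congr rfl fun _ _ => by ring
  have h3 : ip G G = ∑ i, G i ^ 2 := Finset.sum_congr rfl fun _ _ => by ring
  rw [← Real.sqrt_mul (ip_self_nonneg F), ← Real.sqrt_sq_eq_abs]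
  refine Real.sqrt_le_sqrt ?_
  rw [h2, h3]
  exact h1

end general

variable {U I : Type} [Fintype U] [DecidableEq U] [Fintype I] [DecidableEq I]

/-- the orthonormal functions of one coordinate -/
noncomputable def xx (p : ℝ) : Bool → Bool → ℝ
  | false, _ => 1
  | true, false => √p / √(1 - p)
  | true, true => -(√(1 - p) / √p)

noncomputable def X (p : ℝ) (ξ η : Cf I) : ℝ := ∏ e, xx p (ξ e) (η e)

section

variable (p : ℝ) (hp : 0 < p) (hp1 : p < 1)

include hp hp1 in
theorem kappa_xx (a b : Bool) : κ p a b = (if b = true then p else 1 - p) * xx p a b := by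
  have hs : √p ≠ 0 := (Real.sqrt_pos.2 hp).ne'
  have hc : √(1 - p) ≠ 0 := (Real.sqrt_pos.2 (by linarith)).ne'
  have h1 : √p * √p = p := Real.mul_self_sqrt hp.le
  have h2 : √(1 - p) * √(1 - p) = 1 - p := Real.mul_self_sqrt (by linarith)
  cases a <;> cases b <;> simp only [κ, xx, if_true, if_false, Bool.false_eq_true, mul_one]
  · rw [← h2, mul_div_assoc']
    have : √(√(1 - p) * √(1 - p)) = √(1 - p) := by rw [h2]
    rw [this]
    field_simp
  · have h3 : p * -(√(1 - p) / √p) = -(p / √p * √(1 - p)) := by ring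
    have h4 : p / √p = √p := by rw [div_eq_iff hs, h1]
    rw [h3, h4]

include hp hp1 in
theorem chi_X (ξ η : Cf I) : chi p ξ η = bern p η * X p ξ η := by
  unfold chi bern X
  rw [← Finset.prod_mul_distrib]
  exact Finset.prod_congr rfl fun e _ => kappa_xx p hp hp1 _ _

include hp hp1 in
theorem orth1_coord (a b : Bool) : ∑ c : Bool, xx p c a * κ p c b = if a = b then 1 else 0 := by
  have hs : √p ≠ 0 := (Real.sqrt_pos.2 hp).ne'
  have hc : √(1 - p) ≠ 0 := (Real.sqrt_pos.2 (by linarith)).ne'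
  have h1 : √p * √p = p := Real.mul_self_sqrt hp.le
  have h2 : √(1 - p) * √(1 - p) = 1 - p := Real.mul_self_sqrt (by linarith)
  rw [Fintype.sum_bool]
  cases a <;> cases b <;> simp only [κ, xx, if_true, if_false, one_mul, Bool.false_eq_true,
    Bool.true_eq_false]
  · have : √p / √(1 - p) * (√p * √(1 - p)) = √p * √p := by field_simp
    rw [this, h1]; ring
  · have : √p / √(1 - p) * -(√p * √(1 - p)) = -(√p * √p) := by field_simp
    rw [this, h1]; ring
  · have : -(√(1 - p) / √p) * (√p * √(1 - p)) = -(√(1 - p) * √(1 - p)) := by field_simp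
    rw [this, h2]; ring
  · have : -(√(1 - p) / √p) * -(√p * √(1 - p)) = √(1 - p) * √(1 - p) := by field_simp
    rw [this, h2]; ring

include hp hp1 in
theorem orth2_coord (a b : Bool) : ∑ c : Bool, xx p a c * κ p b c = if a = b then 1 else 0 := by
  have hs : √p ≠ 0 := (Real.sqrt_pos.2 hp).ne'
  have hc : √(1 - p) ≠ 0 := (Real.sqrt_pos.2 (by linarith)).ne'
  have h1 : √p * √p = p := Real.mul_self_sqrt hp.le
  have h2 : √(1 - p) * √(1 - p) = 1 - p := Real.mul_self_sqrt (by linarith)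
  rw [Fintype.sum_bool]
  cases a <;> cases b <;> simp only [κ, xx, if_true, if_false, one_mul, Bool.false_eq_true,
    Bool.true_eq_false]
  · ring
  · ring
  · have h3 : -(√(1 - p) / √p) * p = -(p / √p * √(1 - p)) := by ring
    have h4 : p / √p = √p := by rw [div_eq_iff hs, h1]
    have h5 : √p / √(1 - p) * (1 - p) = √p * ((1 - p) / √(1 - p)) := by ring
    have h6 : (1 - p) / √(1 - p) = √(1 - p) := by rw [div_eq_iff hc, h2]
    rw [h3, h4, h5, h6]; ring
  · have h3 : -(√(1 - p) / √p) * -(√p * √(1 - p)) = √(1 - p) * √(1 - p) := by field_simp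
    have h4 : √p / √(1 - p) * (√p * √(1 - p)) = √p * √p := by field_simp
    rw [h3, h4, h1, h2]; ring

theorem prod_ite_eq (a b : Cf I) : ∏ e, (if a e = b e then (1:ℝ) else 0) = if a = b then 1 else 0 := by
  by_cases h : a = b
  · rw [if_pos h, h]; simp
  · rw [if_neg h]
    obtain ⟨e, he⟩ : ∃ e, a e ≠ b e := by
      by_contra hcon
      push Not at hcon
      exact h (funext hcon)
    exact Finset.prod_eq_zero (Finset.mem_univ e) (if_neg he)

include hp hp1 in
theorem orth1 (η η' : Cf I) : ∑ ξ, X p ξ η * chi p ξ η' = if η = η' then 1 else 0 := by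
  have h1 : ∀ ξ, X p ξ η * chi p ξ η' = ∏ e, (fun e c => xx p c (η e) * κ p c (η' e)) e (ξ e) := by
    intro ξ
    unfold X chi
    rw [← Finset.prod_mul_distrib]
  rw [Finset.sum_congr rfl (fun ξ _ => h1 ξ)]
  have h4 : ∑ ξ : Cf I, ∏ e, (fun e c => xx p c (η e) * κ p c (η' e)) e (ξ e) =
      ∏ e : I, ∑ c : Bool, (fun e c => xx p c (η e) * κ p c (η' e)) e c := by
    rw [Finset.prod_univ_sum, Fintype.piFinset_univ]
  rw [h4, ← prod_ite_eq]
  exact Finset.prod_congr rfl fun e _ => orth1_coord p hp hp1 _ _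

include hp hp1 in
theorem orth2 (ξ ξ' : Cf I) : ∑ η, X p ξ η * chi p ξ' η = if ξ = ξ' then 1 else 0 := by
  have h1 : ∀ η, X p ξ η * chi p ξ' η = ∏ e, (fun e c => xx p (ξ e) c * κ p (ξ' e) c) e (η e) := by
    intro η
    unfold X chi
    rw [← Finset.prod_mul_distrib]
  rw [Finset.sum_congr rfl (fun ξ _ => h1 ξ)]
  have h4 : ∑ η : Cf I, ∏ e, (fun e c => xx p (ξ e) c * κ p (ξ' e) c) e (η e) =
      ∏ e : I, ∑ c : Bool, (fun e c => xx p (ξ e) c * κ p (ξ' e) c) e c := by
    rw [Finset.prod_univ_sum, Fintype.piFinset_univ]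
  rw [h4, ← prod_ite_eq]
  exact Finset.prod_congr rfl fun e _ => orth2_coord p hp hp1 _ _

/-- evaluation vectors -/
noncomputable def uu (z : U × Cf I) : U × Cf I → ℝ := fun w => if w.1 = z.1 then X p w.2 z.2 else 0

theorem ip_uu (z : U × Cf I) (G : U × Cf I → ℝ) : ip (uu p z) G = ∑ ξ, X p ξ z.2 * G (z.1, ξ) := by
  rw [ip_prod, Finset.sum_eq_single z.1]
  · simp [uu]
  · intro x _ h; simp [uu, h]
  · intro h; exact absurd (Finset.mem_univ _) h

include hp hp1 in
theorem ip_uu_hat (z : U × Cf I) (F : U × Cf I → ℝ) : ip (uu p z) (hat p F) = F z := by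
  rw [ip_uu]
  show ∑ ξ, X p ξ z.2 * ∑ η, chi p ξ η * F (z.1, η) = F z
  simp only [Finset.mul_sum]
  rw [Finset.sum_comm, Finset.sum_eq_single z.2]
  · have h1 : ∀ ξ, X p ξ z.2 * (chi p ξ z.2 * F (z.1, z.2)) =
        X p ξ z.2 * chi p ξ z.2 * F z := fun ξ => by rw [mul_assoc]
    rw [Finset.sum_congr rfl (fun ξ _ => h1 ξ), ← Finset.sum_mul, orth1 p hp hp1, if_pos rfl, one_mul]
  · intro η _ h
    have h1 : ∀ ξ, X p ξ z.2 * (chi p ξ η * F (z.1, η)) =
        X p ξ z.2 * chi p ξ η * F (z.1, η) := fun ξ => by rw [mul_assoc]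
    rw [Finset.sum_congr rfl (fun ξ _ => h1 ξ), ← Finset.sum_mul, orth1 p hp hp1,
      if_neg (Ne.symm h), zero_mul]
  · intro h; exact absurd (Finset.mem_univ _) h

include hp hp1 in
theorem hat_unhat (G : U × Cf I → ℝ) : hat p (fun z => ip (uu p z) G) = G := by
  funext w
  obtain ⟨x, ξ⟩ := w
  show ∑ η, chi p ξ η * ip (uu p (x, η)) G = G (x, ξ)
  simp only [ip_uu, Finset.mul_sum]
  rw [Finset.sum_comm, Finset.sum_eq_single ξ]
  · have h1 : ∀ η, chi p ξ η * (X p ξ η * G (x, ξ)) = X p ξ η * chi p ξ η * G (x, ξ) :=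
      fun η => by ring
    rw [Finset.sum_congr rfl (fun ξ _ => h1 ξ), ← Finset.sum_mul, orth2 p hp hp1, if_pos rfl, one_mul]
  · intro ξ' _ h
    have h1 : ∀ η, chi p ξ η * (X p ξ' η * G (x, ξ')) = X p ξ' η * chi p ξ η * G (x, ξ') :=
      fun η => by ring
    rw [Finset.sum_congr rfl (fun ξ _ => h1 ξ), ← Finset.sum_mul, orth2 p hp hp1, if_neg h, zero_mul]
  · intro h; exact absurd (Finset.mem_univ _) h

include hp hp1 in
theorem parseval_uu (G H : U × Cf I → ℝ) :
    ∑ z : U × Cf I, bern p z.2 * (ip (uu p z) G * ip (uu p z) H) = ip G H := by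
  rw [Fintype.sum_prod_type, ip_prod]
  refine Finset.sum_congr rfl fun x _ => ?_
  have h2 : ∀ η, bern p η * (ip (uu p (x, η)) G * ip (uu p (x, η)) H) =
      ∑ ξ, ∑ ξ', (X p ξ η * chi p ξ' η) * (G (x, ξ) * H (x, ξ')) := by
    intro η
    rw [ip_uu, ip_uu, Finset.sum_mul_sum, Finset.mul_sum]
    refine Finset.sum_congr rfl fun ξ _ => ?_
    rw [Finset.mul_sum]
    refine Finset.sum_congr rfl fun ξ' _ => ?_
    rw [chi_X p hp hp1]; ring
  have h3 : ∑ η, bern p η * (ip (uu p (x, η)) G * ip (uu p (x, η)) H) =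
      ∑ ξ, ∑ ξ', ∑ η, (X p ξ η * chi p ξ' η) * (G (x, ξ) * H (x, ξ')) := by
    rw [Finset.sum_congr rfl (fun η _ => h2 η), Finset.sum_comm]
    exact Finset.sum_congr rfl fun ξ _ => Finset.sum_comm
  show ∑ η, bern p η * (ip (uu p (x, η)) G * ip (uu p (x, η)) H) = _
  rw [h3]
  refine Finset.sum_congr rfl fun ξ _ => ?_
  rw [Finset.sum_eq_single ξ]
  · rw [← Finset.sum_mul, orth2 p hp hp1, if_pos rfl, one_mul]
  · intro ξ' _ h
    rw [← Finset.sum_mul, orth2 p hp hp1, if_neg (Ne.symm h), zero_mul]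
  · intro h; exact absurd (Finset.mem_univ _) h

include hp hp1 in
theorem hat_single (w : U × Cf I) : hat p (Pi.single w (1:ℝ)) = bern p w.2 • uu p w := by
  funext v
  show ∑ η, chi p v.2 η * (Pi.single w (1:ℝ) : U × Cf I → ℝ) (v.1, η) = bern p w.2 * uu p w v
  rw [Finset.sum_eq_single w.2]
  · rw [chi_X p hp hp1]
    by_cases h : v.1 = w.1
    · have h1 : (v.1, w.2) = w := by rw [h]
      rw [h1, Pi.single_eq_same, mul_one]
      simp [uu, h]
    · have h1 : (v.1, w.2) ≠ w := by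
        intro h'
        have h'' := congrArg Prod.fst h'
        exact h h''
      rw [Pi.single_eq_of_ne h1, mul_zero]
      simp [uu, h]
  · intro η _ h
    have h1 : (v.1, η) ≠ w := by
      intro h'
      have h'' := congrArg Prod.snd h'
      exact h h''
    rw [Pi.single_eq_of_ne h1, mul_zero]
  · intro h; exact absurd (Finset.mem_univ _) h

theorem bern_pos (hp : 0 < p) (hp1 : p < 1) (η : Cf I) : 0 < bern p η :=
  Finset.prod_pos fun e _ => by split_ifs <;> linarith

theorem bern_sum : ∑ η : Cf I, bern p η = 1 := by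
  unfold bern
  have h4 : ∑ η : Cf I, ∏ e, (if η e = true then p else 1 - p) =
      ∏ e : I, ∑ c : Bool, (if c = true then p else 1 - p) := by
    rw [Finset.prod_univ_sum, Fintype.piFinset_univ]
  rw [h4]
  refine Finset.prod_eq_one fun e _ => ?_
  simp

theorem X_zero (η : Cf I) : X p z0 η = 1 := Finset.prod_eq_one fun e _ => by
  show xx p false _ = 1
  rfl

end

section kernel

variable (ed : U → U → I) (adj : U → U → Prop) (μ p : ℝ)

/-- transition probabilities of the full process -/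
noncomputable def ker (t : ℝ) (z w : U × Cf I) : ℝ :=
  sg (gen ed adj (fun _ => 0) μ p) t (Pi.single w 1) z

/-- transition densities -/
noncomputable def qq (t : ℝ) (z w : U × Cf I) : ℝ :=
  ip (uu p z) (sg (rgen ed adj (fun _ => 0) μ p) t (uu p w))

theorem ker_apply (t : ℝ) (F : U × Cf I → ℝ) (z : U × Cf I) :
    sg (gen ed adj (fun _ => 0) μ p) t F z = ∑ w, ker ed adj μ p t z w * F w :=
  sg_expand _ _ _ _

theorem ker_add (s t : ℝ) (z w : U × Cf I) :
    ker ed adj μ p (s + t) z w = ∑ v, ker ed adj μ p s z v * ker ed adj μ p t v w := by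
  unfold ker
  rw [sg_add, sg_expand]

variable (hp : 0 < p) (hp1 : p < 1)

include hp hp1 in
theorem ker_eq (t : ℝ) (z w : U × Cf I) :
    ker ed adj μ p t z w = bern p w.2 * qq ed adj μ p t z w := by
  unfold ker qq
  rw [← ip_uu_hat p hp hp1 z (sg (gen ed adj (fun _ => 0) μ p) t (Pi.single w 1)),
    sg_intertwine (gen ed adj (fun _ => 0) μ p) (rgen ed adj (fun _ => 0) μ p) (hat p)
      (hat_gen ed adj (fun _ => 0) μ p hp.le hp1.le), hat_single p hp hp1, map_smul, ip_smul_right]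

include hp hp1 in
theorem sg_gen_eq (t : ℝ) (F : U × Cf I → ℝ) (z : U × Cf I) :
    sg (gen ed adj (fun _ => 0) μ p) t F z =
      ip (uu p z) (sg (rgen ed adj (fun _ => 0) μ p) t (hat p F)) := by
  rw [← ip_uu_hat p hp hp1 z (sg (gen ed adj (fun _ => 0) μ p) t F),
    sg_intertwine (gen ed adj (fun _ => 0) μ p) (rgen ed adj (fun _ => 0) μ p) (hat p)
      (hat_gen ed adj (fun _ => 0) μ p hp.le hp1.le)]

variable (hed : ∀ x y, ed x y = ed y x) (hadj : ∀ x y, adj x y → adj y x)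

include hed hadj in
theorem qq_symm (t : ℝ) (z w : U × Cf I) : qq ed adj μ p t z w = qq ed adj μ p t w z := by
  unfold qq
  rw [sg_symm _ (rgen_symm ed adj hed hadj (fun _ => 0) μ p), ip_comm]

include hp hp1 in
theorem qq_add (s t : ℝ) (z w : U × Cf I) :
    qq ed adj μ p (s + t) z w = ∑ v, ker ed adj μ p s z v * qq ed adj μ p t v w := by
  have h1 : qq ed adj μ p (s + t) z w =
      ip (uu p z) (sg (rgen ed adj (fun _ => 0) μ p) s
        (hat p (fun v => ip (uu p v) (sg (rgen ed adj (fun _ => 0) μ p) t (uu p w))))) := by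
    unfold qq
    rw [sg_add, hat_unhat p hp hp1]
  rw [h1, ← sg_gen_eq ed adj μ p hp hp1, ker_apply]
  rfl

theorem gen_shift_pos (hμ : 0 ≤ μ)
    (hp : 0 ≤ p) (hp1 : p ≤ 1)
    (F : U × Cf I → ℝ) (hF : ∀ z, 0 ≤ F z) (z : U × Cf I) :
    0 ≤ gen ed adj (fun _ => 0) μ p F z + ((Fintype.card U : ℝ) + μ * Fintype.card I) * F z := by
  classical
  have h1 : - (Fintype.card U * F z) ≤
      ∑ y, (if adj z.1 y ∧ z.2 (ed z.1 y) = true then F (y, z.2) - F z else 0) := by
    have : - (Fintype.card U * F z) = ∑ y : U, - F z := by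
      rw [Finset.sum_const, Finset.card_univ, nsmul_eq_mul]; ring
    rw [this]
    refine Finset.sum_le_sum fun y _ => ?_
    have h2 := hF (y, z.2)
    have h3 := hF z
    split_ifs <;> linarith
  have h2 : - (Fintype.card I * F z) ≤
      ∑ e, ((1 - p) * F (z.1, Function.update z.2 e false)
        + p * F (z.1, Function.update z.2 e true) - F z) := by
    have : - (Fintype.card I * F z) = ∑ e : I, - F z := by
      rw [Finset.sum_const, Finset.card_univ, nsmul_eq_mul]; ring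
    rw [this]
    refine Finset.sum_le_sum fun e _ => ?_
    have h2 := mul_nonneg (sub_nonneg.2 hp1) (hF (z.1, Function.update z.2 e false))
    have h3 := mul_nonneg hp (hF (z.1, Function.update z.2 e true))
    linarith
  have h3 := mul_le_mul_of_nonneg_left h2 hμ
  simp only [gen, LinearMap.coe_mk, AddHom.coe_mk]
  nlinarith

theorem ker_nonneg (hμ : 0 ≤ μ) (hp : 0 ≤ p) (hp1 : p ≤ 1) (t : ℝ) (ht : 0 ≤ t)
    (z w : U × Cf I) : 0 ≤ ker ed adj μ p t z w :=
  sg_kernel_nonneg _ _ (gen_shift_pos ed adj μ p hμ hp hp1) t ht _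
    (fun v => by rw [Pi.single_apply]; split_ifs <;> norm_num) z

theorem gen_const (c : ℝ) : gen ed adj (fun _ => 0) μ p (fun _ => c) = 0 := by
  funext z
  simp only [gen, LinearMap.coe_mk, AddHom.coe_mk, Pi.zero_apply]
  have h2 : ∑ _e : I, ((1 - p) * c + p * c - c) = 0 := Finset.sum_eq_zero fun e _ => by ring
  rw [h2]
  simp

theorem ker_sum (t : ℝ) (z : U × Cf I) : ∑ w, ker ed adj μ p t z w = 1 := by
  have h1 := ker_apply ed adj μ p t (fun _ => 1) z
  rw [sg_kernel_zero _ _ (gen_const ed adj μ p 1)] at h1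
  simpa using h1.symm

end kernel

end Pool.H102.DM
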