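import Pool.Agent.H102R3.DPFin

set_option autoImplicit false
set_option linter.unusedSectionVars false

/-!
# Monotonicity of the killed finite-volume systems under embeddings
-/

namespace Pool.H102.DP

open Finset

variable {U U' : Type} [Fintype U] [DecidableEq U] [Fintype U'] [DecidableEq U']

theorem gen_shift_pos (adj : U → U → Prop) (b : U → ℝ) (μ p : ℝ) (hμ : 0 ≤ μ)
    (hp : 0 ≤ p) (hp1 : p ≤ 1) (c : ℝ)
    (hc : ∀ x, (Fintype.card U : ℝ) + b x + μ * Fintype.card (Sym2 U) ≤ c)
    (F : U × Conf U → ℝ) (hF : ∀ z, 0 ≤ F z) (z : U × Conf U) :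
    0 ≤ gen adj b μ p F z + c * F z := by
  classical
  have h1 : - (Fintype.card U * F z) ≤
      ∑ y, (if adj z.1 y ∧ z.2 s(z.1, y) = true then F (y, z.2) - F z else 0) := by
    have : - (Fintype.card U * F z) = ∑ y : U, - F z := by
      rw [Finset.sum_const, Finset.card_univ, nsmul_eq_mul]; ring
    rw [this]
    refine Finset.sum_le_sum fun y _ => ?_
    have h2 := hF (y, z.2)
    have h3 := hF z
    split_ifs <;> linarith
  have h2 : - (Fintype.card (Sym2 U) * F z) ≤
      ∑ e, ((1 - p) * F (z.1, Function.update z.2 e false)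
        + p * F (z.1, Function.update z.2 e true) - F z) := by
    have : - (Fintype.card (Sym2 U) * F z) = ∑ e : Sym2 U, - F z := by
      rw [Finset.sum_const, Finset.card_univ, nsmul_eq_mul]; ring
    rw [this]
    refine Finset.sum_le_sum fun e _ => ?_
    have h2 := mul_nonneg (sub_nonneg.2 hp1) (hF (z.1, Function.update z.2 e false))
    have h3 := mul_nonneg hp (hF (z.1, Function.update z.2 e true))
    linarith
  have h3 := mul_le_mul_of_nonneg_left h2 hμ
  have h4 := mul_le_mul_of_nonneg_right (hc z.1) (hF z)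
  simp only [gen, LinearMap.coe_mk, AddHom.coe_mk]
  nlinarith

theorem lapl_shift_pos (adj : U → U → Prop) (b : U → ℝ) (c : ℝ)
    (hc : ∀ x, (Fintype.card U : ℝ) + b x ≤ c)
    (F : U → ℝ) (hF : ∀ z, 0 ≤ F z) (z : U) :
    0 ≤ lapl adj b F z + c * F z := by
  classical
  have h1 : - (Fintype.card U * F z) ≤ ∑ y, (if adj z y then F y - F z else 0) := by
    have : - (Fintype.card U * F z) = ∑ y : U, - F z := by
      rw [Finset.sum_const, Finset.card_univ, nsmul_eq_mul]; ring
    rw [this]
    refine Finset.sum_le_sum fun y _ => ?_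
    have h2 := hF y
    have h3 := hF z
    split_ifs <;> linarith
  have h4 := mul_le_mul_of_nonneg_right (hc z) (hF z)
  simp only [lapl, LinearMap.coe_mk, AddHom.coe_mk]
  nlinarith

/-- restriction of a configuration along an embedding -/
def res (ι : U → U') (η' : Conf U') : Conf U := fun e => η' (Sym2.map ι e)

theorem res_upd_mem (ι : U → U') (hι : Function.Injective ι) (η' : Conf U') (e : Sym2 U) (c : Bool) :
    res ι (Function.update η' (Sym2.map ι e) c) = Function.update (res ι η') e c := by
  funext e'
  by_cases h : e' = e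
  · subst h; simp [res]
  · rw [Function.update_of_ne h]
    show Function.update η' (Sym2.map ι e) c (Sym2.map ι e') = _
    rw [Function.update_of_ne (fun h' => h (Sym2.map.injective hι h'))]
    rfl

theorem res_upd_notMem (ι : U → U') (η' : Conf U') (e' : Sym2 U')
    (he : ∀ e, Sym2.map ι e ≠ e') (c : Bool) :
    res ι (Function.update η' e' c) = res ι η' := by
  funext e
  show Function.update η' e' c (Sym2.map ι e) = _
  rw [Function.update_of_ne (he e)]
  rfl

/-- marginalisation of the product Bernoulli measure -/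
theorem bern_marginal (ι : U → U') (hι : Function.Injective ι) (p : ℝ) (g : Conf U → ℝ) :
    ∑ η', bern p η' * g (res ι η') = ∑ η, bern p η * g η := by
  classical
  have hmi : Function.Injective (Sym2.map ι) := Sym2.map.injective hι
  have h1 : ∀ η : Conf U, ∑ η' : Conf U', (if res ι η' = η then bern p η' else 0) = bern p η := by
    intro η
    let φ : Sym2 U' → Bool → ℝ := fun e' c => (if c = true then p else 1 - p) *
      (if ∀ e, Sym2.map ι e = e' → η e = c then 1 else 0)
    have h2 : ∀ η' : Conf U', (if res ι η' = η then bern p η' else 0) = ∏ e', φ e' (η' e') := by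
      intro η'
      simp only [φ]
      rw [Finset.prod_mul_distrib]
      by_cases h : res ι η' = η
      · rw [if_pos h]
        have h3 : ∏ e', (if ∀ e, Sym2.map ι e = e' → η e = η' e' then (1:ℝ) else 0) = 1 := by
          refine Finset.prod_eq_one fun e' _ => ?_
          rw [if_pos]
          intro e he
          rw [← h, ← he]; rfl
        rw [h3, mul_one]; rfl
      · rw [if_neg h]
        obtain ⟨e, he⟩ : ∃ e, res ι η' e ≠ η e := by
          by_contra hcon
          push Not at hcon
          exact h (funext hcon)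
        have h3 : ∏ e', (if ∀ e, Sym2.map ι e = e' → η e = η' e' then (1:ℝ) else 0) = 0 := by
          refine Finset.prod_eq_zero (Finset.mem_univ (Sym2.map ι e)) ?_
          rw [if_neg]
          intro h4
          exact he (h4 e rfl).symm
        rw [h3, mul_zero]
    rw [Finset.sum_congr rfl (fun η' _ => h2 η')]
    have h4 : ∑ η' : Conf U', ∏ e', φ e' (η' e') = ∏ e' : Sym2 U', ∑ c : Bool, φ e' c := by
      rw [Finset.prod_univ_sum, Fintype.piFinset_univ]
    rw [h4]
    have h5 : ∀ e : Sym2 U, ∑ c : Bool, φ (Sym2.map ι e) c = if η e = true then p else 1 - p := by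
      intro e
      have h6 : ∀ c, (∀ e', Sym2.map ι e' = Sym2.map ι e → η e' = c) ↔ η e = c := by
        intro c
        constructor
        · intro h; exact h e rfl
        · intro h e' he'; rw [hmi he']; exact h
      simp only [φ, h6]
      cases η e <;> simp
    have h7 : ∀ e' : Sym2 U', (∀ e, Sym2.map ι e ≠ e') → ∑ c : Bool, φ e' c = 1 := by
      intro e' he'
      have h8 : ∀ c, (∀ e, Sym2.map ι e = e' → η e = c) := fun c e he => absurd he (he' e)
      simp only [φ]
      rw [Fintype.sum_bool, if_pos (h8 true), if_pos (h8 false)]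
      simp
    have h9 : ∏ e' : Sym2 U', ∑ c : Bool, φ e' c =
        ∏ e' ∈ Finset.univ.image (Sym2.map ι), ∑ c : Bool, φ e' c := by
      symm
      refine Finset.prod_subset (Finset.subset_univ _) fun e' _ he' => h7 e' fun e he => ?_
      exact he' (Finset.mem_image.2 ⟨e, Finset.mem_univ _, he⟩)
    rw [h9, Finset.prod_image (fun a _ b _ hab => hmi hab)]
    exact Finset.prod_congr rfl fun e _ => h5 e
  have h2 : ∀ η' : Conf U', bern p η' * g (res ι η') =
      ∑ η, (if res ι η' = η then bern p η' else 0) * g η := by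
    intro η'
    rw [Finset.sum_eq_single (res ι η')]
    · simp
    · intro η _ h; rw [if_neg (Ne.symm h), zero_mul]
    · intro h; exact absurd (Finset.mem_univ _) h
  rw [Finset.sum_congr rfl (fun η' _ => h2 η'), Finset.sum_comm]
  refine Finset.sum_congr rfl fun η _ => ?_
  rw [← Finset.sum_mul, h1]

open Classical in
/-- extension by zero -/
noncomputable def ext' (ι : U → U') : (U × Conf U → ℝ) →ₗ[ℝ] (U' × Conf U' → ℝ) where
  toFun F z := ∑ x, if ι x = z.1 then F (x, res ι z.2) else 0
  map_add' F G := by
    funext z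
    simp only [Pi.add_apply, ← Finset.sum_add_distrib]
    exact Finset.sum_congr rfl fun x _ => by split_ifs <;> simp
  map_smul' c F := by
    funext z
    simp only [Pi.smul_apply, smul_eq_mul, RingHom.id_apply, Finset.mul_sum]
    exact Finset.sum_congr rfl fun x _ => by split_ifs <;> simp

theorem ext_mem (ι : U → U') (hι : Function.Injective ι) (F : U × Conf U → ℝ) (x : U)
    (η' : Conf U') : ext' ι F (ι x, η') = F (x, res ι η') := by
  classical
  show ∑ x', (if ι x' = ι x then F (x', res ι η') else 0) = _
  rw [Finset.sum_eq_single x]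
  · simp
  · intro x' _ h; rw [if_neg (fun h' => h (hι h'))]
  · intro h; exact absurd (Finset.mem_univ _) h

theorem ext_notMem (ι : U → U') (F : U × Conf U → ℝ) (x' : U') (h : ∀ x, ι x ≠ x')
    (η' : Conf U') : ext' ι F (x', η') = 0 := by
  classical
  show ∑ x, (if ι x = x' then F (x, res ι η') else 0) = _
  exact Finset.sum_eq_zero fun x _ => if_neg (h x)

open Classical in
theorem annealed_embed (adj : U → U → Prop) (adj' : U' → U' → Prop) (b : U → ℝ) (b' : U' → ℝ)
    (ι : U → U') (hι : Function.Injective ι) (hadj : ∀ x y, adj x y ↔ adj' (ι x) (ι y))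
    (hb : ∀ x, b' (ι x) + ∑ y', (if adj' (ι x) y' ∧ (∀ y, ι y ≠ y') then (1:ℝ) else 0) ≤ b x)
    (μ p t : ℝ) (hμ : 0 ≤ μ) (hp : 0 ≤ p) (hp1 : p ≤ 1) (ht : 0 ≤ t) (x y : U) :
    annealed adj b μ p t x y ≤ annealed adj' b' μ p t (ι x) (ι y) := by
  obtain ⟨c, hc1, hc2⟩ : ∃ c : ℝ,
      (∀ x, (Fintype.card U : ℝ) + b x + μ * Fintype.card (Sym2 U) ≤ c) ∧
      (∀ x, (Fintype.card U' : ℝ) + b' x + μ * Fintype.card (Sym2 U') ≤ c) := by
    obtain ⟨c1, h1⟩ := (Set.finite_range fun x => (Fintype.card U : ℝ) + b x
      + μ * Fintype.card (Sym2 U)).bddAbove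
    obtain ⟨c2, h2⟩ := (Set.finite_range fun x => (Fintype.card U' : ℝ) + b' x
      + μ * Fintype.card (Sym2 U')).bddAbove
    exact ⟨max c1 c2, fun x => (h1 (Set.mem_range_self x)).trans (le_max_left _ _),
      fun x => (h2 (Set.mem_range_self x)).trans (le_max_right _ _)⟩
  have hmi : Function.Injective (Sym2.map ι) := Sym2.map.injective hι
  have hJ : ∀ F : U × Conf U → ℝ, (∀ z, 0 ≤ F z) → ∀ z,
      ext' ι (gen adj b μ p F) z ≤ gen adj' b' μ p (ext' ι F) z := by
    intro F hF z
    obtain ⟨x', η'⟩ := z
    have hFn : ∀ z, 0 ≤ ext' ι F z := fun z => Finset.sum_nonneg fun x _ => by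
      split_ifs
      · exact hF _
      · exact le_rfl
    by_cases hx : ∃ x, ι x = x'
    · obtain ⟨x, rfl⟩ := hx
      rw [ext_mem ι hι]
      simp only [gen, LinearMap.coe_mk, AddHom.coe_mk]
      have e1 : ∑ y', (if adj' (ι x) y' ∧ η' s(ι x, y') = true then
          ext' ι F (y', η') - ext' ι F (ι x, η') else 0) ≥
          ∑ y, (if adj x y ∧ res ι η' s(x, y) = true then
            F (y, res ι η') - F (x, res ι η') else 0) -
          (∑ y', (if adj' (ι x) y' ∧ (∀ y, ι y ≠ y') then (1:ℝ) else 0)) * F (x, res ι η') := by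
        have h1 : ∑ y, (if adj x y ∧ res ι η' s(x, y) = true then
            F (y, res ι η') - F (x, res ι η') else 0) =
            ∑ y' ∈ Finset.univ.image ι, (if adj' (ι x) y' ∧ η' s(ι x, y') = true then
            ext' ι F (y', η') - ext' ι F (ι x, η') else 0) := by
          rw [Finset.sum_image (fun a _ b _ hab => hι hab)]
          refine Finset.sum_congr rfl fun y _ => ?_
          rw [ext_mem ι hι, ext_mem ι hι, hadj]
          rfl
        rw [h1, Finset.sum_mul, ← Finset.sum_add_sum_compl (Finset.univ.image ι)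
          (fun y' => (if adj' (ι x) y' ∧ η' s(ι x, y') = true then
            ext' ι F (y', η') - ext' ι F (ι x, η') else 0))]
        have h2 : ∑ y' ∈ (Finset.univ.image ι)ᶜ, (if adj' (ι x) y' ∧ η' s(ι x, y') = true then
            ext' ι F (y', η') - ext' ι F (ι x, η') else 0) ≥
            - ∑ y', (if adj' (ι x) y' ∧ (∀ y, ι y ≠ y') then (1:ℝ) else 0) * F (x, res ι η') := by
          rw [← Finset.sum_neg_distrib]
          refine le_trans (Finset.sum_le_sum_of_subset_of_nonpos'
            (Finset.subset_univ (Finset.univ.image ι)ᶜ) fun i _ _ => ?_) ?_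
          · have h3 := hF (x, res ι η')
            split_ifs <;> linarith
          refine Finset.sum_le_sum fun y' hy' => ?_
          have hy2 : ∀ y, ι y ≠ y' := fun y hy =>
            (Finset.mem_compl.1 hy') (Finset.mem_image.2 ⟨y, Finset.mem_univ _, hy⟩)
          rw [ext_mem ι hι, ext_notMem ι F y' hy2]
          have h3 := hF (x, res ι η')
          by_cases h4 : adj' (ι x) y'
          · rw [if_pos (show adj' (ι x) y' ∧ ∀ y, ι y ≠ y' from ⟨h4, hy2⟩)]
            split_ifs <;> linarith
          · rw [if_neg (fun h => h4 h.1), if_neg (fun h => h4 h.1)]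
            simp
        linarith
      have e2 : ∑ e', ((1 - p) * ext' ι F (ι x, Function.update η' e' false)
          + p * ext' ι F (ι x, Function.update η' e' true) - ext' ι F (ι x, η')) =
          ∑ e, ((1 - p) * F (x, Function.update (res ι η') e false)
          + p * F (x, Function.update (res ι η') e true) - F (x, res ι η')) := by
        have h1 : ∀ e' : Sym2 U', e' ∉ Finset.univ.image (Sym2.map ι) →
            (1 - p) * ext' ι F (ι x, Function.update η' e' false)
          + p * ext' ι F (ι x, Function.update η' e' true) - ext' ι F (ι x, η') = 0 := by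
          intro e' he'
          have h2 : ∀ e, Sym2.map ι e ≠ e' := fun e he =>
            he' (Finset.mem_image.2 ⟨e, Finset.mem_univ _, he⟩)
          rw [ext_mem ι hι, ext_mem ι hι, ext_mem ι hι, res_upd_notMem ι η' e' h2,
            res_upd_notMem ι η' e' h2]
          ring
        rw [← Finset.sum_subset (Finset.subset_univ (Finset.univ.image (Sym2.map ι)))
          (fun e' _ he' => h1 e' he'), Finset.sum_image (fun a _ b _ hab => hmi hab)]
        refine Finset.sum_congr rfl fun e _ => ?_
        rw [ext_mem ι hι, ext_mem ι hι, ext_mem ι hι, res_upd_mem ι hι, res_upd_mem ι hι]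
      rw [e2, ext_mem ι hι]
      rw [ext_mem ι hι] at e1
      have h3 := mul_le_mul_of_nonneg_right (hb x) (hF (x, res ι η'))
      linarith
    · push Not at hx
      rw [ext_notMem ι _ x' hx]
      simp only [gen, LinearMap.coe_mk, AddHom.coe_mk]
      rw [ext_notMem ι _ x' hx]
      have h1 : ∀ e', (1 - p) * ext' ι F (x', Function.update η' e' false)
          + p * ext' ι F (x', Function.update η' e' true) - 0 = 0 := by
        intro e'
        rw [ext_notMem ι _ x' hx, ext_notMem ι _ x' hx]; ring
      rw [Finset.sum_congr rfl (fun e' _ => h1 e'), Finset.sum_const_zero]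
      have h2 : 0 ≤ ∑ y, (if adj' x' y ∧ η' s(x', y) = true then ext' ι F (y, η') - 0 else 0) :=
        Finset.sum_nonneg fun y _ => by
          split_ifs
          · rw [sub_zero]; exact hFn _
          · exact le_rfl
      linarith
  have hmono := sg_mono (gen adj b μ p) (gen adj' b' μ p) (ext' ι) c
    (gen_shift_pos adj b μ p hμ hp hp1 c hc1) (gen_shift_pos adj' b' μ p hμ hp hp1 c hc2) hJ t ht
    (fun z => if z.1 = y then 1 else 0) (fun z => by split_ifs <;> norm_num)
  have hind : ext' ι (fun z : U × Conf U => if z.1 = y then (1:ℝ) else 0) =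
      fun z => if z.1 = ι y then 1 else 0 := by
    funext z
    obtain ⟨x', η'⟩ := z
    by_cases hx : ∃ x, ι x = x'
    · obtain ⟨x, rfl⟩ := hx
      rw [ext_mem ι hι]
      by_cases h : x = y
      · simp [h]
      · simp [h, hι.ne h]
    · push Not at hx
      rw [ext_notMem ι _ x' hx, if_neg (fun h => hx y h.symm)]
  have h1 : annealed adj b μ p t x y = ∑ η' : Conf U', bern p η' *
      sg (gen adj b μ p) t (fun z => if z.1 = y then 1 else 0) (x, res ι η') := by
    rw [annealed, ← bern_marginal ι hι p
      (fun η => sg (gen adj b μ p) t (fun z => if z.1 = y then 1 else 0) (x, η))]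
  rw [h1, annealed]
  refine Finset.sum_le_sum fun η' _ => ?_
  have h2 : 0 ≤ bern p η' := Finset.prod_nonneg fun e _ => by split_ifs <;> linarith
  refine mul_le_mul_of_nonneg_left ?_ h2
  have h3 := hmono (ι x, η')
  rw [ext_mem ι hι, hind] at h3
  exact h3

open Classical in
theorem plain_embed (adj : U → U → Prop) (adj' : U' → U' → Prop) (b : U → ℝ) (b' : U' → ℝ)
    (ι : U → U') (hι : Function.Injective ι) (hadj : ∀ x y, adj x y ↔ adj' (ι x) (ι y))
    (hb : ∀ x, b' (ι x) + ∑ y', (if adj' (ι x) y' ∧ (∀ y, ι y ≠ y') then (1:ℝ) else 0) ≤ b x)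
    (t : ℝ) (ht : 0 ≤ t) (x y : U) :
    plain adj b t x y ≤ plain adj' b' t (ι x) (ι y) := by
  obtain ⟨c, hc1, hc2⟩ : ∃ c : ℝ,
      (∀ x, (Fintype.card U : ℝ) + b x ≤ c) ∧ (∀ x, (Fintype.card U' : ℝ) + b' x ≤ c) := by
    obtain ⟨c1, h1⟩ := (Set.finite_range fun x => (Fintype.card U : ℝ) + b x).bddAbove
    obtain ⟨c2, h2⟩ := (Set.finite_range fun x => (Fintype.card U' : ℝ) + b' x).bddAbove
    exact ⟨max c1 c2, fun x => (h1 (Set.mem_range_self x)).trans (le_max_left _ _),
      fun x => (h2 (Set.mem_range_self x)).trans (le_max_right _ _)⟩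
  let J : (U → ℝ) →ₗ[ℝ] (U' → ℝ) :=
    { toFun := fun F z => ∑ x, if ι x = z then F x else 0
      map_add' := fun F G => by
        funext z
        simp only [Pi.add_apply, ← Finset.sum_add_distrib]
        exact Finset.sum_congr rfl fun x _ => by split_ifs <;> simp
      map_smul' := fun c F => by
        funext z
        simp only [Pi.smul_apply, smul_eq_mul, RingHom.id_apply, Finset.mul_sum]
        exact Finset.sum_congr rfl fun x _ => by split_ifs <;> simp }
  have J1 : ∀ F x, J F (ι x) = F x := by
    intro F x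
    show ∑ x', (if ι x' = ι x then F x' else 0) = _
    rw [Finset.sum_eq_single x]
    · simp
    · intro x' _ h; rw [if_neg (fun h' => h (hι h'))]
    · intro h; exact absurd (Finset.mem_univ _) h
  have J2 : ∀ F x', (∀ x, ι x ≠ x') → J F x' = 0 := by
    intro F x' h
    show ∑ x, (if ι x = x' then F x else 0) = _
    exact Finset.sum_eq_zero fun x _ => if_neg (h x)
  have hJ : ∀ F : U → ℝ, (∀ z, 0 ≤ F z) → ∀ z, J (lapl adj b F) z ≤ lapl adj' b' (J F) z := by
    intro F hF x'
    have hFn : ∀ z, 0 ≤ J F z := fun z => Finset.sum_nonneg fun x _ => by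
      split_ifs
      · exact hF _
      · exact le_rfl
    by_cases hx : ∃ x, ι x = x'
    · obtain ⟨x, rfl⟩ := hx
      rw [J1]
      simp only [lapl, LinearMap.coe_mk, AddHom.coe_mk]
      rw [J1]
      have h1 : ∑ y, (if adj x y then F y - F x else 0) =
          ∑ y' ∈ Finset.univ.image ι, (if adj' (ι x) y' then J F y' - F x else 0) := by
        rw [Finset.sum_image (fun a _ b _ hab => hι hab)]
        refine Finset.sum_congr rfl fun y _ => ?_
        rw [J1, hadj]
      rw [h1, ← Finset.sum_add_sum_compl (Finset.univ.image ι)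
          (fun y' => (if adj' (ι x) y' then J F y' - F x else 0))]
      have h2 : ∑ y' ∈ (Finset.univ.image ι)ᶜ, (if adj' (ι x) y' then J F y' - F x else 0) ≥
          - ∑ y', (if adj' (ι x) y' ∧ (∀ y, ι y ≠ y') then (1:ℝ) else 0) * F x := by
        rw [← Finset.sum_neg_distrib]
        refine le_trans (Finset.sum_le_sum_of_subset_of_nonpos'
          (Finset.subset_univ (Finset.univ.image ι)ᶜ) fun i _ _ => ?_) ?_
        · have h3 := hF x
          split_ifs <;> linarith
        refine Finset.sum_le_sum fun y' hy' => ?_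
        have hy2 : ∀ y, ι y ≠ y' := fun y hy =>
          (Finset.mem_compl.1 hy') (Finset.mem_image.2 ⟨y, Finset.mem_univ _, hy⟩)
        rw [J2 F y' hy2]
        by_cases h4 : adj' (ι x) y'
        · rw [if_pos (show adj' (ι x) y' ∧ ∀ y, ι y ≠ y' from ⟨h4, hy2⟩), if_pos h4]
          linarith
        · rw [if_neg (fun h => h4 h.1), if_neg h4]
          simp
      have h3 := mul_le_mul_of_nonneg_right (hb x) (hF x)
      rw [← Finset.sum_mul] at h2
      linarith
    · push Not at hx
      rw [J2 _ x' hx]
      simp only [lapl, LinearMap.coe_mk, AddHom.coe_mk]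
      rw [J2 _ x' hx]
      have h2 : 0 ≤ ∑ y, (if adj' x' y then J F y - 0 else 0) :=
        Finset.sum_nonneg fun y _ => by
          split_ifs
          · rw [sub_zero]; exact hFn _
          · exact le_rfl
      linarith
  have hmono := sg_mono (lapl adj b) (lapl adj' b') J c
    (lapl_shift_pos adj b c hc1) (lapl_shift_pos adj' b' c hc2) hJ t ht
    (fun z => if z = y then 1 else 0) (fun z => by split_ifs <;> norm_num) (ι x)
  have hind : J (fun z : U => if z = y then (1:ℝ) else 0) = fun z => if z = ι y then 1 else 0 := by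
    funext x'
    by_cases hx : ∃ x, ι x = x'
    · obtain ⟨x, rfl⟩ := hx
      rw [J1]
      by_cases h : x = y
      · simp [h]
      · simp [h, hι.ne h]
    · push Not at hx
      rw [J2 _ x' hx, if_neg (fun h => hx y h.symm)]
  rw [J1, hind] at hmono
  exact hmono

end Pool.H102.DP
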