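import Pool.Agent.H102R3.DPSemi

set_option autoImplicit false

/-!
# Dynamical percolation on a finite set: generator, rotated basis, quadratic form
-/

namespace Pool.H102.DP

open Finset

variable {U : Type} [Fintype U] [DecidableEq U]

/-- configurations: a state (open = `true`, closed = `false`) for each unordered pair -/
abbrev Conf (U : Type) : Type := Sym2 U → Bool

open Classical in
/-- the generator of (walk, environment) on `U`: the walk jumps from `x` to `y` at rate one if `x, y`
are adjacent and the edge `xy` is open, it is killed at rate `b x`, and every edge is resampled at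
rate `μ` (open with probability `p`, closed with probability `1 - p`) -/
noncomputable def gen (adj : U → U → Prop) (b : U → ℝ) (μ p : ℝ) :
    (U × Conf U → ℝ) →ₗ[ℝ] (U × Conf U → ℝ) where
  toFun F z := ∑ y, (if adj z.1 y ∧ z.2 s(z.1, y) = true then F (y, z.2) - F z else 0)
    - b z.1 * F z
    + μ * ∑ e, ((1 - p) * F (z.1, Function.update z.2 e false)
        + p * F (z.1, Function.update z.2 e true) - F z)
  map_add' F G := by
    funext z
    simp only [Pi.add_apply]
    have h1 : ∀ y, (if adj z.1 y ∧ z.2 s(z.1, y) = true then F (y, z.2) + G (y, z.2) - (F z + G z)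
        else 0) = (if adj z.1 y ∧ z.2 s(z.1, y) = true then F (y, z.2) - F z else 0) +
          (if adj z.1 y ∧ z.2 s(z.1, y) = true then G (y, z.2) - G z else 0) := by
      intro y; split_ifs <;> ring
    have h2 : ∀ e, ((1 - p) * (F (z.1, Function.update z.2 e false) +
        G (z.1, Function.update z.2 e false))
        + p * (F (z.1, Function.update z.2 e true) + G (z.1, Function.update z.2 e true))
        - (F z + G z)) =
        ((1 - p) * F (z.1, Function.update z.2 e false)
        + p * F (z.1, Function.update z.2 e true) - F z) +
        ((1 - p) * G (z.1, Function.update z.2 e false)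
        + p * G (z.1, Function.update z.2 e true) - G z) := by
      intro e; ring
    simp only [h1, h2, Finset.sum_add_distrib]
    ring
  map_smul' c F := by
    funext z
    simp only [Pi.smul_apply, smul_eq_mul, RingHom.id_apply]
    have h1 : ∀ y, (if adj z.1 y ∧ z.2 s(z.1, y) = true then c * F (y, z.2) - c * F z
        else 0) = c * (if adj z.1 y ∧ z.2 s(z.1, y) = true then F (y, z.2) - F z else 0) := by
      intro y; split_ifs <;> ring
    have h2 : ∀ e, ((1 - p) * (c * F (z.1, Function.update z.2 e false))
        + p * (c * F (z.1, Function.update z.2 e true)) - c * F z) =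
        c * ((1 - p) * F (z.1, Function.update z.2 e false)
        + p * F (z.1, Function.update z.2 e true) - F z) := by
      intro e; ring
    simp only [h1, h2, ← Finset.mul_sum]
    ring

/-- product Bernoulli weight -/
noncomputable def bern (p : ℝ) (η : Conf U) : ℝ := ∏ e, (if η e = true then p else 1 - p)

/-- annealed (environment-averaged) transition function of the walk, in the killed finite system -/
noncomputable def annealed (adj : U → U → Prop) (b : U → ℝ) (μ p t : ℝ) (x y : U) : ℝ :=
  ∑ η, bern p η * sg (gen adj b μ p) t (fun z => if z.1 = y then 1 else 0) (x, η)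

open Classical in
/-- the generator of simple random walk on `U`, killed at rate `b` -/
noncomputable def lapl (adj : U → U → Prop) (b : U → ℝ) : (U → ℝ) →ₗ[ℝ] (U → ℝ) where
  toFun f x := ∑ y, (if adj x y then f y - f x else 0) - b x * f x
  map_add' f g := by
    funext x
    simp only [Pi.add_apply]
    have h1 : ∀ y, (if adj x y then f y + g y - (f x + g x) else 0) =
        (if adj x y then f y - f x else 0) + (if adj x y then g y - g x else 0) := by
      intro y; split_ifs <;> ring
    simp only [h1, Finset.sum_add_distrib]
    ring
  map_smul' c f := by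
    funext x
    simp only [Pi.smul_apply, smul_eq_mul, RingHom.id_apply]
    have h1 : ∀ y, (if adj x y then c * f y - c * f x else 0) =
        c * (if adj x y then f y - f x else 0) := by
      intro y; split_ifs <;> ring
    simp only [h1, ← Finset.mul_sum]
    ring

/-- transition function of simple random walk on `U`, killed at rate `b` -/
noncomputable def plain (adj : U → U → Prop) (b : U → ℝ) (t : ℝ) (x y : U) : ℝ :=
  sg (lapl adj b) t (fun z => if z = y then 1 else 0) x

/-! ### sums over configurations -/

theorem sum_upd (e : Sym2 U) (G : Conf U → ℝ) :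
    ∑ η, (G (Function.update η e false) + G (Function.update η e true)) = 2 * ∑ η, G η := by
  let fl : Conf U → Conf U := fun η => Function.update η e (!(η e))
  have hinv : Function.Involutive fl := by
    intro η
    funext e'
    by_cases h : e' = e
    · subst h; simp [fl]
    · simp [fl, Function.update_of_ne h]
  have h1 : ∀ η, G (Function.update η e false) + G (Function.update η e true) = G η + G (fl η) := by
    intro η
    have h2 : Function.update η e (η e) = η := Function.update_eq_self e η
    cases h : η e
    · rw [h] at h2
      simp only [fl, h, h2, Bool.not_false]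
    · rw [h] at h2
      simp only [fl, h, h2, Bool.not_true]
      ring
  rw [Finset.sum_congr rfl (fun η _ => h1 η), Finset.sum_add_distrib]
  have h3 : ∑ η, G (fl η) = ∑ η, G η := Equiv.sum_comp hinv.toPerm G
  rw [h3]; ring

/-- rotation coefficients -/
noncomputable def κ (p : ℝ) : Bool → Bool → ℝ
  | false, false => 1 - p
  | false, true => p
  | true, false => √p * √(1 - p)
  | true, true => -(√p * √(1 - p))

noncomputable def vv (p : ℝ) : Bool → ℝ
  | false => √p
  | true => -√(1 - p)

theorem kappa_id (p : ℝ) (hp : 0 ≤ p) (hp1 : p ≤ 1) (a b : Bool) :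
    (if b = true then κ p a b else 0) =
      vv p a * vv p false * κ p false b + vv p a * vv p true * κ p true b := by
  have h1 : √p * √p = p := Real.mul_self_sqrt hp
  have h2 : √(1 - p) * √(1 - p) = 1 - p := Real.mul_self_sqrt (by linarith)
  cases a <;> cases b <;> simp only [κ, vv, if_true, if_false, Bool.false_eq_true] <;>
    generalize √p = s at * <;> generalize √(1 - p) = c at *
  · linear_combination (s * s) * h2
  · linear_combination -(p + c * c) * h1 - p * h2
  · linear_combination (-(c * s)) * h2
  · linear_combination (c * s) * h2

noncomputable def rho (p : ℝ) (e : Sym2 U) (ξ η : Conf U) : ℝ :=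
  ∏ e' ∈ Finset.univ.erase e, κ p (ξ e') (η e')

noncomputable def chi (p : ℝ) (ξ η : Conf U) : ℝ := ∏ e, κ p (ξ e) (η e)

theorem chi_eq (p : ℝ) (e : Sym2 U) (ξ η : Conf U) : chi p ξ η = κ p (ξ e) (η e) * rho p e ξ η :=
  (Finset.mul_prod_erase Finset.univ _ (Finset.mem_univ e)).symm

theorem rho_upd_left (p : ℝ) (e : Sym2 U) (ξ η : Conf U) (c : Bool) :
    rho p e (Function.update ξ e c) η = rho p e ξ η :=
  Finset.prod_congr rfl fun e' he' => by
    rw [Function.update_of_ne (Finset.ne_of_mem_erase he')]

theorem rho_upd_right (p : ℝ) (e : Sym2 U) (ξ η : Conf U) (c : Bool) :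
    rho p e ξ (Function.update η e c) = rho p e ξ η :=
  Finset.prod_congr rfl fun e' he' => by
    rw [Function.update_of_ne (Finset.ne_of_mem_erase he')]

theorem chi_upd_left (p : ℝ) (e : Sym2 U) (ξ η : Conf U) (c : Bool) :
    chi p (Function.update ξ e c) η = κ p c (η e) * rho p e ξ η := by
  rw [chi_eq p e, rho_upd_left, Function.update_self]

theorem chi_upd_right (p : ℝ) (e : Sym2 U) (ξ η : Conf U) (c : Bool) :
    chi p ξ (Function.update η e c) = κ p (ξ e) c * rho p e ξ η := by
  rw [chi_eq p e, rho_upd_right, Function.update_self]

/-- multiplication by the indicator of an open edge, in the rotated basis -/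
theorem open_hat (p : ℝ) (hp : 0 ≤ p) (hp1 : p ≤ 1) (e : Sym2 U) (ξ : Conf U) (F : Conf U → ℝ) :
    ∑ η, chi p ξ η * (if η e = true then F η else 0) =
      vv p (ξ e) * (vv p false * ∑ η, chi p (Function.update ξ e false) η * F η
        + vv p true * ∑ η, chi p (Function.update ξ e true) η * F η) := by
  rw [Finset.mul_sum, Finset.mul_sum, ← Finset.sum_add_distrib, Finset.mul_sum]
  refine Finset.sum_congr rfl fun η _ => ?_
  rw [chi_upd_left, chi_upd_left, chi_eq p e]
  have := kappa_id p hp hp1 (ξ e) (η e)
  have h2 : κ p (ξ e) (η e) * rho p e ξ η * (if η e = true then F η else 0) =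
      (if η e = true then κ p (ξ e) (η e) else 0) * (rho p e ξ η * F η) := by
    split_ifs <;> ring
  rw [h2, this]; ring

/-- resampling in the rotated basis -/
theorem resample_hat (p : ℝ) (e : Sym2 U) (ξ : Conf U) (F : Conf U → ℝ) :
    ∑ η, chi p ξ η * ((1 - p) * F (Function.update η e false) + p * F (Function.update η e true)) =
      if ξ e = true then 0 else ∑ η, chi p ξ η * F η := by
  set h : Conf U → ℝ := fun η => rho p e ξ η *
    ((1 - p) * F (Function.update η e false) + p * F (Function.update η e true)) with hh
  have hupd : ∀ η c, h (Function.update η e c) = h η := by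
    intro η c
    simp only [hh, rho_upd_right, Function.update_idem]
  have h1 : 2 * ∑ η, chi p ξ η *
      ((1 - p) * F (Function.update η e false) + p * F (Function.update η e true)) =
      ∑ η, (κ p (ξ e) false + κ p (ξ e) true) * h η := by
    rw [← sum_upd e]
    refine Finset.sum_congr rfl fun η _ => ?_
    rw [chi_upd_right, chi_upd_right]
    simp only [Function.update_idem, hh]
    ring
  cases hx : ξ e
  · rw [if_neg (by simp)]
    have h2 : 2 * ∑ η, chi p ξ η * F η = ∑ η, h η := by
      rw [← sum_upd e]
      refine Finset.sum_congr rfl fun η _ => ?_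
      rw [chi_upd_right, chi_upd_right, hx]
      simp only [hh, κ]
      ring
    rw [hx] at h1
    have h3 : κ p false false + κ p false true = 1 := by simp [κ]
    rw [h3] at h1
    simp only [one_mul] at h1
    linarith
  · rw [if_pos rfl]
    rw [hx] at h1
    have h3 : κ p true false + κ p true true = 0 := by simp [κ]
    rw [h3] at h1
    simp only [zero_mul, Finset.sum_const_zero] at h1
    linarith

/-- total weight of a coordinate -/
theorem chi_sum (p : ℝ) (ξ : Conf U) : ∑ η, chi p ξ η = if ξ = fun _ => false then 1 else 0 := by
  have h1 : ∑ η, chi p ξ η = ∏ e : Sym2 U, ∑ b : Bool, κ p (ξ e) b := by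
    unfold chi
    rw [Finset.prod_univ_sum, Fintype.piFinset_univ]
  rw [h1]
  by_cases h : ξ = fun _ => false
  · rw [if_pos h, h]
    refine Finset.prod_eq_one fun e _ => ?_
    simp [κ]
  · rw [if_neg h]
    obtain ⟨e, he⟩ : ∃ e, ξ e = true := by
      by_contra hcon
      push Not at hcon
      exact h (funext fun e => by simpa using hcon e)
    refine Finset.prod_eq_zero (Finset.mem_univ e) ?_
    rw [he]; simp [κ]

theorem chi_zero (p : ℝ) (η : Conf U) : chi p (fun _ => false) η = bern p η := by
  unfold chi bern
  refine Finset.prod_congr rfl fun e _ => ?_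
  cases η e <;> simp [κ]

end Pool.H102.DP
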