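import Pool.Agent.H102R3.DPGraph

set_option autoImplicit false
set_option linter.unusedSectionVars false

/-!
# Comparison of return probabilities on a vertex-transitive graph
-/

namespace Pool.H102.DP

open Finset

variable {V : Type} (G : SimpleGraph V) [G.LocallyFinite]

theorem srwKilled_nonneg (Λ : Finset V) (t : ℝ) (x : Λ) : 0 ≤ srwKilled G Λ t x x := by
  classical
  obtain ⟨E⟩ := exists_eb (lapl (fun u v : Λ => G.Adj u.1 v.1) (outDeg G Λ))
    (lapl_symm _ (adj_symm' G Λ) _)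
  unfold srwKilled
  rw [plain_spec _ _ t E]
  exact Finset.sum_nonneg fun i _ => mul_nonneg (Real.exp_nonneg _) (sq_nonneg _)

theorem dynKilled_nonneg (Λ : Finset V) (μ p t : ℝ) (hp : 0 ≤ p) (hp1 : p ≤ 1) (x : Λ) :
    0 ≤ dynKilled G Λ μ p t x x := by
  classical
  obtain ⟨E⟩ := exists_eb (rgen (fun u v : Λ => G.Adj u.1 v.1) (outDeg G Λ) μ p)
    (rgen_symm _ (adj_symm' G Λ) _ μ p)
  unfold dynKilled
  rw [annealed_spec _ _ μ p hp hp1 t E]
  exact Finset.sum_nonneg fun i _ => mul_nonneg (Real.exp_nonneg _) (sq_nonneg _)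

theorem sum_adj_le (d : ℕ) (hd : ∀ x, G.degree x ≤ d) (Λ : Finset V) [DecidableRel G.Adj] (x : Λ) :
    ∑ y : Λ, (if G.Adj x.1 y.1 then (1:ℝ) else 0) ≤ d := by
  classical
  have h1 := outDeg_add G Λ x
  have h2 := outDeg_nonneg G Λ x
  have h3 : (G.degree x.1 : ℝ) ≤ d := by exact_mod_cast hd x.1
  have h4 : ∑ y : Λ, (if G.Adj x.1 y.1 then (1:ℝ) else 0) ≤ G.degree x.1 := by
    have h5 : (∑ y : Λ, @ite ℝ (G.Adj x.1 y.1) (Classical.propDecidable _) (1:ℝ) 0) ≤
      G.degree x.1 := by linarith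
    refine le_trans (le_of_eq (Finset.sum_congr rfl fun y _ => ?_)) h5
    by_cases h : G.Adj x.1 y.1 <;> simp [h]
  linarith

/-- the value at any vertex of a finite set is at most the value of the supremum at `o` -/
theorem dynKilled_le_return (μ p : ℝ) (hμ : 0 < μ) (hp : 0 ≤ p) (hp1 : p ≤ 1) (o : V)
    (φ : V → (G ≃g G)) (hφ : ∀ x, φ x o = x) (t : ℝ) (ht : 0 ≤ t) (A : Finset V) (x : A) :
    dynKilled G A μ p t x x ≤ dynReturn G μ p o t := by
  classical
  have h : ∀ z ∈ A, (φ x.1).symm z ∈ A.image (φ x.1).symm := fun z hz => mem_image_of_mem _ hz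
  have h1 := dynKilled_embed G (φ x.1).symm A (A.image (φ x.1).symm) h μ p t hμ.le hp hp1 ht x x
  have h2 : (φ x.1).symm x.1 = o := by
    have := hφ x.1
    rw [← this]
    conv_lhs => rw [show φ (φ x.1 o) = φ x.1 from by rw [this]]
    simp
  have ho : o ∈ A.image (φ x.1).symm := h2 ▸ h x.1 x.2
  have h3 : (⟨(φ x.1).symm x.1, h x.1 x.2⟩ : {z // z ∈ A.image (φ x.1).symm}) = ⟨o, ho⟩ :=
    Subtype.ext h2
  rw [h3] at h1
  exact h1.trans (le_dynReturn G μ p hμ hp hp1 o _ ho t ht)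

theorem srwKilled_le_return (o : V)
    (φ : V → (G ≃g G)) (hφ : ∀ x, φ x o = x) (t : ℝ) (ht : 0 ≤ t) (A : Finset V) (x : A) :
    srwKilled G A t x x ≤ srwReturn G o t := by
  classical
  have h : ∀ z ∈ A, (φ x.1).symm z ∈ A.image (φ x.1).symm := fun z hz => mem_image_of_mem _ hz
  have h1 := srwKilled_embed G (φ x.1).symm A (A.image (φ x.1).symm) h t ht x x
  have h2 : (φ x.1).symm x.1 = o := by
    have := hφ x.1
    rw [← this]
    conv_lhs => rw [show φ (φ x.1 o) = φ x.1 from by rw [this]]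
    simp
  have ho : o ∈ A.image (φ x.1).symm := h2 ▸ h x.1 x.2
  have h3 : (⟨(φ x.1).symm x.1, h x.1 x.2⟩ : {z // z ∈ A.image (φ x.1).symm}) = ⟨o, ho⟩ :=
    Subtype.ext h2
  rw [h3] at h1
  exact h1.trans (le_srwReturn G o _ ho t ht)

/-- the coercivity constant -/
noncomputable def cc (μ p : ℝ) (d : ℕ) : ℝ := p / (2 + (4 * d + 1) / μ)

theorem cc_pos (μ p : ℝ) (hμ : 0 < μ) (hp : 0 < p) (d : ℕ) : 0 < cc μ p d := by
  unfold cc; positivity

theorem hc_all (d : ℕ) (hd : ∀ x, G.degree x ≤ d) (μ p : ℝ) (hμ : 0 < μ) (hp : 0 < p) (hp1 : p ≤ 1)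
    (Λ : Finset V) [DecidableEq V] (F : Λ × Conf Λ → ℝ) :
    cc μ p d * (Sf (fun u v : Λ => G.Adj u.1 v.1) (outDeg G Λ) (fun x => F (x, z0))
      (fun x => F (x, z0)) + ∑ x, gn F x) ≤
      Bf (fun u v : Λ => G.Adj u.1 v.1) (outDeg G Λ) μ p F F := by
  classical
  have h1 := coercive (fun u v : Λ => G.Adj u.1 v.1) (adj_symm' G Λ) (outDeg G Λ) (outDeg_nonneg G Λ)
    μ p d hμ hp.le hp1 (fun x => sum_adj_le G d hd Λ x) F
  have h2 : 0 ≤ ∑ x, gn F x := Finset.sum_nonneg fun x _ => gn_nonneg _ x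
  have hpos : (0:ℝ) < 2 + (4 * d + 1) / μ := by positivity
  unfold cc
  rw [div_mul_eq_mul_div, div_le_iff₀ hpos]
  have h3 : p * ∑ x, gn F x ≤ ∑ x, gn F x := by nlinarith
  linarith

/-- amenable case, lower bound -/
theorem amen_lower (hG : G.Connected) (d : ℕ) (hd : ∀ x, G.degree x ≤ d)
    (μ p : ℝ) (hμ : 0 < μ) (hp : 0 < p) (hp1 : p ≤ 1) (o : V)
    (φ : V → (G ≃g G)) (hφ : ∀ x, φ x o = x)
    (hF : ∀ δ : ℝ, 0 < δ → ∃ A : Finset V, A.Nonempty ∧ ((bd G A).card : ℝ) ≤ δ * A.card)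
    (t : ℝ) (ht : 0 ≤ t) : srwReturn G o t ≤ dynReturn G μ p o t := by
  classical
  refine srwReturn_le G o t _ fun Λ ho => ?_
  refine folner_transfer G hG d hd o φ hφ hF (fun Λ x => srwKilled G Λ t x x)
    (fun Λ x => srwKilled_nonneg G Λ t x) (fun Λ x => srwKilled_le_one G Λ t ht x)
    (fun Λ Λ' ψ h x => srwKilled_embed G ψ Λ Λ' h t ht x x) _ (fun A => ?_) Λ ho
  have h1 := trace_lower (fun u v : A => G.Adj u.1 v.1) (outDeg G A) μ p (adj_symm' G A)
    hp.le hp1 t ht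
  refine (le_trans (le_of_eq rfl) h1).trans ?_
  have h2 : ∀ x : A, annealed (fun u v : A => G.Adj u.1 v.1) (outDeg G A) μ p t x x ≤
      dynReturn G μ p o t := fun x => by
    refine le_trans (le_of_eq ?_) (dynKilled_le_return G μ p hμ hp.le hp1 o φ hφ t ht A x)
    unfold dynKilled
    congr!
  refine (Finset.sum_le_sum fun x _ => h2 x).trans ?_
  rw [Finset.sum_const, Finset.card_univ, Fintype.card_coe, nsmul_eq_mul, mul_comm]

/-- amenable case, upper bound -/
theorem amen_upper (hG : G.Connected) (d : ℕ) (hd : ∀ x, G.degree x ≤ d)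
    (μ p : ℝ) (hμ : 0 < μ) (hp : 0 < p) (hp1 : p ≤ 1) (o : V)
    (φ : V → (G ≃g G)) (hφ : ∀ x, φ x o = x)
    (hF : ∀ δ : ℝ, 0 < δ → ∃ A : Finset V, A.Nonempty ∧ ((bd G A).card : ℝ) ≤ δ * A.card)
    (t : ℝ) (ht : 0 ≤ t) : dynReturn G μ p o t ≤
      srwReturn G o (cc μ p d * t) + Real.exp (-(cc μ p d * t)) := by
  classical
  have hc0 := cc_pos μ p hμ hp d
  refine dynReturn_le G μ p o t _ fun Λ ho => ?_
  refine folner_transfer G hG d hd o φ hφ hF (fun Λ x => dynKilled G Λ μ p t x x)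
    (fun Λ x => dynKilled_nonneg G Λ μ p t hp.le hp1 x)
    (fun Λ x => dynKilled_le_one G μ p hμ hp.le hp1 Λ t ht x)
    (fun Λ Λ' ψ h x => dynKilled_embed G ψ Λ Λ' h μ p t hμ.le hp.le hp1 ht x x) _ (fun A => ?_) Λ ho
  have h1 := trace_upper (fun u v : A => G.Adj u.1 v.1) (outDeg G A) μ p
    hp.le hp1 (adj_symm' G A) (cc μ p d) (fun F => hc_all G d hd μ p hμ hp hp1 A F) t ht
  refine le_trans ?_ (h1.trans ?_)
  · refine Finset.sum_le_sum fun x _ => le_of_eq ?_
    unfold dynKilled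
    congr!
  have h2 : ∀ x : A, plain (fun u v : A => G.Adj u.1 v.1) (outDeg G A) (cc μ p d * t) x x ≤
      srwReturn G o (cc μ p d * t) := fun x => by
    refine le_trans (le_of_eq ?_) (srwKilled_le_return G o φ hφ (cc μ p d * t) (by positivity) A x)
    unfold srwKilled
    congr!
  have h3 := Finset.sum_le_sum fun (x : A) (_ : x ∈ Finset.univ) => h2 x
  rw [Finset.sum_const, Finset.card_univ, Fintype.card_coe, nsmul_eq_mul] at h3
  rw [Fintype.card_coe]
  linarith

/-- exponential decay in the nonamenable case -/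
theorem nonamen (d : ℕ) (hd : ∀ x, G.degree x ≤ d)
    (μ p : ℝ) (hμ : 0 < μ) (hp : 0 < p) (hp1 : p ≤ 1) (o : V)
    (h : ℝ) (hh : 0 < h) (hiso : ∀ A : Finset V, h * A.card ≤ (bd G A).card) :
    ∃ κ1 : ℝ, 0 < κ1 ∧ ∀ t : ℝ, 0 ≤ t → srwReturn G o t ≤ Real.exp (-(κ1 * t)) ∧
      dynReturn G μ p o t ≤ Real.exp (-(κ1 * t)) := by
  classical
  set κ0 : ℝ := (h / 2) / (1 + 4 * (d + 1) / h) with hκ0
  have hκ0pos : 0 < κ0 := by positivity
  have hc0 := cc_pos μ p hμ hp d
  have hS : ∀ (Λ : Finset V) (f : Λ → ℝ), κ0 * ip f f ≤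
      Sf (fun u v : Λ => G.Adj u.1 v.1) (outDeg G Λ) f f := by
    intro Λ f
    refine cheeger (fun u v : Λ => G.Adj u.1 v.1) (adj_symm' G Λ) (outDeg G Λ) (outDeg_nonneg G Λ)
      h (d + 1) hh (by positivity) (fun x => ?_) (fun A => ?_) f
    · refine (sum_adj_le G d hd Λ x).trans (by linarith)
    · convert iso_finite G h hiso Λ A
  have hS1 : ∀ t : ℝ, 0 ≤ t → srwReturn G o t ≤ Real.exp (-(κ0 * t)) := by
    intro t ht
    refine srwReturn_le G o t _ fun Λ ho => ?_
    exact plain_decay _ (adj_symm' G Λ) (outDeg G Λ) κ0 (hS Λ) t ht _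
  have hD1 : ∀ t : ℝ, 0 ≤ t → dynReturn G μ p o t ≤ Real.exp (-((cc μ p d * min κ0 1) * t)) := by
    intro t ht
    refine dynReturn_le G μ p o t _ fun Λ ho => ?_
    refine annealed_decay _ (adj_symm' G Λ) (outDeg G Λ) μ p hp.le hp1 _ (fun F => ?_) t ht _
    have h1 := hc_all G d hd μ p hμ hp hp1 Λ F
    have h2 := hS Λ (fun x => F (x, z0))
    have h3 := norm_split F
    have h4 : 0 ≤ ∑ x, gn F x := Finset.sum_nonneg fun x _ => gn_nonneg _ x
    have h5 : ip (fun x => F (x, z0)) (fun x => F (x, z0)) = ∑ x, (F (x, z0)) ^ 2 :=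
      Finset.sum_congr rfl fun x _ => by ring
    have h6 : 0 ≤ ∑ x, (F (x, z0)) ^ 2 := Finset.sum_nonneg fun x _ => sq_nonneg _
    rw [h5] at h2
    rw [h3, mul_assoc]
    refine le_trans (mul_le_mul_of_nonneg_left ?_ hc0.le) (le_trans h1 (le_of_eq ?_))
    · have h7 : min κ0 1 * ∑ x, (F (x, z0)) ^ 2 ≤ κ0 * ∑ x, (F (x, z0)) ^ 2 :=
        mul_le_mul_of_nonneg_right (min_le_left _ _) h6
      have h8 : min κ0 1 * ∑ x, gn F x ≤ 1 * ∑ x, gn F x :=
        mul_le_mul_of_nonneg_right (min_le_right _ _) h4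
      calc min κ0 1 * (∑ x, (F (x, z0)) ^ 2 + ∑ x, gn F x) =
          min κ0 1 * ∑ x, (F (x, z0)) ^ 2 + min κ0 1 * ∑ x, gn F x := by ring
        _ ≤ κ0 * ∑ x, (F (x, z0)) ^ 2 + 1 * ∑ x, gn F x := add_le_add h7 h8
        _ ≤ _ := by rw [one_mul]; exact add_le_add_left h2 _
    · congr!
  refine ⟨min κ0 (cc μ p d * min κ0 1), by positivity, fun t ht => ⟨(hS1 t ht).trans ?_,
    (hD1 t ht).trans ?_⟩⟩
  · exact Real.exp_le_exp.2 (neg_le_neg (mul_le_mul_of_nonneg_right (min_le_left _ _) ht))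
  · exact Real.exp_le_exp.2 (neg_le_neg (mul_le_mul_of_nonneg_right (min_le_right _ _) ht))

theorem comparison (hG : G.Connected) (htr : ∀ x y : V, ∃ φ : G ≃g G, φ x = y)
    (μ p : ℝ) (hμ : 0 < μ) (hp : 0 < p) (hp1 : p ≤ 1) (o : V) :
    ∃ C : ℝ, 1 ≤ C ∧ ∀ t : ℝ, 0 ≤ t →
      (1 / C) * srwReturn G o (C * t) ≤ dynReturn G μ p o t ∧
      dynReturn G μ p o t ≤ C * srwReturn G o (t / C) := by
  classical
  choose φ hφ using fun x => htr o x
  set d := G.degree o with hd'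
  have hd : ∀ x, G.degree x ≤ d := by
    intro x
    have h1 := SimpleGraph.Iso.degree_eq (φ x) o
    rw [hφ x] at h1
    exact h1.le
  have hP0 : ∀ t, 0 ≤ t → 0 ≤ srwReturn G o t := fun t ht =>
    (Real.exp_nonneg _).trans (srwReturn_lower G o t ht)
  have hd0 : (0:ℝ) ≤ d := Nat.cast_nonneg _
  by_cases hF : ∀ δ : ℝ, 0 < δ → ∃ A : Finset V, A.Nonempty ∧ ((bd G A).card : ℝ) ≤ δ * A.card
  · -- amenable
    set c := cc μ p d with hc
    have hcpos : 0 < c := cc_pos μ p hμ hp d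
    set C : ℝ := max 2 (max (1 / c) (d / c)) with hC
    have hC2 : 2 ≤ C := le_max_left _ _
    have hC1 : 1 / c ≤ C := (le_max_left _ _).trans (le_max_right _ _)
    have hCd : d / c ≤ C := (le_max_right _ _).trans (le_max_right _ _)
    have hCpos : 0 < C := by linarith
    refine ⟨C, by linarith, fun t ht => ⟨?_, ?_⟩⟩
    · have h1 := amen_lower G hG d hd μ p hμ hp hp1 o φ hφ hF t ht
      have h2 := srwReturn_anti G o t (C * t) ht (by nlinarith)
      have h3 := hP0 (C * t) (by positivity)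
      have h4 : 1 / C * srwReturn G o (C * t) ≤ 1 * srwReturn G o (C * t) :=
        mul_le_mul_of_nonneg_right (by rw [div_le_one hCpos]; linarith) h3
      linarith
    · have h1 := amen_upper G hG d hd μ p hμ hp hp1 o φ hφ hF t ht
      have hCc : t / C ≤ c * t := by
        rw [div_le_iff₀ hCpos]
        have : 1 ≤ c * C := by
          rw [div_le_iff₀ hcpos] at hC1; linarith
        nlinarith
      have h2 := srwReturn_anti G o (t / C) (c * t) (by positivity) hCc
      have h3 := srwReturn_lower G o (t / C) (by positivity)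
      have h4 : Real.exp (-(c * t)) ≤ Real.exp (-(d * (t / C))) := by
        refine Real.exp_le_exp.2 (neg_le_neg ?_)
        have : (d:ℝ) ≤ c * C := by rw [div_le_iff₀ hcpos] at hCd; linarith
        rw [mul_div_assoc', div_le_iff₀ hCpos]
        nlinarith
      have h5 := hP0 (t / C) (by positivity)
      have h6 : 2 * srwReturn G o (t / C) ≤ C * srwReturn G o (t / C) :=
        mul_le_mul_of_nonneg_right hC2 h5
      have h3' : Real.exp (-(d * (t / C))) ≤ srwReturn G o (t / C) := h3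
      linarith
  · -- nonamenable
    push Not at hF
    obtain ⟨h, hh, hA⟩ := hF
    have hiso : ∀ A : Finset V, h * A.card ≤ (bd G A).card := by
      intro A
      rcases A.eq_empty_or_nonempty with rfl | hne
      · simp
      · exact (hA A hne).le
    obtain ⟨κ1, hκ1, hdec⟩ := nonamen G d hd μ p hμ hp hp1 o h hh hiso
    set C : ℝ := max 1 (d / κ1) with hC
    have hC1 : 1 ≤ C := le_max_left _ _
    have hCd : d / κ1 ≤ C := le_max_right _ _
    have hCpos : 0 < C := by linarith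
    have hCd' : (d:ℝ) ≤ κ1 * C := by rw [div_le_iff₀ hκ1] at hCd; linarith
    refine ⟨C, hC1, fun t ht => ⟨?_, ?_⟩⟩
    · have h1 := (hdec (C * t) (by positivity)).1
      have h2 := dynReturn_lower G μ p hμ hp.le hp1 o t ht
      have h3 := hP0 (C * t) (by positivity)
      have h4 : 1 / C * srwReturn G o (C * t) ≤ 1 * srwReturn G o (C * t) :=
        mul_le_mul_of_nonneg_right (by rw [div_le_one hCpos]; linarith) h3
      have h5 : Real.exp (-(κ1 * (C * t))) ≤ Real.exp (-(d * t)) := by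
        refine Real.exp_le_exp.2 (neg_le_neg ?_)
        nlinarith
      have h2' : Real.exp (-(d * t)) ≤ dynReturn G μ p o t := h2
      linarith
    · have h1 := (hdec t ht).2
      have h3 := srwReturn_lower G o (t / C) (by positivity)
      have h3' : Real.exp (-(d * (t / C))) ≤ srwReturn G o (t / C) := h3
      have h4 : Real.exp (-(κ1 * t)) ≤ Real.exp (-(d * (t / C))) := by
        refine Real.exp_le_exp.2 (neg_le_neg ?_)
        rw [mul_div_assoc', div_le_iff₀ hCpos]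
        nlinarith
      have h5 := hP0 (t / C) (by positivity)
      have h6 : 1 * srwReturn G o (t / C) ≤ C * srwReturn G o (t / C) :=
        mul_le_mul_of_nonneg_right hC1 h5
      linarith

end Pool.H102.DP
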