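import Pool.Agent.H102R3.DPBounds
import Pool.Agent.H102R3.DPEmbed

set_option autoImplicit false
set_option linter.unusedSectionVars false

/-!
# Random walk on dynamical percolation on an infinite graph
-/

namespace Pool.H102.DP

open Finset

variable {V : Type} (G : SimpleGraph V) [G.LocallyFinite]

open Classical in
/-- the number of edges from `x` to the complement of the finite set `Λ` -/
noncomputable def outDeg (Λ : Finset V) (x : Λ) : ℝ :=
  ((G.neighborFinset x.1).filter fun y => y ∉ Λ).card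

open Classical in
/-- For a finite set `Λ` of vertices: probability that the random walk on dynamical percolation with
parameters `μ, p`, started at `x` with the stationary (product Bernoulli) environment and killed when
a rate-one clock of an edge leading out of `Λ` rings at its position, is at `y` (and alive) at time
`t`; annealed over the environment and its dynamics. -/
noncomputable def dynKilled (Λ : Finset V) (μ p t : ℝ) (x y : Λ) : ℝ :=
  annealed (fun u v : Λ => G.Adj u.1 v.1) (outDeg G Λ) μ p t x y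

open Classical in
/-- the same for continuous-time simple random walk (rate one across each edge) killed on leaving
`Λ` -/
noncomputable def srwKilled (Λ : Finset V) (t : ℝ) (x y : Λ) : ℝ :=
  plain (fun u v : Λ => G.Adj u.1 v.1) (outDeg G Λ) t x y

/-- `Q_t(o,o)`: annealed return probability of random walk on dynamical percolation, as the
increasing limit over finite sets `Λ` of the killed processes -/
noncomputable def dynReturn (μ p : ℝ) (o : V) (t : ℝ) : ℝ :=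
  ⨆ Λ : {Λ : Finset V // o ∈ Λ}, dynKilled G Λ.1 μ p t ⟨o, Λ.2⟩ ⟨o, Λ.2⟩

/-- `P_t(o,o)`: return probability of continuous-time simple random walk -/
noncomputable def srwReturn (o : V) (t : ℝ) : ℝ :=
  ⨆ Λ : {Λ : Finset V // o ∈ Λ}, srwKilled G Λ.1 t ⟨o, Λ.2⟩ ⟨o, Λ.2⟩

section basic

theorem adj_symm' (Λ : Finset V) : ∀ x y : Λ, G.Adj x.1 y.1 → G.Adj y.1 x.1 := fun _ _ h => h.symm

theorem adj_irr (Λ : Finset V) : ∀ x : Λ, ¬ G.Adj x.1 x.1 := fun _ h => G.loopless.irrefl _ h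

theorem outDeg_nonneg (Λ : Finset V) (x : Λ) : 0 ≤ outDeg G Λ x := Nat.cast_nonneg _

open Classical in
theorem sum_adj (Λ : Finset V) (x : Λ) :
    ∑ y : Λ, (if G.Adj x.1 y.1 then (1:ℝ) else 0) = ((G.neighborFinset x.1).filter fun y => y ∈ Λ).card := by
  rw [Finset.sum_coe_sort Λ (fun y => if G.Adj x.1 y then (1:ℝ) else 0), ← Finset.sum_filter,
    Finset.sum_const, nsmul_eq_mul, mul_one]
  congr 2
  ext y
  simp only [mem_filter, SimpleGraph.mem_neighborFinset]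
  tauto

open Classical in
theorem outDeg_add (Λ : Finset V) (x : Λ) :
    outDeg G Λ x + ∑ y : Λ, (if G.Adj x.1 y.1 then (1:ℝ) else 0) = G.degree x.1 := by
  rw [sum_adj, outDeg, ← Nat.cast_add]
  congr 1
  rw [add_comm, Finset.card_filter_add_card_filter_not, SimpleGraph.card_neighborFinset_eq_degree]

open Classical in
theorem embed_cond (φ : G ≃g G) (Λ Λ' : Finset V) (h : ∀ x ∈ Λ, φ x ∈ Λ') (x : Λ) :
    outDeg G Λ' ⟨φ x.1, h x.1 x.2⟩ + ∑ y' : Λ', (if G.Adj (φ x.1) y'.1 ∧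
      (∀ y : Λ, (⟨φ y.1, h y.1 y.2⟩ : Λ') ≠ y') then (1:ℝ) else 0) ≤ outDeg G Λ x := by
  have h1 : ∑ y' : Λ', (if G.Adj (φ x.1) y'.1 ∧
      (∀ y : Λ, (⟨φ y.1, h y.1 y.2⟩ : Λ') ≠ y') then (1:ℝ) else 0) =
      ((G.neighborFinset (φ x.1)).filter fun z => z ∈ Λ' ∧ ∀ y ∈ Λ, φ y ≠ z).card := by
    have h2 : ∀ y' : Λ', (if G.Adj (φ x.1) y'.1 ∧
      (∀ y : Λ, (⟨φ y.1, h y.1 y.2⟩ : Λ') ≠ y') then (1:ℝ) else 0) =
      (fun z => if G.Adj (φ x.1) z ∧ (∀ y ∈ Λ, φ y ≠ z) then (1:ℝ) else 0) y'.1 := by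
      intro y'
      have : (∀ y : Λ, (⟨φ y.1, h y.1 y.2⟩ : Λ') ≠ y') ↔ ∀ y ∈ Λ, φ y ≠ y'.1 := by
        constructor
        · intro h3 y hy h4
          exact h3 ⟨y, hy⟩ (Subtype.ext h4)
        · intro h3 y h4
          exact h3 y.1 y.2 (congrArg Subtype.val h4)
      simp only [this]
    rw [Finset.sum_congr rfl (fun y' _ => h2 y'), Finset.sum_coe_sort Λ'
      (fun z => if G.Adj (φ x.1) z ∧ (∀ y ∈ Λ, φ y ≠ z) then (1:ℝ) else 0), ← Finset.sum_filter,
      Finset.sum_const, nsmul_eq_mul, mul_one]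
    congr 2
    ext z
    simp only [mem_filter, SimpleGraph.mem_neighborFinset]
    tauto
  rw [h1, outDeg, outDeg, ← Nat.cast_add]
  have hdisj : Disjoint ((G.neighborFinset (φ x.1)).filter fun y => y ∉ Λ')
      ((G.neighborFinset (φ x.1)).filter fun z => z ∈ Λ' ∧ ∀ y ∈ Λ, φ y ≠ z) := by
    rw [Finset.disjoint_left]
    intro z h2 h3
    exact (mem_filter.1 h2).2 (mem_filter.1 h3).2.1
  rw [← Finset.card_union_of_disjoint hdisj]
  have hsub : ((G.neighborFinset (φ x.1)).filter fun y => y ∉ Λ') ∪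
      ((G.neighborFinset (φ x.1)).filter fun z => z ∈ Λ' ∧ ∀ y ∈ Λ, φ y ≠ z) ⊆
      ((G.neighborFinset x.1).filter fun y => y ∉ Λ).image φ := by
    intro z hz
    have hz1 : G.Adj (φ x.1) z ∧ ∀ y ∈ Λ, φ y ≠ z := by
      rcases mem_union.1 hz with h2 | h2
      · have h3 := mem_filter.1 h2
        refine ⟨by simpa using h3.1, fun y hy h4 => h3.2 ?_⟩
        rw [← h4]; exact h y hy
      · have h3 := mem_filter.1 h2
        exact ⟨by simpa using h3.1, h3.2.2⟩
    refine mem_image.2 ⟨φ.symm z, mem_filter.2 ⟨?_, ?_⟩, by simp⟩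
    · rw [SimpleGraph.mem_neighborFinset]
      have := hz1.1
      rw [← φ.map_adj_iff]
      simpa using this
    · intro h2
      exact hz1.2 _ h2 (by simp)
  exact_mod_cast (Finset.card_le_card hsub).trans Finset.card_image_le

theorem dynKilled_embed (φ : G ≃g G) (Λ Λ' : Finset V) (h : ∀ x ∈ Λ, φ x ∈ Λ') (μ p t : ℝ)
    (hμ : 0 ≤ μ) (hp : 0 ≤ p) (hp1 : p ≤ 1) (ht : 0 ≤ t) (x y : Λ) :
    dynKilled G Λ μ p t x y ≤ dynKilled G Λ' μ p t ⟨φ x.1, h x.1 x.2⟩ ⟨φ y.1, h y.1 y.2⟩ := by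
  classical
  refine annealed_embed _ _ _ _ (fun x : Λ => (⟨φ x.1, h x.1 x.2⟩ : Λ')) (fun a b hab => ?_)
    (fun a b => ?_) (fun a => ?_) μ p t hμ hp hp1 ht x y
  · exact Subtype.ext (φ.injective (congrArg Subtype.val hab))
  · exact (φ.map_adj_iff).symm
  · convert embed_cond G φ Λ Λ' h a

theorem srwKilled_embed (φ : G ≃g G) (Λ Λ' : Finset V) (h : ∀ x ∈ Λ, φ x ∈ Λ') (t : ℝ)
    (ht : 0 ≤ t) (x y : Λ) :
    srwKilled G Λ t x y ≤ srwKilled G Λ' t ⟨φ x.1, h x.1 x.2⟩ ⟨φ y.1, h y.1 y.2⟩ := by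
  classical
  refine plain_embed _ _ _ _ (fun x : Λ => (⟨φ x.1, h x.1 x.2⟩ : Λ')) (fun a b hab => ?_)
    (fun a b => ?_) (fun a => ?_) t ht x y
  · exact Subtype.ext (φ.injective (congrArg Subtype.val hab))
  · exact (φ.map_adj_iff).symm
  · convert embed_cond G φ Λ Λ' h a

end basic

section bounds

variable (μ p : ℝ) (hμ : 0 < μ) (hp : 0 ≤ p) (hp1 : p ≤ 1) (o : V)

include hμ hp hp1 in
theorem dynKilled_le_one (Λ : Finset V) (t : ℝ) (ht : 0 ≤ t) (x : Λ) :
    dynKilled G Λ μ p t x x ≤ 1 := by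
  classical
  have h1 := annealed_decay _ (adj_symm' G Λ) (outDeg G Λ) μ p hp hp1 0
    (fun F => by rw [zero_mul]; exact Bf_nonneg _ _ (outDeg_nonneg G Λ) μ p hμ.le F) t ht x
  have h2 : Real.exp (-(0 * t)) = 1 := by simp
  rw [h2] at h1
  exact h1

theorem srwKilled_le_one (Λ : Finset V) (t : ℝ) (ht : 0 ≤ t) (x : Λ) :
    srwKilled G Λ t x x ≤ 1 := by
  classical
  have h1 := plain_decay _ (adj_symm' G Λ) (outDeg G Λ) 0
    (fun F => by rw [zero_mul]; exact Sf_nonneg _ _ (outDeg_nonneg G Λ) F) t ht x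
  have h2 : Real.exp (-(0 * t)) = 1 := by simp
  rw [h2] at h1
  exact h1

include hμ hp hp1 in
theorem le_dynReturn (Λ : Finset V) (ho : o ∈ Λ) (t : ℝ) (ht : 0 ≤ t) :
    dynKilled G Λ μ p t ⟨o, ho⟩ ⟨o, ho⟩ ≤ dynReturn G μ p o t :=
  le_ciSup (f := fun Λ : {Λ : Finset V // o ∈ Λ} => dynKilled G Λ.1 μ p t ⟨o, Λ.2⟩ ⟨o, Λ.2⟩)
    ⟨1, by rintro _ ⟨Λ, rfl⟩; exact dynKilled_le_one G μ p hμ hp hp1 Λ.1 t ht _⟩ ⟨Λ, ho⟩

theorem le_srwReturn (Λ : Finset V) (ho : o ∈ Λ) (t : ℝ) (ht : 0 ≤ t) :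
    srwKilled G Λ t ⟨o, ho⟩ ⟨o, ho⟩ ≤ srwReturn G o t :=
  le_ciSup (f := fun Λ : {Λ : Finset V // o ∈ Λ} => srwKilled G Λ.1 t ⟨o, Λ.2⟩ ⟨o, Λ.2⟩)
    ⟨1, by rintro _ ⟨Λ, rfl⟩; exact srwKilled_le_one G Λ.1 t ht _⟩ ⟨Λ, ho⟩

theorem dynReturn_le (t B : ℝ) (h : ∀ (Λ : Finset V) (ho : o ∈ Λ),
    dynKilled G Λ μ p t ⟨o, ho⟩ ⟨o, ho⟩ ≤ B) : dynReturn G μ p o t ≤ B := by
  have : Nonempty {Λ : Finset V // o ∈ Λ} := ⟨⟨{o}, Finset.mem_singleton_self o⟩⟩
  exact ciSup_le fun Λ => h Λ.1 Λ.2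

theorem srwReturn_le (t B : ℝ) (h : ∀ (Λ : Finset V) (ho : o ∈ Λ),
    srwKilled G Λ t ⟨o, ho⟩ ⟨o, ho⟩ ≤ B) : srwReturn G o t ≤ B := by
  have : Nonempty {Λ : Finset V // o ∈ Λ} := ⟨⟨{o}, Finset.mem_singleton_self o⟩⟩
  exact ciSup_le fun Λ => h Λ.1 Λ.2

include hμ hp hp1 in
theorem dynReturn_lower (t : ℝ) (ht : 0 ≤ t) :
    Real.exp (-(G.degree o * t)) ≤ dynReturn G μ p o t := by
  classical
  refine le_trans ?_ (le_dynReturn G μ p hμ hp hp1 o {o} (Finset.mem_singleton_self o) t ht)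
  have := annealed_lower _ (adj_symm' G {o}) (outDeg G {o}) μ p hp hp1 (adj_irr G {o}) t ht
    ⟨o, Finset.mem_singleton_self o⟩
  rw [outDeg_add] at this
  exact this

theorem srwReturn_lower (t : ℝ) (ht : 0 ≤ t) :
    Real.exp (-(G.degree o * t)) ≤ srwReturn G o t := by
  classical
  refine le_trans ?_ (le_srwReturn G o {o} (Finset.mem_singleton_self o) t ht)
  have := plain_lower _ (adj_symm' G {o}) (outDeg G {o}) (adj_irr G {o}) t
    ⟨o, Finset.mem_singleton_self o⟩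
  rw [outDeg_add] at this
  exact this

theorem srwReturn_anti (s t : ℝ) (hs : 0 ≤ s) (hst : s ≤ t) : srwReturn G o t ≤ srwReturn G o s := by
  classical
  refine srwReturn_le G o t _ fun Λ ho => ?_
  refine le_trans ?_ (le_srwReturn G o Λ ho s hs)
  exact plain_anti _ (adj_symm' G Λ) (outDeg G Λ) (outDeg_nonneg G Λ) s t hst _

end bounds

/-! ### Følner sets -/

open Classical in
/-- inner vertex boundary -/
noncomputable def bd (A : Finset V) : Finset V := A.filter fun x => ∃ y ∈ G.neighborFinset x, y ∉ A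

open Classical in
/-- iterated neighbourhoods -/
noncomputable def nbh (S : Finset V) : ℕ → Finset V
  | 0 => S
  | n + 1 => nbh S n ∪ (nbh S n).biUnion fun x => G.neighborFinset x

open Classical in
theorem nbh_succ (S : Finset V) (n : ℕ) :
    nbh G S (n + 1) = nbh G S n ∪ (nbh G S n).biUnion fun x => G.neighborFinset x := rfl

theorem nbh_card (S : Finset V) (d : ℕ) (hd : ∀ x, G.degree x ≤ d) (n : ℕ) :
    (nbh G S n).card ≤ (d + 1) ^ n * S.card := by
  classical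
  induction n with
  | zero => simp [nbh]
  | succ n ih =>
    have h1 : (nbh G S (n + 1)).card ≤ (nbh G S n).card + (nbh G S n).card * d := by
      rw [nbh_succ]
      refine (Finset.card_union_le _ _).trans (Nat.add_le_add_left ?_ _)
      refine Finset.card_biUnion_le_card_mul _ _ _ fun x _ => ?_
      rw [SimpleGraph.card_neighborFinset_eq_degree]
      exact hd x
    calc (nbh G S (n + 1)).card ≤ (nbh G S n).card * (d + 1) := by rw [Nat.mul_add, mul_one]; omega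
      _ ≤ ((d + 1) ^ n * S.card) * (d + 1) := Nat.mul_le_mul_right _ ih
      _ = (d + 1) ^ (n + 1) * S.card := by ring

theorem nbh_mono (S : Finset V) {m n : ℕ} (h : m ≤ n) : nbh G S m ⊆ nbh G S n := by
  classical
  induction h with
  | refl => exact Finset.Subset.refl _
  | step _ ih => exact ih.trans (by rw [Nat.succ_eq_add_one, nbh_succ]; exact Finset.subset_union_left)

theorem mem_of_walk (A : Finset V) {x y : V} (w : G.Walk x y) (n : ℕ) (hn : w.length ≤ n)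
    (hx : x ∈ A) (hx' : x ∉ nbh G (bd G A) n) : y ∈ A := by
  classical
  induction w generalizing n with
  | nil => exact hx
  | @cons u v w' hadj w ih =>
    rw [SimpleGraph.Walk.length_cons] at hn
    obtain ⟨m, rfl⟩ : ∃ m, n = m + 1 := ⟨n - 1, by omega⟩
    have h1 : u ∉ bd G A := fun h => hx' (nbh_mono G _ (Nat.zero_le _) h)
    have hv : v ∈ A := by
      by_contra hv
      exact h1 (mem_filter.2 ⟨hx, v, by simpa using hadj, hv⟩)
    refine ih m (by omega) hv fun h => hx' ?_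
    rw [nbh_succ]
    exact mem_union_right _ (mem_biUnion.2 ⟨v, h, by simpa using hadj.symm⟩)

/-- transfer along Følner sets -/
theorem folner_transfer (hG : G.Connected) (d : ℕ) (hd : ∀ x, G.degree x ≤ d)
    (o : V) (φ : V → (G ≃g G)) (hφ : ∀ x, φ x o = x)
    (hF : ∀ δ : ℝ, 0 < δ → ∃ A : Finset V, A.Nonempty ∧ ((bd G A).card : ℝ) ≤ δ * A.card)
    (r : (Λ : Finset V) → Λ → ℝ) (hr0 : ∀ Λ x, 0 ≤ r Λ x) (hr1 : ∀ Λ x, r Λ x ≤ 1)
    (hemb : ∀ (Λ Λ' : Finset V) (ψ : G ≃g G) (h : ∀ x ∈ Λ, ψ x ∈ Λ') (x : Λ),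
      r Λ x ≤ r Λ' ⟨ψ x.1, h x.1 x.2⟩)
    (B : ℝ) (hB : ∀ A : Finset V, ∑ x : A, r A x ≤ B * A.card) (Λ : Finset V) (ho : o ∈ Λ) :
    r Λ ⟨o, ho⟩ ≤ B := by
  classical
  -- radius of Λ
  have hw : ∀ z : V, ∃ w : G.Walk o z, True := fun z => by
    obtain ⟨w⟩ := hG.preconnected o z; exact ⟨w, trivial⟩
  choose w _ using hw
  set R := Λ.sup fun z => (w z).length with hR
  have hgood : ∀ A : Finset V, ∀ x ∈ A, x ∉ nbh G (bd G A) R → ∀ z ∈ Λ, φ x z ∈ A := by
    intro A x hx hx' z hz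
    have h1 : ((w z).map (φ x).toHom).length ≤ R := by
      rw [SimpleGraph.Walk.length_map]
      exact Finset.le_sup (f := fun z => (w z).length) hz
    have h2 : (φ x).toHom o = x := hφ x
    refine mem_of_walk G A ((w z).map (φ x).toHom) R h1 ?_ ?_
    · rw [h2]; exact hx
    · rw [h2]; exact hx'
  have hmain : ∀ δ : ℝ, 0 < δ → r Λ ⟨o, ho⟩ ≤ B + δ * (d + 1) ^ R := by
    intro δ hδ
    obtain ⟨A, hA, hbd⟩ := hF δ hδ
    have hApos : (0:ℝ) < A.card := by exact_mod_cast hA.card_pos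
    set N := nbh G (bd G A) R with hN
    have hNc : (N.card : ℝ) ≤ (d + 1) ^ R * (δ * A.card) := by
      have h1 : (N.card : ℝ) ≤ ((d + 1) ^ R : ℝ) * (bd G A).card := by
        exact_mod_cast nbh_card G (bd G A) d hd R
      exact h1.trans (mul_le_mul_of_nonneg_left hbd (by positivity))
    have h1 : ∀ x : A, r Λ ⟨o, ho⟩ - (if x.1 ∈ N then 1 else 0) ≤ r A x := by
      intro x
      by_cases hx : x.1 ∈ N
      · rw [if_pos hx]
        have := hr1 Λ ⟨o, ho⟩
        have := hr0 A x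
        linarith
      · rw [if_neg hx, sub_zero]
        have h2 := hemb Λ A (φ x.1) (hgood A x.1 x.2 hx) ⟨o, ho⟩
        have h3 : (⟨φ x.1 o, hgood A x.1 x.2 hx o ho⟩ : A) = x := Subtype.ext (hφ x.1)
        rwa [h3] at h2
    have h2 := Finset.sum_le_sum fun (x : A) (_ : x ∈ Finset.univ) => h1 x
    rw [Finset.sum_sub_distrib, Finset.sum_const, Finset.card_univ, Fintype.card_coe,
      nsmul_eq_mul] at h2
    have h3 : ∑ x : A, (if x.1 ∈ N then (1:ℝ) else 0) ≤ N.card := by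
      rw [Finset.sum_coe_sort A (fun x => if x ∈ N then (1:ℝ) else 0), ← Finset.sum_filter,
        Finset.sum_const, nsmul_eq_mul, mul_one]
      exact_mod_cast Finset.card_le_card fun x hx => (mem_filter.1 hx).2
    have h4 := hB A
    have h5 : (A.card : ℝ) * r Λ ⟨o, ho⟩ ≤ (A.card : ℝ) * (B + δ * (d + 1) ^ R) := by
      calc (A.card : ℝ) * r Λ ⟨o, ho⟩ ≤ B * A.card + N.card := by linarith
        _ ≤ B * A.card + (d + 1) ^ R * (δ * A.card) := by linarith
        _ = _ := by ring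
    exact le_of_mul_le_mul_left h5 hApos
  refine le_of_forall_pos_le_add fun ε hε => ?_
  have h1 := hmain (ε / (d + 1) ^ R) (by positivity)
  have h2 : ε / ((d:ℝ) + 1) ^ R * (d + 1) ^ R = ε := by field_simp
  rwa [h2] at h1

open Classical in
/-- isoperimetry on `G` gives isoperimetry in finite volume -/
theorem iso_finite (h : ℝ) (hiso : ∀ A : Finset V, h * A.card ≤ (bd G A).card) (Λ : Finset V)
    (A : Finset Λ) : h * A.card ≤ ∑ x ∈ A, (outDeg G Λ x +
      ∑ y : Λ, if G.Adj x.1 y.1 ∧ y ∉ A then (1:ℝ) else 0) := by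
  set A' : Finset V := A.map (Function.Embedding.subtype _) with hA'
  have h1 := hiso A'
  have h2 : A'.card = A.card := Finset.card_map _
  rw [h2] at h1
  refine h1.trans ?_
  have hmem : ∀ x : Λ, x.1 ∈ A' ↔ x ∈ A := by
    intro x
    rw [hA', Finset.mem_map]
    constructor
    · rintro ⟨y, hy, hxy⟩
      have : y = x := Subtype.ext hxy
      rwa [this] at hy
    · intro hx; exact ⟨x, hx, rfl⟩
  have h3 : ((bd G A').card : ℝ) = ∑ x ∈ A, (if x.1 ∈ bd G A' then (1:ℝ) else 0) := by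
    have e1 : ∑ x ∈ A, (if x.1 ∈ bd G A' then (1:ℝ) else 0) =
        ∑ z ∈ A', (if z ∈ bd G A' then (1:ℝ) else 0) := by
      rw [hA', Finset.sum_map]; rfl
    rw [e1, ← Finset.sum_filter, Finset.sum_const, nsmul_eq_mul, mul_one]
    congr 2
    ext z
    rw [mem_filter]
    constructor
    · intro hz; exact ⟨(mem_filter.1 hz).1, hz⟩
    · exact fun hz => hz.2
  rw [h3]
  refine Finset.sum_le_sum fun x hx => ?_
  have hn1 : 0 ≤ outDeg G Λ x := outDeg_nonneg G Λ x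
  have hn2 : 0 ≤ ∑ y : Λ, (if G.Adj x.1 y.1 ∧ y ∉ A then (1:ℝ) else 0) :=
    Finset.sum_nonneg fun y _ => by split_ifs <;> norm_num
  split_ifs with hb
  · obtain ⟨_, y, hy, hyA⟩ := mem_filter.1 hb
    rw [SimpleGraph.mem_neighborFinset] at hy
    by_cases hyΛ : y ∈ Λ
    · have h4 : (1:ℝ) ≤ ∑ y : Λ, (if G.Adj x.1 y.1 ∧ y ∉ A then (1:ℝ) else 0) := by
        have h5 := Finset.single_le_sum (f := fun y : Λ => if G.Adj x.1 y.1 ∧ y ∉ A then (1:ℝ) else 0)
          (fun y _ => by split_ifs <;> norm_num) (Finset.mem_univ ⟨y, hyΛ⟩)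
        have h6 : G.Adj x.1 y ∧ (⟨y, hyΛ⟩ : Λ) ∉ A := ⟨hy, fun h => hyA ((hmem ⟨y, hyΛ⟩).2 h)⟩
        simp only [if_pos h6] at h5
        exact h5
      linarith
    · have h4 : (1:ℝ) ≤ outDeg G Λ x := by
        have : 0 < ((G.neighborFinset x.1).filter fun y => y ∉ Λ).card :=
          Finset.card_pos.2 ⟨y, mem_filter.2 ⟨by simpa using hy, hyΛ⟩⟩
        unfold outDeg
        exact_mod_cast this
      linarith
  · linarith

end Pool.H102.DP
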