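import Pool.Agent.H102R3.DPGraph

set_option autoImplicit false
set_option linter.unusedSectionVars false

/-!
# No explosion: the killed finite-volume processes exhaust the process on the infinite graph
-/

namespace Pool.H102.DP

open Finset

section fin

variable {Z : Type} [Fintype Z]

theorem exp_series (a : ℝ) : HasSum (fun n : ℕ => a ^ n / (n.factorial : ℝ)) (Real.exp a) := by
  have := NormedSpace.expSeries_div_hasSum_exp a
  rwa [← Real.exp_eq_exp_ℝ] at this

theorem sg_mass_lower (A : (Z → ℝ) →ₗ[ℝ] (Z → ℝ)) (c D : ℝ) (hc : 0 ≤ c) (hD : 0 ≤ D)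
    (hA : ∀ F : Z → ℝ, (∀ z, 0 ≤ F z) → ∀ z, 0 ≤ A F z + c * F z)
    (ψ : Z → ℝ)
    (h1 : ∀ z, - (D * ψ z) ≤ A (fun _ => 1) z)
    (h2 : ∀ z, A ψ z ≤ D * ψ z)
    (t : ℝ) (ht : 0 ≤ t) (z : Z) :
    1 - (Real.exp (D * t) - 1) * ψ z ≤ sg A t (fun _ => 1) z := by
  set K := A + c • LinearMap.id with hK
  have hKF : ∀ F z, K F z = A F z + c * F z := fun F z => by simp [hK]
  have hmono : ∀ F G : Z → ℝ, (∀ z, F z ≤ G z) → ∀ z, K F z ≤ K G z := by
    intro F G hFG z
    have h3 := hA (G - F) (fun z => sub_nonneg.2 (hFG z)) z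
    rw [map_sub] at h3
    simp only [Pi.sub_apply] at h3
    rw [hKF, hKF]
    linarith
  have hn : ∀ (n : ℕ) z, c ^ n - ((c + D) ^ n - c ^ n) * ψ z ≤ (K ^ n) (fun _ => 1) z := by
    intro n
    induction n with
    | zero => intro z; simp
    | succ n ih =>
      intro z
      rw [pow_succ' K]
      show _ ≤ K ((K ^ n) (fun _ => 1)) z
      refine le_trans ?_ (hmono _ _ ih z)
      have e : (fun z => c ^ n - ((c + D) ^ n - c ^ n) * ψ z) =
          c ^ n • (fun _ => (1:ℝ)) - ((c + D) ^ n - c ^ n) • ψ := by funext z; simp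
      rw [e, map_sub, map_smul, map_smul, Pi.sub_apply, Pi.smul_apply, Pi.smul_apply, smul_eq_mul,
        smul_eq_mul, hKF, hKF]
      have h5 : 0 ≤ (c + D) ^ n - c ^ n := sub_nonneg.2 (pow_le_pow_left₀ hc (by linarith) n)
      have h6 : 0 ≤ c ^ n := by positivity
      have h7 := mul_le_mul_of_nonneg_left (h1 z) h6
      have h8 := mul_le_mul_of_nonneg_left (h2 z) h5
      rw [pow_succ c, pow_succ (c + D)]
      nlinarith
  have hs1 := sg_hasSum' K t (fun _ => 1) z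
  have hs2 : HasSum (fun n : ℕ => (t ^ n / (n.factorial : ℝ)) *
      (c ^ n - ((c + D) ^ n - c ^ n) * ψ z))
      (Real.exp (c * t) - (Real.exp ((c + D) * t) - Real.exp (c * t)) * ψ z) := by
    have a1 := exp_series (c * t)
    have a2 := exp_series ((c + D) * t)
    refine (a1.sub ((a2.sub a1).mul_right (ψ z))).congr_fun fun n => ?_
    rw [mul_pow, mul_pow]; ring
  have h3 := hasSum_le (fun n => mul_le_mul_of_nonneg_left (hn n z) (by positivity)) hs2 hs1
  rw [sg_shift A c, Pi.smul_apply, smul_eq_mul]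
  have h4 := mul_le_mul_of_nonneg_left h3 (Real.exp_nonneg (-(c * t)))
  refine le_trans (le_of_eq ?_) h4
  have e1 : Real.exp (-(c * t)) * Real.exp (c * t) = 1 := by rw [← Real.exp_add]; simp
  have e2 : Real.exp (-(c * t)) * Real.exp ((c + D) * t) = Real.exp (D * t) := by
    rw [← Real.exp_add]; congr 1; ring
  calc 1 - (Real.exp (D * t) - 1) * ψ z = Real.exp (-(c * t)) * Real.exp (c * t) -
      (Real.exp (-(c * t)) * Real.exp ((c + D) * t) - Real.exp (-(c * t)) * Real.exp (c * t)) * ψ z := by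
        rw [e1, e2]
    _ = _ := by ring

theorem sg_mass_upper (A : (Z → ℝ) →ₗ[ℝ] (Z → ℝ)) (c : ℝ) (hc : 0 ≤ c)
    (hA : ∀ F : Z → ℝ, (∀ z, 0 ≤ F z) → ∀ z, 0 ≤ A F z + c * F z)
    (h1 : ∀ z, A (fun _ => 1) z ≤ 0)
    (t : ℝ) (ht : 0 ≤ t) (z : Z) : sg A t (fun _ => 1) z ≤ 1 := by
  set K := A + c • LinearMap.id with hK
  have hKF : ∀ F z, K F z = A F z + c * F z := fun F z => by simp [hK]
  have hmono : ∀ F G : Z → ℝ, (∀ z, F z ≤ G z) → ∀ z, K F z ≤ K G z := by
    intro F G hFG z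
    have h3 := hA (G - F) (fun z => sub_nonneg.2 (hFG z)) z
    rw [map_sub] at h3
    simp only [Pi.sub_apply] at h3
    rw [hKF, hKF]
    linarith
  have hn : ∀ (n : ℕ) z, (K ^ n) (fun _ => 1) z ≤ c ^ n := by
    intro n
    induction n with
    | zero => intro z; simp
    | succ n ih =>
      intro z
      rw [pow_succ' K]
      show K ((K ^ n) (fun _ => 1)) z ≤ _
      refine (hmono _ _ ih z).trans ?_
      have e : (fun _ : Z => c ^ n) = c ^ n • (fun _ => (1:ℝ)) := by funext z; simp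
      rw [e, map_smul, Pi.smul_apply, smul_eq_mul, hKF]
      have h6 : 0 ≤ c ^ n := by positivity
      have h7 := mul_le_mul_of_nonneg_left (h1 z) h6
      rw [pow_succ c]
      nlinarith
  have hs1 := sg_hasSum' K t (fun _ => 1) z
  have hs2 : HasSum (fun n : ℕ => (t ^ n / (n.factorial : ℝ)) * c ^ n) (Real.exp (c * t)) := by
    refine (exp_series (c * t)).congr_fun fun n => ?_
    rw [mul_pow]; ring
  have h3 := hasSum_le (fun n => mul_le_mul_of_nonneg_left (hn n z) (by positivity)) hs1 hs2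
  rw [sg_shift A c, Pi.smul_apply, smul_eq_mul]
  have h4 := mul_le_mul_of_nonneg_left h3 (Real.exp_nonneg (-(c * t)))
  refine h4.trans (le_of_eq ?_)
  rw [← Real.exp_add]; simp

end fin

section fin2

variable {U : Type} [Fintype U] [DecidableEq U]

theorem bern_nonneg (p : ℝ) (hp : 0 ≤ p) (hp1 : p ≤ 1) (η : Conf U) : 0 ≤ bern p η :=
  Finset.prod_nonneg fun e _ => by split_ifs <;> linarith

theorem bern_sum (p : ℝ) : ∑ η : Conf U, bern p η = 1 := by
  unfold bern
  have h4 : ∑ η : Conf U, ∏ e, (if η e = true then p else 1 - p) =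
      ∏ e : Sym2 U, ∑ c : Bool, (if c = true then p else 1 - p) := by
    rw [Finset.prod_univ_sum, Fintype.piFinset_univ]
  rw [h4]
  refine Finset.prod_eq_one fun e _ => ?_
  simp

theorem annealed_mass (adj : U → U → Prop) (b : U → ℝ) (μ p t : ℝ) (x : U) :
    ∑ y, annealed adj b μ p t x y = ∑ η, bern p η * sg (gen adj b μ p) t (fun _ => 1) (x, η) := by
  unfold annealed
  rw [Finset.sum_comm]
  refine Finset.sum_congr rfl fun η _ => ?_
  rw [← Finset.mul_sum]
  congr 1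
  have h1 : (fun _ : U × Conf U => (1:ℝ)) = ∑ y : U, fun z : U × Conf U => if z.1 = y then 1 else 0 := by
    funext z
    rw [Finset.sum_apply]
    simp
  rw [h1, map_sum, Finset.sum_apply]

theorem plain_mass (adj : U → U → Prop) (b : U → ℝ) (t : ℝ) (x : U) :
    ∑ y, plain adj b t x y = sg (lapl adj b) t (fun _ => 1) x := by
  unfold plain
  have h1 : (fun _ : U => (1:ℝ)) = ∑ y : U, fun z : U => if z = y then 1 else 0 := by
    funext z
    rw [Finset.sum_apply]
    simp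
  rw [h1, map_sum, Finset.sum_apply]

theorem gen_one (adj : U → U → Prop) (b : U → ℝ) (μ p : ℝ) (z : U × Conf U) :
    gen adj b μ p (fun _ => 1) z = - b z.1 := by
  simp [gen]

theorem lapl_one (adj : U → U → Prop) (b : U → ℝ) (z : U) :
    lapl adj b (fun _ => 1) z = - b z := by
  simp [lapl]

open Classical in
theorem gen_psi (adj : U → U → Prop) (b : U → ℝ) (hb : ∀ x, 0 ≤ b x) (μ p : ℝ) (D : ℝ)
    (ψ : U → ℝ) (hψ : ∀ x, 0 ≤ ψ x) (h2 : ∀ x y, adj x y → ψ y ≤ 2 * ψ x)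
    (hd : ∀ x, ∑ y, (if adj x y then (1:ℝ) else 0) ≤ D) (z : U × Conf U) :
    gen adj b μ p (fun w => ψ w.1) z ≤ D * ψ z.1 := by
  have h1 : ∑ y, (if adj z.1 y ∧ z.2 s(z.1, y) = true then ψ y - ψ z.1 else 0) ≤ D * ψ z.1 := by
    calc _ ≤ ∑ y, (if adj z.1 y then (1:ℝ) else 0) * ψ z.1 := by
          refine Finset.sum_le_sum fun y _ => ?_
          have h5 := hψ z.1
          by_cases h3 : adj z.1 y
          · have h4 := h2 _ _ h3
            rw [if_pos h3, one_mul]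
            split_ifs <;> linarith
          · rw [if_neg h3, if_neg (fun h => h3 h.1), zero_mul]
      _ = (∑ y, (if adj z.1 y then (1:ℝ) else 0)) * ψ z.1 := by rw [Finset.sum_mul]
      _ ≤ D * ψ z.1 := mul_le_mul_of_nonneg_right (hd z.1) (hψ z.1)
  have h3 : ∑ e : Sym2 U, ((1 - p) * ψ z.1 + p * ψ z.1 - ψ z.1) = 0 :=
    Finset.sum_eq_zero fun e _ => by ring
  have h4 := mul_nonneg (hb z.1) (hψ z.1)
  have h5 : gen adj b μ p (fun w => ψ w.1) z =
      ∑ y, (if adj z.1 y ∧ z.2 s(z.1, y) = true then ψ y - ψ z.1 else 0)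
      - b z.1 * ψ z.1 + μ * ∑ e : Sym2 U, ((1 - p) * ψ z.1 + p * ψ z.1 - ψ z.1) := rfl
  rw [h5, h3]
  linarith

open Classical in
theorem lapl_psi (adj : U → U → Prop) (b : U → ℝ) (hb : ∀ x, 0 ≤ b x) (D : ℝ)
    (ψ : U → ℝ) (hψ : ∀ x, 0 ≤ ψ x) (h2 : ∀ x y, adj x y → ψ y ≤ 2 * ψ x)
    (hd : ∀ x, ∑ y, (if adj x y then (1:ℝ) else 0) ≤ D) (z : U) :
    lapl adj b ψ z ≤ D * ψ z := by
  have h1 : ∑ y, (if adj z y then ψ y - ψ z else 0) ≤ D * ψ z := by
    calc _ ≤ ∑ y, (if adj z y then (1:ℝ) else 0) * ψ z := by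
          refine Finset.sum_le_sum fun y _ => ?_
          by_cases h3 : adj z y
          · have h4 := h2 _ _ h3
            rw [if_pos h3, if_pos h3, one_mul]
            linarith
          · rw [if_neg h3, if_neg h3, zero_mul]
      _ = (∑ y, (if adj z y then (1:ℝ) else 0)) * ψ z := by rw [Finset.sum_mul]
      _ ≤ D * ψ z := mul_le_mul_of_nonneg_right (hd z) (hψ z)
  have h4 := mul_nonneg (hb z) (hψ z)
  have h5 : lapl adj b ψ z = ∑ y, (if adj z y then ψ y - ψ z else 0) - b z * ψ z := rfl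
  rw [h5]
  linarith

end fin2

section graph

variable {V : Type} (G : SimpleGraph V) [G.LocallyFinite]

theorem walk_mem_nbh (S : Finset V) {x y : V} (w : G.Walk x y) (n : ℕ) (hx : x ∈ nbh G S n) :
    y ∈ nbh G S (n + w.length) := by
  classical
  induction w generalizing n with
  | nil => simpa using hx
  | @cons u v w' hadj w ih =>
    rw [SimpleGraph.Walk.length_cons]
    have h1 : v ∈ nbh G S (n + 1) := by
      rw [nbh_succ]
      exact mem_union_right _ (mem_biUnion.2 ⟨u, hx, by simpa using hadj⟩)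
    have h2 := ih (n + 1) h1
    have h3 : n + 1 + w.length = n + (w.length + 1) := by ring
    rwa [h3] at h2

theorem outDeg_ball (hG : G.Connected) (o : V) (R : ℕ) (d : ℕ) (hd : ∀ x, G.degree x ≤ d)
    (x : {z // z ∈ nbh G {o} R}) :
    outDeg G (nbh G {o} R) x ≤ d * (2 ^ (G.dist o x.1) / 2 ^ R) := by
  classical
  by_cases h : R ≤ G.dist o x.1
  · have h1 : (1:ℝ) ≤ 2 ^ (G.dist o x.1) / 2 ^ R := by
      rw [one_le_div (by positivity)]
      exact pow_le_pow_right₀ (by norm_num) h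
    have h2 : outDeg G (nbh G {o} R) x ≤ d := by
      have h3 : ((G.neighborFinset x.1).filter fun y => y ∉ nbh G {o} R).card ≤ G.degree x.1 := by
        rw [← SimpleGraph.card_neighborFinset_eq_degree]
        exact Finset.card_filter_le _ _
      unfold outDeg
      exact_mod_cast h3.trans (hd x.1)
    have h4 : (0:ℝ) ≤ d := Nat.cast_nonneg _
    nlinarith
  · push Not at h
    have h1 : outDeg G (nbh G {o} R) x = 0 := by
      unfold outDeg
      rw [Nat.cast_eq_zero, Finset.card_eq_zero, Finset.filter_eq_empty_iff]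
      intro y hy hy'
      obtain ⟨w, hw⟩ := hG.exists_walk_length_eq_dist o x.1
      have h2 := walk_mem_nbh G {o} w 0 (by simp [nbh])
      rw [zero_add, hw] at h2
      have h3 : y ∈ nbh G {o} (G.dist o x.1 + 1) := by
        rw [nbh_succ]
        exact mem_union_right _ (mem_biUnion.2 ⟨x.1, h2, hy⟩)
      exact hy' (nbh_mono G _ h h3)
    rw [h1]
    positivity

theorem psi_step (hG : G.Connected) (o : V) (R : ℕ) (x y : V) (h : G.Adj x y) :
    (2:ℝ) ^ (G.dist o y) / 2 ^ R ≤ 2 * (2 ^ (G.dist o x) / 2 ^ R) := by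
  have h1 : G.dist o y ≤ G.dist o x + 1 := by
    have h2 := hG.dist_triangle (u := o) (v := x) (w := y)
    have h3 : G.dist x y = 1 := SimpleGraph.dist_eq_one_iff_adj.2 h
    omega
  have h2 : (2:ℝ) ^ (G.dist o y) ≤ 2 ^ (G.dist o x + 1) := pow_le_pow_right₀ (by norm_num) h1
  rw [← mul_div_assoc]
  refine div_le_div_of_nonneg_right ?_ (by positivity)
  rw [pow_succ] at h2
  linarith

open Classical in
theorem sum_adj_le' (d : ℕ) (hd : ∀ x, G.degree x ≤ d) (Λ : Finset V) (x : Λ) :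
    ∑ y : Λ, (if G.Adj x.1 y.1 then (1:ℝ) else 0) ≤ d := by
  have h1 := outDeg_add G Λ x
  have h2 := outDeg_nonneg G Λ x
  have h3 : (G.degree x.1 : ℝ) ≤ d := by exact_mod_cast hd x.1
  linarith

theorem self_mem_nbh (o : V) (R : ℕ) : o ∈ nbh G {o} R := nbh_mono G _ (Nat.zero_le R) (by simp [nbh])

theorem dyn_ball (hG : G.Connected) (o : V) (R : ℕ) (d : ℕ) (hd : ∀ x, G.degree x ≤ d)
    (μ p : ℝ) (hμ : 0 ≤ μ) (hp : 0 ≤ p) (hp1 : p ≤ 1) (t : ℝ) (ht : 0 ≤ t) :
    1 - (Real.exp (d * t) - 1) / 2 ^ R ≤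
      ∑ y, dynKilled G (nbh G {o} R) μ p t ⟨o, self_mem_nbh G o R⟩ y := by
  classical
  set Λ := nbh G {o} R with hΛ
  have h1 : ∀ η : Conf Λ, 1 - (Real.exp (d * t) - 1) / 2 ^ R ≤
      sg (gen (fun u v : Λ => G.Adj u.1 v.1) (outDeg G Λ) μ p) t (fun _ => 1)
        (⟨o, self_mem_nbh G o R⟩, η) := by
    intro η
    have hcard : ∀ x : Λ, outDeg G Λ x ≤ d := fun x => by
      have h1 := outDeg_add G Λ x
      have h2 : (0:ℝ) ≤ ∑ y : Λ, (if G.Adj x.1 y.1 then (1:ℝ) else 0) :=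
        Finset.sum_nonneg fun y _ => by split_ifs <;> norm_num
      have h3 : (G.degree x.1 : ℝ) ≤ d := by exact_mod_cast hd x.1
      linarith
    have h2 := sg_mass_lower (gen (fun u v : Λ => G.Adj u.1 v.1) (outDeg G Λ) μ p)
      ((Fintype.card Λ : ℝ) + d + μ * Fintype.card (Sym2 Λ)) d (by positivity) (by positivity)
      (fun F hF z => gen_shift_pos _ _ μ p hμ hp hp1 _ (fun x => by
        have := hcard x; linarith) F hF z)
      (fun w => 2 ^ (G.dist o w.1.1) / 2 ^ R)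
      (fun z => by rw [gen_one]; exact neg_le_neg (outDeg_ball G hG o R d hd z.1))
      (fun z => gen_psi _ _ (outDeg_nonneg G Λ) μ p d (fun x : Λ => 2 ^ (G.dist o x.1) / 2 ^ R)
        (fun x => by positivity) (fun x y hxy => psi_step G hG o R x.1 y.1 hxy)
        (fun x => sum_adj_le' G d hd Λ x) z) t ht (⟨o, self_mem_nbh G o R⟩, η)
    simp only [SimpleGraph.dist_self, pow_zero, mul_one_div] at h2
    exact h2
  have h3 := annealed_mass (fun u v : Λ => G.Adj u.1 v.1) (outDeg G Λ) μ p t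
    ⟨o, self_mem_nbh G o R⟩
  have h4 : ∑ y, dynKilled G Λ μ p t ⟨o, self_mem_nbh G o R⟩ y =
      ∑ y, annealed (fun u v : Λ => G.Adj u.1 v.1) (outDeg G Λ) μ p t
        ⟨o, self_mem_nbh G o R⟩ y := by
    refine Finset.sum_congr rfl fun y _ => ?_
    unfold dynKilled
    congr!
  rw [h4, h3]
  calc 1 - (Real.exp (d * t) - 1) / 2 ^ R =
      ∑ η : Conf Λ, bern p η * (1 - (Real.exp (d * t) - 1) / 2 ^ R) := by
        rw [← Finset.sum_mul, bern_sum, one_mul]
    _ ≤ _ := Finset.sum_le_sum fun η _ =>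
      mul_le_mul_of_nonneg_left (h1 η) (bern_nonneg p hp hp1 η)

theorem dyn_mass_le (Λ : Finset V)
    (μ p : ℝ) (hμ : 0 ≤ μ) (hp : 0 ≤ p) (hp1 : p ≤ 1) (t : ℝ) (ht : 0 ≤ t) (x : Λ) :
    ∑ y, dynKilled G Λ μ p t x y ≤ 1 := by
  classical
  have h1 : ∀ η : Conf Λ,
      sg (gen (fun u v : Λ => G.Adj u.1 v.1) (outDeg G Λ) μ p) t (fun _ => 1) (x, η) ≤ 1 := by
    intro η
    refine sg_mass_upper _ ((Fintype.card Λ : ℝ) + (∑ x, outDeg G Λ x) + μ * Fintype.card (Sym2 Λ))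
      ?_ (fun F hF z => gen_shift_pos _ _ μ p hμ hp hp1 _ (fun x => ?_) F hF z)
      (fun z => ?_) t ht _
    · have := Finset.sum_nonneg fun (x : Λ) (_ : x ∈ Finset.univ) => outDeg_nonneg G Λ x
      positivity
    · have := Finset.single_le_sum (f := fun x => outDeg G Λ x)
        (fun x _ => outDeg_nonneg G Λ x) (Finset.mem_univ x)
      linarith
    · rw [gen_one]
      have := outDeg_nonneg G Λ z.1
      linarith
  have h3 := annealed_mass (fun u v : Λ => G.Adj u.1 v.1) (outDeg G Λ) μ p t x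
  have h4 : ∑ y, dynKilled G Λ μ p t x y =
      ∑ y, annealed (fun u v : Λ => G.Adj u.1 v.1) (outDeg G Λ) μ p t x y := by
    refine Finset.sum_congr rfl fun y _ => ?_
    unfold dynKilled
    congr!
  rw [h4, h3]
  calc _ ≤ ∑ η : Conf Λ, bern p η * 1 := Finset.sum_le_sum fun η _ =>
      mul_le_mul_of_nonneg_left (h1 η) (bern_nonneg p hp hp1 η)
    _ = 1 := by rw [← Finset.sum_mul, bern_sum, one_mul]

theorem srw_ball (hG : G.Connected) (o : V) (R : ℕ) (d : ℕ) (hd : ∀ x, G.degree x ≤ d)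
    (t : ℝ) (ht : 0 ≤ t) :
    1 - (Real.exp (d * t) - 1) / 2 ^ R ≤
      ∑ y, srwKilled G (nbh G {o} R) t ⟨o, self_mem_nbh G o R⟩ y := by
  classical
  set Λ := nbh G {o} R with hΛ
  have hcard : ∀ x : Λ, outDeg G Λ x ≤ d := fun x => by
    have h1 := outDeg_add G Λ x
    have h2 : (0:ℝ) ≤ ∑ y : Λ, (if G.Adj x.1 y.1 then (1:ℝ) else 0) :=
      Finset.sum_nonneg fun y _ => by split_ifs <;> norm_num
    have h3 : (G.degree x.1 : ℝ) ≤ d := by exact_mod_cast hd x.1
    linarith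
  have h2 := sg_mass_lower (lapl (fun u v : Λ => G.Adj u.1 v.1) (outDeg G Λ))
    ((Fintype.card Λ : ℝ) + d) d (by positivity) (by positivity)
    (fun F hF z => lapl_shift_pos _ _ _ (fun x => by
      have := hcard x; linarith) F hF z)
    (fun w => 2 ^ (G.dist o w.1) / 2 ^ R)
    (fun z => by rw [lapl_one]; exact neg_le_neg (outDeg_ball G hG o R d hd z))
    (fun z => lapl_psi _ _ (outDeg_nonneg G Λ) d (fun x : Λ => 2 ^ (G.dist o x.1) / 2 ^ R)
      (fun x => by positivity) (fun x y hxy => psi_step G hG o R x.1 y.1 hxy)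
      (fun x => sum_adj_le' G d hd Λ x) z) t ht ⟨o, self_mem_nbh G o R⟩
  simp only [SimpleGraph.dist_self, pow_zero, mul_one_div] at h2
  have h3 := plain_mass (fun u v : Λ => G.Adj u.1 v.1) (outDeg G Λ) t
    ⟨o, self_mem_nbh G o R⟩
  have h4 : ∑ y, srwKilled G Λ t ⟨o, self_mem_nbh G o R⟩ y =
      ∑ y, plain (fun u v : Λ => G.Adj u.1 v.1) (outDeg G Λ) t
        ⟨o, self_mem_nbh G o R⟩ y := by
    refine Finset.sum_congr rfl fun y _ => ?_
    unfold srwKilled
    congr!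
  rw [h4, h3]
  exact h2

theorem srw_mass_le (Λ : Finset V) (t : ℝ) (ht : 0 ≤ t) (x : Λ) :
    ∑ y, srwKilled G Λ t x y ≤ 1 := by
  classical
  have h3 := plain_mass (fun u v : Λ => G.Adj u.1 v.1) (outDeg G Λ) t x
  have h4 : ∑ y, srwKilled G Λ t x y =
      ∑ y, plain (fun u v : Λ => G.Adj u.1 v.1) (outDeg G Λ) t x y := by
    refine Finset.sum_congr rfl fun y _ => ?_
    unfold srwKilled
    congr!
  rw [h4, h3]
  refine sg_mass_upper _ ((Fintype.card Λ : ℝ) + (∑ x, outDeg G Λ x))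
      ?_ (fun F hF z => lapl_shift_pos _ _ _ (fun x => ?_) F hF z)
      (fun z => ?_) t ht _
  · have := Finset.sum_nonneg fun (x : Λ) (_ : x ∈ Finset.univ) => outDeg_nonneg G Λ x
    positivity
  · have := Finset.single_le_sum (f := fun x => outDeg G Λ x)
      (fun x _ => outDeg_nonneg G Λ x) (Finset.mem_univ x)
    linarith
  · rw [lapl_one]
    have := outDeg_nonneg G Λ z
    linarith

theorem small_R (a : ℝ) (ε : ℝ) (hε : 0 < ε) : ∃ R : ℕ, a / 2 ^ R < ε := by
  obtain ⟨R, hR⟩ := pow_unbounded_of_one_lt (a / ε) (one_lt_two)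
  refine ⟨R, ?_⟩
  rw [div_lt_iff₀ (by positivity)]
  rw [div_lt_iff₀ hε] at hR
  linarith

theorem dyn_honest (hG : G.Connected) (o : V) (d : ℕ) (hd : ∀ x, G.degree x ≤ d)
    (μ p : ℝ) (hμ : 0 ≤ μ) (hp : 0 ≤ p) (hp1 : p ≤ 1) (t : ℝ) (ht : 0 ≤ t) :
    IsLUB (Set.range fun Λ : {Λ : Finset V // o ∈ Λ} => ∑ y, dynKilled G Λ.1 μ p t ⟨o, Λ.2⟩ y) 1 := by
  constructor
  · rintro _ ⟨Λ, rfl⟩
    exact dyn_mass_le G Λ.1 μ p hμ hp hp1 t ht _
  · intro B hB
    refine le_of_forall_pos_lt_add fun ε hε => ?_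
    obtain ⟨R, hR⟩ := small_R (Real.exp (d * t) - 1) ε hε
    have h1 := dyn_ball G hG o R d hd μ p hμ hp hp1 t ht
    have h2 := hB ⟨⟨nbh G {o} R, self_mem_nbh G o R⟩, rfl⟩
    linarith

theorem srw_honest (hG : G.Connected) (o : V) (d : ℕ) (hd : ∀ x, G.degree x ≤ d)
    (t : ℝ) (ht : 0 ≤ t) :
    IsLUB (Set.range fun Λ : {Λ : Finset V // o ∈ Λ} => ∑ y, srwKilled G Λ.1 t ⟨o, Λ.2⟩ y) 1 := by
  constructor
  · rintro _ ⟨Λ, rfl⟩
    exact srw_mass_le G Λ.1 t ht _
  · intro B hB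
    refine le_of_forall_pos_lt_add fun ε hε => ?_
    obtain ⟨R, hR⟩ := small_R (Real.exp (d * t) - 1) ε hε
    have h1 := srw_ball G hG o R d hd t ht
    have h2 := hB ⟨⟨nbh G {o} R, self_mem_nbh G o R⟩, rfl⟩
    linarith

end graph

end Pool.H102.DP
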