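import Mathlib

set_option autoImplicit false

/-!
# Semigroups generated by operators on functions on a finite set
-/

namespace Pool.H102.DP

open Finset

variable {Z Z' : Type} [Fintype Z] [Fintype Z']

/-- the semigroup `exp (t A)` generated by the linear operator `A` on the space of functions on the
finite set `Z` -/
noncomputable def sg (A : (Z → ℝ) →ₗ[ℝ] (Z → ℝ)) (t : ℝ) : (Z → ℝ) →L[ℝ] (Z → ℝ) :=
  NormedSpace.exp (t • LinearMap.toContinuousLinearMap A)

theorem sg_hasSum (A : (Z → ℝ) →ₗ[ℝ] (Z → ℝ)) (t : ℝ) (F : Z → ℝ) :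
    HasSum (fun n : ℕ => (t ^ n / (n.factorial : ℝ)) • (A ^ n) F) (sg A t F) := by
  have h1 := NormedSpace.exp_series_hasSum_exp' (𝕂 := ℝ) (t • LinearMap.toContinuousLinearMap A)
  have h2 := h1.mapL (ContinuousLinearMap.apply ℝ (Z → ℝ) F)
  have h3 : ∀ n : ℕ, ((LinearMap.toContinuousLinearMap A) ^ n) F = (A ^ n) F := by
    intro n
    induction n generalizing F with
    | zero => rfl
    | succ n ih =>
      rw [pow_succ, pow_succ]
      exact ih (A F) (h1.mapL (ContinuousLinearMap.apply ℝ (Z → ℝ) (A F)))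
  refine h2.congr_fun (fun n => ?_)
  simp only [ContinuousLinearMap.apply_apply, smul_apply, smul_pow, h3]
  rw [smul_smul]
  congr 1
  rw [div_eq_inv_mul]

theorem sg_hasSum' (A : (Z → ℝ) →ₗ[ℝ] (Z → ℝ)) (t : ℝ) (F : Z → ℝ) (z : Z) :
    HasSum (fun n : ℕ => (t ^ n / (n.factorial : ℝ)) * (A ^ n) F z) (sg A t F z) := by
  have := (Pi.hasSum.1 (sg_hasSum A t F)) z
  simpa using this

theorem sg_intertwine (A : (Z → ℝ) →ₗ[ℝ] (Z → ℝ)) (A' : (Z' → ℝ) →ₗ[ℝ] (Z' → ℝ))
    (J : (Z → ℝ) →ₗ[ℝ] (Z' → ℝ)) (h : ∀ F, J (A F) = A' (J F)) (t : ℝ) (F : Z → ℝ) :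
    J (sg A t F) = sg A' t (J F) := by
  have h1 := (sg_hasSum A t F).mapL (LinearMap.toContinuousLinearMap J)
  have h2 := sg_hasSum A' t (J F)
  have h3 : ∀ n : ℕ, J ((A ^ n) F) = (A' ^ n) (J F) := by
    intro n
    induction n generalizing F with
    | zero => rfl
    | succ n ih =>
      rw [pow_succ, pow_succ]
      show J ((A ^ n) (A F)) = (A' ^ n) (A' (J F))
      rw [ih (A F) _ _, h]
      · exact (sg_hasSum A t (A F)).mapL (LinearMap.toContinuousLinearMap J)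
      · exact sg_hasSum A' t (J (A F))
  refine h1.unique (h2.congr_fun fun n => ?_)
  show J _ = _
  rw [map_smul, h3]

theorem sg_shift (A : (Z → ℝ) →ₗ[ℝ] (Z → ℝ)) (c t : ℝ) (F : Z → ℝ) :
    sg A t F = Real.exp (-(c * t)) • sg (A + c • LinearMap.id) t F := by
  have h1 : t • LinearMap.toContinuousLinearMap A =
      t • LinearMap.toContinuousLinearMap (A + c • LinearMap.id) + (-(c * t)) • (1 : (Z → ℝ) →L[ℝ] (Z → ℝ)) := by
    ext F z
    simp
    ring
  have h2 : Commute (t • LinearMap.toContinuousLinearMap (A + c • LinearMap.id))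
      ((-(c * t)) • (1 : (Z → ℝ) →L[ℝ] (Z → ℝ))) := (Commute.one_right _).smul_right _
  unfold sg
  let _ : NormedAlgebra ℚ ((Z → ℝ) →L[ℝ] (Z → ℝ)) := NormedAlgebra.restrictScalars ℚ ℝ _
  rw [h1, NormedSpace.exp_add_of_commute h2]
  have h3 : NormedSpace.exp ((-(c * t)) • (1 : (Z → ℝ) →L[ℝ] (Z → ℝ))) =
      Real.exp (-(c * t)) • (1 : (Z → ℝ) →L[ℝ] (Z → ℝ)) := by
    have := NormedSpace.algebraMap_exp_comm (𝕂 := ℝ) (𝔸 := (Z → ℝ) →L[ℝ] (Z → ℝ)) (-(c * t))
    rw [Algebra.algebraMap_eq_smul_one, Algebra.algebraMap_eq_smul_one] at this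
    rw [← this, Real.exp_eq_exp_ℝ]
  rw [h3]
  simp

/-- comparison of two semigroups -/
theorem sg_mono (A : (Z → ℝ) →ₗ[ℝ] (Z → ℝ)) (A' : (Z' → ℝ) →ₗ[ℝ] (Z' → ℝ))
    (J : (Z → ℝ) →ₗ[ℝ] (Z' → ℝ)) (c : ℝ)
    (hA : ∀ F : Z → ℝ, (∀ z, 0 ≤ F z) → ∀ z, 0 ≤ A F z + c * F z)
    (hA' : ∀ F : Z' → ℝ, (∀ z, 0 ≤ F z) → ∀ z, 0 ≤ A' F z + c * F z)
    (h : ∀ F : Z → ℝ, (∀ z, 0 ≤ F z) → ∀ z, J (A F) z ≤ A' (J F) z)
    (t : ℝ) (ht : 0 ≤ t) (F : Z → ℝ) (hF : ∀ z, 0 ≤ F z) (z : Z') :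
    J (sg A t F) z ≤ sg A' t (J F) z := by
  rw [sg_shift A c, sg_shift A' c, map_smul, Pi.smul_apply, Pi.smul_apply, smul_eq_mul, smul_eq_mul]
  refine mul_le_mul_of_nonneg_left ?_ (Real.exp_nonneg _)
  set K := A + c • LinearMap.id with hK
  set K' := A' + c • LinearMap.id with hK'
  have hKF : ∀ F z, K F z = A F z + c * F z := fun F z => by simp [hK]
  have hKF' : ∀ F z, K' F z = A' F z + c * F z := fun F z => by simp [hK']
  have hpos : ∀ (n : ℕ) z, 0 ≤ (K ^ n) F z := by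
    intro n
    induction n with
    | zero => exact hF
    | succ n ih =>
      intro z
      rw [pow_succ']
      show 0 ≤ K ((K ^ n) F) z
      rw [hKF]; exact hA _ ih z
  have hmono' : ∀ F G : Z' → ℝ, (∀ z, F z ≤ G z) → ∀ z, K' F z ≤ K' G z := by
    intro F G hFG z
    have h1 := hA' (G - F) (fun z => sub_nonneg.2 (hFG z)) z
    rw [map_sub] at h1
    simp only [Pi.sub_apply] at h1
    rw [hKF', hKF']
    linarith
  have hn : ∀ (n : ℕ) z, J ((K ^ n) F) z ≤ (K' ^ n) (J F) z := by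
    intro n
    induction n with
    | zero => intro z; exact le_rfl
    | succ n ih =>
      intro z
      rw [pow_succ', pow_succ']
      show J (K ((K ^ n) F)) z ≤ K' ((K' ^ n) (J F)) z
      refine le_trans ?_ (hmono' _ _ ih z)
      rw [hKF']
      have h1 : K ((K ^ n) F) = A ((K ^ n) F) + c • (K ^ n) F := by
        funext z; rw [hKF]; simp
      rw [h1, map_add, map_smul, Pi.add_apply, Pi.smul_apply, smul_eq_mul]
      have := h _ (hpos n) z
      linarith
  have h1 := (Pi.hasSum.1 ((sg_hasSum K t F).mapL (LinearMap.toContinuousLinearMap J))) z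
  have h2 := sg_hasSum' K' t (J F) z
  refine hasSum_le (fun n => ?_) h1 h2
  show J ((t ^ n / (n.factorial : ℝ)) • (K ^ n) F) z ≤ _
  rw [map_smul, Pi.smul_apply, smul_eq_mul]
  exact mul_le_mul_of_nonneg_left (hn n z) (by positivity)

/-! ### spectral theory -/

/-- the standard inner product -/
def ip (F G : Z → ℝ) : ℝ := ∑ z, F z * G z

theorem ip_comm (F G : Z → ℝ) : ip F G = ip G F := Finset.sum_congr rfl fun _ _ => mul_comm _ _

theorem ip_single_left [DecidableEq Z] (j : Z) (G : Z → ℝ) : ip (Pi.single j 1) G = G j := by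
  simp [ip, Pi.single_apply]

theorem ip_add_left (F G H : Z → ℝ) : ip (F + G) H = ip F H + ip G H := by
  simp [ip, add_mul, Finset.sum_add_distrib]

theorem ip_smul_left (c : ℝ) (F G : Z → ℝ) : ip (c • F) G = c * ip F G := by
  simp [ip, Finset.mul_sum, mul_assoc]

theorem ip_smul_right (c : ℝ) (F G : Z → ℝ) : ip F (c • G) = c * ip F G := by
  rw [ip_comm, ip_smul_left, ip_comm]

theorem ip_sum_right {ι : Type*} (s : Finset ι) (F : Z → ℝ) (G : ι → Z → ℝ) :
    ip F (∑ i ∈ s, G i) = ∑ i ∈ s, ip F (G i) := by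
  simp only [ip, Finset.sum_apply, Finset.mul_sum]
  exact Finset.sum_comm

theorem ip_self_nonneg (F : Z → ℝ) : 0 ≤ ip F F := Finset.sum_nonneg fun _ _ => mul_self_nonneg _

/-- an orthonormal eigenbasis -/
structure EB (A : (Z → ℝ) →ₗ[ℝ] (Z → ℝ)) where
  w : Z → Z → ℝ
  l : Z → ℝ
  eig : ∀ i, A (w i) = l i • w i
  norm : ∀ i, ip (w i) (w i) = 1
  orth : ∀ i j, i ≠ j → ip (w i) (w j) = 0
  expand : ∀ F : Z → ℝ, F = ∑ i, ip (w i) F • w i

theorem exists_eb [DecidableEq Z] (A : (Z → ℝ) →ₗ[ℝ] (Z → ℝ)) (hA : ∀ F G, ip F (A G) = ip (A F) G) :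
    Nonempty (EB A) := by
  classical
  let M : Matrix Z Z ℝ := LinearMap.toMatrix' A
  have hM : M.IsHermitian := by
    ext i j
    rw [Matrix.conjTranspose_apply]
    have h1 := hA (Pi.single j 1) (Pi.single i 1)
    rw [ip_single_left, ip_comm, ip_single_left] at h1
    have h2 : ∀ k l : Z, M k l = A (Pi.single l 1) k := fun k l => LinearMap.toMatrix'_apply A k l
    rw [h2, h2, star_trivial]
    exact h1
  have hMA : ∀ v : Z → ℝ, M.mulVec v = A v := fun v => by
    show (LinearMap.toMatrix' A).mulVec v = A v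
    rw [LinearMap.toMatrix'_mulVec]
  have hip : ∀ x y : EuclideanSpace ℝ Z, inner ℝ x y = ip x.ofLp y.ofLp := fun x y => by
    simp [ip, PiLp.inner_apply, mul_comm]
  refine ⟨⟨fun i => (hM.eigenvectorBasis i).ofLp, hM.eigenvalues, fun i => ?_, fun i => ?_,
    fun i j hij => ?_, fun F => ?_⟩⟩
  · rw [← hMA]; exact hM.mulVec_eigenvectorBasis i
  · rw [← hip, (orthonormal_iff_ite.1 hM.eigenvectorBasis.orthonormal) i i, if_pos rfl]
  · rw [← hip, (orthonormal_iff_ite.1 hM.eigenvectorBasis.orthonormal) i j, if_neg hij]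
  · have h1 := hM.eigenvectorBasis.sum_repr' (WithLp.toLp 2 F)
    have h2 := congrArg (fun x : EuclideanSpace ℝ Z => x.ofLp) h1
    simp only [WithLp.ofLp_sum, WithLp.ofLp_smul] at h2
    rw [← h2]
    refine Finset.sum_congr rfl fun i _ => ?_
    rw [hip]
    simp only [h2]

namespace EB

variable {A : (Z → ℝ) →ₗ[ℝ] (Z → ℝ)} (E : EB A)

theorem parseval (F G : Z → ℝ) : ip F G = ∑ i, ip (E.w i) F * ip (E.w i) G := by
  conv_lhs => rw [E.expand G]
  rw [ip_sum_right]
  refine Finset.sum_congr rfl fun i _ => ?_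
  rw [ip_smul_right, ip_comm F, mul_comm]

theorem apply (F : Z → ℝ) : A F = ∑ i, (E.l i * ip (E.w i) F) • E.w i := by
  conv_lhs => rw [E.expand F]
  rw [map_sum]
  refine Finset.sum_congr rfl fun i _ => ?_
  rw [map_smul, E.eig, smul_smul, mul_comm]

theorem form (F G : Z → ℝ) : ip F (A G) = ∑ i, E.l i * (ip (E.w i) F * ip (E.w i) G) := by
  rw [E.apply, ip_sum_right]
  refine Finset.sum_congr rfl fun i _ => ?_
  rw [ip_smul_right, ip_comm F]; ring

theorem sg_eig (t : ℝ) (i : Z) : sg A t (E.w i) = Real.exp (t * E.l i) • E.w i := by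
  have h1 := sg_hasSum A t (E.w i)
  have h2 : ∀ n : ℕ, (A ^ n) (E.w i) = (E.l i) ^ n • E.w i := by
    intro n
    induction n with
    | zero => simp
    | succ n ih =>
      rw [pow_succ']
      show A ((A ^ n) (E.w i)) = _
      rw [ih, map_smul, E.eig, smul_smul, pow_succ]
  have h3 : HasSum (fun n : ℕ => (t ^ n / (n.factorial : ℝ)) • (A ^ n) (E.w i))
      (Real.exp (t * E.l i) • E.w i) := by
    have h4 := (NormedSpace.expSeries_div_hasSum_exp (𝔸 := ℝ) (t * E.l i)).smul_const (E.w i)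
    rw [← Real.exp_eq_exp_ℝ] at h4
    refine h4.congr_fun fun n => ?_
    rw [h2, smul_smul, mul_pow]
    congr 1
    ring
  exact h1.unique h3

theorem sg_form (t : ℝ) (F G : Z → ℝ) :
    ip F (sg A t G) = ∑ i, Real.exp (t * E.l i) * (ip (E.w i) F * ip (E.w i) G) := by
  conv_lhs => rw [E.expand G]
  rw [map_sum, ip_sum_right]
  refine Finset.sum_congr rfl fun i _ => ?_
  rw [map_smul, E.sg_eig, ip_smul_right, ip_smul_right, ip_comm F]; ring

include E in
/-- Jensen -/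
theorem jensen (t : ℝ) (F : Z → ℝ) (hF : ip F F = 1) :
    Real.exp (t * ip F (A F)) ≤ ip F (sg A t F) := by
  rw [E.form, E.sg_form]
  have h1 : ∑ i, ip (E.w i) F * ip (E.w i) F = 1 := by rw [← E.parseval]; exact hF
  have h2 := convexOn_exp.map_sum_le (t := Finset.univ) (w := fun i => ip (E.w i) F * ip (E.w i) F)
    (p := fun i => t * E.l i) (fun i _ => mul_self_nonneg _) h1 (fun i _ => Set.mem_univ _)
  simp only [smul_eq_mul] at h2
  calc Real.exp (t * ∑ i, E.l i * (ip (E.w i) F * ip (E.w i) F))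
      = Real.exp (∑ i, ip (E.w i) F * ip (E.w i) F * (t * E.l i)) := by
        rw [Finset.mul_sum]
        congr 1
        exact Finset.sum_congr rfl fun i _ => by ring
    _ ≤ ∑ i, ip (E.w i) F * ip (E.w i) F * Real.exp (t * E.l i) := h2
    _ = _ := Finset.sum_congr rfl fun i _ => by ring

end EB

end Pool.H102.DP
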