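import Pool.Agent.H102R3.DPCoer

set_option autoImplicit false

/-!
# Trace inequalities in finite volume
-/

namespace Pool.H102.DP

open Finset

variable {U : Type} [Fintype U] [DecidableEq U]

/-- vacuum weight of an eigenvector -/
noncomputable def nw {A : (U × Conf U → ℝ) →ₗ[ℝ] (U × Conf U → ℝ)} (E : EB A) (k : U × Conf U) : ℝ :=
  ∑ x, (E.w k (x, z0)) ^ 2

theorem nw_nonneg {A : (U × Conf U → ℝ) →ₗ[ℝ] (U × Conf U → ℝ)} (E : EB A) (k : U × Conf U) :
    0 ≤ nw E k := Finset.sum_nonneg fun _ _ => sq_nonneg _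

theorem norm_split (F : U × Conf U → ℝ) :
    ip F F = ∑ x, (F (x, z0)) ^ 2 + ∑ x, gn F x := by
  classical
  rw [ip_prod, ← Finset.sum_add_distrib]
  refine Finset.sum_congr rfl fun x _ => ?_
  unfold gn
  rw [← Finset.add_sum_erase _ _ (Finset.mem_univ z0), ← Finset.add_sum_erase (s := Finset.univ)
    (f := fun ξ => if ξ = z0 then 0 else F (x, ξ) ^ 2) (a := z0) (h := Finset.mem_univ z0)]
  simp only [if_true, zero_add]
  congr 1
  · ring
  · refine Finset.sum_congr rfl fun ξ hξ => ?_
    rw [if_neg (Finset.ne_of_mem_erase hξ)]; ring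

theorem nw_le_one {A : (U × Conf U → ℝ) →ₗ[ℝ] (U × Conf U → ℝ)} (E : EB A) (k : U × Conf U) :
    nw E k ≤ 1 := by
  have h1 := norm_split (E.w k)
  rw [E.norm] at h1
  have h2 : 0 ≤ ∑ x, gn (E.w k) x := Finset.sum_nonneg fun x _ => gn_nonneg _ x
  unfold nw
  linarith

theorem nw_sum {A : (U × Conf U → ℝ) →ₗ[ℝ] (U × Conf U → ℝ)} (E : EB A) :
    ∑ k, nw E k = Fintype.card U := by
  unfold nw
  rw [Finset.sum_comm]
  have h1 : ∀ x, ∑ k, (E.w k (x, z0)) ^ 2 = 1 := by
    intro x
    have h2 := E.parseval (emb (Pi.single x 1)) (emb (Pi.single x 1))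
    have h3 : ∀ k, ip (E.w k) (emb (Pi.single x 1)) = E.w k (x, z0) := by
      intro k
      rw [ip_comm, ip_emb, ip_single_left]
    rw [ip_emb, ip_single_left] at h2
    simp only [h3] at h2
    have h4 : emb (Pi.single x (1:ℝ)) (x, (z0 : Conf U)) = 1 := by simp [emb]
    rw [h4] at h2
    rw [h2]
    exact Finset.sum_congr rfl fun k _ => by ring
  rw [Finset.sum_congr rfl (fun x _ => h1 x)]
  simp

section
variable (adj : U → U → Prop) (b : U → ℝ) (μ p : ℝ)

theorem annealed_spec (hp : 0 ≤ p) (hp1 : p ≤ 1) (t : ℝ) (E : EB (rgen adj b μ p)) (x : U) :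
    annealed adj b μ p t x x = ∑ k, Real.exp (t * E.l k) * (E.w k (x, z0)) ^ 2 := by
  rw [annealed_eq adj b μ p t hp hp1, E.sg_form]
  refine Finset.sum_congr rfl fun k _ => ?_
  have h3 : ip (E.w k) (emb (Pi.single x 1)) = E.w k (x, z0) := by
    rw [ip_comm, ip_emb, ip_single_left]
  rw [h3]; ring

theorem annealed_trace (hp : 0 ≤ p) (hp1 : p ≤ 1) (t : ℝ) (E : EB (rgen adj b μ p)) :
    ∑ x, annealed adj b μ p t x x = ∑ k, Real.exp (t * E.l k) * nw E k := by
  simp only [annealed_spec adj b μ p hp hp1 t E, nw, Finset.mul_sum]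
  exact Finset.sum_comm

theorem plain_spec (t : ℝ) (E : EB (lapl adj b)) (x : U) :
    plain adj b t x x = ∑ i, Real.exp (t * E.l i) * (E.w i x) ^ 2 := by
  have h1 : plain adj b t x x = ip (Pi.single x 1) (sg (lapl adj b) t (Pi.single x 1)) := by
    rw [ip_single_left, plain]
    have h2 : (fun z => if z = x then (1:ℝ) else 0) = Pi.single x 1 := by
      funext z
      rw [Pi.single_apply]
    rw [h2]
  rw [h1, E.sg_form]
  refine Finset.sum_congr rfl fun i _ => ?_
  have h2 : ip (E.w i) (Pi.single x 1) = E.w i x := by rw [ip_comm, ip_single_left]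
  rw [h2]; ring

theorem plain_trace (t : ℝ) (E : EB (lapl adj b)) :
    ∑ x, plain adj b t x x = ∑ i, Real.exp (t * E.l i) := by
  simp only [plain_spec adj b t E]
  rw [Finset.sum_comm]
  refine Finset.sum_congr rfl fun i _ => ?_
  rw [← Finset.mul_sum]
  have h1 : ∑ x, E.w i x ^ 2 = 1 := by
    have := E.norm i
    rw [ip] at this
    rw [← this]
    exact Finset.sum_congr rfl fun _ _ => by ring
  rw [h1, mul_one]

variable (hadj : ∀ x y, adj x y → adj y x)

include hadj in
/-- **lower bound**: the annealed trace dominates the trace of simple random walk -/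
theorem trace_lower (hp : 0 ≤ p) (hp1 : p ≤ 1) (t : ℝ) (ht : 0 ≤ t) :
    ∑ x, plain adj b t x x ≤ ∑ x, annealed adj b μ p t x x := by
  obtain ⟨E⟩ := exists_eb (rgen adj b μ p) (rgen_symm adj hadj b μ p)
  obtain ⟨E0⟩ := exists_eb (lapl adj b) (lapl_symm adj hadj b)
  rw [plain_trace adj b t E0, annealed_trace adj b μ p hp hp1 t E]
  have h1 : ∀ i, Real.exp (t * E0.l i) ≤ ip (emb (E0.w i)) (sg (rgen adj b μ p) t (emb (E0.w i))) := by
    intro i
    have hn : ip (emb (E0.w i)) (emb (E0.w i)) = 1 := by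
      rw [ip_emb]
      have : (fun x => emb (E0.w i) (x, z0)) = E0.w i := by
        funext x; simp [emb]
      rw [this]; exact E0.norm i
    refine le_trans ?_ (E.jensen t _ hn)
    apply Real.exp_le_exp.2
    refine mul_le_mul_of_nonneg_left ?_ ht
    rw [form_eq adj hadj]
    have h2 := Bf_emb_le adj b μ p hp hp1 (E0.w i)
    have h3 := lapl_form adj hadj b (E0.w i) (E0.w i)
    rw [E0.eig, ip_smul_right, E0.norm, mul_one] at h3
    linarith
  have h4 : ∑ i, ip (emb (E0.w i)) (sg (rgen adj b μ p) t (emb (E0.w i))) =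
      ∑ k, Real.exp (t * E.l k) * nw E k := by
    simp only [E.sg_form]
    rw [Finset.sum_comm]
    refine Finset.sum_congr rfl fun k _ => ?_
    rw [← Finset.mul_sum]
    congr 1
    have h5 : ∀ i, ip (E.w k) (emb (E0.w i)) = ip (E0.w i) (fun x => E.w k (x, z0)) := by
      intro i; rw [ip_comm, ip_emb]
    simp only [h5]
    rw [← E0.parseval]
    rw [nw, ip]
    exact Finset.sum_congr rfl fun _ _ => by ring
  rw [← h4]
  exact Finset.sum_le_sum fun i _ => h1 i

theorem Sf_spec (E0 : EB (lapl adj b)) (hadj : ∀ x y, adj x y → adj y x) (f : U → ℝ) :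
    Sf adj b f f = ∑ i, (- E0.l i) * (ip (E0.w i) f) ^ 2 := by
  have h1 := lapl_form adj hadj b f f
  rw [E0.form] at h1
  have h2 : Sf adj b f f = - ∑ i, E0.l i * (ip (E0.w i) f * ip (E0.w i) f) := by linarith
  rw [h2, ← Finset.sum_neg_distrib]
  exact Finset.sum_congr rfl fun _ _ => by ring

theorem Bf_spec (E : EB (rgen adj b μ p)) (hadj : ∀ x y, adj x y → adj y x) (F : U × Conf U → ℝ) :
    Bf adj b μ p F F = ∑ i, (- E.l i) * (ip (E.w i) F) ^ 2 := by
  have h1 := form_eq adj hadj b μ p F F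
  rw [E.form] at h1
  have h2 : Bf adj b μ p F F = - ∑ i, E.l i * (ip (E.w i) F * ip (E.w i) F) := by linarith
  rw [h2, ← Finset.sum_neg_distrib]
  exact Finset.sum_congr rfl fun _ _ => by ring

/-- counting eigenvalues -/
theorem counting (E : EB (rgen adj b μ p)) (E0 : EB (lapl adj b)) (hadj : ∀ x y, adj x y → adj y x)
    (c : ℝ)
    (hc : ∀ F : U × Conf U → ℝ, c * (Sf adj b (fun x => F (x, z0)) (fun x => F (x, z0)) +
      ∑ x, gn F x) ≤ Bf adj b μ p F F) (lam : ℝ) (hlam : lam < c) :
    (Finset.univ.filter fun k => - E.l k ≤ lam).card ≤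
      (Finset.univ.filter fun i => c * (- E0.l i) ≤ lam).card := by
  classical
  set K := Finset.univ.filter fun k => - E.l k ≤ lam with hK
  set I := Finset.univ.filter fun i => c * (- E0.l i) ≤ lam with hI
  let comb : (K → ℝ) →ₗ[ℝ] (U × Conf U → ℝ) :=
    { toFun := fun a => ∑ k : K, a k • E.w k
      map_add' := fun a a' => by simp [add_smul, Finset.sum_add_distrib]
      map_smul' := fun r a => by simp [mul_smul, Finset.smul_sum] }
  let Φ : (K → ℝ) →ₗ[ℝ] (I → ℝ) :=
    { toFun := fun a i => ip (E0.w i) (fun x => comb a (x, z0))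
      map_add' := fun a a' => by
        funext i
        simp only [map_add, Pi.add_apply, ip, mul_add, Finset.sum_add_distrib]
      map_smul' := fun r a => by
        funext i
        simp only [map_smul, Pi.smul_apply, smul_eq_mul, ip, RingHom.id_apply, Finset.mul_sum]
        exact Finset.sum_congr rfl fun _ _ => by ring }
  have hcoef : ∀ (a : K → ℝ) (k : U × Conf U), ip (E.w k) (comb a) =
      if h : k ∈ K then a ⟨k, h⟩ else 0 := by
    intro a k
    show ip (E.w k) (∑ k' : K, a k' • E.w k') = _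
    rw [ip_sum_right]
    by_cases h : k ∈ K
    · rw [dif_pos h, Finset.sum_eq_single ⟨k, h⟩]
      · rw [ip_smul_right, E.norm, mul_one]
      · intro k' _ hk'
        rw [ip_smul_right, E.orth _ _ (fun h' => hk' (Subtype.ext h'.symm)), mul_zero]
      · intro h'; exact absurd (Finset.mem_univ _) h'
    · rw [dif_neg h]
      refine Finset.sum_eq_zero fun k' _ => ?_
      have hne : k ≠ k'.1 := fun h' => h (by rw [h']; exact k'.2)
      rw [ip_smul_right, E.orth _ _ hne, mul_zero]
  have hinj : Function.Injective Φ := by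
    rw [← LinearMap.ker_eq_bot, LinearMap.ker_eq_bot']
    intro a ha
    set F := comb a with hF
    set f : U → ℝ := fun x => F (x, z0) with hf
    have h1 : ∀ i ∈ I, ip (E0.w i) f = 0 := fun i hi => congrFun ha ⟨i, hi⟩
    have h2 : Bf adj b μ p F F ≤ lam * ip F F := by
      rw [Bf_spec adj b μ p E hadj, E.parseval F F, Finset.mul_sum]
      refine Finset.sum_le_sum fun k _ => ?_
      by_cases hk : k ∈ K
      · have h3 : - E.l k ≤ lam := (Finset.mem_filter.1 hk).2
        have h4 := mul_le_mul_of_nonneg_right h3 (sq_nonneg (ip (E.w k) F))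
        linarith [h4, sq (ip (E.w k) F)]
      · rw [hF, hcoef, dif_neg hk]; simp
    have h5 := hc F
    have h6 := norm_split F
    have h7 : ∑ x, (F (x, z0)) ^ 2 = ∑ i, (ip (E0.w i) f) ^ 2 := by
      have h8 := E0.parseval f f
      have h9 : ip f f = ∑ x, (F (x, z0)) ^ 2 := Finset.sum_congr rfl fun _ _ => by
        show _ * _ = _
        ring
      rw [← h9, h8]
      exact Finset.sum_congr rfl fun _ _ => by ring
    have h10 := Sf_spec adj b E0 hadj f
    have h11 : c * Sf adj b f f - lam * ∑ x, (F (x, z0)) ^ 2 =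
        ∑ i, (c * (- E0.l i) - lam) * (ip (E0.w i) f) ^ 2 := by
      rw [h10, h7, Finset.mul_sum, Finset.mul_sum, ← Finset.sum_sub_distrib]
      exact Finset.sum_congr rfl fun _ _ => by ring
    have h12 : ∀ i, 0 ≤ (c * (- E0.l i) - lam) * (ip (E0.w i) f) ^ 2 := by
      intro i
      by_cases hi : i ∈ I
      · rw [h1 i hi]; simp
      · have : lam < c * (- E0.l i) := by
          by_contra h
          exact hi (Finset.mem_filter.2 ⟨Finset.mem_univ _, not_lt.1 h⟩)
        exact mul_nonneg (by linarith) (sq_nonneg _)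
    have h13 : 0 ≤ ∑ i, (c * (- E0.l i) - lam) * (ip (E0.w i) f) ^ 2 :=
      Finset.sum_nonneg fun i _ => h12 i
    have h14 : 0 ≤ ∑ x, gn F x := Finset.sum_nonneg fun x _ => gn_nonneg _ x
    have h15 : (c - lam) * ∑ x, gn F x + ∑ i, (c * (- E0.l i) - lam) * (ip (E0.w i) f) ^ 2 ≤ 0 := by
      rw [← h11]
      rw [h6] at h2
      have : c * (Sf adj b f f + ∑ x, gn F x) ≤ lam * (∑ x, F (x, z0) ^ 2 + ∑ x, gn F x) :=
        h5.trans h2
      linarith
    have h16 : ∑ x, gn F x = 0 := by
      by_contra hne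
      have : 0 < ∑ x, gn F x := lt_of_le_of_ne h14 (Ne.symm hne)
      have := mul_pos (sub_pos.2 hlam) this
      linarith
    have h17 : ∑ i, (c * (- E0.l i) - lam) * (ip (E0.w i) f) ^ 2 = 0 := by
      rw [h16, mul_zero] at h15
      linarith
    have h18 : ∀ i, ip (E0.w i) f = 0 := by
      intro i
      by_cases hi : i ∈ I
      · exact h1 i hi
      · have h19 := (Finset.sum_eq_zero_iff_of_nonneg (fun i _ => h12 i)).1 h17 i (Finset.mem_univ i)
        have : lam < c * (- E0.l i) := by
          by_contra h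
          exact hi (Finset.mem_filter.2 ⟨Finset.mem_univ _, not_lt.1 h⟩)
        rcases mul_eq_zero.1 h19 with h | h
        · exfalso; linarith
        · exact pow_eq_zero_iff two_ne_zero |>.1 h
    have h20 : ip F F = 0 := by
      rw [h6, h7, h16]
      simp [h18]
    funext k
    have h21 : ip F F = ∑ k', (ip (E.w k') F) ^ 2 := by
      rw [E.parseval]; exact Finset.sum_congr rfl fun _ _ => by ring
    rw [h21] at h20
    have h22 := (Finset.sum_eq_zero_iff_of_nonneg (fun _ _ => sq_nonneg _)).1 h20 k.1 (Finset.mem_univ _)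
    have h23 := pow_eq_zero_iff two_ne_zero |>.1 h22
    rw [hF, hcoef, dif_pos k.2] at h23
    exact h23
  have := LinearMap.finrank_le_finrank_of_injective hinj
  simpa using this

/-- **upper bound** of the annealed trace -/
theorem trace_upper (hp : 0 ≤ p) (hp1 : p ≤ 1) (hadj : ∀ x y, adj x y → adj y x) (c : ℝ)
    (hc : ∀ F : U × Conf U → ℝ, c * (Sf adj b (fun x => F (x, z0)) (fun x => F (x, z0)) +
      ∑ x, gn F x) ≤ Bf adj b μ p F F) (t : ℝ) (ht : 0 ≤ t) :
    ∑ x, annealed adj b μ p t x x ≤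
      ∑ x, plain adj b (c * t) x x + Real.exp (-(c * t)) * Fintype.card U := by
  classical
  obtain ⟨E⟩ := exists_eb (rgen adj b μ p) (rgen_symm adj hadj b μ p)
  obtain ⟨E0⟩ := exists_eb (lapl adj b) (lapl_symm adj hadj b)
  rw [plain_trace adj b _ E0, annealed_trace adj b μ p hp hp1 t E]
  let J : Finset (U × Conf U) := Finset.univ.filter fun k => - E.l k < c
  have h1 : ∑ k, Real.exp (t * E.l k) * nw E k =
      ∑ k ∈ J, Real.exp (t * E.l k) * nw E k + ∑ k ∈ Jᶜ, Real.exp (t * E.l k) * nw E k :=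
    (Finset.sum_add_sum_compl J _).symm
  have h2 : ∑ k ∈ Jᶜ, Real.exp (t * E.l k) * nw E k ≤ Real.exp (-(c * t)) * Fintype.card U := by
    calc ∑ k ∈ Jᶜ, Real.exp (t * E.l k) * nw E k ≤ ∑ k ∈ Jᶜ, Real.exp (-(c * t)) * nw E k := by
          refine Finset.sum_le_sum fun k hk => ?_
          refine mul_le_mul_of_nonneg_right (Real.exp_le_exp.2 ?_) (nw_nonneg E k)
          have h3 : c ≤ - E.l k := by
            by_contra h
            exact (Finset.mem_compl.1 hk) (Finset.mem_filter.2 ⟨Finset.mem_univ _, not_le.1 h⟩)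
          nlinarith
      _ = Real.exp (-(c * t)) * ∑ k ∈ Jᶜ, nw E k := by rw [Finset.mul_sum]
      _ ≤ Real.exp (-(c * t)) * ∑ k, nw E k := by
          refine mul_le_mul_of_nonneg_left ?_ (Real.exp_nonneg _)
          exact Finset.sum_le_sum_of_subset_of_nonneg (Finset.subset_univ _) fun k _ _ => nw_nonneg E k
      _ = Real.exp (-(c * t)) * Fintype.card U := by rw [nw_sum]
  -- matching
  let tt : J → Finset U := fun k => Finset.univ.filter fun i => c * (- E0.l i) ≤ - E.l k
  obtain ⟨σ, hσ, hσ'⟩ := (Finset.all_card_le_biUnion_card_iff_exists_injective tt).1 (by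
    intro s
    rcases s.eq_empty_or_nonempty with h | h
    · simp [h]
    · obtain ⟨k, hk, hmax⟩ := Finset.exists_max_image s (fun k => - E.l k.1) h
      have h3 : s.card ≤ (Finset.univ.filter fun k' : U × Conf U => - E.l k' ≤ - E.l k.1).card := by
        rw [← Finset.card_map (Function.Embedding.subtype _)]
        refine Finset.card_le_card fun k' hk' => ?_
        obtain ⟨k'', hk'', rfl⟩ := Finset.mem_map.1 hk'
        exact Finset.mem_filter.2 ⟨Finset.mem_univ _, hmax k'' hk''⟩
      have h4 := counting adj b μ p E E0 hadj c hc (- E.l k.1) ((Finset.mem_filter.1 k.2).2)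
      refine h3.trans (h4.trans (Finset.card_le_card ?_))
      exact Finset.subset_biUnion_of_mem tt hk)
  have h5 : ∑ k ∈ J, Real.exp (t * E.l k) * nw E k ≤ ∑ i, Real.exp (c * t * E0.l i) := by
    calc ∑ k ∈ J, Real.exp (t * E.l k) * nw E k ≤ ∑ k ∈ J, Real.exp (t * E.l k) := by
          refine Finset.sum_le_sum fun k _ => ?_
          have := mul_le_mul_of_nonneg_left (nw_le_one E k) (Real.exp_nonneg (t * E.l k))
          linarith
      _ = ∑ k : J, Real.exp (t * E.l k) := (Finset.sum_coe_sort J _).symm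
      _ ≤ ∑ k : J, Real.exp (c * t * E0.l (σ k)) := by
          refine Finset.sum_le_sum fun k _ => Real.exp_le_exp.2 ?_
          have h6 := (Finset.mem_filter.1 (hσ' k)).2
          nlinarith
      _ = ∑ i ∈ Finset.univ.image σ, Real.exp (c * t * E0.l i) := by
          rw [Finset.sum_image (fun a _ b _ hab => hσ hab)]
      _ ≤ ∑ i, Real.exp (c * t * E0.l i) :=
          Finset.sum_le_sum_of_subset_of_nonneg (Finset.subset_univ _) fun _ _ _ => Real.exp_nonneg _
  linarith

end

end Pool.H102.DP
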