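import Mathlib

set_option autoImplicit false

/-!
# Harmonic functions on graphs: energy pairings and the finite Dirichlet problem
-/

namespace Pool.H102.LH

open SimpleGraph Finset

variable {V : Type*}

/-- `f` has the mean-value property for simple random walk on `G` at every vertex. -/
def IsHarmonic (G : SimpleGraph V) [G.LocallyFinite] (f : V → ℝ) : Prop :=
  ∀ x, f x = (∑ y ∈ G.neighborFinset x, f y) / (G.degree x : ℝ)

/-- `f` is Lipschitz for the graph distance of `G`. -/
def IsLipschitz (G : SimpleGraph V) (f : V → ℝ) : Prop :=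
  ∃ C : ℝ, ∀ x y, |f x - f y| ≤ C * (G.dist x y : ℝ)

/-- The number of ends of `G`: the supremum, over finite sets `K` of vertices, of the number of
infinite connected components of `G ∖ K`. -/
noncomputable def numEnds (G : SimpleGraph V) : ℕ∞ :=
  ⨆ K : Finset V, {C : G.ComponentCompl (K : Set V) | C.supp.Infinite}.encard

section
variable (G : SimpleGraph V) [G.LocallyFinite]

/-- divergence of the gradient -/
def lap (f : V → ℝ) (x : V) : ℝ := ∑ y ∈ G.neighborFinset x, (f x - f y)

/-- energy pairing over the finite set `B'` -/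
def en (B' : Finset V) (f u : V → ℝ) : ℝ :=
  ∑ x ∈ B', ∑ y ∈ G.neighborFinset x, (f x - f y) * (u x - u y)

theorem en_eq [DecidableEq V] (B B' : Finset V) (f h : V → ℝ) (hB : B ⊆ B')
    (hN : ∀ x ∈ B, G.neighborFinset x ⊆ B') (hh : ∀ x, x ∉ B → h x = 0) :
    en G B' f h = 2 * ∑ x ∈ B, h x * lap G f x := by
  have h1 : ∑ x ∈ B', ∑ y ∈ G.neighborFinset x, (f x - f y) * h x = ∑ x ∈ B, h x * lap G f x := by
    rw [← Finset.sum_subset hB]
    · refine Finset.sum_congr rfl fun x _ => ?_
      rw [lap, Finset.mul_sum]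
      exact Finset.sum_congr rfl fun y _ => mul_comm _ _
    · intro x _ hx
      simp [hh x hx]
  have h2 : ∑ x ∈ B', ∑ y ∈ G.neighborFinset x, (f x - f y) * h y = - ∑ x ∈ B, h x * lap G f x := by
    have h3 : ∑ x ∈ B', ∑ y ∈ G.neighborFinset x, (f x - f y) * h y
        = ∑ x ∈ B', ∑ y ∈ (G.neighborFinset x).filter (· ∈ B), (f x - f y) * h y := by
      refine Finset.sum_congr rfl fun x _ => ?_
      rw [Finset.sum_filter]
      refine Finset.sum_congr rfl fun y _ => ?_
      split_ifs with hy
      · rfl
      · rw [hh y hy, mul_zero]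
    rw [h3, Finset.sum_comm' (s' := fun y => G.neighborFinset y) (t' := B)]
    · rw [← Finset.sum_neg_distrib]
      refine Finset.sum_congr rfl fun y _ => ?_
      rw [lap, Finset.mul_sum, ← Finset.sum_neg_distrib]
      refine Finset.sum_congr rfl fun x _ => ?_
      ring
    · intro x y
      simp only [mem_filter, mem_neighborFinset]
      constructor
      · rintro ⟨_, h5, h6⟩
        exact ⟨h5.symm, h6⟩
      · rintro ⟨h5, h6⟩
        exact ⟨hN y h6 (by simpa using h5), h5.symm, h6⟩
  have h4 : en G B' f h = ∑ x ∈ B', ∑ y ∈ G.neighborFinset x, (f x - f y) * h x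
      - ∑ x ∈ B', ∑ y ∈ G.neighborFinset x, (f x - f y) * h y := by
    rw [en, ← Finset.sum_sub_distrib]
    refine Finset.sum_congr rfl fun x _ => ?_
    rw [← Finset.sum_sub_distrib]
    exact Finset.sum_congr rfl fun y _ => by ring
  rw [h4, h1, h2]; ring

theorem const_of_adj (hG : G.Connected) (h : V → ℝ) (H : ∀ x y, G.Adj x y → h x = h y) (x y : V) :
    h x = h y := by
  obtain ⟨w⟩ := hG.preconnected x y
  induction w with
  | nil => rfl
  | cons hadj _ ih => exact (H _ _ hadj).trans ih

theorem zero_of_en (hG : G.Connected) (B B' : Finset V) (h : V → ℝ) (hB : B ⊆ B')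
    (hN : ∀ x ∈ B, G.neighborFinset x ⊆ B') (hh : ∀ x, x ∉ B → h x = 0) (v : V) (hv : v ∉ B)
    (h0 : en G B' h h ≤ 0) : ∀ x, h x = 0 := by
  have h1 : ∀ x ∈ B', ∀ y ∈ G.neighborFinset x, (h x - h y) * (h x - h y) = 0 := by
    have h2 : ∑ x ∈ B', ∑ y ∈ G.neighborFinset x, (h x - h y) * (h x - h y) = 0 :=
      le_antisymm h0 (Finset.sum_nonneg fun x _ => Finset.sum_nonneg fun y _ => mul_self_nonneg _)
    intro x hx y hy
    have h3 := (Finset.sum_eq_zero_iff_of_nonneg
      (fun x _ => Finset.sum_nonneg fun y _ => mul_self_nonneg _)).1 h2 x hx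
    exact (Finset.sum_eq_zero_iff_of_nonneg (fun y _ => mul_self_nonneg _)).1 h3 y hy
  have h4 : ∀ x y, G.Adj x y → h x = h y := by
    intro x y hxy
    by_cases hx : x ∈ B'
    · have := h1 x hx y (by simpa using hxy)
      have := mul_self_eq_zero.1 this
      linarith
    · have hy : y ∉ B := fun hy => hx (hN y hy (by simpa using hxy.symm))
      rw [hh x (fun h => hx (hB h)), hh y hy]
  intro x
  rw [const_of_adj G hG h h4 x v, hh v hv]

/-- the finite Dirichlet problem -/
theorem dirichlet (hG : G.Connected) (B : Finset V) (v : V) (hv : v ∉ B) (φ : V → ℝ) :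
    ∃ F : V → ℝ, (∀ x, x ∉ B → F x = φ x) ∧ ∀ x ∈ B, lap G F x = 0 := by
  classical
  let B' : Finset V := B ∪ B.biUnion fun x => G.neighborFinset x
  have hB : B ⊆ B' := Finset.subset_union_left
  have hN : ∀ x ∈ B, G.neighborFinset x ⊆ B' := fun x hx =>
    (Finset.subset_biUnion_of_mem (fun x => G.neighborFinset x) hx).trans Finset.subset_union_right
  let ext : (B → ℝ) →ₗ[ℝ] (V → ℝ) :=
    { toFun := fun f x => if h : x ∈ B then f ⟨x, h⟩ else 0
      map_add' := fun f g => by funext x; by_cases h : x ∈ B <;> simp [h]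
      map_smul' := fun c f => by funext x; by_cases h : x ∈ B <;> simp [h] }
  let T : (B → ℝ) →ₗ[ℝ] (B → ℝ) :=
    { toFun := fun f x => lap G (ext f) x
      map_add' := fun f g => by
        funext x
        simp only [lap, map_add, Pi.add_apply, ← Finset.sum_add_distrib]
        exact Finset.sum_congr rfl fun y _ => by ring
      map_smul' := fun c f => by
        funext x
        simp only [lap, map_smul, Pi.smul_apply, smul_eq_mul, RingHom.id_apply, Finset.mul_sum]
        exact Finset.sum_congr rfl fun y _ => by ring }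
  have hext : ∀ f x, x ∉ B → ext f x = 0 := fun f x hx => by simp [ext, hx]
  have hinj : Function.Injective T := by
    rw [← LinearMap.ker_eq_bot, LinearMap.ker_eq_bot']
    intro f hf
    have h1 : en G B' (ext f) (ext f) = 0 := by
      rw [en_eq G B B' (ext f) (ext f) hB hN (hext f)]
      rw [Finset.sum_eq_zero, mul_zero]
      intro x hx
      have := congrFun hf ⟨x, hx⟩
      have h2 : lap G (ext f) x = 0 := this
      rw [h2, mul_zero]
    have h2 := zero_of_en G hG B B' (ext f) hB hN (hext f) v hv h1.le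
    funext x
    have := h2 x
    simpa [ext] using this
  have hsurj : Function.Surjective T := LinearMap.injective_iff_surjective.1 hinj
  let φ0 : V → ℝ := fun x => if x ∈ B then 0 else φ x
  obtain ⟨f, hf⟩ := hsurj fun x => - lap G φ0 x
  refine ⟨fun x => ext f x + φ0 x, fun x hx => ?_, fun x hx => ?_⟩
  · simp [hext f x hx, φ0, hx]
  · have h1 : lap G (ext f) x = - lap G φ0 x := congrFun hf ⟨x, hx⟩
    have h2 : lap G (fun x => ext f x + φ0 x) x = lap G (ext f) x + lap G φ0 x := by
      simp only [lap, ← Finset.sum_add_distrib]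
      exact Finset.sum_congr rfl fun y _ => by ring
    rw [h2, h1]; ring

theorem lap_zero_iff (f : V → ℝ) (x : V) (hd : 0 < G.degree x) :
    lap G f x = 0 ↔ f x = (∑ y ∈ G.neighborFinset x, f y) / (G.degree x : ℝ) := by
  have hd' : (G.degree x : ℝ) ≠ 0 := by exact_mod_cast hd.ne'
  rw [lap, Finset.sum_sub_distrib, Finset.sum_const, nsmul_eq_mul, eq_div_iff hd', card_neighborFinset_eq_degree]
  constructor <;> intro h <;> linarith

end

end Pool.H102.LH
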