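import Pool.Agent.H102R3.LHGraph

set_option autoImplicit false

/-!
# Energy growth for harmonic functions on the layered graph
-/

namespace Pool.H102.LH

open SimpleGraph Finset

/-- energy between the levels `k` and `k+1` -/
def VE (f : LV → ℝ) (k : ℕ) : ℝ := ∑ v ∈ lv k, ∑ w ∈ chF v, (f w - f v) ^ 2

/-- energy up to level `n` -/
def EE (f : LV → ℝ) (n : ℕ) : ℝ := ∑ k ∈ range n, VE f k

theorem VE_nonneg (f : LV → ℝ) (k : ℕ) : 0 ≤ VE f k :=
  Finset.sum_nonneg fun _ _ => Finset.sum_nonneg fun _ _ => sq_nonneg _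

theorem EE_mono (f : LV → ℝ) {m n : ℕ} (h : m ≤ n) : EE f m ≤ EE f n :=
  Finset.sum_le_sum_of_subset_of_nonneg (Finset.range_subset_range.2 h) fun _ _ _ => VE_nonneg f _

theorem EE_add (f : LV → ℝ) (n j : ℕ) : EE f (n + j) = EE f n + ∑ i ∈ range j, VE f (n + i) :=
  Finset.sum_range_add _ _ _

/-- flux identity -/
theorem flux (f : LV → ℝ) (hf : ∀ v, lap LG f v = 0) (m : ℝ) (n : ℕ) :
    ∑ v ∈ lv n, ∑ w ∈ chF v, (f v - m) * (f w - f v) = EE f n := by
  have hlap : ∀ v, ∑ w ∈ chF v, (f w - f v) = ∑ w ∈ paF v, (f v - f w) := by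
    intro v
    have h := hf v
    rw [lap, sum_nb] at h
    have : ∑ w ∈ chF v, (f w - f v) = - ∑ w ∈ chF v, (f v - f w) := by
      rw [← Finset.sum_neg_distrib]
      exact Finset.sum_congr rfl fun _ _ => by ring
    linarith
  induction n with
  | zero =>
    rw [EE, Finset.range_zero, Finset.sum_empty]
    refine Finset.sum_eq_zero fun v hv => ?_
    rw [← Finset.mul_sum, hlap, paF_zero v (mem_lv.1 hv), Finset.sum_empty, mul_zero]
  | succ k ih =>
    have h1 : ∑ v ∈ lv (k + 1), ∑ w ∈ chF v, (f v - m) * (f w - f v)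
        = ∑ v ∈ lv (k + 1), ∑ w ∈ paF v, (f v - m) * (f v - f w) := by
      refine Finset.sum_congr rfl fun v _ => ?_
      rw [← Finset.mul_sum, hlap, Finset.mul_sum]
    rw [h1, Finset.sum_comm' (s' := fun w => chF w) (t' := lv k)]
    · rw [EE, Finset.sum_range_succ, ← EE, ← ih, VE, ← Finset.sum_add_distrib]
      refine Finset.sum_congr rfl fun w _ => ?_
      rw [← Finset.sum_add_distrib]
      exact Finset.sum_congr rfl fun v _ => by ring
    · intro v w
      rw [mem_paF, mem_lv, mem_lv, mem_chF]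
      constructor
      · rintro ⟨h2, c, hc, rfl⟩
        rw [ch_level] at h2
        exact ⟨⟨c, hc, rfl⟩, by omega⟩
      · rintro ⟨⟨c, hc, rfl⟩, h2⟩
        rw [ch_level]
        exact ⟨by omega, ⟨c, hc, rfl⟩⟩

theorem sum_range_mul' (g : ℕ → ℝ) (b A : ℕ) :
    ∑ y ∈ range (b * A), g y = ∑ x ∈ range A, ∑ c ∈ range b, g (b * x + c) := by
  induction A with
  | zero => simp
  | succ A ih => rw [Nat.mul_succ, Finset.sum_range_add, Finset.sum_range_succ, ih]

theorem sum_periodic (g : ℕ → ℝ) (A t : ℕ) (hg : ∀ y, g (y % A) = g y) :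
    ∑ y ∈ range (A * t), g y = t * ∑ y ∈ range A, g y := by
  rw [sum_range_mul']
  have : ∀ x ∈ range t, ∑ c ∈ range A, g (A * x + c) = ∑ c ∈ range A, g c := by
    intro x _
    refine Finset.sum_congr rfl fun c _ => ?_
    rw [← hg (A * x + c), Nat.mul_add_mod, hg]
  rw [Finset.sum_congr rfl this, Finset.sum_const, card_range, nsmul_eq_mul]

/-- Poincaré inequality for one level in terms of the energies of the next `j` levels -/
theorem poincare (f : LV → ℝ) (n j : ℕ) (hj : ∀ i ≤ j, L (n + i) = j) :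
    ∃ m : ℝ, ∑ v ∈ lv n, (f v - m) ^ 2 ≤ (j : ℝ) * ∑ i ∈ range j, VE f (n + i) / 4 := by
  have ha : ∀ i ≤ j, a (n + i) = 4 ^ j := fun i hi => by unfold a; rw [hj i hi]
  let Pf : ℕ → ℕ → ℝ := fun i x => (∑ c ∈ range (4 ^ i), f (vt (n + i) (4 ^ i * x + c))) / 4 ^ i
  let ψ : ℕ → ℕ → ℝ := fun i y => (∑ d ∈ range 4, (f (vt (n + i) y) - f (ch (vt (n + i) y) d))) / 4
  have hP0 : ∀ x, Pf 0 x = f (vt n x) := by intro x; simp [Pf]
  have hPj : ∀ x, Pf j x = Pf j 0 := by
    intro x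
    simp only [Pf]
    congr 1
    refine Finset.sum_congr rfl fun c _ => ?_
    congr 1
    apply vt_congr
    rw [ha j le_rfl]
    simp [Nat.mul_add_mod]
  have hdiff : ∀ i x, Pf i x - Pf (i + 1) x = (∑ c ∈ range (4 ^ i), ψ i (4 ^ i * x + c)) / 4 ^ i := by
    intro i x
    have h1 : ∑ c ∈ range (4 ^ (i + 1)), f (vt (n + (i + 1)) (4 ^ (i + 1) * x + c))
        = ∑ c ∈ range (4 ^ i), ∑ d ∈ range 4, f (ch (vt (n + i) (4 ^ i * x + c)) d) := by
      rw [pow_succ', sum_range_mul']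
      refine Finset.sum_congr rfl fun c _ => Finset.sum_congr rfl fun d _ => ?_
      rw [ch_vt]
      congr 2
      ring
    simp only [Pf, ψ]
    rw [h1]
    have h2 : ∀ c ∈ range (4 ^ i), (∑ d ∈ range 4, (f (vt (n + i) (4 ^ i * x + c)) -
        f (ch (vt (n + i) (4 ^ i * x + c)) d))) / 4 =
        f (vt (n + i) (4 ^ i * x + c)) - (∑ d ∈ range 4, f (ch (vt (n + i) (4 ^ i * x + c)) d)) / 4 := by
      intro c _
      rw [Finset.sum_sub_distrib, Finset.sum_const, card_range]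
      simp; ring
    rw [Finset.sum_congr rfl h2, Finset.sum_sub_distrib, sub_div, pow_succ, ← Finset.sum_div]
    congr 1
    rw [div_div, mul_comm (4:ℝ) (4 ^ i)]
  refine ⟨Pf j 0, ?_⟩
  have htel : ∀ x, f (vt n x) - Pf j 0 = ∑ i ∈ range j, (Pf i x - Pf (i + 1) x) := by
    intro x
    rw [Finset.sum_range_sub', hP0, hPj x]
  have hsq : ∀ i < j, ∑ x ∈ range (4 ^ j), (Pf i x - Pf (i + 1) x) ^ 2 ≤ VE f (n + i) / 4 := by
    intro i hi
    have h1 : ∀ x, (Pf i x - Pf (i + 1) x) ^ 2 ≤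
        (∑ c ∈ range (4 ^ i), (ψ i (4 ^ i * x + c)) ^ 2) / 4 ^ i := by
      intro x
      rw [hdiff i x, div_pow]
      have h2 := sq_sum_le_card_mul_sum_sq (s := range (4 ^ i)) (f := fun c => ψ i (4 ^ i * x + c))
      rw [card_range] at h2
      push_cast at h2
      rw [div_le_div_iff₀ (by positivity) (by positivity)]
      have h3 : (0:ℝ) < 4 ^ i := by positivity
      nlinarith
    have h2 : ∑ x ∈ range (4 ^ j), ∑ c ∈ range (4 ^ i), (ψ i (4 ^ i * x + c)) ^ 2
        = 4 ^ i * ∑ y ∈ range (4 ^ j), (ψ i y) ^ 2 := by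
      rw [← sum_range_mul' (fun y => (ψ i y) ^ 2), mul_comm (4 ^ i) (4 ^ j), sum_periodic]
      · push_cast; ring
      · intro y
        simp only [ψ]
        have h3 : vt (n + i) (y % 4 ^ j) = vt (n + i) y := by
          apply vt_congr
          rw [ha i hi.le, Nat.mod_mod]
        rw [h3]
    have h3 : ∀ y, (ψ i y) ^ 2 ≤ (∑ d ∈ range 4, (f (ch (vt (n + i) y) d) - f (vt (n + i) y)) ^ 2) / 4 := by
      intro y
      simp only [ψ]
      have h4 := sq_sum_le_card_mul_sum_sq (s := range 4)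
        (f := fun d => f (vt (n + i) y) - f (ch (vt (n + i) y) d))
      rw [card_range] at h4
      push_cast at h4
      have h5 : ∑ d ∈ range 4, (f (vt (n + i) y) - f (ch (vt (n + i) y) d)) ^ 2
          = ∑ d ∈ range 4, (f (ch (vt (n + i) y) d) - f (vt (n + i) y)) ^ 2 :=
        Finset.sum_congr rfl fun d _ => by ring
      rw [← h5, div_pow]
      linarith
    calc ∑ x ∈ range (4 ^ j), (Pf i x - Pf (i + 1) x) ^ 2
        ≤ ∑ x ∈ range (4 ^ j), (∑ c ∈ range (4 ^ i), (ψ i (4 ^ i * x + c)) ^ 2) / 4 ^ i :=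
          Finset.sum_le_sum fun x _ => h1 x
      _ = ∑ y ∈ range (4 ^ j), (ψ i y) ^ 2 := by
          rw [← Finset.sum_div, h2]
          field_simp
      _ ≤ ∑ y ∈ range (4 ^ j), (∑ d ∈ range 4, (f (ch (vt (n + i) y) d) - f (vt (n + i) y)) ^ 2) / 4 :=
          Finset.sum_le_sum fun y _ => h3 y
      _ = VE f (n + i) / 4 := by
          rw [← Finset.sum_div, VE, sum_lv, ha i hi.le]
          congr 1
          refine Finset.sum_congr rfl fun y _ => ?_
          rw [sum_ch]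
  calc ∑ v ∈ lv n, (f v - Pf j 0) ^ 2
      = ∑ x ∈ range (4 ^ j), (∑ i ∈ range j, (Pf i x - Pf (i + 1) x)) ^ 2 := by
        rw [sum_lv]
        have := ha 0 (Nat.zero_le _)
        rw [add_zero] at this
        rw [this]
        exact Finset.sum_congr rfl fun x _ => by rw [htel x]
    _ ≤ ∑ x ∈ range (4 ^ j), (j : ℝ) * ∑ i ∈ range j, (Pf i x - Pf (i + 1) x) ^ 2 := by
        refine Finset.sum_le_sum fun x _ => ?_
        have := sq_sum_le_card_mul_sum_sq (s := range j) (f := fun i => Pf i x - Pf (i + 1) x)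
        rwa [card_range] at this
    _ = (j : ℝ) * ∑ i ∈ range j, ∑ x ∈ range (4 ^ j), (Pf i x - Pf (i + 1) x) ^ 2 := by
        rw [← Finset.mul_sum, Finset.sum_comm]
    _ ≤ (j : ℝ) * ∑ i ∈ range j, VE f (n + i) / 4 := by
        refine mul_le_mul_of_nonneg_left ?_ (Nat.cast_nonneg _)
        exact Finset.sum_le_sum fun i hi => hsq i (Finset.mem_range.1 hi)

/-- one step of the growth of the energy -/
theorem growth (f : LV → ℝ) (hf : ∀ v, lap LG f v = 0) (n j : ℕ) (hj : ∀ i ≤ j, L (n + i) = j)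
    (hj0 : 1 ≤ j) : EE f n ≤ j * (EE f (n + j) - EE f n) := by
  obtain ⟨m, hm⟩ := poincare f n j hj
  have hV : VE f n ≤ ∑ i ∈ range j, VE f (n + i) := by
    have := Finset.single_le_sum (f := fun i => VE f (n + i)) (fun i _ => VE_nonneg f _)
      (Finset.mem_range.2 (show 0 < j by omega))
    simpa using this
  have hW' : EE f (n + j) - EE f n = ∑ i ∈ range j, VE f (n + i) := by rw [EE_add]; ring
  have hE0 : 0 ≤ EE f n := Finset.sum_nonneg fun _ _ => VE_nonneg f _
  have hcs : (EE f n) ^ 2 ≤ (∑ v ∈ lv n, ∑ w ∈ chF v, (f v - m) ^ 2) * VE f n := by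
    rw [← flux f hf m n, VE, Finset.sum_sigma', Finset.sum_sigma', Finset.sum_sigma']
    exact Finset.sum_mul_sq_le_sq_mul_sq _ (fun q : (_ : LV) × LV => f q.1 - m)
      (fun q => f q.2 - f q.1)
  have h4 : ∑ v ∈ lv n, ∑ w ∈ chF v, (f v - m) ^ 2 = 4 * ∑ v ∈ lv n, (f v - m) ^ 2 := by
    rw [Finset.mul_sum]
    refine Finset.sum_congr rfl fun v _ => ?_
    rw [Finset.sum_const, card_chF, nsmul_eq_mul]; norm_num
  rw [h4] at hcs
  rw [← Finset.sum_div] at hm
  rw [hW']
  have hV0 := VE_nonneg f n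
  generalize (∑ i ∈ range j, VE f (n + i)) = W at *
  generalize (∑ v ∈ lv n, (f v - m) ^ 2) = S at *
  generalize VE f n = v0 at *
  generalize EE f n = E0 at *
  have hW0 : 0 ≤ W := hV0.trans hV
  have hjr : (1:ℝ) ≤ j := by exact_mod_cast hj0
  generalize (j : ℝ) = J at *
  have h5 : E0 ^ 2 ≤ (J * W) ^ 2 := by
    calc E0 ^ 2 ≤ (4 * S) * v0 := hcs
      _ ≤ (J * W) * v0 := mul_le_mul_of_nonneg_right (by linarith) hV0
      _ ≤ (J * W) * W := mul_le_mul_of_nonneg_left hV (by positivity)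
      _ = J * W ^ 2 := by ring
      _ ≤ J ^ 2 * W ^ 2 := by
          refine mul_le_mul_of_nonneg_right ?_ (sq_nonneg _)
          nlinarith
      _ = (J * W) ^ 2 := by ring
  exact (abs_le_of_sq_le_sq' h5 (by positivity)).2

end Pool.H102.LH
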