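import Mathlib

set_option autoImplicit false

/-!
# Simple random walk on a locally finite graph: definition, existence, a transience criterion
-/

namespace Pool.H102.LH

open SimpleGraph Finset MeasureTheory Filter
open scoped ENNReal Topology

open Classical in
/-- `X` is simple random walk on the graph `G`, started at `x`, on the probability space `(Ω, P)`:
the probability of following a given path for `n` steps is the product of the inverse degrees. -/
structure IsSRW {V Ω : Type} [MeasurableSpace Ω] (G : SimpleGraph V) [G.LocallyFinite] (x : V)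
    (P : Measure Ω) (X : ℕ → Ω → V) : Prop where
  prob : IsProbabilityMeasure P
  meas : ∀ n v, MeasurableSet {ω | X n ω = v}
  law : ∀ (n : ℕ) (p : ℕ → V), P {ω | ∀ i ≤ n, X i ω = p i} =
    (if p 0 = x then 1 else 0) *
      ∏ i ∈ Finset.range n, (if G.Adj (p i) (p (i+1)) then ((G.degree (p i) : ℝ≥0∞))⁻¹ else 0)

/-- `G` is transient: from every vertex there is a simple random walk, and every simple random walk
started at `x` returns to `x` with probability less than one. -/
def IsTransient {V : Type} (G : SimpleGraph V) [G.LocallyFinite] : Prop :=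
  ∀ x : V, (∃ (Ω : Type) (_ : MeasurableSpace Ω) (P : Measure Ω) (X : ℕ → Ω → V), IsSRW G x P X) ∧
    ∀ (Ω : Type) (_ : MeasurableSpace Ω) (P : Measure Ω) (X : ℕ → Ω → V), IsSRW G x P X →
      P {ω | ∃ n, 1 ≤ n ∧ X n ω = x} < 1

variable {V : Type} (G : SimpleGraph V) [G.LocallyFinite]

open Classical in
theorem srw_step {Ω : Type} [MeasurableSpace Ω] (x : V) (P : Measure Ω) (X : ℕ → Ω → V)
    (h : IsSRW G x P X) (n : ℕ) (p : ℕ → V) (w : V) :
    P {ω | ∀ i ≤ n + 1, X i ω = Function.update p (n+1) w i}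
      = P {ω | ∀ i ≤ n, X i ω = p i} *
        (if G.Adj (p n) w then ((G.degree (p n) : ℝ≥0∞))⁻¹ else 0) := by
  rw [h.law, h.law, Finset.prod_range_succ, ← mul_assoc]
  have h0 : Function.update p (n+1) w 0 = p 0 := Function.update_of_ne (by omega) _ _
  have hn : Function.update p (n+1) w n = p n := Function.update_of_ne (by omega) _ _
  have hn1 : Function.update p (n+1) w (n+1) = w := Function.update_self _ _ _
  rw [h0, hn, hn1]
  congr 2
  refine Finset.prod_congr rfl fun i hi => ?_
  rw [Finset.mem_range] at hi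
  rw [Function.update_of_ne (by omega), Function.update_of_ne (by omega)]

theorem prefix_split {Ω : Type} [Countable V] [MeasurableSpace Ω] (x : V) (P : Measure Ω)
    (X : ℕ → Ω → V) (h : IsSRW G x P X) (n : ℕ) (p : ℕ → V) (A : Set Ω) (s : V → ℝ≥0∞)
    (hA : ∀ w, P ({ω | ∀ i ≤ n + 1, X i ω = Function.update p (n+1) w i} ∩ A) ≤
      P {ω | ∀ i ≤ n + 1, X i ω = Function.update p (n+1) w i} * s w) :
    P ({ω | ∀ i ≤ n, X i ω = p i} ∩ A) ≤ P {ω | ∀ i ≤ n, X i ω = p i} *
      ((G.degree (p n) : ℝ≥0∞)⁻¹ * ∑ w ∈ G.neighborFinset (p n), s w) := by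
  classical
  have hsub : {ω | ∀ i ≤ n, X i ω = p i} ∩ A ⊆
      ⋃ w : V, ({ω | ∀ i ≤ n + 1, X i ω = Function.update p (n+1) w i} ∩ A) := by
    rintro ω ⟨h1, h2⟩
    refine Set.mem_iUnion.2 ⟨X (n+1) ω, fun i hi => ?_, h2⟩
    rcases Nat.lt_or_ge i (n+1) with h3 | h3
    · rw [Function.update_of_ne (by omega)]
      exact h1 i (by omega)
    · have : i = n + 1 := by omega
      rw [this, Function.update_self]
  calc P ({ω | ∀ i ≤ n, X i ω = p i} ∩ A)
      ≤ ∑' w, P ({ω | ∀ i ≤ n + 1, X i ω = Function.update p (n+1) w i} ∩ A) :=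
        (measure_mono hsub).trans (measure_iUnion_le _)
    _ ≤ ∑' w, P {ω | ∀ i ≤ n, X i ω = p i} *
        ((if G.Adj (p n) w then ((G.degree (p n) : ℝ≥0∞))⁻¹ else 0) * s w) := by
        refine ENNReal.tsum_le_tsum fun w => (hA w).trans ?_
        rw [srw_step G x P X h, mul_assoc]
    _ = P {ω | ∀ i ≤ n, X i ω = p i} *
        ∑' w, ((if G.Adj (p n) w then ((G.degree (p n) : ℝ≥0∞))⁻¹ else 0) * s w) :=
        ENNReal.tsum_mul_left
    _ = P {ω | ∀ i ≤ n, X i ω = p i} *
      ((G.degree (p n) : ℝ≥0∞)⁻¹ * ∑ w ∈ G.neighborFinset (p n), s w) := by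
        congr 1
        rw [tsum_eq_sum (s := G.neighborFinset (p n))]
        · rw [Finset.mul_sum]
          refine Finset.sum_congr rfl fun w hw => ?_
          rw [if_pos (by simpa using hw)]
        · intro w hw
          rw [if_neg (by simpa using hw), zero_mul]

theorem hit_bound {Ω : Type} [Countable V] [MeasurableSpace Ω] (x : V) (P : Measure Ω)
    (X : ℕ → Ω → V) (h : IsSRW G x P X) (z : V) (s : V → ℝ≥0∞) (hz : s z = 1)
    (hs : ∀ y, y ≠ z → (G.degree y : ℝ≥0∞)⁻¹ * ∑ w ∈ G.neighborFinset y, s w ≤ s y) (N : ℕ) :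
    ∀ (n : ℕ) (p : ℕ → V),
      P ({ω | ∀ i ≤ n, X i ω = p i} ∩ {ω | ∃ m, n ≤ m ∧ m ≤ n + N ∧ X m ω = z}) ≤
        P {ω | ∀ i ≤ n, X i ω = p i} * s (p n) := by
  induction N with
  | zero =>
    intro n p
    by_cases hp : p n = z
    · rw [hp, hz, mul_one]
      exact measure_mono Set.inter_subset_left
    · have : {ω | ∀ i ≤ n, X i ω = p i} ∩ {ω | ∃ m, n ≤ m ∧ m ≤ n + 0 ∧ X m ω = z} = ∅ := by
        ext ω
        simp only [Set.mem_inter_iff, Set.mem_ofPred_eq, Set.mem_empty_iff_false, iff_false, not_and,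
          not_exists]
        intro h1 m h2 h3 h4
        have : m = n := by omega
        subst this
        exact hp ((h1 m le_rfl).symm.trans h4)
      rw [this, measure_empty]
      exact zero_le
  | succ N ih =>
    intro n p
    by_cases hp : p n = z
    · rw [hp, hz, mul_one]
      exact measure_mono Set.inter_subset_left
    · have hset : {ω | ∀ i ≤ n, X i ω = p i} ∩ {ω | ∃ m, n ≤ m ∧ m ≤ n + (N + 1) ∧ X m ω = z} ⊆
          {ω | ∀ i ≤ n, X i ω = p i} ∩ {ω | ∃ m, n + 1 ≤ m ∧ m ≤ (n + 1) + N ∧ X m ω = z} := by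
        rintro ω ⟨h1, m, h2, h3, h4⟩
        refine ⟨h1, m, ?_, by omega, h4⟩
        rcases h2.lt_or_eq with h5 | h5
        · exact h5
        · exfalso
          subst h5
          exact hp ((h1 n le_rfl).symm.trans h4)
      refine (measure_mono hset).trans ?_
      refine (prefix_split G x P X h n p _ s fun w => ?_).trans ?_
      · have := ih (n + 1) (Function.update p (n+1) w)
        rwa [Function.update_self] at this
      · exact mul_le_mul_right (hs _ hp) _

/-- transience criterion with a superharmonic function -/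
theorem return_lt_one {Ω : Type} [Countable V] [MeasurableSpace Ω] (x : V) (P : Measure Ω)
    (X : ℕ → Ω → V) (h : IsSRW G x P X) (s : V → ℝ≥0∞) (hx : s x = 1)
    (hs : ∀ y, y ≠ x → (G.degree y : ℝ≥0∞)⁻¹ * ∑ w ∈ G.neighborFinset y, s w ≤ s y)
    (hstrict : (G.degree x : ℝ≥0∞)⁻¹ * ∑ w ∈ G.neighborFinset x, s w < 1) :
    P {ω | ∃ n, 1 ≤ n ∧ X n ω = x} < 1 := by
  have hP := h.prob
  have hunion : {ω | ∃ n, 1 ≤ n ∧ X n ω = x} = ⋃ N : ℕ, {ω | ∃ m, 1 ≤ m ∧ m ≤ 1 + N ∧ X m ω = x} := by
    ext ω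
    simp only [Set.mem_iUnion, Set.mem_ofPred_eq]
    constructor
    · rintro ⟨n, h1, h2⟩
      exact ⟨n, n, h1, by omega, h2⟩
    · rintro ⟨N, m, h1, _, h3⟩
      exact ⟨m, h1, h3⟩
  have hmono : Monotone fun N : ℕ => {ω | ∃ m, 1 ≤ m ∧ m ≤ 1 + N ∧ X m ω = x} := by
    intro a b hab ω hω
    obtain ⟨m, h1, h2, h3⟩ := hω
    exact ⟨m, h1, by omega, h3⟩
  have hstart : P {ω | ∀ i ≤ 0, X i ω = (fun _ => x) i} = 1 := by
    rw [h.law]; simp
  have hb : ∀ N, P {ω | ∃ m, 1 ≤ m ∧ m ≤ 1 + N ∧ X m ω = x} ≤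
      (G.degree x : ℝ≥0∞)⁻¹ * ∑ w ∈ G.neighborFinset x, s w := by
    intro N
    have hm0 : MeasurableSet {ω | ∀ i ≤ 0, X i ω = (fun _ => x) i} := by
      have : {ω | ∀ i ≤ 0, X i ω = (fun _ => x) i} = {ω | X 0 ω = x} := by
        ext ω; simp
      rw [this]; exact h.meas 0 x
    have h0 : P ({ω | ∀ i ≤ 0, X i ω = (fun _ => x) i}ᶜ) = 0 := by
      rw [prob_compl_eq_zero_iff hm0]; exact hstart
    have h1 : P {ω | ∃ m, 1 ≤ m ∧ m ≤ 1 + N ∧ X m ω = x} ≤
        P ({ω | ∀ i ≤ 0, X i ω = (fun _ => x) i} ∩ {ω | ∃ m, 1 ≤ m ∧ m ≤ 1 + N ∧ X m ω = x}) := by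
      have : {ω | ∃ m, 1 ≤ m ∧ m ≤ 1 + N ∧ X m ω = x} ⊆
          ({ω | ∀ i ≤ 0, X i ω = (fun _ => x) i} ∩ {ω | ∃ m, 1 ≤ m ∧ m ≤ 1 + N ∧ X m ω = x}) ∪
            {ω | ∀ i ≤ 0, X i ω = (fun _ => x) i}ᶜ := by
        intro ω hω
        by_cases h2 : ω ∈ {ω | ∀ i ≤ 0, X i ω = (fun _ => x) i}
        · left; exact ⟨h2, hω⟩
        · right; exact h2
      refine (measure_mono this).trans ((measure_union_le _ _).trans ?_)
      rw [h0, add_zero]
    refine h1.trans ?_
    refine (prefix_split G x P X h 0 (fun _ => x) _ s fun w => ?_).trans ?_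
    · have := hit_bound G x P X h x s hx hs N (0 + 1) (Function.update (fun _ => x) (0+1) w)
      rwa [Function.update_self] at this
    · rw [hstart, one_mul]
  refine lt_of_le_of_lt ?_ hstrict
  rw [hunion, hmono.measure_iUnion]
  exact iSup_le hb

section exist

/-- the walk driven by independent neighbour choices -/
def stackWalk (x : V) (ω : ℕ × V → V) : ℕ → V
  | 0 => x
  | n + 1 => ω (n, stackWalk x ω n)

theorem exists_srw [Countable V] (hdeg : ∀ v, 0 < G.degree v) (x : V) :
    ∃ (Ω : Type) (_ : MeasurableSpace Ω) (P : Measure Ω) (X : ℕ → Ω → V), IsSRW G x P X := by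
  classical
  let _ : MeasurableSpace V := ⊤
  have hne : ∀ v, (G.neighborFinset v).Nonempty := fun v => by
    rw [← Finset.card_pos]; simpa using hdeg v
  let μ : ℕ × V → Measure V := fun q => (PMF.uniformOfFinset (G.neighborFinset q.2) (hne q.2)).toMeasure
  have hμ : ∀ q, IsProbabilityMeasure (μ q) := fun q => by
    show IsProbabilityMeasure (PMF.toMeasure _); infer_instance
  have hμ1 : ∀ q w, μ q {w} = if G.Adj q.2 w then ((G.degree q.2 : ℝ≥0∞))⁻¹ else 0 := by
    intro q w
    show (PMF.uniformOfFinset (G.neighborFinset q.2) (hne q.2)).toMeasure {w} = _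
    rw [PMF.toMeasure_apply_singleton _ _ (MeasurableSet.singleton w), PMF.uniformOfFinset_apply]
    simp
  have hmeas : ∀ n v, MeasurableSet {ω : ℕ × V → V | stackWalk x ω n = v} := by
    intro n
    induction n with
    | zero =>
      intro v
      have : {ω : ℕ × V → V | stackWalk x ω 0 = v} = {_ω | x = v} := rfl
      rw [this]; exact MeasurableSet.const _
    | succ n ih =>
      intro v
      have : {ω : ℕ × V → V | stackWalk x ω (n+1) = v} =
          ⋃ u : V, ({ω | stackWalk x ω n = u} ∩ {ω | ω (n, u) = v}) := by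
        ext ω
        simp only [Set.mem_iUnion, Set.mem_inter_iff, Set.mem_ofPred_eq]
        constructor
        · intro h; exact ⟨_, rfl, h⟩
        · rintro ⟨u, h1, h2⟩
          show ω (n, stackWalk x ω n) = v
          rw [h1]; exact h2
      rw [this]
      refine MeasurableSet.iUnion fun u => ?_
      have h2 : MeasurableSet ((fun ω : ℕ × V → V => ω (n, u)) ⁻¹' {v}) :=
        measurable_pi_apply (n, u) (MeasurableSet.singleton v)
      exact (ih u).inter h2
  refine ⟨ℕ × V → V, inferInstance, Measure.infinitePi μ, fun n ω => stackWalk x ω n,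
    inferInstance, hmeas, fun n p => ?_⟩
  by_cases h0 : p 0 = x
  · rw [if_pos h0, one_mul]
    let s : Finset (ℕ × V) := (Finset.range n).image fun i => (i, p i)
    have hset : {ω : ℕ × V → V | ∀ i ≤ n, stackWalk x ω i = p i} =
        Set.pi (s : Set (ℕ × V)) fun q => {p (q.1 + 1)} := by
      ext ω
      simp only [Set.mem_ofPred_eq, Set.mem_pi, Set.mem_singleton_iff]
      constructor
      · rintro h q hq
        obtain ⟨i, hi, rfl⟩ := Finset.mem_image.1 (Finset.mem_coe.1 hq)
        have hi' := Finset.mem_range.1 hi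
        have h1 : ω (i, stackWalk x ω i) = p (i+1) := h (i+1) (by omega)
        rwa [h i (by omega)] at h1
      · intro h i hi
        induction i with
        | zero => exact h0.symm
        | succ i ih =>
          have h1 := ih (by omega)
          show ω (i, stackWalk x ω i) = _
          rw [h1]
          exact h (i, p i) (Finset.mem_coe.2 (Finset.mem_image.2 ⟨i, Finset.mem_range.2 (by omega), rfl⟩))
    rw [hset, Measure.infinitePi_pi _ (fun _ _ => MeasurableSet.singleton _),
      Finset.prod_image (by intro a _ b _ hab; exact congrArg Prod.fst hab)]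
    refine Finset.prod_congr rfl fun i _ => ?_
    exact hμ1 (i, p i) (p (i+1))
  · rw [if_neg h0, zero_mul]
    have : {ω : ℕ × V → V | ∀ i ≤ n, stackWalk x ω i = p i} = ∅ := by
      ext ω
      simp only [Set.mem_ofPred_eq, Set.mem_empty_iff_false, iff_false]
      intro h
      exact h0 (h 0 (Nat.zero_le _)).symm
    rw [this, measure_empty]

end exist

end Pool.H102.LH
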