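import Pool.Agent.H102R3.LHBasic
import Pool.Agent.H102R3.LHWalk

set_option autoImplicit false

/-!
# A layered transient graph of degree at most 8 with no non-constant Lipschitz harmonic function

Level `k` has `a k = 4 ^ (log₂ (k+1) + 1)` vertices `(k, x)`, `x < a k`, and `(k, x)` is joined to
the four vertices `(k+1, (4 x + c) mod a (k+1))`, `c < 4`, of the next level.
-/

namespace Pool.H102.LH

open SimpleGraph Finset MeasureTheory Filter
open scoped ENNReal Topology

def L (k : ℕ) : ℕ := Nat.log 2 (k + 1) + 1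
def a (k : ℕ) : ℕ := 4 ^ L k

theorem a_pos (k : ℕ) : 0 < a k := by unfold a; positivity

theorem L_mono {j k : ℕ} (h : j ≤ k) : L j ≤ L k := by
  unfold L; have := Nat.log_mono_right (b := 2) (show j + 1 ≤ k + 1 by omega); omega

theorem L_succ_le (k : ℕ) : L (k + 1) ≤ L k + 1 := by
  unfold L
  have h1 : Nat.log 2 (k + 1 + 1) ≤ Nat.log 2 ((k + 1) * 2) := Nat.log_mono_right (by omega)
  rw [Nat.log_mul_base (by norm_num) (by omega)] at h1
  omega

theorem a_dvd {j k : ℕ} (h : j ≤ k) : a j ∣ a k := pow_dvd_pow _ (L_mono h)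

theorem a_succ_dvd (k : ℕ) : a (k + 1) ∣ 4 * a k := by
  unfold a
  rw [← pow_succ']
  exact pow_dvd_pow _ (L_succ_le k)

theorem four_dvd (k : ℕ) : 4 ∣ a k := dvd_pow_self 4 (by unfold L; omega)

/-- the vertices -/
abbrev LV : Type := {p : ℕ × ℕ // p.2 < a p.1}

def vt (k x : ℕ) : LV := ⟨(k, x % a k), Nat.mod_lt _ (a_pos k)⟩

theorem vt_self (v : LV) : vt v.1.1 v.1.2 = v := by
  apply Subtype.ext
  show (v.1.1, v.1.2 % a v.1.1) = v.1
  rw [Nat.mod_eq_of_lt v.2]

theorem vt_congr {k x y : ℕ} (h : x % a k = y % a k) : vt k x = vt k y :=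
  Subtype.ext (Prod.ext rfl h)

theorem vt_inj {k x y : ℕ} (h : vt k x = vt k y) : x % a k = y % a k :=
  congrArg (fun v : LV => v.1.2) h

/-- the children of a vertex -/
def ch (v : LV) (c : ℕ) : LV := vt (v.1.1 + 1) (4 * v.1.2 + c)

theorem ch_level (v : LV) (c : ℕ) : (ch v c).1.1 = v.1.1 + 1 := rfl

theorem ch_vt (k x c : ℕ) : ch (vt k x) c = vt (k + 1) (4 * x + c) := by
  show vt (k + 1) (4 * (x % a k) + c) = _
  apply vt_congr
  obtain ⟨t, ht⟩ := a_succ_dvd k
  have h1 : 4 * x + c = (4 * (x % a k) + c) + a (k + 1) * (t * (x / a k)) := by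
    have := Nat.mod_add_div x (a k)
    calc 4 * x + c = 4 * (x % a k + a k * (x / a k)) + c := by rw [this]
      _ = (4 * (x % a k) + c) + (4 * a k) * (x / a k) := by ring
      _ = _ := by rw [ht]; ring
  rw [h1, Nat.add_mul_mod_self_left]

theorem ch_inj (v : LV) {c d : ℕ} (hc : c < 4) (hd : d < 4) (h : ch v c = ch v d) : c = d := by
  have h1 := vt_inj h
  have h2 : (4 * v.1.2 + c) % 4 = (4 * v.1.2 + d) % 4 := by
    have := congrArg (· % 4) h1
    simpa [Nat.mod_mod_of_dvd _ (four_dvd (v.1.1 + 1))] using this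
  omega

/-- the graph -/
def LG : SimpleGraph LV where
  Adj v w := (∃ c < 4, w = ch v c) ∨ (∃ c < 4, v = ch w c)
  symm := ⟨fun _ _ h => h.symm⟩
  loopless := ⟨fun v h => by
    rcases h with ⟨c, _, h⟩ | ⟨c, _, h⟩ <;>
    · have := congrArg (fun v : LV => v.1.1) h
      simp only [ch_level] at this
      omega⟩

def chF (v : LV) : Finset LV := (range 4).image (ch v)
def lv (k : ℕ) : Finset LV := (range (a k)).image (vt k)
def paF (v : LV) : Finset LV := if v.1.1 = 0 then ∅ else (lv (v.1.1 - 1)).filter fun w => v ∈ chF w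

theorem mem_lv {k : ℕ} {v : LV} : v ∈ lv k ↔ v.1.1 = k := by
  unfold lv
  rw [mem_image]
  constructor
  · rintro ⟨x, _, rfl⟩; rfl
  · rintro rfl
    exact ⟨v.1.2, mem_range.2 v.2, vt_self v⟩

theorem mem_chF {v w : LV} : w ∈ chF v ↔ ∃ c < 4, w = ch v c := by
  unfold chF
  rw [mem_image]
  constructor
  · rintro ⟨c, hc, rfl⟩; exact ⟨c, mem_range.1 hc, rfl⟩
  · rintro ⟨c, hc, rfl⟩; exact ⟨c, mem_range.2 hc, rfl⟩

theorem mem_paF {v w : LV} : w ∈ paF v ↔ v ∈ chF w := by
  unfold paF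
  split_ifs with h
  · simp only [notMem_empty, false_iff, mem_chF, not_exists, not_and]
    intro c _ h2
    rw [h2, ch_level] at h
    omega
  · rw [mem_filter, mem_lv]
    constructor
    · exact fun h => h.2
    · intro h2
      refine ⟨?_, h2⟩
      obtain ⟨c, _, rfl⟩ := mem_chF.1 h2
      rw [ch_level]; omega

theorem adj_iff {v w : LV} : LG.Adj v w ↔ w ∈ chF v ∪ paF v := by
  rw [mem_union, mem_paF, mem_chF, mem_chF]; rfl

instance : LG.LocallyFinite := fun v => Fintype.ofFinset (chF v ∪ paF v) fun w => by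
  rw [← adj_iff]; rfl

theorem nf_eq (v : LV) : LG.neighborFinset v = chF v ∪ paF v := by
  ext w
  rw [mem_neighborFinset, adj_iff]

theorem disj (v : LV) : Disjoint (chF v) (paF v) := by
  rw [Finset.disjoint_left]
  intro w h1 h2
  rw [mem_paF, mem_chF] at h2
  rw [mem_chF] at h1
  obtain ⟨c, _, h1⟩ := h1
  obtain ⟨d, _, h2⟩ := h2
  have h3 := congrArg (fun v : LV => v.1.1) h1
  have h4 := congrArg (fun v : LV => v.1.1) h2
  simp only [ch_level] at h3 h4
  omega

theorem sum_nb (g : LV → ℝ) (v : LV) :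
    ∑ w ∈ LG.neighborFinset v, g w = ∑ w ∈ chF v, g w + ∑ w ∈ paF v, g w := by
  rw [nf_eq, Finset.sum_union (disj v)]

theorem sum_ch {M : Type*} [AddCommMonoid M] (g : LV → M) (v : LV) : ∑ w ∈ chF v, g w = ∑ c ∈ range 4, g (ch v c) := by
  unfold chF
  rw [Finset.sum_image]
  intro c hc d hd h
  exact ch_inj v (mem_range.1 hc) (mem_range.1 hd) h

theorem sum_lv (g : LV → ℝ) (k : ℕ) : ∑ v ∈ lv k, g v = ∑ x ∈ range (a k), g (vt k x) := by
  unfold lv
  rw [Finset.sum_image]
  intro x hx y hy h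
  have := vt_inj h
  rwa [Nat.mod_eq_of_lt (mem_range.1 hx), Nat.mod_eq_of_lt (mem_range.1 hy)] at this

theorem card_chF (v : LV) : (chF v).card = 4 := by
  unfold chF
  rw [Finset.card_image_of_injOn, card_range]
  intro c hc d hd h
  exact ch_inj v (mem_range.1 hc) (mem_range.1 hd) h

/-- the number of parents of a vertex of level `k + 1` -/
theorem card_paF (v : LV) (k : ℕ) (hv : v.1.1 = k + 1) : (paF v).card * a (k + 1) ≤ 4 * a k := by
  have hsub : paF v ⊆ (range (4 * a k / a (k + 1))).image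
      (fun q => vt k ((a (k + 1) * q + v.1.2) / 4)) := by
    intro w hw
    rw [mem_paF, mem_chF] at hw
    obtain ⟨c, hc, h⟩ := hw
    have hwk : w.1.1 = k := by
      have := congrArg (fun v : LV => v.1.1) h
      simp only [ch_level] at this
      omega
    have hv2 : v.1.2 = (4 * w.1.2 + c) % a (k + 1) := by
      have := congrArg (fun v : LV => v.1.2) h
      simp only [ch, vt, hwk] at this
      exact this
    have hw2 : w.1.2 < a k := by have := w.2; rwa [hwk] at this
    rw [mem_image]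
    refine ⟨(4 * w.1.2 + c) / a (k + 1), mem_range.2 ?_, ?_⟩
    · obtain ⟨t, ht⟩ := a_succ_dvd k
      have : 4 * w.1.2 + c < 4 * a k := by omega
      rw [ht, Nat.mul_div_cancel_left _ (a_pos _)]
      rw [ht] at this
      exact Nat.div_lt_of_lt_mul this
    · rw [hv2, Nat.div_add_mod]
      have : (4 * w.1.2 + c) / 4 = w.1.2 := by omega
      rw [this, ← hwk, vt_self]
  calc (paF v).card * a (k + 1) ≤ (4 * a k / a (k + 1)) * a (k + 1) := by
        refine Nat.mul_le_mul_right _ ((card_le_card hsub).trans (card_image_le.trans ?_))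
        rw [card_range]
    _ ≤ 4 * a k := Nat.div_mul_le_self _ _

theorem paF_zero (v : LV) (hv : v.1.1 = 0) : paF v = ∅ := by
  unfold paF; rw [if_pos hv]

theorem degree_eq (v : LV) : LG.degree v = 4 + (paF v).card := by
  rw [← card_neighborFinset_eq_degree, nf_eq, Finset.card_union_of_disjoint (disj v), card_chF]

theorem degree_le (v : LV) : LG.degree v ≤ 8 := by
  rw [degree_eq]
  rcases Nat.eq_zero_or_pos v.1.1 with h | h
  · rw [paF_zero v h]; simp
  · obtain ⟨k, hk⟩ : ∃ k, v.1.1 = k + 1 := ⟨v.1.1 - 1, by omega⟩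
    have h1 := card_paF v k hk
    have h2 : a k ≤ a (k + 1) := Nat.le_of_dvd (a_pos _) (a_dvd (Nat.le_succ k))
    have h3 : (paF v).card * a (k + 1) ≤ 4 * a (k + 1) := h1.trans (Nat.mul_le_mul_left _ h2)
    have := Nat.le_of_mul_le_mul_right h3 (a_pos _)
    omega

theorem degree_pos' (v : LV) : 0 < LG.degree v := by rw [degree_eq]; omega

/-! ### connectedness -/

theorem adj_ch (v : LV) {c : ℕ} (hc : c < 4) : LG.Adj v (ch v c) := Or.inl ⟨c, hc, rfl⟩

theorem reach_desc (k x i : ℕ) : LG.Reachable (vt k x) (vt (k + i) (4 ^ i * x)) := by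
  induction i with
  | zero => simp
  | succ i ih =>
    refine ih.trans ?_
    have h1 := adj_ch (vt (k + i) (4 ^ i * x)) (c := 0) (by norm_num)
    rw [ch_vt] at h1
    have h2 : 4 * (4 ^ i * x) + 0 = 4 ^ (i + 1) * x := by ring
    rw [h2] at h1
    exact h1.reachable

theorem reach_zero (k i : ℕ) : LG.Reachable (vt k 0) (vt (k + i) 0) := by
  have := reach_desc k 0 i
  simpa using this

theorem log_le (m : ℕ) : Nat.log 2 (m + 1) ≤ m := by
  have : Nat.log 2 (m + 1) < m + 1 := by
    apply Nat.log_lt_of_lt_pow (by omega)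
    exact Nat.lt_two_pow_self
  omega

theorem reach_root (v : LV) : LG.Reachable v (vt 0 0) := by
  have h1 : LG.Reachable v (vt (v.1.1 + (v.1.1 + 3)) 0) := by
    have h2 := reach_desc v.1.1 v.1.2 (v.1.1 + 3)
    rw [vt_self] at h2
    have h3 : vt (v.1.1 + (v.1.1 + 3)) (4 ^ (v.1.1 + 3) * v.1.2) = vt (v.1.1 + (v.1.1 + 3)) 0 := by
      apply vt_congr
      rw [Nat.zero_mod]
      apply Nat.mod_eq_zero_of_dvd
      apply Dvd.dvd.mul_right
      apply pow_dvd_pow
      unfold L
      have h4 : Nat.log 2 (v.1.1 + (v.1.1 + 3) + 1) ≤ Nat.log 2 ((v.1.1 + 2) * 2) :=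
        Nat.log_mono_right (by omega)
      rw [Nat.log_mul_base (by norm_num) (by omega)] at h4
      have h5 := log_le (v.1.1 + 1)
      have h6 : v.1.1 + 1 + 1 = v.1.1 + 2 := by omega
      rw [h6] at h5
      omega
    rwa [h3] at h2
  have h2 := reach_zero 0 (v.1.1 + (v.1.1 + 3))
  rw [zero_add] at h2
  exact h1.trans h2.symm

theorem connected : LG.Connected := by
  have : Nonempty LV := ⟨vt 0 0⟩
  exact ⟨fun v w => (reach_root v).trans (reach_root w).symm⟩

end Pool.H102.LH
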