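import Pool.Agent.H102R3.SCT

/-! # The Gaussian bound with numbers -/

set_option autoImplicit false

namespace Pool.H102.SC

open MeasureTheory ProbabilityTheory

variable {ι : Type*} [Fintype ι] {k : ℕ}
variable {J₁ J₂ : Type*} [Fintype J₁] [Fintype J₂]

theorem sqrt_add_le' (a b : ℝ) (ha : 0 ≤ a) (hb : 0 ≤ b) :
    Real.sqrt (a + b) ≤ Real.sqrt a + Real.sqrt b := by
  rw [Real.sqrt_le_left (by positivity), add_sq, Real.sq_sqrt ha, Real.sq_sqrt hb]
  have : 0 ≤ 2 * Real.sqrt a * Real.sqrt b := by positivity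
  linarith

theorem two_step_num [Nonempty J₁] [Nonempty J₂] (hk : 1 ≤ k) (N r s : ℕ) (hN : 1 ≤ N)
    (hs : 1 ≤ s)
    (hsr : s ≤ r) (x : J₁ → EuclideanSpace ℝ ι) (y : J₂ → EuclideanSpace ℝ ι)
    (hx : ∀ j, ‖x j‖ ≤ Real.sqrt r) (hy : ∀ j, ‖y j‖ ≤ Real.sqrt s)
    (h1 : Fintype.card J₁ ≤ 25 ^ (N * r)) (h2 : Fintype.card J₂ ≤ 25 ^ (N * s)) :
    ∫ z, ‖Zf x y z.1 z.2‖ ∂((Gm (Fin k × ι)).prod (Gm (Fin k × ι))) ≤
      23 * (N * r * s + Real.sqrt (k * N) * (r * Real.sqrt s)) := by
  have hr : 1 ≤ r := hs.trans hsr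
  have hNR : (1 : ℝ) ≤ N := by exact_mod_cast hN
  have hrR : (1 : ℝ) ≤ r := by exact_mod_cast hr
  have hsR : (1 : ℝ) ≤ s := by exact_mod_cast hs
  have hsrR : (s : ℝ) ≤ r := by exact_mod_cast hsr
  have hk0 : (0 : ℝ) ≤ k := Nat.cast_nonneg k
  have hk1 : (1 : ℝ) ≤ k := by exact_mod_cast hk
  have hNs : (1 : ℝ) ≤ N * s := by nlinarith
  have hNr : (1 : ℝ) ≤ N * r := by nlinarith
  have hl2 : Real.log 2 ≤ 0.6932 := by have := Real.log_two_lt_d9; linarith
  have hl2p : 0 < Real.log 2 := Real.log_pos (by norm_num)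
  have hl25 : Real.log 25 ≤ 5 * Real.log 2 := by
    rw [show (5 : ℝ) * Real.log 2 = Real.log (2 ^ 5) by rw [Real.log_pow]; norm_num]
    exact Real.log_le_log (by norm_num) (by norm_num)
  have hl5 : Real.log 5 ≤ 3 * Real.log 2 := by
    rw [show (3 : ℝ) * Real.log 2 = Real.log (2 ^ 3) by rw [Real.log_pow]; norm_num]
    exact Real.log_le_log (by norm_num) (by norm_num)
  have c1 : (0 : ℝ) < Fintype.card J₁ := by exact_mod_cast Fintype.card_pos
  have c2 : (0 : ℝ) < Fintype.card J₂ := by exact_mod_cast Fintype.card_pos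
  have g1 : Real.log (Fintype.card J₁) ≤ N * r * Real.log 25 := by
    have : Real.log (Fintype.card J₁) ≤ Real.log (25 ^ (N * r)) := by
      apply Real.log_le_log c1
      exact_mod_cast h1
    rw [Real.log_pow] at this
    push_cast at this
    exact this
  have g2 : Real.log (Fintype.card J₂) ≤ N * s * Real.log 25 := by
    have : Real.log (Fintype.card J₂) ≤ Real.log (25 ^ (N * s)) := by
      apply Real.log_le_log c2
      exact_mod_cast h2
    rw [Real.log_pow] at this
    push_cast at this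
    exact this
  have A1 : Real.sqrt (2 * Real.log (2 * (Fintype.card J₁ * Fintype.card J₂))) ≤
      4 * Real.sqrt (N * r) := by
    rw [show (4 : ℝ) = Real.sqrt 16 by
      rw [show (16 : ℝ) = 4 ^ 2 by norm_num, Real.sqrt_sq (by norm_num)], ← Real.sqrt_mul (by norm_num)]
    apply Real.sqrt_le_sqrt
    rw [Real.log_mul (by norm_num) (by positivity), Real.log_mul (by positivity) (by positivity)]
    have e1 : (N : ℝ) * r * Real.log 25 ≤ N * r * (5 * Real.log 2) :=
      mul_le_mul_of_nonneg_left hl25 (by positivity)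
    have e2 : (N : ℝ) * s * Real.log 25 ≤ N * s * (5 * Real.log 2) :=
      mul_le_mul_of_nonneg_left hl25 (by positivity)
    have e3 : (N : ℝ) * s ≤ N * r := mul_le_mul_of_nonneg_left hsrR (by positivity)
    have e4 : (N : ℝ) * s * (5 * Real.log 2) ≤ N * r * (5 * Real.log 2) :=
      mul_le_mul_of_nonneg_right e3 (by positivity)
    have e5 : (N : ℝ) * r * (5 * Real.log 2) ≤ N * r * (5 * 0.6932) :=
      mul_le_mul_of_nonneg_left (by linarith) (by positivity)
    nlinarith
  have A2 : Real.sqrt (2 * Real.log (2 * (Fintype.card J₂ * 5 ^ k))) ≤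
      Real.sqrt 8 * (Real.sqrt (N * s) + Real.sqrt k) := by
    have e0 : Real.sqrt (2 * Real.log (2 * (Fintype.card J₂ * 5 ^ k))) ≤
        Real.sqrt (8 * (N * s + k)) := by
      apply Real.sqrt_le_sqrt
      rw [Real.log_mul (by norm_num) (by positivity), Real.log_mul (by positivity) (by positivity),
        Real.log_pow]
      have e2 : (N : ℝ) * s * Real.log 25 ≤ N * s * (5 * Real.log 2) :=
        mul_le_mul_of_nonneg_left hl25 (by positivity)
      have e3 : (k : ℝ) * Real.log 5 ≤ k * (3 * Real.log 2) :=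
        mul_le_mul_of_nonneg_left hl5 (by positivity)
      have e5 : (N : ℝ) * s * (5 * Real.log 2) ≤ N * s * (5 * 0.6932) :=
        mul_le_mul_of_nonneg_left (by linarith) (by positivity)
      have e6 : (k : ℝ) * (3 * Real.log 2) ≤ k * (3 * 0.6932) :=
        mul_le_mul_of_nonneg_left (by linarith) (by positivity)
      nlinarith
    refine e0.trans ?_
    rw [Real.sqrt_mul (by norm_num)]
    apply mul_le_mul_of_nonneg_left _ (Real.sqrt_nonneg _)
    exact sqrt_add_le' _ _ (by positivity) (by positivity)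
  have h8 : 8 * Real.sqrt 8 ≤ 23 := by
    have : Real.sqrt 8 ≤ 23 / 8 := by
      rw [Real.sqrt_le_left (by norm_num)]; norm_num
    linarith
  refine (two_step x y (Real.sqrt r) (Real.sqrt s) (Real.sqrt_nonneg _) (Real.sqrt_nonneg _)
    hx hy).trans ?_
  calc Real.sqrt r * Real.sqrt (2 * Real.log (2 * (Fintype.card J₁ * Fintype.card J₂))) *
        (2 * (Real.sqrt s * Real.sqrt (2 * Real.log (2 * (Fintype.card J₂ * 5 ^ k)))))
      ≤ Real.sqrt r * (4 * Real.sqrt (N * r)) *
        (2 * (Real.sqrt s * (Real.sqrt 8 * (Real.sqrt (N * s) + Real.sqrt k)))) := by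
        gcongr
    _ = 8 * Real.sqrt 8 * (N * r * s + Real.sqrt (k * N) * (r * Real.sqrt s)) := by
        rw [Real.sqrt_mul (by positivity), Real.sqrt_mul (by positivity),
          Real.sqrt_mul (by positivity)]
        have er : Real.sqrt r * Real.sqrt r = r := Real.mul_self_sqrt (by positivity)
        have es : Real.sqrt s * Real.sqrt s = s := Real.mul_self_sqrt (by positivity)
        have eN : Real.sqrt N * Real.sqrt N = N := Real.mul_self_sqrt (by positivity)
        calc Real.sqrt r * (4 * (Real.sqrt N * Real.sqrt r)) *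
              (2 * (Real.sqrt s * (Real.sqrt 8 * (Real.sqrt N * Real.sqrt s + Real.sqrt k))))
            = 8 * Real.sqrt 8 * ((Real.sqrt N * Real.sqrt N) * (Real.sqrt r * Real.sqrt r) *
              (Real.sqrt s * Real.sqrt s) + Real.sqrt k * Real.sqrt N *
              ((Real.sqrt r * Real.sqrt r) * Real.sqrt s)) := by ring
          _ = _ := by rw [er, es, eN]
    _ ≤ 23 * (N * r * s + Real.sqrt (k * N) * (r * Real.sqrt s)) := by
        apply mul_le_mul_of_nonneg_right h8
        positivity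

theorem swap_int (x : J₁ → EuclideanSpace ℝ ι) (y : J₂ → EuclideanSpace ℝ ι) :
    ∫ z, ‖Zf y x z.1 z.2‖ ∂((Gm (Fin k × ι)).prod (Gm (Fin k × ι))) =
      ∫ z, ‖Zf x y z.1 z.2‖ ∂((Gm (Fin k × ι)).prod (Gm (Fin k × ι))) := by
  rw [← integral_prod_swap]
  apply integral_congr_ae
  filter_upwards with z
  exact norm_swap y x z.2 z.1

/-- the Gaussian bound -/
theorem gauss_main [Nonempty J₁] [Nonempty J₂] (hk : 1 ≤ k) (N r s : ℕ) (hN : 1 ≤ N) (hr : 1 ≤ r) (hs : 1 ≤ s)
    (x : J₁ → EuclideanSpace ℝ ι) (y : J₂ → EuclideanSpace ℝ ι)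
    (hx : ∀ j, ‖x j‖ ≤ Real.sqrt r) (hy : ∀ j, ‖y j‖ ≤ Real.sqrt s)
    (h1 : Fintype.card J₁ ≤ 25 ^ (N * r)) (h2 : Fintype.card J₂ ≤ 25 ^ (N * s)) :
    ∫ g, ‖Df (k := k) x y g‖ ∂(Gm (Fin k × ι)) ≤
      46 * (N * r * s + Real.sqrt (k * N) * (r * Real.sqrt s + s * Real.sqrt r)) := by
  refine (decouple x y).trans ?_
  rcases le_total s r with h | h
  · have hb := two_step_num (k := k) hk N r s hN hs h x y hx hy h1 h2
    rw [swap_int x y]
    have : 0 ≤ Real.sqrt (k * N) * (s * Real.sqrt r) := by positivity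
    nlinarith
  · have hb := two_step_num (k := k) hk N s r hN hr h y x hy hx h2 h1
    rw [← swap_int x y]
    have : 0 ≤ Real.sqrt (k * N) * (r * Real.sqrt s) := by positivity
    nlinarith

end Pool.H102.SC
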