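import Mathlib

/-! # Singular value decomposition and blocks -/

set_option autoImplicit false

namespace Pool.H102.SC

open Matrix

variable {N : ℕ}

/-- singular values (with multiplicity) of a real square matrix -/
noncomputable def sv (A : Matrix (Fin N) (Fin N) ℝ) (i : Fin N) : ℝ :=
  (Matrix.toEuclideanLin A).singularValues i

/-- the Schatten norm `‖A‖_{S_p}`, `0 < p < ∞` -/
noncomputable def schatten (p : ℝ) (A : Matrix (Fin N) (Fin N) ℝ) : ℝ :=
  (∑ i, sv A i ^ p) ^ (1 / p)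

theorem sv_nonneg (A : Matrix (Fin N) (Fin N) ℝ) (i : Fin N) : 0 ≤ sv A i :=
  LinearMap.singularValues_nonneg _ _

theorem svd (A : Matrix (Fin N) (Fin N) ℝ) :
    ∃ u v : Fin N → EuclideanSpace ℝ (Fin N),
      (∀ i j, i ≠ j → inner ℝ (u i) (u j) = 0) ∧ (∀ i, ‖u i‖ ≤ 1) ∧
      (∀ i, sv A i ≠ 0 → ‖u i‖ = 1) ∧
      (∀ i j, i ≠ j → inner ℝ (v i) (v j) = 0) ∧ (∀ i, ‖v i‖ = 1) ∧
      ∀ x y, A x y = ∑ i, sv A i * (u i x * v i y) := by
  set T := Matrix.toEuclideanLin A with hT
  have hn : Module.finrank ℝ (EuclideanSpace ℝ (Fin N)) = N := finrank_euclideanSpace_fin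
  set b := T.isSymmetric_adjoint_comp_self.eigenvectorBasis hn with hb
  have hsv : ∀ i : Fin N, sv A i ^ 2 = T.isSymmetric_adjoint_comp_self.eigenvalues hn i :=
    fun i => T.sq_singularValues_fin hn i
  have hinner : ∀ i j, inner ℝ (T (b i)) (T (b j)) = sv A i ^ 2 * inner ℝ (b i) (b j) := by
    intro i j
    have h1 : (LinearMap.adjoint T ∘ₗ T) (b i) = (sv A i ^ 2) • b i := by
      rw [hsv i]
      exact T.isSymmetric_adjoint_comp_self.apply_eigenvectorBasis hn i
    rw [← LinearMap.adjoint_inner_left]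
    have h2 : LinearMap.adjoint T (T (b i)) = (sv A i ^ 2) • b i := h1
    rw [h2, real_inner_smul_left]
  have hbo : ∀ i j, i ≠ j → inner ℝ (b i) (b j) = 0 := fun i j hij =>
    b.orthonormal.2 hij
  have hb1 : ∀ i, ‖b i‖ = 1 := fun i => b.orthonormal.1 i
  have hTn : ∀ i, ‖T (b i)‖ = sv A i := by
    intro i
    have h := hinner i i
    rw [real_inner_self_eq_norm_sq, real_inner_self_eq_norm_sq, hb1 i] at h
    have h2 : ‖T (b i)‖ ^ 2 = sv A i ^ 2 := by rw [h]; ring
    exact (sq_eq_sq₀ (norm_nonneg _) (sv_nonneg A i)).1 h2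
  refine ⟨fun i => (sv A i)⁻¹ • T (b i), fun i => b i, ?_, ?_, ?_, hbo, hb1, ?_⟩
  · intro i j hij
    rw [real_inner_smul_left, real_inner_smul_right, hinner, hbo i j hij]
    ring
  · intro i
    rw [norm_smul, hTn, norm_inv, Real.norm_of_nonneg (sv_nonneg A i)]
    by_cases h : sv A i = 0
    · rw [h]; simp
    · rw [inv_mul_cancel₀ h]
  · intro i h
    rw [norm_smul, hTn, norm_inv, Real.norm_of_nonneg (sv_nonneg A i), inv_mul_cancel₀ h]
  · intro x y
    have h1 : A x y = (T (EuclideanSpace.single y (1 : ℝ))) x := by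
      rw [hT, Matrix.toLpLin_apply]
      simp
    have h2 : EuclideanSpace.single y (1 : ℝ) = ∑ i, (b i y) • b i := by
      conv_lhs => rw [← b.sum_repr' (EuclideanSpace.single y (1 : ℝ))]
      apply Finset.sum_congr rfl; intro i _
      rw [EuclideanSpace.inner_single_right]
      simp
    rw [h1, h2, map_sum]
    have h3 : ∀ w : Fin N → EuclideanSpace ℝ (Fin N), (∑ i, w i) x = ∑ i, (w i) x := by
      intro w
      simp
    rw [h3]
    apply Finset.sum_congr rfl; intro i _
    rw [map_smul, PiLp.smul_apply, PiLp.smul_apply, smul_eq_mul, smul_eq_mul]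
    by_cases h : sv A i = 0
    · have h4 : T (b i) = 0 := by
        rw [← norm_eq_zero, hTn, h]
      rw [h, h4]; simp
    · field_simp

open scoped Matrix.Norms.L2Operator

theorem opnorm_block {r : ℕ} (w : Fin N → EuclideanSpace ℝ (Fin N)) (J : Finset (Fin N))
    (f : Fin N → Fin r) (hf : Set.InjOn f J)
    (hw : ∀ i ∈ J, ∀ j ∈ J, i ≠ j → inner ℝ (w i) (w j) = 0) (hw1 : ∀ i ∈ J, ‖w i‖ ≤ 1) :
    ‖(Matrix.of fun (x : Fin N) (t : Fin r) => ∑ i ∈ J, if f i = t then w i x else 0)‖ ≤ 1 := by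
  rw [Matrix.l2_opNorm_def]
  apply ContinuousLinearMap.opNorm_le_bound _ zero_le_one
  intro z
  rw [one_mul]
  have h1 : ((Matrix.toEuclideanLin (𝕜 := ℝ) (m := Fin N) (n := Fin r)).trans
      LinearMap.toContinuousLinearMap
      (Matrix.of fun (x : Fin N) (t : Fin r) => ∑ i ∈ J, if f i = t then w i x else 0)) z =
      ∑ i ∈ J, z (f i) • w i := by
    change (Matrix.toEuclideanLin (𝕜 := ℝ) (m := Fin N) (n := Fin r)
      (Matrix.of fun (x : Fin N) (t : Fin r) => ∑ i ∈ J, if f i = t then w i x else 0)) z = _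
    rw [Matrix.toLpLin_apply]
    ext x
    have h3 : (∑ i ∈ J, z (f i) • w i) x = ∑ i ∈ J, (z (f i) • w i) x := by simp
    rw [h3]
    simp only [Matrix.mulVec, dotProduct, of_apply, Finset.sum_mul]
    rw [Finset.sum_comm]
    apply Finset.sum_congr rfl; intro i _
    simp only [ite_mul, zero_mul]
    rw [Finset.sum_ite_eq]
    simp [mul_comm]
  rw [h1]
  have h2 : ‖∑ i ∈ J, z (f i) • w i‖ ^ 2 ≤ ‖z‖ ^ 2 := by
    rw [← real_inner_self_eq_norm_sq, sum_inner]
    calc ∑ i ∈ J, inner ℝ (z (f i) • w i) (∑ j ∈ J, z (f j) • w j)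
        = ∑ i ∈ J, (z (f i)) ^ 2 * ‖w i‖ ^ 2 := by
          apply Finset.sum_congr rfl; intro i hi
          rw [inner_sum, Finset.sum_eq_single i]
          · rw [real_inner_smul_left, real_inner_smul_right, real_inner_self_eq_norm_sq]; ring
          · intro j hj hji
            rw [real_inner_smul_left, real_inner_smul_right, hw i hi j hj (Ne.symm hji)]; ring
          · intro h; exact absurd hi h
      _ ≤ ∑ i ∈ J, (z (f i)) ^ 2 := by
          apply Finset.sum_le_sum; intro i hi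
          have := hw1 i hi
          have h5 : ‖w i‖ ^ 2 ≤ 1 := pow_le_one₀ (norm_nonneg _) this
          nlinarith [sq_nonneg (z (f i))]
      _ = ∑ t ∈ J.image f, (z t) ^ 2 :=
          (Finset.sum_image (f := fun t => (z t) ^ 2) (fun a ha b hb h => hf ha hb h)).symm
      _ ≤ ∑ t, (z t) ^ 2 := Finset.sum_le_sum_of_subset_of_nonneg (Finset.subset_univ _)
          (fun t _ _ => sq_nonneg _)
      _ = ‖z‖ ^ 2 := (EuclideanSpace.real_norm_sq_eq z).symm
  exact (sq_le_sq₀ (norm_nonneg _) (norm_nonneg _)).1 h2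

theorem exists_index {r : ℕ} (hr : 1 ≤ r) (J : Finset (Fin N)) (hJ : J.card ≤ r) :
    ∃ f : Fin N → Fin r, Set.InjOn f J := by
  classical
  refine ⟨fun i => if h : i ∈ J then Fin.castLE hJ (J.equivFin ⟨i, h⟩) else ⟨0, by omega⟩, ?_⟩
  intro a ha b hb hab
  have ha' : a ∈ J := ha
  have hb' : b ∈ J := hb
  simp only [ha', hb', dif_pos] at hab
  have h1 := Fin.castLE_injective hJ hab
  have h2 := J.equivFin.injective h1
  exact congrArg Subtype.val h2

/-- a block of at most `r` rank one pieces factors through `ℝ^r` -/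
theorem block {r : ℕ} (hr : 1 ≤ r) (u v : Fin N → EuclideanSpace ℝ (Fin N))
    (hu : ∀ i j, i ≠ j → inner ℝ (u i) (u j) = 0) (hu1 : ∀ i, ‖u i‖ ≤ 1)
    (hv : ∀ i j, i ≠ j → inner ℝ (v i) (v j) = 0) (hv1 : ∀ i, ‖v i‖ ≤ 1)
    (J : Finset (Fin N)) (hJ : J.card ≤ r) (d : Fin N → ℝ) (hd : ∀ i ∈ J, |d i| ≤ 1) :
    ∃ U V : Matrix (Fin N) (Fin r) ℝ, ‖U‖ ≤ 1 ∧ ‖V‖ ≤ 1 ∧
      U * Vᵀ = Matrix.of fun x y => ∑ i ∈ J, d i * (u i x * v i y) := by
  obtain ⟨f, hf⟩ := exists_index hr J hJ
  refine ⟨Matrix.of fun (x : Fin N) (t : Fin r) => ∑ i ∈ J, if f i = t then u i x else 0,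
    Matrix.of fun (x : Fin N) (t : Fin r) => ∑ i ∈ J, if f i = t then (d i • v i) x else 0,
    opnorm_block u J f hf (fun i _ j _ h => hu i j h) (fun i _ => hu1 i),
    opnorm_block (fun i => d i • v i) J f hf ?_ ?_, ?_⟩
  · intro i _ j _ hij
    rw [real_inner_smul_left, real_inner_smul_right, hv i j hij]; ring
  · intro i hi
    rw [norm_smul, Real.norm_eq_abs]
    calc |d i| * ‖v i‖ ≤ 1 * 1 := mul_le_mul (hd i hi) (hv1 i) (norm_nonneg _) zero_le_one
      _ = 1 := one_mul _
  · ext x y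
    rw [Matrix.mul_apply]
    simp only [transpose_apply, of_apply]
    have e : ∀ t : Fin r, (∑ i ∈ J, if f i = t then u i x else 0) *
        (∑ i ∈ J, if f i = t then (d i • v i) y else 0) =
        ∑ i ∈ J, if f i = t then u i x * (d i • v i) y else 0 := by
      intro t
      rw [Finset.sum_mul]
      apply Finset.sum_congr rfl; intro i hi
      by_cases h : f i = t
      · rw [if_pos h, if_pos h]
        congr 1
        rw [Finset.sum_eq_single i]
        · rw [if_pos h]
        · intro j hj hji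
          rw [if_neg]
          intro h2
          exact hji (hf hj hi (h2.trans h.symm))
        · intro h3; exact absurd hi h3
      · rw [if_neg h, if_neg h, zero_mul]
    simp_rw [e]
    rw [Finset.sum_comm]
    apply Finset.sum_congr rfl; intro i _
    rw [Finset.sum_ite_eq]
    simp
    ring

end Pool.H102.SC
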