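import Pool.Agent.H102R3.SCN
import Pool.Agent.H102R3.SCD

/-! # Operator norms between Schatten classes through nets of low rank blocks -/

set_option autoImplicit false

namespace Pool.H102.SC

open Matrix
open scoped Matrix.Norms.L2Operator

variable {N : ℕ}

theorem level_bound (p₀ : ℝ) (hp : 0 < p₀) (L : ℕ) (hL : N ≤ 2 ^ L)
    (u v : Fin N → EuclideanSpace ℝ (Fin N))
    (hu : ∀ i j, i ≠ j → inner ℝ (u i) (u j) = 0) (hu1 : ∀ i, ‖u i‖ ≤ 1)
    (hv : ∀ i j, i ≠ j → inner ℝ (v i) (v j) = 0) (hv1 : ∀ i, ‖v i‖ ≤ 1)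
    (c : Fin N → ℝ) (hc0 : ∀ i, 0 ≤ c i) (hc : ∑ i, c i ^ p₀ ≤ 1)
    (F : Matrix (Fin N) (Fin N) ℝ →ₗ[ℝ] ℝ) (m : ℕ → ℝ)
    (hF : ∀ a ∈ Finset.range (L + 1), ∀ U V : Matrix (Fin N) (Fin (2 ^ (a + 1))) ℝ,
      ‖U‖ ≤ 1 → ‖V‖ ≤ 1 → |F (U * Vᵀ)| ≤ m a) :
    |F (Matrix.of fun x y => ∑ i, c i * (u i x * v i y))| ≤
      ∑ a ∈ Finset.range (L + 1), ((2 : ℝ) ^ (-(1 / p₀))) ^ a * m a := by
  classical
  set ρ : ℝ := (2 : ℝ) ^ (-(1 / p₀)) with hρ
  have hρ0 : 0 < ρ := Real.rpow_pos_of_pos (by norm_num) _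
  have hc1 : ∀ i, c i ≤ 1 := by
    intro i
    by_contra h
    push Not at h
    have h1 : 1 < c i ^ p₀ := Real.one_lt_rpow h hp
    have h2 : c i ^ p₀ ≤ ∑ i, c i ^ p₀ :=
      Finset.single_le_sum (f := fun i => c i ^ p₀) (fun j _ => Real.rpow_nonneg (hc0 j) _)
        (Finset.mem_univ i)
    linarith
  let lev : Fin N → ℕ := fun i => Nat.findGreatest (fun a => c i ≤ ρ ^ a) L
  have hlev1 : ∀ i, c i ≤ ρ ^ (lev i) := fun i =>
    Nat.findGreatest_spec (P := fun a => c i ≤ ρ ^ a) (Nat.zero_le L) (by simpa using hc1 i)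
  have hlevL : ∀ i, lev i ≤ L := fun i => Nat.findGreatest_le L
  have hlev2 : ∀ i, lev i < L → ρ ^ (lev i + 1) < c i := by
    intro i hi
    have := Nat.findGreatest_is_greatest (P := fun a => c i ≤ ρ ^ a) (n := L) (k := lev i + 1)
      (Nat.lt_succ_self _) hi
    exact not_le.1 this
  let J : ℕ → Finset (Fin N) := fun a => Finset.univ.filter (fun i => lev i = a)
  have hJc : ∀ a ∈ Finset.range (L + 1), (J a).card ≤ 2 ^ (a + 1) := by
    intro a ha
    have haL : a ≤ L := Nat.lt_succ_iff.1 (Finset.mem_range.1 ha)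
    rcases haL.lt_or_eq with h | h
    · have h1 : ∀ i ∈ J a, ((2 : ℝ) ^ (a + 1))⁻¹ ≤ c i ^ p₀ := by
        intro i hi
        have hi' : lev i = a := (Finset.mem_filter.1 hi).2
        have h2 := hlev2 i (by rw [hi']; exact h)
        rw [hi'] at h2
        have h3 : (ρ ^ (a + 1)) ^ p₀ ≤ c i ^ p₀ :=
          Real.rpow_le_rpow (by positivity) h2.le hp.le
        have h4 : (ρ ^ (a + 1)) ^ p₀ = ((2 : ℝ) ^ (a + 1))⁻¹ := by
          have e1 : (ρ ^ (a + 1)) ^ p₀ = (2 : ℝ) ^ (-((a + 1 : ℕ) : ℝ)) := by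
            rw [← Real.rpow_natCast ρ (a + 1), ← Real.rpow_mul hρ0.le, hρ,
              ← Real.rpow_mul (by norm_num)]
            congr 1
            field_simp
          have e2 : ((2 : ℝ) ^ (a + 1))⁻¹ = (2 : ℝ) ^ (-((a + 1 : ℕ) : ℝ)) := by
            rw [Real.rpow_neg (by norm_num), Real.rpow_natCast]
          rw [e1, e2]
        rw [h4] at h3
        exact h3
      have h5 : ((J a).card : ℝ) * ((2 : ℝ) ^ (a + 1))⁻¹ ≤ 1 := by
        calc ((J a).card : ℝ) * ((2 : ℝ) ^ (a + 1))⁻¹ = ∑ i ∈ J a, ((2 : ℝ) ^ (a + 1))⁻¹ := by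
              rw [Finset.sum_const, nsmul_eq_mul]
          _ ≤ ∑ i ∈ J a, c i ^ p₀ := Finset.sum_le_sum h1
          _ ≤ ∑ i, c i ^ p₀ := Finset.sum_le_sum_of_subset_of_nonneg (Finset.subset_univ _)
              (fun i _ _ => Real.rpow_nonneg (hc0 i) _)
          _ ≤ 1 := hc
      have h6 : ((J a).card : ℝ) ≤ (2 : ℝ) ^ (a + 1) := by
        rw [← div_eq_mul_inv, div_le_one (by positivity)] at h5
        exact h5
      exact_mod_cast h6
    · subst h
      calc (J a).card ≤ Fintype.card (Fin N) := Finset.card_le_univ _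
        _ = N := Fintype.card_fin N
        _ ≤ 2 ^ a := hL
        _ ≤ 2 ^ (a + 1) := Nat.pow_le_pow_right (by norm_num) (Nat.le_succ a)
  have hdec : (Matrix.of fun x y => ∑ i, c i * (u i x * v i y)) =
      ∑ a ∈ Finset.range (L + 1), ρ ^ a • (Matrix.of fun x y =>
        ∑ i ∈ J a, (c i / ρ ^ a) * (u i x * v i y)) := by
    ext x y
    rw [Matrix.sum_apply]
    simp only [of_apply, Matrix.smul_apply, smul_eq_mul, Finset.mul_sum]
    rw [← Finset.sum_fiberwise_of_maps_to (s := Finset.univ) (t := Finset.range (L + 1))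
      (g := lev) (fun i _ => Finset.mem_range.2 (Nat.lt_succ_iff.2 (hlevL i)))]
    apply Finset.sum_congr rfl; intro a _
    apply Finset.sum_congr rfl; intro i _
    field_simp
  rw [hdec, map_sum]
  refine (Finset.abs_sum_le_sum_abs _ _).trans ?_
  apply Finset.sum_le_sum
  intro a ha
  rw [map_smul, smul_eq_mul, abs_mul, abs_of_pos (pow_pos hρ0 a)]
  apply mul_le_mul_of_nonneg_left _ (pow_pos hρ0 a).le
  obtain ⟨U, V, hU, hV, hUV⟩ := block (r := 2 ^ (a + 1)) Nat.one_le_two_pow u v hu hu1 hv hv1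
    (J a) (hJc a ha) (fun i => c i / ρ ^ a) (fun i hi => by
      have hi' : lev i = a := (Finset.mem_filter.1 hi).2
      have h1 := hlev1 i
      rw [hi'] at h1
      rw [abs_of_nonneg (div_nonneg (hc0 i) (pow_pos hρ0 a).le), div_le_one (pow_pos hρ0 a)]
      exact h1)
  rw [← hUV]
  exact hF a ha U V hU hV

/-- a fixed net of the unit ball of `N × r` matrices -/
noncomputable def Tn (N r : ℕ) : Finset (Matrix (Fin N) (Fin r) ℝ) :=
  Classical.choose (exists_net (Matrix (Fin N) (Fin r) ℝ))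

theorem Tn_spec (N r : ℕ) : (∀ t ∈ Tn N r, ‖t‖ ≤ 1) ∧ (Tn N r).card ≤ 5 ^ (N * r) ∧
    (Tn N r).Nonempty ∧ ∀ x : Matrix (Fin N) (Fin r) ℝ, ‖x‖ ≤ 1 → ∃ t ∈ Tn N r, ‖x - t‖ ≤ 1 / 2 := by
  have h := Classical.choose_spec (exists_net (Matrix (Fin N) (Fin r) ℝ))
  refine ⟨h.1, h.2.1.trans (le_of_eq ?_), h.2.2.1, h.2.2.2⟩
  rw [Module.finrank_matrix]
  simp

theorem four_bound {r : ℕ} (F : Matrix (Fin N) (Fin N) ℝ →ₗ[ℝ] ℝ) (m : ℝ)
    (hm : ∀ U ∈ Tn N r, ∀ V ∈ Tn N r, |F (U * Vᵀ)| ≤ m) (U V : Matrix (Fin N) (Fin r) ℝ)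
    (hU : ‖U‖ ≤ 1) (hV : ‖V‖ ≤ 1) : |F (U * Vᵀ)| ≤ 4 * m := by
  obtain ⟨-, -, -, hnet⟩ := Tn_spec N r
  have h1 : ∀ V ∈ Tn N r, |F (U * Vᵀ)| ≤ 2 * m := by
    intro V hV
    let l : Matrix (Fin N) (Fin r) ℝ →ₗ[ℝ] ℝ :=
      { toFun := fun U => F (U * Vᵀ)
        map_add' := fun A B => by rw [Matrix.add_mul, map_add]
        map_smul' := fun a A => by rw [Matrix.smul_mul, map_smul]; rfl }
    exact functional_bound (Tn N r) hnet l m (fun U hU => hm U hU V hV) U hU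
  let l : Matrix (Fin N) (Fin r) ℝ →ₗ[ℝ] ℝ :=
    { toFun := fun V => F (U * Vᵀ)
      map_add' := fun A B => by rw [Matrix.transpose_add, Matrix.mul_add, map_add]
      map_smul' := fun a A => by rw [Matrix.transpose_smul, Matrix.mul_smul, map_smul]; rfl }
  have h2 := functional_bound (Tn N r) hnet l (2 * m) h1 V hV
  have h3 : l V = F (U * Vᵀ) := rfl
  rw [h3] at h2
  linarith

theorem mulVec_sq {r : ℕ} (A : Matrix (Fin N) (Fin r) ℝ) (hA : ‖A‖ ≤ 1) (w : Fin r → ℝ) :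
    ∑ x, (A *ᵥ w) x ^ 2 ≤ ∑ t, w t ^ 2 := by
  have h := Matrix.l2_opNorm_mulVec A (WithLp.toLp 2 w)
  have h2 : ‖(EuclideanSpace.equiv (Fin N) ℝ).symm (A *ᵥ w)‖ ≤ ‖(WithLp.toLp 2 w : EuclideanSpace ℝ (Fin r))‖ := by
    refine h.trans ?_
    calc ‖A‖ * ‖(WithLp.toLp 2 w : EuclideanSpace ℝ (Fin r))‖ ≤
          1 * ‖(WithLp.toLp 2 w : EuclideanSpace ℝ (Fin r))‖ :=
            mul_le_mul_of_nonneg_right hA (norm_nonneg _)
      _ = _ := one_mul _
  have h3 := pow_le_pow_left₀ (norm_nonneg _) h2 2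
  rw [EuclideanSpace.real_norm_sq_eq, EuclideanSpace.real_norm_sq_eq] at h3
  exact h3

theorem frob_le {r : ℕ} (U V : Matrix (Fin N) (Fin r) ℝ) (hU : ‖U‖ ≤ 1) (hV : ‖V‖ ≤ 1) :
    ∑ x, ∑ y, (U * Vᵀ) x y ^ 2 ≤ r := by
  rw [Finset.sum_comm]
  calc ∑ y, ∑ x, (U * Vᵀ) x y ^ 2 ≤ ∑ y, ∑ t, V y t ^ 2 := by
        apply Finset.sum_le_sum; intro y _
        have h := mulVec_sq U hU (fun t => V y t)
        have e : ∀ x, (U * Vᵀ) x y = (U *ᵥ (fun t => V y t)) x := by
          intro x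
          rw [Matrix.mul_apply]; rfl
        simp_rw [e]
        exact h
    _ = ∑ t, ∑ y, V y t ^ 2 := Finset.sum_comm
    _ ≤ ∑ t : Fin r, (1 : ℝ) := by
        apply Finset.sum_le_sum; intro t _
        have h := mulVec_sq V hV (Pi.single t 1)
        rw [Matrix.mulVec_single_one] at h
        refine h.trans ?_
        rw [Finset.sum_eq_single t]
        · simp
        · intro b _ hb; simp [hb]
        · intro h; exact absurd (Finset.mem_univ _) h
    _ = r := by simp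

/-- the operator on matrices defined by a big matrix -/
noncomputable def opm (R : Matrix (Fin N × Fin N) (Fin N × Fin N) ℝ)
    (A : Matrix (Fin N) (Fin N) ℝ) : Matrix (Fin N) (Fin N) ℝ :=
  Matrix.of fun i j => ∑ q, R (i, j) q * A q.1 q.2

/-- the bilinear form of a big matrix -/
noncomputable def bil (R : Matrix (Fin N × Fin N) (Fin N × Fin N) ℝ) :
    Matrix (Fin N) (Fin N) ℝ →ₗ[ℝ] Matrix (Fin N) (Fin N) ℝ →ₗ[ℝ] ℝ :=
  LinearMap.mk₂ ℝ (fun X Y => ∑ p, (∑ q, R p q * X q.1 q.2) * Y p.1 p.2)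
    (fun X X' Y => by
      rw [← Finset.sum_add_distrib]
      apply Finset.sum_congr rfl; intro p _
      rw [← add_mul, ← Finset.sum_add_distrib]
      congr 1
      apply Finset.sum_congr rfl; intro q _
      rw [Matrix.add_apply]; ring)
    (fun c X Y => by
      rw [smul_eq_mul, Finset.mul_sum]
      apply Finset.sum_congr rfl; intro p _
      rw [← mul_assoc, Finset.mul_sum]
      congr 1
      apply Finset.sum_congr rfl; intro q _
      rw [Matrix.smul_apply, smul_eq_mul]; ring)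
    (fun X Y Y' => by
      rw [← Finset.sum_add_distrib]
      apply Finset.sum_congr rfl; intro p _
      rw [Matrix.add_apply]; ring)
    (fun c X Y => by
      rw [smul_eq_mul, Finset.mul_sum]
      apply Finset.sum_congr rfl; intro p _
      rw [Matrix.smul_apply, smul_eq_mul]; ring)

theorem bil_apply (R : Matrix (Fin N × Fin N) (Fin N × Fin N) ℝ) (X Y : Matrix (Fin N) (Fin N) ℝ) :
    bil R X Y = ∑ p, (∑ q, R p q * X q.1 q.2) * Y p.1 p.2 := rfl

theorem bil_eq (R : Matrix (Fin N × Fin N) (Fin N × Fin N) ℝ) (X Y : Matrix (Fin N) (Fin N) ℝ) :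
    bil R X Y = ∑ i, ∑ j, opm R X i j * Y i j := by
  rw [bil_apply, Fintype.sum_prod_type]
  rfl

theorem sixteen_bound {r s : ℕ} (R : Matrix (Fin N × Fin N) (Fin N × Fin N) ℝ) (m : ℝ)
    (hm : ∀ U ∈ Tn N r, ∀ V ∈ Tn N r, ∀ U' ∈ Tn N s, ∀ V' ∈ Tn N s,
      |bil R (U * Vᵀ) (U' * V'ᵀ)| ≤ m)
    (U V : Matrix (Fin N) (Fin r) ℝ) (U' V' : Matrix (Fin N) (Fin s) ℝ)
    (hU : ‖U‖ ≤ 1) (hV : ‖V‖ ≤ 1) (hU' : ‖U'‖ ≤ 1) (hV' : ‖V'‖ ≤ 1) :
    |bil R (U * Vᵀ) (U' * V'ᵀ)| ≤ 16 * m := by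
  have h1 : ∀ U' ∈ Tn N s, ∀ V' ∈ Tn N s, |bil R (U * Vᵀ) (U' * V'ᵀ)| ≤ 4 * m := by
    intro U' hU' V' hV'
    exact four_bound ((bil R).flip (U' * V'ᵀ)) m (fun U hU V hV => hm U hU V hV U' hU' V' hV')
      U V hU hV
  have h2 := four_bound (bil R (U * Vᵀ)) (4 * m) h1 U' V' hU' hV'
  linarith

theorem schatten_nonneg (p : ℝ) (A : Matrix (Fin N) (Fin N) ℝ) : 0 ≤ schatten p A :=
  Real.rpow_nonneg (Finset.sum_nonneg (fun i _ => Real.rpow_nonneg (sv_nonneg A i) _)) _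

/-- **operator bound** -/
theorem op_bound (p₀ q₀ : ℝ) (hq : 1 < q₀) (hpq : 1 / p₀ + 1 / q₀ = 1) (L : ℕ) (hL : N ≤ 2 ^ L)
    (R : Matrix (Fin N × Fin N) (Fin N × Fin N) ℝ) (m : ℕ → ℕ → ℝ) (hm0 : ∀ a b, 0 ≤ m a b)
    (hm : ∀ a ∈ Finset.range (L + 1), ∀ b ∈ Finset.range (L + 1),
      ∀ U ∈ Tn N (2 ^ (a + 1)), ∀ V ∈ Tn N (2 ^ (a + 1)),
      ∀ U' ∈ Tn N (2 ^ (b + 1)), ∀ V' ∈ Tn N (2 ^ (b + 1)),
      |bil R (U * Vᵀ) (U' * V'ᵀ)| ≤ m a b) (A : Matrix (Fin N) (Fin N) ℝ) :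
    schatten q₀ (opm R A) ≤ (∑ a ∈ Finset.range (L + 1), ((2 : ℝ) ^ (-(1 / p₀))) ^ a *
      ∑ b ∈ Finset.range (L + 1), ((2 : ℝ) ^ (-(1 / p₀))) ^ b * (16 * m a b)) *
      schatten p₀ A := by
  have hq0 : 0 < q₀ := by linarith
  have hp1 : 1 / p₀ = 1 - 1 / q₀ := by linarith
  have hq1 : 1 / q₀ < 1 := by rw [div_lt_one hq0]; exact hq
  have hp0 : 0 < p₀ := by
    have : 0 < 1 / p₀ := by rw [hp1]; linarith
    exact one_div_pos.1 this
  set ρ : ℝ := (2 : ℝ) ^ (-(1 / p₀)) with hρ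
  have hρ0 : 0 < ρ := Real.rpow_pos_of_pos (by norm_num) _
  set K : ℝ := ∑ a ∈ Finset.range (L + 1), ρ ^ a *
      ∑ b ∈ Finset.range (L + 1), ρ ^ b * (16 * m a b) with hK
  have hK0 : 0 ≤ K := by
    apply Finset.sum_nonneg; intro a _
    apply mul_nonneg (pow_pos hρ0 a).le
    apply Finset.sum_nonneg; intro b _
    exact mul_nonneg (pow_pos hρ0 b).le (by have := hm0 a b; linarith)
  obtain ⟨u, v, hu, hu1, -, hv, hv1, hA⟩ := svd A
  obtain ⟨u', v', hu', hu1', hu2', hv', hv1', hz⟩ := svd (opm R A)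
  set z := opm R A with hzdef
  set S : ℝ := ∑ i, sv z i ^ q₀ with hS
  have hS0 : 0 ≤ S := Finset.sum_nonneg (fun i _ => Real.rpow_nonneg (sv_nonneg z i) _)
  rcases hS0.eq_or_lt with hSz | hSpos
  · have : schatten q₀ z = 0 := by
      rw [schatten, ← hS, ← hSz, Real.zero_rpow (by positivity)]
    rw [this]
    exact mul_nonneg hK0 (schatten_nonneg _ _)
  -- the dual element
  set c' : Fin N → ℝ := fun i => sv z i ^ (q₀ - 1) / S ^ (1 / p₀) with hc'
  have hc'0 : ∀ i, 0 ≤ c' i := fun i =>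
    div_nonneg (Real.rpow_nonneg (sv_nonneg z i) _) (Real.rpow_nonneg hS0 _)
  have hqp : (q₀ - 1) * p₀ = q₀ := by
    have h1 : p₀ ≠ 0 := hp0.ne'
    have h2 : q₀ ≠ 0 := hq0.ne'
    field_simp at hpq
    linarith
  have hc'1 : ∑ i, c' i ^ p₀ ≤ 1 := by
    have : ∀ i, c' i ^ p₀ = sv z i ^ q₀ / S := by
      intro i
      rw [hc', Real.div_rpow (Real.rpow_nonneg (sv_nonneg z i) _) (Real.rpow_nonneg hS0 _),
        ← Real.rpow_mul (sv_nonneg z i), ← Real.rpow_mul hS0, hqp, one_div_mul_cancel hp0.ne',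
        Real.rpow_one]
    simp_rw [this]
    rw [← Finset.sum_div, ← hS, div_self hSpos.ne']
  set Y : Matrix (Fin N) (Fin N) ℝ := Matrix.of fun x y => ∑ i, c' i * (u' i x * v' i y) with hY
  have hpair : bil R A Y = schatten q₀ z := by
    rw [bil_eq, ← hzdef]
    have e1 : ∑ x, ∑ y, z x y * Y x y = ∑ i, ∑ j, sv z i * c' j *
        (inner ℝ (u' i) (u' j) * inner ℝ (v' i) (v' j)) := by
      have e2 : ∀ i j, inner ℝ (u' i) (u' j) * inner ℝ (v' i) (v' j) =
          ∑ x, ∑ y, (u' i x * u' j x) * (v' i y * v' j y) := by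
        intro i j
        rw [PiLp.inner_apply, PiLp.inner_apply, Finset.sum_mul_sum]
        apply Finset.sum_congr rfl; intro x _
        apply Finset.sum_congr rfl; intro y _
        simp only [RCLike.inner_apply, conj_trivial]
        ring
      simp_rw [e2, Finset.mul_sum]
      calc ∑ x, ∑ y, z x y * Y x y = ∑ x, ∑ y, ∑ i, ∑ j,
            sv z i * c' j * (u' i x * u' j x * (v' i y * v' j y)) := by
            apply Finset.sum_congr rfl; intro x _
            apply Finset.sum_congr rfl; intro y _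
            rw [hz x y, hY, of_apply, Finset.sum_mul_sum]
            apply Finset.sum_congr rfl; intro i _
            apply Finset.sum_congr rfl; intro j _
            ring
        _ = ∑ x, ∑ i, ∑ y, ∑ j,
            sv z i * c' j * (u' i x * u' j x * (v' i y * v' j y)) := by
            apply Finset.sum_congr rfl; intro x _
            rw [Finset.sum_comm]
        _ = ∑ i, ∑ x, ∑ y, ∑ j,
            sv z i * c' j * (u' i x * u' j x * (v' i y * v' j y)) := by
            rw [Finset.sum_comm]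
        _ = ∑ i, ∑ x, ∑ j, ∑ y,
            sv z i * c' j * (u' i x * u' j x * (v' i y * v' j y)) := by
            apply Finset.sum_congr rfl; intro i _
            apply Finset.sum_congr rfl; intro x _
            rw [Finset.sum_comm]
        _ = ∑ i, ∑ j, ∑ x, ∑ y,
            sv z i * c' j * (u' i x * u' j x * (v' i y * v' j y)) := by
            apply Finset.sum_congr rfl; intro i _
            rw [Finset.sum_comm]
    rw [e1]
    have e3 : ∀ i, ∑ j, sv z i * c' j * (inner ℝ (u' i) (u' j) * inner ℝ (v' i) (v' j)) =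
        sv z i * c' i := by
      intro i
      rw [Finset.sum_eq_single i]
      · by_cases h : sv z i = 0
        · rw [h]; ring
        · rw [real_inner_self_eq_norm_sq, real_inner_self_eq_norm_sq, hu2' i h, hv1' i]; ring
      · intro j _ hj
        rw [hu' i j (Ne.symm hj)]; ring
      · intro h; exact absurd (Finset.mem_univ _) h
    simp_rw [e3]
    have e4 : ∀ i, sv z i * c' i = sv z i ^ q₀ / S ^ (1 / p₀) := by
      intro i
      simp only [hc']
      rw [← mul_div_assoc]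
      congr 1
      by_cases h : sv z i = 0
      · rw [h, Real.zero_rpow hq0.ne', zero_mul]
      · rw [mul_comm, ← Real.rpow_add_one h]
        congr 1; ring
    simp_rw [e4]
    rw [← Finset.sum_div, ← hS, schatten, ← hS]
    have e5 : S ^ (1 / q₀) = S ^ (1 : ℝ) / S ^ (1 / p₀) := by
      rw [← Real.rpow_sub hSpos]
      congr 1; linarith
    rw [e5, Real.rpow_one]
  -- the bound for normalised left factors
  have hleft : ∀ a ∈ Finset.range (L + 1), ∀ U V : Matrix (Fin N) (Fin (2 ^ (a + 1))) ℝ,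
      ‖U‖ ≤ 1 → ‖V‖ ≤ 1 → |(bil R).flip Y (U * Vᵀ)| ≤
      ∑ b ∈ Finset.range (L + 1), ρ ^ b * (16 * m a b) := by
    intro a ha U V hU hV
    show |bil R (U * Vᵀ) Y| ≤ _
    apply level_bound p₀ hp0 L hL u' v' hu' hu1' hv' (fun i => (hv1' i).le) c' hc'0 hc'1
      (bil R (U * Vᵀ)) (fun b => 16 * m a b)
    intro b hb U' V' hU' hV'
    exact sixteen_bound R (m a b) (hm a ha b hb) U V U' V' hU hV hU' hV'
  set s : ℝ := schatten p₀ A with hs
  have hs0 : 0 ≤ s := schatten_nonneg _ _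
  rw [← hpair]
  rcases hs0.eq_or_lt with hsz | hspos
  · -- A = 0
    have h1 : ∑ i, sv A i ^ p₀ = 0 := by
      have h2 : (∑ i, sv A i ^ p₀) ^ (1 / p₀) = 0 := hsz.symm
      have h3 : 0 ≤ ∑ i, sv A i ^ p₀ :=
        Finset.sum_nonneg (fun i _ => Real.rpow_nonneg (sv_nonneg A i) _)
      rw [Real.rpow_eq_zero h3 (by positivity)] at h2
      exact h2
    have h2 : ∀ i, sv A i = 0 := by
      intro i
      have h3 := (Finset.sum_eq_zero_iff_of_nonneg
        (fun i _ => Real.rpow_nonneg (sv_nonneg A i) p₀)).1 h1 i (Finset.mem_univ i)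
      rwa [Real.rpow_eq_zero (sv_nonneg A i) hp0.ne'] at h3
    have h3 : A = 0 := by
      ext x y
      rw [hA x y]
      simp [h2]
    rw [h3, map_zero]
    simp only [LinearMap.zero_apply]
    exact mul_nonneg hK0 hs0
  · have hA' : A = s • (Matrix.of fun x y => ∑ i, (sv A i / s) * (u i x * v i y)) := by
      ext x y
      rw [hA x y, Matrix.smul_apply, of_apply, smul_eq_mul, Finset.mul_sum]
      apply Finset.sum_congr rfl; intro i _
      field_simp
    have hc1 : ∑ i, (sv A i / s) ^ p₀ ≤ 1 := by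
      have h3 : 0 ≤ ∑ i, sv A i ^ p₀ :=
        Finset.sum_nonneg (fun i _ => Real.rpow_nonneg (sv_nonneg A i) _)
      have h4 : s ^ p₀ = ∑ i, sv A i ^ p₀ := by
        rw [hs, schatten, ← Real.rpow_mul h3, one_div_mul_cancel hp0.ne', Real.rpow_one]
      have h5 : ∀ i, (sv A i / s) ^ p₀ = sv A i ^ p₀ / s ^ p₀ := fun i =>
        Real.div_rpow (sv_nonneg A i) hs0 _
      simp_rw [h5]
      rw [← Finset.sum_div, h4, div_self]
      rw [← h4]
      exact (Real.rpow_pos_of_pos hspos _).ne'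
    have hmain := level_bound p₀ hp0 L hL u v hu hu1 hv (fun i => (hv1 i).le)
      (fun i => sv A i / s) (fun i => div_nonneg (sv_nonneg A i) hs0) hc1
      ((bil R).flip Y) (fun a => ∑ b ∈ Finset.range (L + 1), ρ ^ b * (16 * m a b)) hleft
    have h6 : bil R A Y = s * (bil R).flip Y
        (Matrix.of fun x y => ∑ i, (sv A i / s) * (u i x * v i y)) := by
      conv_lhs => rw [hA']
      rw [map_smul, LinearMap.smul_apply, smul_eq_mul]
      rfl
    rw [h6]
    calc s * (bil R).flip Y (Matrix.of fun x y => ∑ i, (sv A i / s) * (u i x * v i y))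
        ≤ s * |(bil R).flip Y (Matrix.of fun x y => ∑ i, (sv A i / s) * (u i x * v i y))| :=
          mul_le_mul_of_nonneg_left (le_abs_self _) hs0
      _ ≤ s * K := mul_le_mul_of_nonneg_left hmain hs0
      _ = K * s := mul_comm _ _

end Pool.H102.SC
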