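import Mathlib

/-! # Haar measure on the orthogonal group and permutation averages -/

set_option autoImplicit false

namespace Pool.H102.SC

open MeasureTheory Matrix

variable {ι : Type*} [Fintype ι] [DecidableEq ι]

/-- the orthogonal group -/
abbrev Og (ι : Type*) [Fintype ι] [DecidableEq ι] : Type _ := Matrix.unitaryGroup ι ℝ

theorem entry_le (U : Og ι) (i j : ι) : |(U : Matrix ι ι ℝ) i j| ≤ 1 := by
  have := entry_norm_bound_of_unitary U.2 i j
  simpa [Real.norm_eq_abs] using this

instance instCompactOg : CompactSpace (Og ι) := by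
  apply isCompact_iff_compactSpace.1
  have hc : IsCompact {M : Matrix ι ι ℝ | ∀ i j, M i j ∈ Set.Icc (-1 : ℝ) 1} := by
    have h1 : IsCompact (Set.pi Set.univ (fun _ : ι => Set.pi Set.univ
        (fun _ : ι => Set.Icc (-1 : ℝ) 1))) :=
      isCompact_univ_pi (fun _ => isCompact_univ_pi (fun _ => isCompact_Icc))
    convert! h1 using 1
    ext M
    exact ⟨fun h i _ j _ => h i j, fun h i j => h i trivial j trivial⟩
  apply hc.of_isClosed_subset
  · have h2 : ((Matrix.unitaryGroup ι ℝ : Submonoid (Matrix ι ι ℝ)) : Set (Matrix ι ι ℝ)) =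
        {M | star M * M = 1} := by
      ext M
      exact Matrix.mem_unitaryGroup_iff'
    rw [h2]
    exact isClosed_eq (by fun_prop) continuous_const
  · intro M hM i j
    have := entry_norm_bound_of_unitary hM i j
    rw [Real.norm_eq_abs, abs_le] at this
    exact this

instance instMeasOg : MeasurableSpace (Og ι) := borel _
instance instBorelOg : BorelSpace (Og ι) := ⟨rfl⟩

instance instSCM : SecondCountableTopology (Matrix ι ι ℝ) :=
  inferInstanceAs (SecondCountableTopology (ι → ι → ℝ))

instance instSCOg : SecondCountableTopology (Og ι) :=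
  TopologicalSpace.Subtype.secondCountableTopology
    ((Matrix.unitaryGroup ι ℝ : Submonoid (Matrix ι ι ℝ)) : Set (Matrix ι ι ℝ))

/-- the Haar probability measure -/
noncomputable def hm (ι : Type*) [Fintype ι] [DecidableEq ι] : Measure (Og ι) :=
  Measure.haarMeasure ⊤

instance instProbHm : IsProbabilityMeasure (hm ι) := by
  constructor
  have := Measure.haarMeasure_self (G := Og ι) (K₀ := ⊤)
  simpa [hm] using this

instance instLeftInvHm : (hm ι).IsMulLeftInvariant := by
  unfold hm; infer_instance

theorem integrable_of_cont (f : Og ι → ℝ) (hf : Continuous f) : Integrable f (hm ι) :=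
  hf.integrable_of_hasCompactSupport (HasCompactSupport.of_compactSpace f)

/-- the permutation matrix as an orthogonal matrix -/
def permO (σ : Equiv.Perm ι) : Og ι :=
  ⟨Matrix.of fun i j => if σ i = j then (1 : ℝ) else 0, by
    rw [Matrix.mem_unitaryGroup_iff']
    ext i j
    rw [Matrix.mul_apply]
    simp only [star_apply, of_apply, star_trivial, mul_ite, mul_one, mul_zero]
    rw [Finset.sum_eq_single (σ.symm j)]
    · simp [Matrix.one_apply, eq_comm]
    · intro b _ hb
      have : σ b ≠ j := fun h => hb (by rw [← h]; simp)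
      simp [this]
    · intro h; exact absurd (Finset.mem_univ _) h⟩

theorem permO_conj (σ : Equiv.Perm ι) (d : ι → ℝ) :
    star (permO σ : Matrix ι ι ℝ) * diagonal d * (permO σ : Matrix ι ι ℝ) =
      diagonal (d ∘ σ.symm) := by
  ext i j
  rw [Matrix.mul_apply]
  simp only [Matrix.mul_diagonal, star_apply, permO, of_apply, star_trivial]
  rw [Finset.sum_eq_single (σ.symm j)]
  · simp only [Equiv.apply_symm_apply, if_true, mul_one]
    by_cases hij : i = j
    · subst hij; simp
    · rw [if_neg (fun h => hij h.symm), Matrix.diagonal_apply_ne _ hij]; simp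
  · intro b _ hb
    have : σ b ≠ j := fun h => hb (by rw [← h]; simp)
    simp [this]
  · intro h; exact absurd (Finset.mem_univ _) h

/-- averaging over shifts -/
theorem comb {k m : ℕ} (hk : 1 ≤ k) (e : ι → ℝ)
    (hcard : (Finset.univ.filter (fun i => e i ≠ 0)).card ≤ k) (e₀ : ι ≃ Fin k ⊕ Fin m) :
    ∃ σ : Fin k → Equiv.Perm ι, ∀ x, ∑ i, e (σ i x) =
      (∑ j, e j) * (if (e₀ x).isLeft then 1 else 0) := by
  have hcι : Fintype.card ι = k + m := by
    rw [Fintype.card_congr e₀]; simp
  obtain ⟨K, hSK, -, hKc⟩ := Finset.exists_subsuperset_card_eq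
    (Finset.subset_univ (Finset.univ.filter (fun i => e i ≠ 0))) hcard
    (by rw [Finset.card_univ, hcι]; omega)
  have eK : Fin k ≃ {x // x ∈ K} := (K.equivFinOfCardEq hKc).symm
  have hcc : Fintype.card {x // ¬ x ∈ K} = m := by
    rw [Fintype.card_subtype_compl, hcι]
    have : Fintype.card {x // x ∈ K} = k := by rw [Fintype.card_coe, hKc]
    rw [this]; omega
  have eKc : Fin m ≃ {x // ¬ x ∈ K} := (Fintype.equivFinOfCardEq hcc).symm
  let π : Fin k ⊕ Fin m ≃ ι := (Equiv.sumCongr eK eKc).trans (Equiv.sumCompl (fun x => x ∈ K))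
  have hπ : ∀ j : Fin m, e (π (Sum.inr j)) = 0 := by
    intro j
    by_contra hne
    have h1 : π (Sum.inr j) ∈ K := hSK (Finset.mem_filter.2 ⟨Finset.mem_univ _, hne⟩)
    have h2 : π (Sum.inr j) = (eKc j : ι) := by
      simp [π]
    rw [h2] at h1
    exact (eKc j).2 h1
  have : NeZero k := ⟨by omega⟩
  have hsum : ∑ j : Fin k, e (π (Sum.inl j)) = ∑ j, e j := by
    rw [← Equiv.sum_comp π, Fintype.sum_sum_type]
    simp [hπ]
  refine ⟨fun i => e₀.trans ((Equiv.sumCongr (Equiv.addRight i) (Equiv.refl (Fin m))).trans π), ?_⟩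
  intro x
  rcases hx : e₀ x with j | j
  · simp only [Equiv.trans_apply, hx, Equiv.sumCongr_apply, Sum.map_inl, Equiv.coe_addRight,
      Sum.isLeft_inl, if_true, mul_one]
    rw [← hsum]
    exact Equiv.sum_comp (Equiv.addLeft j) (fun i => e (π (Sum.inl i)))
  · simp only [Equiv.trans_apply, hx, Equiv.sumCongr_apply, Sum.map_inr, Equiv.refl_apply,
      hπ, Finset.sum_const_zero, Sum.isLeft_inr, Bool.false_eq_true, if_false, mul_zero]

end Pool.H102.SC
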