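import Pool.Agent.H102R3.SCB
import Pool.Agent.H102R3.SCH1

/-! # From Wishart matrices to projections -/

set_option autoImplicit false

namespace Pool.H102.SC

open MeasureTheory ProbabilityTheory Matrix

variable {ι : Type*} [Fintype ι] [DecidableEq ι] {k m : ℕ}

/-- Haar average of a seminorm along a conjugation orbit -/
noncomputable def Q (ν : Seminorm ℝ (Matrix ι ι ℝ)) (κ : ℝ) (M : Matrix ι ι ℝ) : ℝ :=
  ∫ U : Og ι, ν (star (U : Matrix ι ι ℝ) * M * (U : Matrix ι ι ℝ) - κ • 1) ∂(hm ι)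

theorem cont_orbit (ν : Seminorm ℝ (Matrix ι ι ℝ)) (hν : Continuous ν) (κ : ℝ)
    (M : Matrix ι ι ℝ) :
    Continuous (fun U : Og ι => ν (star (U : Matrix ι ι ℝ) * M * (U : Matrix ι ι ℝ) - κ • 1)) := by
  apply hν.comp
  have : Continuous (fun U : Og ι => (U : Matrix ι ι ℝ)) := continuous_subtype_val
  fun_prop

theorem int_orbit (ν : Seminorm ℝ (Matrix ι ι ℝ)) (hν : Continuous ν) (κ : ℝ)
    (M : Matrix ι ι ℝ) :
    Integrable (fun U : Og ι => ν (star (U : Matrix ι ι ℝ) * M * (U : Matrix ι ι ℝ) - κ • 1))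
      (hm ι) :=
  integrable_of_cont _ (cont_orbit ν hν κ M)

theorem Q_nonneg (ν : Seminorm ℝ (Matrix ι ι ℝ)) (κ : ℝ) (M : Matrix ι ι ℝ) : 0 ≤ Q ν κ M :=
  integral_nonneg (fun _ => apply_nonneg ν _)

theorem Q_conj (ν : Seminorm ℝ (Matrix ι ι ℝ)) (κ : ℝ) (M : Matrix ι ι ℝ) (W : Og ι) :
    Q ν κ (star (W : Matrix ι ι ℝ) * M * (W : Matrix ι ι ℝ)) = Q ν κ M := by
  unfold Q
  rw [← integral_mul_left_eq_self (μ := hm ι) (fun U : Og ι =>
    ν (star (U : Matrix ι ι ℝ) * M * (U : Matrix ι ι ℝ) - κ • 1)) W]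
  apply integral_congr_ae
  filter_upwards with U
  congr 2
  rw [Submonoid.coe_mul, star_mul]
  simp only [Matrix.mul_assoc]

theorem Q_avg (ν : Seminorm ℝ (Matrix ι ι ℝ)) (hν : Continuous ν) (κ : ℝ) (hk : 1 ≤ k)
    (M : Fin k → Matrix ι ι ℝ) : Q ν κ ((1 / (k : ℝ)) • ∑ i, M i) ≤
      (1 / (k : ℝ)) * ∑ i, Q ν κ (M i) := by
  have hk0 : (0 : ℝ) < k := by exact_mod_cast hk
  unfold Q
  rw [← integral_finsetSum _ (fun i _ => int_orbit ν hν κ (M i)), ← integral_const_mul]
  apply integral_mono (int_orbit ν hν κ _)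
    ((integrable_finsetSum _ (fun i _ => int_orbit ν hν κ (M i))).const_mul _)
  intro U
  have e : star (U : Matrix ι ι ℝ) * ((1 / (k : ℝ)) • ∑ i, M i) * (U : Matrix ι ι ℝ) - κ • 1 =
      (1 / (k : ℝ)) • ∑ i, (star (U : Matrix ι ι ℝ) * M i * (U : Matrix ι ι ℝ) - κ • 1) := by
    rw [Finset.sum_sub_distrib, Finset.sum_const, Finset.card_univ, Fintype.card_fin, smul_sub,
      Matrix.mul_smul, Matrix.smul_mul, Finset.mul_sum, Finset.sum_mul, ← Nat.cast_smul_eq_nsmul ℝ,
      smul_smul, smul_smul]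
    congr 2
    field_simp
  show ν _ ≤ _
  rw [e, map_smul_eq_mul, Real.norm_of_nonneg (by positivity)]
  apply mul_le_mul_of_nonneg_left _ (by positivity)
  exact Finset.le_sum_of_subadditive ν (map_zero ν).le (map_add_le_add ν) _ _

theorem Q_ge (ν : Seminorm ℝ (Matrix ι ι ℝ)) (hν : Continuous ν) (κ : ℝ) (hk : 1 ≤ k)
    (e₀ : ι ≃ Fin k ⊕ Fin m) (H : Matrix ι ι ℝ) (hH : H.IsHermitian)
    (hrank : (Finset.univ.filter (fun i => hH.eigenvalues i ≠ 0)).card ≤ k) :
    Q ν κ ((H.trace / k) • diagonal (fun x => if (e₀ x).isLeft then (1 : ℝ) else 0)) ≤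
      Q ν κ H := by
  have hk0 : (0 : ℝ) < k := by exact_mod_cast hk
  obtain ⟨σ, hσ⟩ := comb hk hH.eigenvalues hrank e₀
  have h1 : Q ν κ H = Q ν κ (diagonal hH.eigenvalues) := by
    conv_lhs => rw [hH.spectral_theorem]
    rw [Unitary.conjStarAlgAut_apply]
    have := Q_conj ν κ (diagonal hH.eigenvalues) (star hH.eigenvectorUnitary)
    rw [← this]
    congr 1
  have h2 : ∀ i, Q ν κ (diagonal (hH.eigenvalues ∘ σ i)) = Q ν κ (diagonal hH.eigenvalues) := by
    intro i
    rw [← Q_conj ν κ (diagonal hH.eigenvalues) (permO (σ i).symm), permO_conj, Equiv.symm_symm]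
  have htr : H.trace = ∑ i, hH.eigenvalues i := by
    have := hH.trace_eq_sum_eigenvalues
    simpa using this
  have h3 : (H.trace / k) • diagonal (fun x => if (e₀ x).isLeft then (1 : ℝ) else 0) =
      (1 / (k : ℝ)) • ∑ i, diagonal (hH.eigenvalues ∘ σ i) := by
    ext x y
    rw [Matrix.smul_apply, Matrix.smul_apply, Matrix.sum_apply]
    by_cases hxy : x = y
    · subst hxy
      simp only [diagonal_apply_eq, Function.comp_apply]
      rw [hσ x, htr]
      simp only [smul_eq_mul]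
      ring
    · simp [diagonal_apply_ne _ hxy]
  rw [h3, h1]
  refine (Q_avg ν hν κ hk _).trans ?_
  simp_rw [h2]
  rw [Finset.sum_const, Finset.card_univ, Fintype.card_fin, nsmul_eq_mul, ← mul_assoc,
    one_div_mul_cancel hk0.ne', one_mul]

/-- the Wishart matrix -/
noncomputable def Wm (g : EuclideanSpace ℝ (Fin k × ι)) : Matrix ι ι ℝ :=
  Matrix.of fun i j => ∑ a, g (a, i) * g (a, j)

theorem Wm_eq (g : EuclideanSpace ℝ (Fin k × ι)) :
    Wm g = (Matrix.of fun (a : Fin k) (i : ι) => g (a, i))ᴴ *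
      (Matrix.of fun (a : Fin k) (i : ι) => g (a, i)) := by
  ext i j
  rw [Matrix.mul_apply]
  simp [Wm]

theorem Wm_herm (g : EuclideanSpace ℝ (Fin k × ι)) : (Wm g).IsHermitian := by
  rw [Wm_eq]; exact Matrix.isHermitian_conjTranspose_mul_self _

theorem Wm_rank (g : EuclideanSpace ℝ (Fin k × ι)) :
    (Finset.univ.filter (fun i => (Wm_herm g).eigenvalues i ≠ 0)).card ≤ k := by
  have h1 := (Wm_herm g).rank_eq_card_non_zero_eigs
  rw [Fintype.card_subtype] at h1
  rw [← h1, Wm_eq, Matrix.rank_conjTranspose_mul_self]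
  simpa using Matrix.rank_le_card_height (Matrix.of fun (a : Fin k) (i : ι) => g (a, i))

theorem Wm_trace (g : EuclideanSpace ℝ (Fin k × ι)) : (Wm g).trace = ‖g‖ ^ 2 := by
  rw [EuclideanSpace.real_norm_sq_eq, Matrix.trace, Fintype.sum_prod_type_right]
  apply Finset.sum_congr rfl; intro i _
  simp [Wm, pow_two]

theorem Wm_entry (g : EuclideanSpace ℝ (Fin k × ι)) (i j : ι) : |Wm g i j| ≤ ‖g‖ ^ 2 := by
  have hcol : ∀ i : ι, ∑ a, g (a, i) ^ 2 ≤ ‖g‖ ^ 2 := by
    intro i
    rw [EuclideanSpace.real_norm_sq_eq, Fintype.sum_prod_type_right]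
    exact Finset.single_le_sum (f := fun y => ∑ x, g (x, y) ^ 2)
      (fun y _ => Finset.sum_nonneg (fun a _ => sq_nonneg _)) (Finset.mem_univ i)
  calc |Wm g i j| = |∑ a, g (a, i) * g (a, j)| := rfl
    _ ≤ ∑ a, |g (a, i) * g (a, j)| := Finset.abs_sum_le_sum_abs _ _
    _ ≤ ∑ a, (g (a, i) ^ 2 + g (a, j) ^ 2) / 2 := by
        apply Finset.sum_le_sum; intro a _
        rw [abs_mul]
        nlinarith [sq_abs (g (a, i)), sq_abs (g (a, j)), sq_nonneg (|g (a, i)| - |g (a, j)|)]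
    _ = (∑ a, g (a, i) ^ 2 + ∑ a, g (a, j) ^ 2) / 2 := by
        rw [← Finset.sum_div, Finset.sum_add_distrib]
    _ ≤ ‖g‖ ^ 2 := by
        have h1 := hcol i
        have h2 := hcol j
        linarith

theorem seminorm_bound (ν : Seminorm ℝ (Matrix ι ι ℝ)) :
    ∃ C : ℝ, 0 ≤ C ∧ ∀ (M : Matrix ι ι ℝ) (B : ℝ), 0 ≤ B → (∀ i j, |M i j| ≤ B) → ν M ≤ C * B := by
  refine ⟨∑ i, ∑ j, ν (Matrix.single i j (1 : ℝ)), Finset.sum_nonneg (fun i _ =>
    Finset.sum_nonneg (fun j _ => apply_nonneg ν _)), ?_⟩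
  intro M B hB hM
  have e : M = ∑ i, ∑ j, (M i j) • Matrix.single i j (1 : ℝ) := by
    conv_lhs => rw [Matrix.matrix_eq_sum_single M]
    apply Finset.sum_congr rfl; intro i _
    apply Finset.sum_congr rfl; intro j _
    rw [Matrix.smul_single]; simp
  calc ν M = ν (∑ i, ∑ j, (M i j) • Matrix.single i j (1 : ℝ)) := by rw [← e]
    _ ≤ ∑ i, ν (∑ j, (M i j) • Matrix.single i j (1 : ℝ)) :=
        Finset.le_sum_of_subadditive ν (map_zero ν).le (map_add_le_add ν) _ _
    _ ≤ ∑ i, ∑ j, ν ((M i j) • Matrix.single i j (1 : ℝ)) := by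
        apply Finset.sum_le_sum; intro i _
        exact Finset.le_sum_of_subadditive ν (map_zero ν).le (map_add_le_add ν) _ _
    _ ≤ ∑ i, ∑ j, B * ν (Matrix.single i j (1 : ℝ)) := by
        apply Finset.sum_le_sum; intro i _
        apply Finset.sum_le_sum; intro j _
        rw [map_smul_eq_mul, Real.norm_eq_abs]
        exact mul_le_mul_of_nonneg_right (hM i j) (apply_nonneg ν _)
    _ = (∑ i, ∑ j, ν (Matrix.single i j (1 : ℝ))) * B := by
        rw [Finset.sum_mul]
        apply Finset.sum_congr rfl; intro i _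
        rw [Finset.sum_mul]
        apply Finset.sum_congr rfl; intro j _
        ring

theorem conj_entry (g : EuclideanSpace ℝ (Fin k × ι)) (U : Og ι) (i j : ι) :
    |(star (U : Matrix ι ι ℝ) * Wm g * (U : Matrix ι ι ℝ)) i j| ≤
      (Fintype.card ι : ℝ) ^ 2 * ‖g‖ ^ 2 := by
  rw [Matrix.mul_apply]
  calc |∑ l, (star (U : Matrix ι ι ℝ) * Wm g) i l * (U : Matrix ι ι ℝ) l j|
      ≤ ∑ l, |(star (U : Matrix ι ι ℝ) * Wm g) i l * (U : Matrix ι ι ℝ) l j| :=
        Finset.abs_sum_le_sum_abs _ _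
    _ ≤ ∑ l : ι, (Fintype.card ι : ℝ) * ‖g‖ ^ 2 := by
        apply Finset.sum_le_sum; intro l _
        rw [abs_mul]
        have h1 : |(star (U : Matrix ι ι ℝ) * Wm g) i l| ≤ (Fintype.card ι : ℝ) * ‖g‖ ^ 2 := by
          rw [Matrix.mul_apply]
          refine (Finset.abs_sum_le_sum_abs _ _).trans ?_
          calc ∑ x, |star (U : Matrix ι ι ℝ) i x * Wm g x l| ≤ ∑ x : ι, ‖g‖ ^ 2 := by
                apply Finset.sum_le_sum; intro x _
                rw [abs_mul, star_apply, star_trivial]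
                calc |(U : Matrix ι ι ℝ) x i| * |Wm g x l| ≤ 1 * ‖g‖ ^ 2 :=
                      mul_le_mul (entry_le U x i) (Wm_entry g x l) (abs_nonneg _) zero_le_one
                  _ = ‖g‖ ^ 2 := one_mul _
            _ = (Fintype.card ι : ℝ) * ‖g‖ ^ 2 := by
                rw [Finset.sum_const, Finset.card_univ, nsmul_eq_mul]
        calc |(star (U : Matrix ι ι ℝ) * Wm g) i l| * |(U : Matrix ι ι ℝ) l j|
            ≤ ((Fintype.card ι : ℝ) * ‖g‖ ^ 2) * 1 :=
              mul_le_mul h1 (entry_le U l j) (abs_nonneg _) (by positivity)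
          _ = _ := mul_one _
    _ = (Fintype.card ι : ℝ) ^ 2 * ‖g‖ ^ 2 := by
        rw [Finset.sum_const, Finset.card_univ, nsmul_eq_mul]; ring

theorem integrable_norm_sq {I : Type*} [Fintype I] :
    Integrable (fun g : EuclideanSpace ℝ I => ‖g‖ ^ 2) (Gm I) := by
  classical
  have : (fun g : EuclideanSpace ℝ I => ‖g‖ ^ 2) = fun g => ∑ i : I,
      inner ℝ (EuclideanSpace.single i (1 : ℝ)) g * inner ℝ (EuclideanSpace.single i (1 : ℝ)) g := by
    funext g
    rw [EuclideanSpace.real_norm_sq_eq]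
    apply Finset.sum_congr rfl; intro i _
    rw [EuclideanSpace.inner_single_left]
    simp [pow_two]
  rw [this]
  exact integrable_finsetSum _ (fun i _ => integrable_lin_mul _ _)

theorem integral_norm_sq {I : Type*} [Fintype I] :
    ∫ g : EuclideanSpace ℝ I, ‖g‖ ^ 2 ∂(Gm I) = Fintype.card I := by
  classical
  have : (fun g : EuclideanSpace ℝ I => ‖g‖ ^ 2) = fun g => ∑ i : I,
      inner ℝ (EuclideanSpace.single i (1 : ℝ)) g * inner ℝ (EuclideanSpace.single i (1 : ℝ)) g := by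
    funext g
    rw [EuclideanSpace.real_norm_sq_eq]
    apply Finset.sum_congr rfl; intro i _
    rw [EuclideanSpace.inner_single_left]
    simp [pow_two]
  rw [this, integral_finsetSum _ (fun i _ => integrable_lin_mul _ _)]
  simp_rw [integral_lin_sq]
  simp

theorem cont_Wm : Continuous (fun g : EuclideanSpace ℝ (Fin k × ι) => Wm g) := by
  apply continuous_matrix
  intro i j
  simp only [Wm, of_apply]
  fun_prop

/-- **Passing from Wishart matrices to a projection.** -/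
theorem exists_projection (ν : Seminorm ℝ (Matrix ι ι ℝ)) (hν : Continuous ν) (hk : 1 ≤ k)
    (e₀ : ι ≃ Fin k ⊕ Fin m) (Bd : ℝ)
    (hB : ∀ U : Og ι, ∫ g, ν (star (U : Matrix ι ι ℝ) * Wm g * (U : Matrix ι ι ℝ) -
      (k : ℝ) • 1) ∂(Gm (Fin k × ι)) ≤ Bd) :
    ∃ U : Og ι, ν (star (U : Matrix ι ι ℝ) * ((Fintype.card ι : ℝ) •
      diagonal (fun x => if (e₀ x).isLeft then (1 : ℝ) else 0)) * (U : Matrix ι ι ℝ) -
      (k : ℝ) • 1) ≤ Bd := by
  have hk0 : (0 : ℝ) < k := by exact_mod_cast hk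
  set P : Matrix ι ι ℝ := diagonal (fun x => if (e₀ x).isLeft then (1 : ℝ) else 0) with hP
  set f : EuclideanSpace ℝ (Fin k × ι) × Og ι → ℝ := fun z =>
    ν (star (z.2 : Matrix ι ι ℝ) * Wm z.1 * (z.2 : Matrix ι ι ℝ) - (k : ℝ) • 1) with hf
  have hfcont : Continuous f := by
    apply hν.comp
    have h1 : Continuous (fun z : EuclideanSpace ℝ (Fin k × ι) × Og ι =>
      (z.2 : Matrix ι ι ℝ)) := continuous_subtype_val.comp continuous_snd
    have h2 : Continuous (fun z : EuclideanSpace ℝ (Fin k × ι) × Og ι => Wm z.1) :=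
      cont_Wm.comp continuous_fst
    fun_prop
  obtain ⟨C, hC0, hC⟩ := seminorm_bound ν
  have hfint : Integrable f ((Gm (Fin k × ι)).prod (hm ι)) := by
    have hdom : Integrable (fun z : EuclideanSpace ℝ (Fin k × ι) × Og ι =>
        (C * (Fintype.card ι : ℝ) ^ 2) * ‖z.1‖ ^ 2 + k * ν 1) ((Gm (Fin k × ι)).prod (hm ι)) := by
      apply Integrable.add _ (integrable_const _)
      apply Integrable.const_mul
      exact (integrable_norm_sq (I := Fin k × ι)).comp_fst (hm ι)
    apply hdom.mono' hfcont.aestronglyMeasurable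
    filter_upwards with z
    rw [Real.norm_of_nonneg (apply_nonneg ν _)]
    calc f z ≤ ν (star (z.2 : Matrix ι ι ℝ) * Wm z.1 * (z.2 : Matrix ι ι ℝ)) +
          ν ((k : ℝ) • 1) := map_sub_le_add ν _ _
      _ ≤ C * ((Fintype.card ι : ℝ) ^ 2 * ‖z.1‖ ^ 2) + k * ν 1 := by
          gcongr
          · exact hC _ _ (by positivity) (conj_entry z.1 z.2)
          · rw [map_smul_eq_mul, Real.norm_of_nonneg hk0.le]
      _ = _ := by ring
  -- average over U first
  have h1 : ∫ g, Q ν k (Wm g) ∂(Gm (Fin k × ι)) ≤ Bd := by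
    have e1 : ∫ g, Q ν k (Wm g) ∂(Gm (Fin k × ι)) =
        ∫ z, f z ∂((Gm (Fin k × ι)).prod (hm ι)) := (integral_prod _ hfint).symm
    rw [e1, integral_prod_symm _ hfint]
    calc ∫ U, ∫ g, f (g, U) ∂(Gm (Fin k × ι)) ∂(hm ι) ≤ ∫ _U : Og ι, Bd ∂(hm ι) := by
          apply integral_mono hfint.integral_prod_right (integrable_const _)
          intro U
          exact hB U
      _ = Bd := by simp
  have hQint : Integrable (fun g => Q ν k (Wm g)) (Gm (Fin k × ι)) := hfint.integral_prod_left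
  -- the convex function
  set q : ℝ → ℝ := fun τ => Q ν k (τ • P) with hq
  have hconv : ConvexOn ℝ Set.univ q := by
    refine ⟨convex_univ, ?_⟩
    intro s _ t _ a b ha hb hab
    simp only [hq, Q, smul_eq_mul]
    rw [← integral_const_mul, ← integral_const_mul, ← integral_add
      ((int_orbit ν hν _ _).const_mul _) ((int_orbit ν hν _ _).const_mul _)]
    apply integral_mono (int_orbit ν hν _ _)
      (((int_orbit ν hν _ _).const_mul _).add ((int_orbit ν hν _ _).const_mul _))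
    intro U
    have e : star (U : Matrix ι ι ℝ) * ((a * s + b * t) • P) * (U : Matrix ι ι ℝ) -
        (k : ℝ) • 1 = a • (star (U : Matrix ι ι ℝ) * (s • P) * (U : Matrix ι ι ℝ) - (k : ℝ) • 1) +
          b • (star (U : Matrix ι ι ℝ) * (t • P) * (U : Matrix ι ι ℝ) - (k : ℝ) • 1) := by
      have e2 : (k : ℝ) • (1 : Matrix ι ι ℝ) = (a + b) • ((k : ℝ) • 1) := by rw [hab, one_smul]
      conv_lhs => rw [e2]
      simp only [Matrix.mul_smul, Matrix.smul_mul]
      module
    show ν _ ≤ a * ν _ + b * ν _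
    rw [e]
    refine (map_add_le_add ν _ _).trans ?_
    rw [map_smul_eq_mul, map_smul_eq_mul, Real.norm_of_nonneg ha, Real.norm_of_nonneg hb]
  have hqcont : Continuous q := by
    rw [← continuousOn_univ]
    exact hconv.continuousOn isOpen_univ
  have hle : ∀ g : EuclideanSpace ℝ (Fin k × ι), q (‖g‖ ^ 2 / k) ≤ Q ν k (Wm g) := by
    intro g
    have := Q_ge ν hν k hk e₀ (Wm g) (Wm_herm g) (Wm_rank g)
    rw [Wm_trace] at this
    exact this
  have hτint : Integrable (fun g : EuclideanSpace ℝ (Fin k × ι) => ‖g‖ ^ 2 / k)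
      (Gm (Fin k × ι)) := integrable_norm_sq.div_const _
  have hqint : Integrable (q ∘ fun g : EuclideanSpace ℝ (Fin k × ι) => ‖g‖ ^ 2 / k)
      (Gm (Fin k × ι)) := by
    apply hQint.mono'
    · exact (hqcont.comp (by fun_prop)).aestronglyMeasurable
    · filter_upwards with g
      rw [Function.comp_apply, Real.norm_of_nonneg (Q_nonneg ν _ _)]
      exact hle g
  have hJ := hconv.map_integral_le (μ := Gm (Fin k × ι)) hqcont.continuousOn isClosed_univ
    (by filter_upwards with g; trivial) hτint hqint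
  have hτ : ∫ g : EuclideanSpace ℝ (Fin k × ι), ‖g‖ ^ 2 / k ∂(Gm (Fin k × ι)) =
      Fintype.card ι := by
    rw [integral_div, integral_norm_sq, Fintype.card_prod, Fintype.card_fin, Nat.cast_mul]
    field_simp
  rw [hτ] at hJ
  have hfin : q (Fintype.card ι) ≤ Bd := by
    refine hJ.trans (le_trans ?_ h1)
    exact integral_mono hqint hQint hle
  obtain ⟨U, hU⟩ := exists_le_integral (int_orbit ν hν k ((Fintype.card ι : ℝ) • P))
  exact ⟨U, hU.trans hfin⟩

end Pool.H102.SC
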