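import Pool.Agent.H102R3.SCE
import Pool.Agent.H102R3.SCH2

/-! # Assembly: a good projection -/

set_option autoImplicit false

namespace Pool.H102.SC

open Matrix MeasureTheory ProbabilityTheory

variable {N : ℕ}

section scoped_norm
open scoped Matrix.Norms.L2Operator

theorem net_frob {r : ℕ} (U V : Matrix (Fin N) (Fin r) ℝ) (hU : U ∈ Tn N r) (hV : V ∈ Tn N r) :
    ∑ x, ∑ y, (U * Vᵀ) x y ^ 2 ≤ r :=
  frob_le U V ((Tn_spec N r).1 U hU) ((Tn_spec N r).1 V hV)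

end scoped_norm

/-- index set of the net of blocks of rank `2 ^ (a + 1)` -/
abbrev Jt (N a : ℕ) : Type := ↥(Tn N (2 ^ (a + 1))) × ↥(Tn N (2 ^ (a + 1)))

/-- the matrix of an index -/
noncomputable def xm {a : ℕ} (j : Jt N a) : Matrix (Fin N) (Fin N) ℝ := j.1.1 * j.2.1ᵀ

/-- the vector of an index -/
noncomputable def xv {a : ℕ} (j : Jt N a) : EuclideanSpace ℝ (Fin N × Fin N) :=
  WithLp.toLp 2 (fun p => xm j p.1 p.2)

theorem norm_xv {a : ℕ} (j : Jt N a) : ‖xv j‖ ≤ Real.sqrt ((2 ^ (a + 1) : ℕ) : ℝ) := by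
  apply Real.le_sqrt_of_sq_le
  rw [EuclideanSpace.real_norm_sq_eq, Fintype.sum_prod_type]
  exact net_frob j.1.1 j.2.1 j.1.2 j.2.2

instance (a : ℕ) : Nonempty (Jt N a) := by
  have := (Tn_spec N (2 ^ (a + 1))).2.2.1.to_subtype
  infer_instance

theorem card_Jt (a : ℕ) : Fintype.card (Jt N a) ≤ 25 ^ (N * 2 ^ (a + 1)) := by
  rw [Fintype.card_prod, Fintype.card_coe]
  have h := (Tn_spec N (2 ^ (a + 1))).2.1
  calc (Tn N (2 ^ (a + 1))).card * (Tn N (2 ^ (a + 1))).card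
      ≤ 5 ^ (N * 2 ^ (a + 1)) * 5 ^ (N * 2 ^ (a + 1)) := Nat.mul_le_mul h h
    _ = 25 ^ (N * 2 ^ (a + 1)) := by rw [← Nat.mul_pow]

/-- evaluation of a big matrix on the nets -/
noncomputable def Phi (N a b : ℕ) :
    Matrix (Fin N × Fin N) (Fin N × Fin N) ℝ →ₗ[ℝ] (Jt N a × Jt N b → ℝ) where
  toFun R p := ∑ s, (∑ t, R s t * xv p.1 t) * xv p.2 s
  map_add' R R' := by
    funext p
    rw [Pi.add_apply, ← Finset.sum_add_distrib]
    apply Finset.sum_congr rfl; intro s _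
    rw [← add_mul, ← Finset.sum_add_distrib]
    congr 1
    apply Finset.sum_congr rfl; intro t _
    rw [Matrix.add_apply]; ring
  map_smul' c R := by
    funext p
    rw [Pi.smul_apply, smul_eq_mul, Finset.mul_sum]
    apply Finset.sum_congr rfl; intro s _
    rw [← mul_assoc, Finset.mul_sum]
    congr 1
    apply Finset.sum_congr rfl; intro t _
    rw [Matrix.smul_apply, smul_eq_mul, RingHom.id_apply]; ring

theorem Phi_apply (a b : ℕ) (R : Matrix (Fin N × Fin N) (Fin N × Fin N) ℝ)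
    (p : Jt N a × Jt N b) : Phi N a b R p = (R *ᵥ (xv p.1).ofLp) ⬝ᵥ (xv p.2).ofLp := rfl

/-- the net seminorm -/
noncomputable def nuf (N L : ℕ) (ρ : ℝ) (R : Matrix (Fin N × Fin N) (Fin N × Fin N) ℝ) : ℝ :=
  ∑ a ∈ Finset.range (L + 1), ∑ b ∈ Finset.range (L + 1), (16 * ρ ^ a * ρ ^ b) * ‖Phi N a b R‖

noncomputable def nuhat (N L : ℕ) (ρ : ℝ) (hρ : 0 ≤ ρ) :
    Seminorm ℝ (Matrix (Fin N × Fin N) (Fin N × Fin N) ℝ) :=
  Seminorm.of (nuf N L ρ)
    (fun R R' => by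
      unfold nuf
      rw [← Finset.sum_add_distrib]
      apply Finset.sum_le_sum; intro a _
      rw [← Finset.sum_add_distrib]
      apply Finset.sum_le_sum; intro b _
      rw [map_add, ← mul_add]
      apply mul_le_mul_of_nonneg_left (norm_add_le _ _) (by positivity))
    (fun c R => by
      unfold nuf
      rw [Finset.mul_sum]
      apply Finset.sum_congr rfl; intro a _
      rw [Finset.mul_sum]
      apply Finset.sum_congr rfl; intro b _
      rw [map_smul, norm_smul]; ring)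

theorem nuhat_apply (N L : ℕ) (ρ : ℝ) (hρ : 0 ≤ ρ)
    (R : Matrix (Fin N × Fin N) (Fin N × Fin N) ℝ) : nuhat N L ρ hρ R = nuf N L ρ R := rfl

theorem nuhat_cont (N L : ℕ) (ρ : ℝ) (hρ : 0 ≤ ρ) : Continuous (nuhat N L ρ hρ) := by
  have : Continuous (nuf N L ρ) := by
    unfold nuf
    apply continuous_finsetSum; intro a _
    apply continuous_finsetSum; intro b _
    exact continuous_const.mul ((Phi N a b).continuous_of_finiteDimensional.norm)
  exact this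

theorem nuhat_op (p₀ q₀ : ℝ) (hq : 1 < q₀) (hpq : 1 / p₀ + 1 / q₀ = 1) (L : ℕ) (hL : N ≤ 2 ^ L)
    (R : Matrix (Fin N × Fin N) (Fin N × Fin N) ℝ) (A : Matrix (Fin N) (Fin N) ℝ) :
    schatten q₀ (opm R A) ≤ nuf N L ((2 : ℝ) ^ (-(1 / p₀))) R * schatten p₀ A := by
  have h := op_bound p₀ q₀ hq hpq L hL R (fun a b => ‖Phi N a b R‖) (fun _ _ => norm_nonneg _)
    (fun a _ b _ U hU V hV U' hU' V' hV' =>
      norm_le_pi_norm (Phi N a b R) ((⟨U, hU⟩, ⟨V, hV⟩), (⟨U', hU'⟩, ⟨V', hV'⟩))) A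
  refine h.trans (le_of_eq ?_)
  congr 1
  unfold nuf
  apply Finset.sum_congr rfl; intro a _
  rw [Finset.mul_sum]
  apply Finset.sum_congr rfl; intro b _
  ring

/-- rotation of a vector -/
noncomputable def rot {ι : Type*} [Fintype ι] [DecidableEq ι] (U : Og ι)
    (x : EuclideanSpace ℝ ι) : EuclideanSpace ℝ ι :=
  WithLp.toLp 2 ((U : Matrix ι ι ℝ) *ᵥ x.ofLp)

theorem inner_eq_dot {ι : Type*} [Fintype ι] (x y : EuclideanSpace ℝ ι) :
    inner ℝ x y = x.ofLp ⬝ᵥ y.ofLp := by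
  rw [PiLp.inner_apply, dotProduct]
  apply Finset.sum_congr rfl; intro i _
  simp [mul_comm]

theorem inner_rot {ι : Type*} [Fintype ι] [DecidableEq ι] (U : Og ι) (x y : EuclideanSpace ℝ ι) :
    inner ℝ (rot U x) (rot U y) = inner ℝ x y := by
  rw [inner_eq_dot, inner_eq_dot]
  show ((U : Matrix ι ι ℝ) *ᵥ x.ofLp) ⬝ᵥ ((U : Matrix ι ι ℝ) *ᵥ y.ofLp) = _
  have h : star (U : Matrix ι ι ℝ) * (U : Matrix ι ι ℝ) = 1 :=
    Matrix.mem_unitaryGroup_iff'.1 U.2
  have hs : star (U : Matrix ι ι ℝ) = (U : Matrix ι ι ℝ)ᵀ := by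
    ext i j; simp [Matrix.star_apply]
  rw [Matrix.dotProduct_mulVec, ← Matrix.mulVec_transpose, ← hs, Matrix.mulVec_mulVec, h,
    Matrix.one_mulVec]

theorem norm_rot {ι : Type*} [Fintype ι] [DecidableEq ι] (U : Og ι) (x : EuclideanSpace ℝ ι) :
    ‖rot U x‖ = ‖x‖ := by
  have h := inner_rot U x x
  rw [real_inner_self_eq_norm_sq, real_inner_self_eq_norm_sq] at h
  exact (sq_eq_sq₀ (norm_nonneg _) (norm_nonneg _)).1 h

theorem wm_dot {ι : Type*} [Fintype ι] {k : ℕ} (g : EuclideanSpace ℝ (Fin k × ι))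
    (x y : EuclideanSpace ℝ ι) :
    (Wm g *ᵥ x.ofLp) ⬝ᵥ y.ofLp = inner ℝ (act g x) (act g y) := by
  have e : Wm g = (Matrix.of fun (a : Fin k) (i : ι) => g (a, i))ᵀ *
      (Matrix.of fun (a : Fin k) (i : ι) => g (a, i)) := by
    ext i j
    rw [Matrix.mul_apply]
    simp [Wm]
  rw [inner_eq_dot, e, ← Matrix.mulVec_mulVec, Matrix.mulVec_transpose, ← Matrix.dotProduct_mulVec]
  rfl

theorem Phi_wishart {k : ℕ} (a b : ℕ) (U : Og (Fin N × Fin N))
    (g : EuclideanSpace ℝ (Fin k × (Fin N × Fin N))) :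
    Phi N a b (star (U : Matrix (Fin N × Fin N) (Fin N × Fin N) ℝ) * Wm g *
      (U : Matrix (Fin N × Fin N) (Fin N × Fin N) ℝ) - (k : ℝ) • 1) =
      Df (fun j => rot U (xv (a := a) j)) (fun j => rot U (xv (a := b) j)) g := by
  funext p
  rw [Phi_apply, Df, inner_rot, ← wm_dot, Matrix.sub_mulVec, sub_dotProduct]
  have hs : star (U : Matrix (Fin N × Fin N) (Fin N × Fin N) ℝ) =
      (U : Matrix (Fin N × Fin N) (Fin N × Fin N) ℝ)ᵀ := by
    ext i j; simp [Matrix.star_apply]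
  congr 1
  · rw [hs, Matrix.mul_assoc, ← Matrix.mulVec_mulVec, Matrix.mulVec_transpose,
      ← Matrix.dotProduct_mulVec, ← Matrix.mulVec_mulVec]
    rfl
  · rw [Matrix.smul_mulVec, Matrix.one_mulVec, smul_dotProduct, smul_eq_mul, inner_eq_dot]

/-- the expected value of the net seminorm of a centred Wishart matrix -/
theorem hB_bound {k : ℕ} (hN : 1 ≤ N) (hk : 1 ≤ k) (L : ℕ) (ρ : ℝ) (hρ : 0 ≤ ρ)
    (U : Og (Fin N × Fin N)) :
    ∫ g, nuhat N L ρ hρ (star (U : Matrix (Fin N × Fin N) (Fin N × Fin N) ℝ) * Wm g *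
      (U : Matrix (Fin N × Fin N) (Fin N × Fin N) ℝ) - (k : ℝ) • 1)
      ∂(Gm (Fin k × (Fin N × Fin N))) ≤
    736 * (N * (∑ a ∈ Finset.range (L + 1), ρ ^ a * 2 ^ (a + 1)) ^ 2 +
      Real.sqrt (k * N) * (2 * (∑ a ∈ Finset.range (L + 1), ρ ^ a * 2 ^ (a + 1)) *
        (∑ a ∈ Finset.range (L + 1), ρ ^ a * Real.sqrt (2 ^ (a + 1))))) := by
  simp only [nuhat_apply, nuf, Phi_wishart]
  have hint : ∀ a b : ℕ, Integrable (fun g : EuclideanSpace ℝ (Fin k × (Fin N × Fin N)) =>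
      ‖Df (fun j => rot U (xv (a := a) j)) (fun j => rot U (xv (a := b) j)) g‖)
      (Gm (Fin k × (Fin N × Fin N))) := fun a b => integrable_Df _ _
  have e1 : ∫ g : EuclideanSpace ℝ (Fin k × (Fin N × Fin N)),
      ∑ a ∈ Finset.range (L + 1), ∑ b ∈ Finset.range (L + 1), (16 * ρ ^ a * ρ ^ b) *
      ‖Df (fun j => rot U (xv (a := a) j)) (fun j => rot U (xv (a := b) j)) g‖
      ∂(Gm (Fin k × (Fin N × Fin N))) =
      ∑ a ∈ Finset.range (L + 1), ∑ b ∈ Finset.range (L + 1), (16 * ρ ^ a * ρ ^ b) *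
      ∫ g, ‖Df (fun j => rot U (xv (a := a) j)) (fun j => rot U (xv (a := b) j)) g‖
      ∂(Gm (Fin k × (Fin N × Fin N))) := by
    rw [integral_finsetSum _ (fun a _ => integrable_finsetSum _
      (fun b _ => (hint a b).const_mul _))]
    apply Finset.sum_congr rfl; intro a _
    rw [integral_finsetSum _ (fun b _ => (hint a b).const_mul _)]
    apply Finset.sum_congr rfl; intro b _
    rw [integral_const_mul]
  rw [e1]
  set Sa : ℝ := ∑ a ∈ Finset.range (L + 1), ρ ^ a * 2 ^ (a + 1) with hSa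
  set Sb : ℝ := ∑ a ∈ Finset.range (L + 1), ρ ^ a * Real.sqrt (2 ^ (a + 1)) with hSb
  have hmain : ∀ a b : ℕ, ∫ g, ‖Df (fun j => rot U (xv (a := a) j))
      (fun j => rot U (xv (a := b) j)) g‖ ∂(Gm (Fin k × (Fin N × Fin N))) ≤
      46 * (N * 2 ^ (a + 1) * 2 ^ (b + 1) + Real.sqrt (k * N) *
        (2 ^ (a + 1) * Real.sqrt (2 ^ (b + 1)) + 2 ^ (b + 1) * Real.sqrt (2 ^ (a + 1)))) := by
    intro a b
    have h := gauss_main (k := k) (ι := Fin N × Fin N) hk N (2 ^ (a + 1)) (2 ^ (b + 1)) hN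
      Nat.one_le_two_pow Nat.one_le_two_pow (fun j => rot U (xv (a := a) j))
      (fun j => rot U (xv (a := b) j)) (fun j => by rw [norm_rot]; exact norm_xv j)
      (fun j => by rw [norm_rot]; exact norm_xv j) (card_Jt a) (card_Jt b)
    push_cast at h
    exact h
  calc ∑ a ∈ Finset.range (L + 1), ∑ b ∈ Finset.range (L + 1), (16 * ρ ^ a * ρ ^ b) *
      ∫ g, ‖Df (fun j => rot U (xv (a := a) j)) (fun j => rot U (xv (a := b) j)) g‖
      ∂(Gm (Fin k × (Fin N × Fin N)))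
      ≤ ∑ a ∈ Finset.range (L + 1), ∑ b ∈ Finset.range (L + 1), (16 * ρ ^ a * ρ ^ b) *
      (46 * (N * 2 ^ (a + 1) * 2 ^ (b + 1) + Real.sqrt (k * N) *
        (2 ^ (a + 1) * Real.sqrt (2 ^ (b + 1)) + 2 ^ (b + 1) * Real.sqrt (2 ^ (a + 1))))) := by
        apply Finset.sum_le_sum; intro a _
        apply Finset.sum_le_sum; intro b _
        exact mul_le_mul_of_nonneg_left (hmain a b) (by positivity)
    _ = ∑ a ∈ Finset.range (L + 1), ∑ b ∈ Finset.range (L + 1),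
        (736 * N * ((ρ ^ a * 2 ^ (a + 1)) * (ρ ^ b * 2 ^ (b + 1))) +
         (736 * Real.sqrt (k * N) * ((ρ ^ a * 2 ^ (a + 1)) * (ρ ^ b * Real.sqrt (2 ^ (b + 1)))) +
         736 * Real.sqrt (k * N) * ((ρ ^ a * Real.sqrt (2 ^ (a + 1))) *
          (ρ ^ b * 2 ^ (b + 1))))) := by
        apply Finset.sum_congr rfl; intro a _
        apply Finset.sum_congr rfl; intro b _
        ring
    _ = 736 * N * (Sa * Sa) + (736 * Real.sqrt (k * N) * (Sa * Sb) +
          736 * Real.sqrt (k * N) * (Sb * Sa)) := by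
        rw [hSa, hSb, Finset.sum_mul_sum, Finset.sum_mul_sum, Finset.sum_mul_sum]
        simp only [Finset.sum_add_distrib, Finset.mul_sum]
    _ = 736 * (N * Sa ^ 2 + Real.sqrt (k * N) * (2 * Sa * Sb)) := by ring

end Pool.H102.SC
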