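import Mathlib

/-! # Maxima of Gaussian linear forms -/

set_option autoImplicit false

namespace Pool.H102.SC

open MeasureTheory ProbabilityTheory

variable {I : Type*} [Fintype I]

/-- standard Gaussian measure on `EuclideanSpace ℝ I` -/
noncomputable abbrev Gm (I : Type*) [Fintype I] : Measure (EuclideanSpace ℝ I) :=
  stdGaussian (EuclideanSpace ℝ I)

theorem map_lin (c : EuclideanSpace ℝ I) :
    (Gm I).map (innerSL ℝ c) = gaussianReal 0 (‖c‖ ^ 2).toNNReal := by
  have h := IsGaussian.map_eq_gaussianReal (μ := Gm I) (innerSL ℝ c)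
  rw [h, integral_strongDual_stdGaussian, variance_dual_stdGaussian, innerSL_apply_norm]

theorem mgf_lin (c : EuclideanSpace ℝ I) :
    ∫ g, Real.exp (inner ℝ c g) ∂(Gm I) = Real.exp (‖c‖ ^ 2 / 2) := by
  have h1 : ∫ g, Real.exp (inner ℝ c g) ∂(Gm I) =
      ∫ x, Real.exp x ∂((Gm I).map (innerSL ℝ c)) := by
    rw [integral_map (by fun_prop) (by fun_prop)]
    rfl
  rw [h1, map_lin]
  have h2 := congrFun (mgf_id_gaussianReal (μ := 0) (v := (‖c‖ ^ 2).toNNReal)) 1
  rw [mgf] at h2
  simp only [id_eq, one_mul, mul_one, zero_add, one_pow] at h2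
  rw [h2, Real.coe_toNNReal _ (by positivity)]

theorem integrable_exp_lin (c : EuclideanSpace ℝ I) :
    Integrable (fun g => Real.exp (inner ℝ c g)) (Gm I) := by
  have h2 := integrable_exp_mul_gaussianReal (μ := 0) (v := (‖c‖ ^ 2).toNNReal) 1
  rw [← map_lin, integrable_map_measure (by fun_prop) (by fun_prop)] at h2
  simpa [Function.comp_def] using h2

theorem integrable_lin (c : EuclideanSpace ℝ I) :
    Integrable (fun g => inner ℝ c g) (Gm I) :=
  IsGaussian.integrable_dual (Gm I) (innerSL ℝ c)

theorem integrable_norm_family {J : Type*} [Fintype J] (c : J → EuclideanSpace ℝ I) :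
    Integrable (fun g => ‖fun j => inner ℝ (c j) g‖) (Gm I) := by
  apply Integrable.norm
  exact Integrable.of_eval (fun j => integrable_lin (c j))

/-- **Maximum of Gaussian linear forms**. -/
theorem max_le {J : Type*} [Fintype J] [Nonempty J] (c : J → EuclideanSpace ℝ I) (σ : ℝ)
    (hσ : 0 ≤ σ) (hc : ∀ j, ‖c j‖ ≤ σ) :
    ∫ g, ‖fun j => inner ℝ (c j) g‖ ∂(Gm I) ≤
      σ * Real.sqrt (2 * Real.log (2 * Fintype.card J)) := by
  classical
  rcases hσ.eq_or_lt with h0 | hσ
  · have : ∀ j, c j = 0 := fun j => by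
      have := hc j
      rw [← h0] at this
      exact norm_le_zero_iff.1 this
    simp only [this, inner_zero_left]
    have h3 : (fun _ : J => (0 : ℝ)) = 0 := rfl
    rw [h3, ← h0]
    simp
  set n : ℝ := 2 * Fintype.card J with hn
  have hcardJ : (1 : ℝ) ≤ Fintype.card J := by exact_mod_cast Fintype.card_pos
  have hn2 : 2 ≤ n := by rw [hn]; linarith
  have hlog : 0 < Real.log n := Real.log_pos (by linarith)
  set s : ℝ := Real.sqrt (2 * Real.log n) / σ with hs
  have hspos : 0 < s := by rw [hs]; positivity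
  set L : ℝ := Real.log n + s ^ 2 * σ ^ 2 / 2 with hL
  have hs2 : s ^ 2 * σ ^ 2 = 2 * Real.log n := by
    rw [hs, div_pow, Real.sq_sqrt (by positivity)]
    field_simp
  -- pointwise bound
  have hpt : ∀ g : EuclideanSpace ℝ I, ‖fun j => inner ℝ (c j) g‖ ≤
      1 / s * (L - 1 + Real.exp (-L) * ∑ j, (Real.exp (inner ℝ (s • c j) g) +
        Real.exp (inner ℝ (-(s • c j)) g))) := by
    intro g
    have key : ∀ j, |inner ℝ (c j) g| ≤
      1 / s * (L - 1 + Real.exp (-L) * ∑ j, (Real.exp (inner ℝ (s • c j) g) +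
        Real.exp (inner ℝ (-(s • c j)) g))) := by
      intro j
      have h1 : Real.exp (s * |inner ℝ (c j) g|) ≤ Real.exp (inner ℝ (s • c j) g) +
          Real.exp (inner ℝ (-(s • c j)) g) := by
        rcases abs_cases (inner ℝ (c j) g) with ⟨h, -⟩ | ⟨h, -⟩
        · rw [h, inner_smul_left]
          have := Real.exp_pos (inner ℝ (-(s • c j)) g)
          simp only [conj_trivial]
          linarith
        · rw [h, inner_neg_left, inner_smul_left]
          have := Real.exp_pos (inner ℝ (s • c j) g)
          rw [inner_smul_left] at this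
          simp only [conj_trivial] at this ⊢
          have e : s * -inner ℝ (c j) g = -(s * inner ℝ (c j) g) := by ring
          rw [e]
          linarith
      have h2 : Real.exp (inner ℝ (s • c j) g) + Real.exp (inner ℝ (-(s • c j)) g) ≤
          ∑ j, (Real.exp (inner ℝ (s • c j) g) + Real.exp (inner ℝ (-(s • c j)) g)) :=
        Finset.single_le_sum (f := fun j => Real.exp (inner ℝ (s • c j) g) +
          Real.exp (inner ℝ (-(s • c j)) g)) (fun i _ => by positivity) (Finset.mem_univ j)
      have h3 : s * |inner ℝ (c j) g| - L + 1 ≤ Real.exp (s * |inner ℝ (c j) g| - L) :=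
        Real.add_one_le_exp _
      have h4 : Real.exp (s * |inner ℝ (c j) g| - L) =
          Real.exp (-L) * Real.exp (s * |inner ℝ (c j) g|) := by
        rw [← Real.exp_add]; congr 1; ring
      have h5 : Real.exp (-L) * Real.exp (s * |inner ℝ (c j) g|) ≤
          Real.exp (-L) * ∑ j, (Real.exp (inner ℝ (s • c j) g) +
            Real.exp (inner ℝ (-(s • c j)) g)) := by
        apply mul_le_mul_of_nonneg_left (h1.trans h2) (Real.exp_pos _).le
      rw [one_div, le_inv_mul_iff₀ hspos]
      linarith
    have hj0 : Nonempty J := inferInstance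
    obtain ⟨j0⟩ := hj0
    rw [pi_norm_le_iff_of_nonneg ((abs_nonneg _).trans (key j0))]
    intro j
    rw [Real.norm_eq_abs]
    exact key j
  have hint : ∀ j, Integrable (fun g => Real.exp (inner ℝ (s • c j) g) +
        Real.exp (inner ℝ (-(s • c j)) g)) (Gm I) := fun j =>
    (integrable_exp_lin _).add (integrable_exp_lin _)
  have hval : ∀ j, ∫ g, (Real.exp (inner ℝ (s • c j) g) +
        Real.exp (inner ℝ (-(s • c j)) g)) ∂(Gm I) ≤ 2 * Real.exp (s ^ 2 * σ ^ 2 / 2) := by
    intro j
    rw [integral_add (integrable_exp_lin _) (integrable_exp_lin _), mgf_lin, mgf_lin, norm_neg,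
      norm_smul, Real.norm_of_nonneg hspos.le, mul_pow]
    have : Real.exp (s ^ 2 * ‖c j‖ ^ 2 / 2) ≤ Real.exp (s ^ 2 * σ ^ 2 / 2) := by
      apply Real.exp_le_exp.2
      have := hc j
      have h6 : ‖c j‖ ^ 2 ≤ σ ^ 2 := pow_le_pow_left₀ (norm_nonneg _) this 2
      have h7 : s ^ 2 * ‖c j‖ ^ 2 ≤ s ^ 2 * σ ^ 2 := mul_le_mul_of_nonneg_left h6 (by positivity)
      linarith
    linarith
  calc ∫ g, ‖fun j => inner ℝ (c j) g‖ ∂(Gm I)
      ≤ ∫ g, 1 / s * (L - 1 + Real.exp (-L) * ∑ j, (Real.exp (inner ℝ (s • c j) g) +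
        Real.exp (inner ℝ (-(s • c j)) g))) ∂(Gm I) := by
        apply integral_mono (integrable_norm_family c) _ hpt
        exact ((integrable_const _).add ((integrable_finsetSum _ (fun j _ => hint j)).const_mul
          _)).const_mul _
    _ = 1 / s * (L - 1 + Real.exp (-L) * ∑ j, ∫ g, (Real.exp (inner ℝ (s • c j) g) +
        Real.exp (inner ℝ (-(s • c j)) g)) ∂(Gm I)) := by
        rw [integral_const_mul, integral_add (integrable_const _)
          ((integrable_finsetSum _ (fun j _ => hint j)).const_mul _), integral_const_mul,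
          integral_finsetSum _ (fun j _ => hint j)]
        simp
    _ ≤ 1 / s * (L - 1 + Real.exp (-L) * ∑ j : J, 2 * Real.exp (s ^ 2 * σ ^ 2 / 2)) := by
        gcongr with j
        exact hval j
    _ = 1 / s * L := by
        rw [Finset.sum_const, Finset.card_univ, nsmul_eq_mul]
        have e1 : (Fintype.card J : ℝ) * (2 * Real.exp (s ^ 2 * σ ^ 2 / 2)) = Real.exp L := by
          rw [hL, Real.exp_add, Real.exp_log (by linarith), hn]; ring
        rw [e1, ← Real.exp_add]
        simp
    _ = σ * Real.sqrt (2 * Real.log n) := by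
        rw [hL, hs2, hs]
        have h8 : Real.sqrt (2 * Real.log n) ≠ 0 := by positivity
        field_simp
        rw [Real.sq_sqrt (by positivity)]
        ring

end Pool.H102.SC
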