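import Mathlib

/-! # Nets of the unit ball of a finite-dimensional normed space -/

set_option autoImplicit false

namespace Pool.H102.SC

open Module

theorem exists_net (E : Type*) [NormedAddCommGroup E] [NormedSpace ℝ E] [FiniteDimensional ℝ E] :
    ∃ T : Finset E, (∀ t ∈ T, ‖t‖ ≤ 1) ∧ T.card ≤ 5 ^ finrank ℝ E ∧ T.Nonempty ∧
      ∀ x : E, ‖x‖ ≤ 1 → ∃ t ∈ T, ‖x - t‖ ≤ 1 / 2 := by
  classical
  let P : Finset E → Prop := fun s => (∀ c ∈ s, ‖c‖ ≤ 1) ∧
    ∀ c ∈ s, ∀ d ∈ s, c ≠ d → 1 / 2 ≤ ‖c - d‖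
  have hcard : ∀ s, P s → s.card ≤ 5 ^ finrank ℝ E := by
    intro s hs
    have h2 : (s.image (fun c => (2 : ℝ) • c)).card = s.card := by
      apply Finset.card_image_of_injective
      intro a b hab
      exact smul_right_injective E (by norm_num : (2 : ℝ) ≠ 0) hab
    rw [← h2]
    apply Besicovitch.card_le_of_separated
    · intro c hc
      obtain ⟨a, ha, rfl⟩ := Finset.mem_image.1 hc
      have := hs.1 a ha
      rw [norm_smul, Real.norm_of_nonneg (by norm_num : (0 : ℝ) ≤ 2)]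
      linarith
    · intro c hc d hd hcd
      obtain ⟨a, ha, rfl⟩ := Finset.mem_image.1 hc
      obtain ⟨b, hb, rfl⟩ := Finset.mem_image.1 hd
      have hab : a ≠ b := fun h => hcd (by rw [h])
      have := hs.2 a ha b hb hab
      rw [← smul_sub, norm_smul, Real.norm_of_nonneg (by norm_num : (0 : ℝ) ≤ 2)]
      linarith
  have hP0 : P {0} := by
    refine ⟨?_, ?_⟩
    · intro c hc
      rw [Finset.mem_singleton.1 hc]; simp
    · intro c hc d hd hcd
      exact absurd ((Finset.mem_singleton.1 hc).trans (Finset.mem_singleton.1 hd).symm) hcd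
  obtain ⟨s, hs, hmax⟩ : ∃ s, P s ∧ ∀ s', P s' → s'.card ≤ s.card := by
    have : Nonempty {s : Finset E // P s} := ⟨⟨{0}, hP0⟩⟩
    let f : {s : Finset E // P s} → ℕ := fun s => 5 ^ finrank ℝ E - s.1.card
    refine ⟨(Function.argmin f).1, (Function.argmin f).2, ?_⟩
    intro s' hs'
    have h1 := Function.argmin_le f (a := ⟨s', hs'⟩)
    have h2 := hcard s' hs'
    have h3 := hcard (Function.argmin f).1 (Function.argmin f).2
    have h4 : f (Function.argmin f) = 5 ^ finrank ℝ E - (Function.argmin f).1.card := rfl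
    have h5 : f ⟨s', hs'⟩ = 5 ^ finrank ℝ E - s'.card := rfl
    omega
  have hnet : ∀ x : E, ‖x‖ ≤ 1 → ∃ t ∈ s, ‖x - t‖ ≤ 1 / 2 := by
    intro x hx
    by_contra hcon
    push Not at hcon
    have hxs : x ∉ s := by
      intro hxs
      have := hcon x hxs
      simp at this
      linarith
    have hP' : P (insert x s) := by
      refine ⟨?_, ?_⟩
      · intro c hc
        rcases Finset.mem_insert.1 hc with rfl | hc
        · exact hx
        · exact hs.1 c hc
      · intro c hc d hd hcd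
        rcases Finset.mem_insert.1 hc with hc' | hc' <;>
          rcases Finset.mem_insert.1 hd with hd' | hd'
        · exact absurd (hc'.trans hd'.symm) hcd
        · rw [hc']; exact (hcon d hd').le
        · rw [hd', norm_sub_rev]; exact (hcon c hc').le
        · exact hs.2 c hc' d hd' hcd
    have := hmax _ hP'
    rw [Finset.card_insert_of_notMem hxs] at this
    omega
  refine ⟨s, hs.1, hcard s hs, ?_, hnet⟩
  obtain ⟨t, ht, -⟩ := hnet 0 (by simp)
  exact ⟨t, ht⟩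

theorem functional_bound {E : Type*} [NormedAddCommGroup E] [NormedSpace ℝ E]
    [FiniteDimensional ℝ E] (T : Finset E)
    (hT : ∀ x : E, ‖x‖ ≤ 1 → ∃ t ∈ T, ‖x - t‖ ≤ 1 / 2) (l : E →ₗ[ℝ] ℝ) (m : ℝ)
    (hm : ∀ t ∈ T, |l t| ≤ m) (x : E) (hx : ‖x‖ ≤ 1) : |l x| ≤ 2 * m := by
  let L : E →L[ℝ] ℝ := LinearMap.toContinuousLinearMap l
  have hL : ∀ x, L x = l x := fun x => rfl
  have hm0 : 0 ≤ m := by
    obtain ⟨t, ht, -⟩ := hT 0 (by simp)
    exact (abs_nonneg _).trans (hm t ht)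
  have h1 : ‖L‖ ≤ m + 1 / 2 * ‖L‖ := by
    apply ContinuousLinearMap.opNorm_le_of_unit_norm (by positivity)
    intro z hz
    obtain ⟨t, ht, hzt⟩ := hT z hz.le
    have e : L z = L t + L (z - t) := by rw [map_sub]; ring
    rw [e]
    calc ‖L t + L (z - t)‖ ≤ ‖L t‖ + ‖L (z - t)‖ := norm_add_le _ _
      _ ≤ m + ‖L‖ * ‖z - t‖ := by
          gcongr
          · rw [Real.norm_eq_abs, hL]; exact hm t ht
          · exact L.le_opNorm _
      _ ≤ m + ‖L‖ * (1 / 2) := by gcongr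
      _ = m + 1 / 2 * ‖L‖ := by ring
  have h2 : ‖L‖ ≤ 2 * m := by linarith
  calc |l x| = ‖L x‖ := by rw [Real.norm_eq_abs, hL]
    _ ≤ ‖L‖ * ‖x‖ := L.le_opNorm _
    _ ≤ ‖L‖ * 1 := by gcongr
    _ ≤ 2 * m := by linarith

/-- norm of a Euclidean vector through a net of the dual ball -/
theorem norm_le_net {k : ℕ} (T : Finset (EuclideanSpace ℝ (Fin k)))
    (hT : ∀ x : EuclideanSpace ℝ (Fin k), ‖x‖ ≤ 1 → ∃ t ∈ T, ‖x - t‖ ≤ 1 / 2)
    (v : EuclideanSpace ℝ (Fin k)) (m : ℝ) (hm : ∀ t ∈ T, |inner ℝ v t| ≤ m) : ‖v‖ ≤ 2 * m := by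
  have hm0 : 0 ≤ m := by
    obtain ⟨t, ht, -⟩ := hT 0 (by simp)
    exact (abs_nonneg _).trans (hm t ht)
  by_cases hv : v = 0
  · rw [hv, norm_zero]; linarith
  have hvn : 0 < ‖v‖ := norm_pos_iff.2 hv
  have h := functional_bound T hT ((innerSL ℝ v).toLinearMap) m (fun t ht => hm t ht)
    ((‖v‖)⁻¹ • v) (by rw [norm_smul, norm_inv, norm_norm, inv_mul_cancel₀ hvn.ne'])
  have h2 : (innerSL ℝ v).toLinearMap ((‖v‖)⁻¹ • v) = ‖v‖ := by
    show inner ℝ v ((‖v‖)⁻¹ • v) = ‖v‖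
    rw [inner_smul_right, real_inner_self_eq_norm_sq]
    field_simp
  rw [h2, abs_of_pos hvn] at h
  exact h

end Pool.H102.SC
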