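import Pool.Agent.H102R3.SCN
import Pool.Agent.H102R3.SCG

/-! # Decoupling and the two step bound for Wishart matrices -/

set_option autoImplicit false

namespace Pool.H102.SC

open MeasureTheory ProbabilityTheory

variable {ι : Type*} [Fintype ι] {k : ℕ}

/-- the matrix `g` acting on the vector `x` -/
noncomputable def act (g : EuclideanSpace ℝ (Fin k × ι)) (x : EuclideanSpace ℝ ι) :
    EuclideanSpace ℝ (Fin k) :=
  WithLp.toLp 2 (fun a => ∑ i, g (a, i) * x i)

/-- tensor product of two vectors -/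
noncomputable def tens (t : EuclideanSpace ℝ (Fin k)) (x : EuclideanSpace ℝ ι) :
    EuclideanSpace ℝ (Fin k × ι) :=
  WithLp.toLp 2 (fun p => t p.1 * x p.2)

theorem act_apply (g : EuclideanSpace ℝ (Fin k × ι)) (x : EuclideanSpace ℝ ι) (a : Fin k) :
    act g x a = ∑ i, g (a, i) * x i := rfl

theorem tens_apply (t : EuclideanSpace ℝ (Fin k)) (x : EuclideanSpace ℝ ι) (p : Fin k × ι) :
    tens t x p = t p.1 * x p.2 := rfl

theorem norm_tens (t : EuclideanSpace ℝ (Fin k)) (x : EuclideanSpace ℝ ι) :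
    ‖tens t x‖ = ‖t‖ * ‖x‖ := by
  rw [EuclideanSpace.norm_eq, EuclideanSpace.norm_eq, EuclideanSpace.norm_eq,
    ← Real.sqrt_mul (by positivity)]
  congr 1
  rw [Fintype.sum_prod_type, Finset.sum_mul_sum]
  apply Finset.sum_congr rfl; intro a _
  apply Finset.sum_congr rfl; intro i _
  rw [tens_apply]
  simp [mul_pow]

theorem inner_tens (t : EuclideanSpace ℝ (Fin k)) (x : EuclideanSpace ℝ ι)
    (g : EuclideanSpace ℝ (Fin k × ι)) : inner ℝ (tens t x) g = inner ℝ t (act g x) := by
  rw [PiLp.inner_apply, PiLp.inner_apply, Fintype.sum_prod_type]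
  apply Finset.sum_congr rfl; intro a _
  rw [act_apply]
  simp only [tens_apply, RCLike.inner_apply, conj_trivial]
  rw [Finset.sum_mul]
  apply Finset.sum_congr rfl; intro i _
  ring

theorem act_add (g h : EuclideanSpace ℝ (Fin k × ι)) (x : EuclideanSpace ℝ ι) :
    act (g + h) x = act g x + act h x := by
  ext a
  simp only [act_apply, PiLp.add_apply, ← Finset.sum_add_distrib]
  apply Finset.sum_congr rfl; intro i _
  ring

theorem act_smul (c : ℝ) (g : EuclideanSpace ℝ (Fin k × ι)) (x : EuclideanSpace ℝ ι) :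
    act (c • g) x = c • act g x := by
  ext a
  simp only [act_apply, PiLp.smul_apply, smul_eq_mul, Finset.mul_sum]
  apply Finset.sum_congr rfl; intro i _
  ring

theorem act_eq_inner (g : EuclideanSpace ℝ (Fin k × ι)) (x : EuclideanSpace ℝ ι) (a : Fin k) :
    act g x a = inner ℝ (tens (EuclideanSpace.single a (1 : ℝ)) x) g := by
  rw [inner_tens, EuclideanSpace.inner_single_left]
  simp

theorem inner_act_eq_sum (g h : EuclideanSpace ℝ (Fin k × ι)) (x y : EuclideanSpace ℝ ι) :
    inner ℝ (act g x) (act h y) = ∑ a, act g x a * act h y a := by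
  rw [PiLp.inner_apply]
  apply Finset.sum_congr rfl; intro a _
  simp [mul_comm]

theorem integrable_act (x : EuclideanSpace ℝ ι) (a : Fin k) :
    Integrable (fun g => act g x a) (Gm (Fin k × ι)) := by
  simp_rw [act_eq_inner]
  exact integrable_lin _

theorem memLp_lin {I : Type*} [Fintype I] (c : EuclideanSpace ℝ I) :
    MemLp (fun g => inner ℝ c g) 2 (Gm I) :=
  IsGaussian.memLp_dual (Gm I) (innerSL ℝ c) 2 (by norm_num)

theorem integrable_lin_mul {I : Type*} [Fintype I] (c d : EuclideanSpace ℝ I) :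
    Integrable (fun g => inner ℝ c g * inner ℝ d g) (Gm I) :=
  (memLp_lin c).integrable_mul (memLp_lin d)

theorem integral_lin_sq {I : Type*} [Fintype I] (c : EuclideanSpace ℝ I) :
    ∫ g, inner ℝ c g * inner ℝ c g ∂(Gm I) = ‖c‖ ^ 2 := by
  have h := variance_dual_stdGaussian (E := EuclideanSpace ℝ I) (innerSL ℝ c)
  rw [variance_eq_integral (by fun_prop), integral_strongDual_stdGaussian, innerSL_apply_norm] at h
  rw [← h]
  apply integral_congr_ae
  filter_upwards with g
  simp [pow_two]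

theorem integral_lin_mul {I : Type*} [Fintype I] (c d : EuclideanSpace ℝ I) :
    ∫ g, inner ℝ c g * inner ℝ d g ∂(Gm I) = inner ℝ c d := by
  have h1 := integral_lin_sq (c + d)
  have h2 := integral_lin_sq (c - d)
  have e : ∀ g : EuclideanSpace ℝ I, inner ℝ c g * inner ℝ d g =
      1 / 4 * (inner ℝ (c + d) g * inner ℝ (c + d) g - inner ℝ (c - d) g * inner ℝ (c - d) g) := by
    intro g
    rw [inner_add_left, inner_sub_left]; ring
  simp_rw [e]
  rw [integral_const_mul, integral_sub (integrable_lin_mul _ _) (integrable_lin_mul _ _), h1, h2,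
    norm_add_sq_real, norm_sub_sq_real]
  ring

theorem integrable_inner_act (x y : EuclideanSpace ℝ ι) :
    Integrable (fun g => inner ℝ (act g x) (act g y)) (Gm (Fin k × ι)) := by
  simp_rw [inner_act_eq_sum, act_eq_inner]
  exact integrable_finsetSum _ (fun a _ => integrable_lin_mul _ _)

theorem inner_tens_tens (s t : EuclideanSpace ℝ (Fin k)) (x y : EuclideanSpace ℝ ι) :
    inner ℝ (tens s x) (tens t y) = inner ℝ s t * inner ℝ x y := by
  rw [PiLp.inner_apply, PiLp.inner_apply, PiLp.inner_apply, Fintype.sum_prod_type,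
    Finset.sum_mul_sum]
  apply Finset.sum_congr rfl; intro a _
  apply Finset.sum_congr rfl; intro i _
  simp only [tens_apply, RCLike.inner_apply, conj_trivial]
  ring

theorem integral_inner_act (x y : EuclideanSpace ℝ ι) :
    ∫ g, inner ℝ (act g x) (act g y) ∂(Gm (Fin k × ι)) = k * inner ℝ x y := by
  simp_rw [inner_act_eq_sum, act_eq_inner]
  rw [integral_finsetSum _ (fun a _ => integrable_lin_mul _ _)]
  simp_rw [integral_lin_mul, inner_tens_tens]
  simp

variable {J₁ J₂ : Type*} [Fintype J₁] [Fintype J₂]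

/-- the decoupled family -/
noncomputable def Zf (x : J₁ → EuclideanSpace ℝ ι) (y : J₂ → EuclideanSpace ℝ ι)
    (g h : EuclideanSpace ℝ (Fin k × ι)) : J₁ × J₂ → ℝ :=
  fun p => inner ℝ (act g (x p.1)) (act h (y p.2))

/-- the centred family -/
noncomputable def Df (x : J₁ → EuclideanSpace ℝ ι) (y : J₂ → EuclideanSpace ℝ ι)
    (g : EuclideanSpace ℝ (Fin k × ι)) : J₁ × J₂ → ℝ :=
  fun p => inner ℝ (act g (x p.1)) (act g (y p.2)) - k * inner ℝ (x p.1) (y p.2)

theorem integrable_Zf (x : J₁ → EuclideanSpace ℝ ι) (y : J₂ → EuclideanSpace ℝ ι) :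
    Integrable (fun z : EuclideanSpace ℝ (Fin k × ι) × EuclideanSpace ℝ (Fin k × ι) =>
      ‖Zf x y z.1 z.2‖) ((Gm (Fin k × ι)).prod (Gm (Fin k × ι))) := by
  apply Integrable.norm
  apply Integrable.of_eval
  intro p
  simp only [Zf, inner_act_eq_sum]
  exact integrable_finsetSum _ (fun a _ => (integrable_act _ a).mul_prod (integrable_act _ a))

theorem two_step [Nonempty J₁] [Nonempty J₂] (x : J₁ → EuclideanSpace ℝ ι)
    (y : J₂ → EuclideanSpace ℝ ι) (α β : ℝ) (hα0 : 0 ≤ α) (hβ0 : 0 ≤ β) (hα : ∀ j, ‖x j‖ ≤ α)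
    (hβ : ∀ j, ‖y j‖ ≤ β) :
    ∫ z, ‖Zf x y z.1 z.2‖ ∂((Gm (Fin k × ι)).prod (Gm (Fin k × ι))) ≤
      α * Real.sqrt (2 * Real.log (2 * (Fintype.card J₁ * Fintype.card J₂))) *
        (2 * (β * Real.sqrt (2 * Real.log (2 * (Fintype.card J₂ * 5 ^ k))))) := by
  classical
  obtain ⟨T, hT1, hTc, hTne, hTnet⟩ := exists_net (EuclideanSpace ℝ (Fin k))
  have : Nonempty T := hTne.to_subtype
  rw [integral_prod_symm _ (integrable_Zf x y)]
  set S1 : ℝ := Real.sqrt (2 * Real.log (2 * (Fintype.card J₁ * Fintype.card J₂))) with hS1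
  set W : EuclideanSpace ℝ (Fin k × ι) → J₂ × T → ℝ := fun h p =>
    inner ℝ (tens (p.2 : EuclideanSpace ℝ (Fin k)) (y p.1)) h with hW
  have hact : ∀ (h : EuclideanSpace ℝ (Fin k × ι)) (l : J₂), ‖act h (y l)‖ ≤ 2 * ‖W h‖ := by
    intro h l
    apply norm_le_net T hTnet
    intro t ht
    rw [real_inner_comm, ← inner_tens]
    exact norm_le_pi_norm (W h) (l, ⟨t, ht⟩)
  have hinner : ∀ h : EuclideanSpace ℝ (Fin k × ι), ∫ g, ‖Zf x y g h‖ ∂(Gm (Fin k × ι)) ≤
      (2 * ‖W h‖ * α) * S1 := by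
    intro h
    have e : ∀ g, Zf x y g h = fun p : J₁ × J₂ => inner ℝ (tens (act h (y p.2)) (x p.1)) g := by
      intro g
      funext p
      rw [Zf, inner_tens, real_inner_comm]
    simp_rw [e]
    refine (max_le _ (2 * ‖W h‖ * α) (by positivity) ?_).trans ?_
    · intro p
      rw [norm_tens]
      exact mul_le_mul (hact h p.2) (hα p.1) (norm_nonneg _) (by positivity)
    · rw [Fintype.card_prod, Nat.cast_mul]
  have hWint : Integrable (fun h => ‖W h‖) (Gm (Fin k × ι)) :=
    integrable_norm_family (fun p : J₂ × T => tens (p.2 : EuclideanSpace ℝ (Fin k)) (y p.1))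
  have hWbd : ∫ h, ‖W h‖ ∂(Gm (Fin k × ι)) ≤
      β * Real.sqrt (2 * Real.log (2 * (Fintype.card J₂ * 5 ^ k))) := by
    refine (max_le (fun p : J₂ × T => tens (p.2 : EuclideanSpace ℝ (Fin k)) (y p.1)) β hβ0
      ?_).trans ?_
    · intro p
      rw [norm_tens]
      calc ‖(p.2 : EuclideanSpace ℝ (Fin k))‖ * ‖y p.1‖ ≤ 1 * β :=
            mul_le_mul (hT1 _ p.2.2) (hβ _) (norm_nonneg _) zero_le_one
        _ = β := one_mul _
    · have h1 : (Fintype.card (J₂ × T) : ℝ) ≤ Fintype.card J₂ * 5 ^ k := by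
        rw [Fintype.card_prod, Nat.cast_mul, Fintype.card_coe]
        have : (T.card : ℝ) ≤ 5 ^ k := by
          have h5 : T.card ≤ 5 ^ k := by simpa using hTc
          exact_mod_cast h5
        gcongr
      have h2 : (0 : ℝ) < Fintype.card (J₂ × T) := by exact_mod_cast Fintype.card_pos
      gcongr
  calc ∫ h, ∫ g, ‖Zf x y g h‖ ∂(Gm (Fin k × ι)) ∂(Gm (Fin k × ι))
      ≤ ∫ h, (2 * ‖W h‖ * α) * S1 ∂(Gm (Fin k × ι)) := by
        apply integral_mono _ _ hinner
        · exact (integrable_Zf x y).integral_prod_right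
        · have : (fun h => (2 * ‖W h‖ * α) * S1) = fun h => (2 * α * S1) * ‖W h‖ := by
            funext h; ring
          rw [this]
          exact hWint.const_mul _
    _ = α * S1 * (2 * ∫ h, ‖W h‖ ∂(Gm (Fin k × ι))) := by
        have : (fun h => (2 * ‖W h‖ * α) * S1) = fun h => (2 * α * S1) * ‖W h‖ := by
          funext h; ring
        rw [this, integral_const_mul]; ring
    _ ≤ α * S1 * (2 * (β * Real.sqrt (2 * Real.log (2 * (Fintype.card J₂ * 5 ^ k))))) := by
        gcongr

theorem integrable_Df (x : J₁ → EuclideanSpace ℝ ι) (y : J₂ → EuclideanSpace ℝ ι) :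
    Integrable (fun g => ‖Df (k := k) x y g‖) (Gm (Fin k × ι)) := by
  apply Integrable.norm
  apply Integrable.of_eval
  intro p
  exact (integrable_inner_act _ _).sub (integrable_const _)

theorem norm_swap (x : J₁ → EuclideanSpace ℝ ι) (y : J₂ → EuclideanSpace ℝ ι)
    (g h : EuclideanSpace ℝ (Fin k × ι)) : ‖Zf x y g h‖ = ‖Zf y x h g‖ := by
  apply le_antisymm
  · rw [pi_norm_le_iff_of_nonneg (norm_nonneg _)]
    intro p
    have := norm_le_pi_norm (Zf y x h g) (p.2, p.1)
    rw [Zf] at this ⊢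
    rw [real_inner_comm]
    exact this
  · rw [pi_norm_le_iff_of_nonneg (norm_nonneg _)]
    intro p
    have := norm_le_pi_norm (Zf x y g h) (p.2, p.1)
    rw [Zf] at this ⊢
    rw [real_inner_comm]
    exact this

/-- decoupling -/
theorem decouple (x : J₁ → EuclideanSpace ℝ ι) (y : J₂ → EuclideanSpace ℝ ι) :
    ∫ g, ‖Df (k := k) x y g‖ ∂(Gm (Fin k × ι)) ≤
      ∫ z, ‖Zf x y z.1 z.2‖ ∂((Gm (Fin k × ι)).prod (Gm (Fin k × ι))) +
      ∫ z, ‖Zf y x z.1 z.2‖ ∂((Gm (Fin k × ι)).prod (Gm (Fin k × ι))) := by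
  set μ := Gm (Fin k × ι) with hμ
  set F1 : EuclideanSpace ℝ (Fin k × ι) × EuclideanSpace ℝ (Fin k × ι) → J₁ × J₂ → ℝ :=
    fun z p => inner ℝ (act z.1 (x p.1)) (act z.1 (y p.2)) -
      inner ℝ (act z.2 (x p.1)) (act z.2 (y p.2)) with hF1
  have hF1int : ∀ p, Integrable (fun z => F1 z p) (μ.prod μ) := by
    intro p
    have h1 : Integrable (fun z : EuclideanSpace ℝ (Fin k × ι) × EuclideanSpace ℝ (Fin k × ι) =>
      inner ℝ (act z.1 (x p.1)) (act z.1 (y p.2))) (μ.prod μ) :=
      (integrable_inner_act (x p.1) (y p.2)).comp_fst _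
    have h2 : Integrable (fun z : EuclideanSpace ℝ (Fin k × ι) × EuclideanSpace ℝ (Fin k × ι) =>
      inner ℝ (act z.2 (x p.1)) (act z.2 (y p.2))) (μ.prod μ) :=
      (integrable_inner_act (x p.1) (y p.2)).comp_snd _
    exact h1.sub h2
  have hF1n : Integrable (fun z => ‖F1 z‖) (μ.prod μ) :=
    (Integrable.of_eval hF1int).norm
  -- step 1
  have h1 : ∫ g, ‖Df (k := k) x y g‖ ∂μ ≤ ∫ z, ‖F1 z‖ ∂(μ.prod μ) := by
    rw [integral_prod _ hF1n]
    have hae : ∀ᵐ g ∂μ, Integrable (fun h => ‖F1 (g, h)‖) μ := hF1n.prod_right_ae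
    apply integral_mono_ae (integrable_Df x y) hF1n.integral_prod_left
    filter_upwards [hae] with g hg
    have hnn : 0 ≤ ∫ h, ‖F1 (g, h)‖ ∂μ := integral_nonneg (fun h => norm_nonneg _)
    rw [pi_norm_le_iff_of_nonneg hnn]
    intro p
    have e : Df (k := k) x y g p = ∫ h, F1 (g, h) p ∂μ := by
      have : (fun h => F1 (g, h) p) = fun h => inner ℝ (act g (x p.1)) (act g (y p.2)) -
        inner ℝ (act h (x p.1)) (act h (y p.2)) := rfl
      rw [this, integral_sub (integrable_const _) (integrable_inner_act _ _),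
        integral_inner_act]
      simp [Df]
    rw [e]
    refine (norm_integral_le_integral_norm _).trans ?_
    apply integral_mono_of_nonneg
    · filter_upwards with h; exact norm_nonneg _
    · exact hg
    · filter_upwards with h
      exact norm_le_pi_norm (F1 (g, h)) p
  -- step 2 : rotation
  have hrot : (μ.prod μ).map (ContinuousLinearMap.rotation (Real.pi / 4)) = μ.prod μ := by
    apply IsGaussian.map_rotation_eq_self
    exact integral_id_stdGaussian
  have h2 : ∫ z, ‖F1 z‖ ∂(μ.prod μ) =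
      ∫ z, ‖Zf x y z.1 z.2 + Zf x y z.2 z.1‖ ∂(μ.prod μ) := by
    conv_lhs => rw [← hrot]
    rw [integral_map (by fun_prop)]
    · apply integral_congr_ae
      filter_upwards with z
      congr 1
      funext p
      rw [ContinuousLinearMap.rotation_apply]
      simp only [hF1, Zf, Pi.add_apply, act_add, act_smul, Real.cos_pi_div_four,
        Real.sin_pi_div_four, inner_add_left, inner_add_right, real_inner_smul_left,
        real_inner_smul_right]
      have hs : Real.sqrt 2 * Real.sqrt 2 = 2 := Real.mul_self_sqrt (by norm_num)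
      have e1 : Real.sqrt 2 / 2 * (Real.sqrt 2 / 2) = 1 / 2 := by
        rw [div_mul_div_comm, hs]; norm_num
      have e2 : ∀ a : ℝ, Real.sqrt 2 / 2 * (Real.sqrt 2 / 2 * a) = 1 / 2 * a := by
        intro a; rw [← mul_assoc, e1]
      simp only [e2, neg_mul, mul_neg]
      ring
    · rw [hrot]; exact hF1n.aestronglyMeasurable
  have hswap : ∀ z : EuclideanSpace ℝ (Fin k × ι) × EuclideanSpace ℝ (Fin k × ι),
      ‖Zf x y z.2 z.1‖ = ‖Zf y x z.1 z.2‖ := fun z => norm_swap x y z.2 z.1
  calc ∫ g, ‖Df (k := k) x y g‖ ∂μ ≤ ∫ z, ‖F1 z‖ ∂(μ.prod μ) := h1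
    _ = ∫ z, ‖Zf x y z.1 z.2 + Zf x y z.2 z.1‖ ∂(μ.prod μ) := h2
    _ ≤ ∫ z, (‖Zf x y z.1 z.2‖ + ‖Zf y x z.1 z.2‖) ∂(μ.prod μ) := by
        apply integral_mono_of_nonneg
        · filter_upwards with z; exact norm_nonneg _
        · exact (integrable_Zf x y).add (integrable_Zf y x)
        · filter_upwards with z
          rw [← hswap z]
          exact norm_add_le _ _
    _ = _ := integral_add (integrable_Zf x y) (integrable_Zf y x)

end Pool.H102.SC
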