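import Pool.Agent.H102R3.SCZ

/-! # The final bound -/

set_option autoImplicit false

namespace Pool.H102.SC

open Matrix MeasureTheory ProbabilityTheory

theorem approxNum_le_one {N : ℕ} (p q : ℝ) (hp : 0 < p) (hpq : p ≤ q) (n : ℕ) (hn : 1 ≤ n) :
    approxNum N p q n ≤ 1 := by
  apply approxNum_le p q n 1 zero_le_one 0
  · rw [LinearMap.range_zero, finrank_bot]; omega
  · intro A
    rw [LinearMap.zero_apply, sub_zero, one_mul]
    exact schatten_anti p q hp hpq A

set_option maxHeartbeats 2000000 in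
theorem final (c : ℝ) (hc0 : 0 < c) (hc1 : c < 1) (p q : ℝ) (hp1 : 1 < p) (hp2 : p ≤ 2)
    (hq2 : 2 ≤ q) : ∃ C : ℝ, ∀ N n : ℕ, 1 ≤ N → (1 - c) * (N : ℝ) ^ 2 ≤ n →
      (n : ℝ) ≤ (N : ℝ) ^ 2 - c * (N : ℝ) ^ (lam p q) + 1 →
      approxNum N p q n ≤
        C * (N : ℝ) ^ (lam p q / 2 - 2) * Real.sqrt ((N : ℝ) ^ 2 - n + 1) := by
  have hp0 : 0 < p := by linarith
  have hq0' : 0 < q := by linarith
  -- the diagonal exponent
  set t : ℝ := max (1 / q) (1 - 1 / p) with ht
  have htq : 1 / q ≤ t := le_max_left _ _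
  have htp : 1 - 1 / p ≤ t := le_max_right _ _
  have ht0 : 0 < t := lt_of_lt_of_le (by positivity) htq
  have ht2 : t ≤ 1 / 2 := by
    apply _root_.max_le
    · exact one_div_le_one_div_of_le (by norm_num) hq2
    · have : 1 / 2 ≤ 1 / p := one_div_le_one_div_of_le hp0 hp2
      linarith
  have hlam : lam p q = 1 + 2 * t := by
    rw [lam, ht]
    rcases le_total (1 / q) (1 - 1 / p) with h | h
    · rw [max_eq_right h, max_eq_left]
      · ring
      · have e1 : 2 / q = 2 * (1 / q) := by ring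
        have e2 : 2 / p = 2 * (1 / p) := by ring
        rw [e1, e2]; linarith
    · rw [max_eq_left h, max_eq_right]
      · ring
      · have e1 : 2 / q = 2 * (1 / q) := by ring
        have e2 : 2 / p = 2 * (1 / p) := by ring
        rw [e1, e2]; linarith
  set w : ℝ := lam p q with hw
  have hl1 : 1 ≤ w := by rw [hlam]; linarith
  have hl2 : w ≤ 2 := by rw [hlam]; linarith
  -- constant of the main construction
  obtain ⟨C', hC'0, hC'⟩ : ∃ C' : ℝ, 0 ≤ C' ∧ (t < 1 / 2 → ∀ N k : ℕ, 1 ≤ N → 1 ≤ k →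
      k < N * N → ∃ S : Matrix (Fin N) (Fin N) ℝ →ₗ[ℝ] Matrix (Fin N) (Fin N) ℝ,
        Module.finrank ℝ (LinearMap.range S) ≤ N * N - k ∧
        ∀ A, schatten q (A - S A) ≤ C' / ((N : ℝ) * N - k) *
          ((N : ℝ) ^ w + Real.sqrt k * (N : ℝ) ^ (w / 2)) * schatten p A) := by
    by_cases h : t < 1 / 2
    · have hq₀ : 2 < 1 / t := by
        rw [lt_div_iff₀ ht0]; linarith
      have ht1 : 0 < 1 - t := by linarith
      obtain ⟨C', hC'0, hC'⟩ := main_diag (1 / (1 - t)) (1 / t) hq₀ (by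
        rw [one_div_one_div, one_div_one_div]; ring)
      refine ⟨C', hC'0, fun _ N k hN hk hkN => ?_⟩
      obtain ⟨S, hS1, hS2⟩ := hC' N k hN hk hkN
      refine ⟨S, hS1, fun A => ?_⟩
      have hNR : (1 : ℝ) ≤ N := by exact_mod_cast hN
      have hD : (0 : ℝ) < N * N - k := by
        have : (k : ℝ) < N * N := by exact_mod_cast hkN
        linarith
      have e1 : (1 : ℝ) + 2 / (1 / t) = w := by rw [hlam]; field_simp
      have e2 : (1 : ℝ) / 2 + 1 / (1 / t) = w / 2 := by rw [hlam]; field_simp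
      have h1 := hS2 A
      rw [e1, e2] at h1
      have h2 : schatten q (A - S A) ≤ schatten (1 / t) (A - S A) := by
        apply schatten_anti _ _ (by positivity)
        rw [div_le_iff₀ ht0]
        have := mul_le_mul_of_nonneg_left htq hq0'.le
        rw [mul_one_div_cancel hq0'.ne'] at this
        linarith
      have h3 : schatten (1 / (1 - t)) A ≤ schatten p A := by
        apply schatten_anti _ _ hp0
        rw [le_div_iff₀ ht1]
        have h4 : 1 - t ≤ 1 / p := by linarith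
        have := mul_le_mul_of_nonneg_left h4 hp0.le
        rw [mul_one_div_cancel hp0.ne'] at this
        linarith
      refine h2.trans (h1.trans ?_)
      apply mul_le_mul_of_nonneg_left h3
      positivity
    · exact ⟨0, le_refl _, fun h' => absurd h' h⟩
  set C : ℝ := 1 / Real.sqrt c + 2 / (1 - c) + C' * (2 / (1 - c)) * (1 / Real.sqrt c + 1) with hC
  have hsc : 0 < Real.sqrt c := Real.sqrt_pos.2 hc0
  have h1c : 0 < 1 - c := by linarith
  have hCa : 0 ≤ 1 / Real.sqrt c := by positivity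
  have hCb : 0 ≤ 2 / (1 - c) := by positivity
  have hCc : 0 ≤ C' * (2 / (1 - c)) * (1 / Real.sqrt c + 1) := by positivity
  have hC0 : 0 ≤ C := by rw [hC]; linarith
  refine ⟨C, ?_⟩
  intro N n hN hn1 hn2
  have hNR : (1 : ℝ) ≤ N := by exact_mod_cast hN
  have hN0 : (0 : ℝ) < N := by linarith
  have hNl : 0 < (N : ℝ) ^ w := Real.rpow_pos_of_pos hN0 _
  have hn0 : 1 ≤ n := by
    have : (0 : ℝ) < n := lt_of_lt_of_le (by positivity) hn1
    exact_mod_cast this
  have hnN : n ≤ N * N := by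
    have h1 : (n : ℝ) < (N : ℝ) ^ 2 + 1 := by
      have : 0 < c * (N : ℝ) ^ w := by positivity
      linarith
    have h2 : (n : ℝ) < ((N * N + 1 : ℕ) : ℝ) := by push_cast; nlinarith
    have h3 : n < N * N + 1 := by exact_mod_cast h2
    omega
  set k : ℕ := N * N + 1 - n with hk
  have hk1 : 1 ≤ k := by omega
  have hkR : (k : ℝ) = (N : ℝ) ^ 2 - n + 1 := by
    rw [hk, Nat.cast_sub (by omega)]
    push_cast; ring
  rw [← hkR]
  have hkR1 : (1 : ℝ) ≤ k := by exact_mod_cast hk1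
  have hkc : c * (N : ℝ) ^ w ≤ k := by rw [hkR]; linarith
  have hkc2 : (k : ℝ) ≤ c * (N : ℝ) ^ 2 + 1 := by rw [hkR]; linarith
  have hsk : 1 ≤ Real.sqrt k := by
    rw [Real.one_le_sqrt]; exact hkR1
  have hpow0 : 0 < (N : ℝ) ^ (w / 2 - 2) := Real.rpow_pos_of_pos hN0 _
  have htriv : approxNum N p q n ≤ 1 := approxNum_le_one p q hp0 (by linarith) n hn0
  have hsqk : Real.sqrt c * (N : ℝ) ^ (w / 2) ≤ Real.sqrt k := by
    have h1 : Real.sqrt c * (N : ℝ) ^ (w / 2) = Real.sqrt (c * (N : ℝ) ^ w) := by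
      rw [Real.sqrt_mul hc0.le, Real.sqrt_eq_rpow ((N : ℝ) ^ w), ← Real.rpow_mul hN0.le]
      congr 2; ring
    rw [h1]
    exact Real.sqrt_le_sqrt hkc
  by_cases hcase : t < 1 / 2
  · by_cases hk2 : (k : ℝ) ≤ (1 + c) / 2 * (N : ℝ) ^ 2
    · -- main case
      have hkN : k < N * N := by
        have h1 : (k : ℝ) < (N : ℝ) ^ 2 := by
          have : (1 + c) / 2 * (N : ℝ) ^ 2 < 1 * (N : ℝ) ^ 2 := by
            apply mul_lt_mul_of_pos_right _ (by positivity)
            linarith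
          linarith
        have h2 : (k : ℝ) < ((N * N : ℕ) : ℝ) := by push_cast; nlinarith
        exact_mod_cast h2
      obtain ⟨S, hS1, hS2⟩ := hC' hcase N k hN hk1 hkN
      have hD : (1 - c) / 2 * (N : ℝ) ^ 2 ≤ (N : ℝ) * N - k := by nlinarith
      have hD0 : 0 < (1 - c) / 2 * (N : ℝ) ^ 2 := by positivity
      have hDpos : 0 < (N : ℝ) * N - k := lt_of_lt_of_le hD0 hD
      have hb : approxNum N p q n ≤ C' / ((N : ℝ) * N - k) *
          ((N : ℝ) ^ w + Real.sqrt k * (N : ℝ) ^ (w / 2)) := by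
        apply approxNum_le p q n _ _ S _ hS2
        · have := Real.sqrt_nonneg (k : ℝ)
          positivity
        · have : N * N - k < n := by omega
          exact lt_of_le_of_lt hS1 this
      refine hb.trans ?_
      have e1 : (N : ℝ) ^ w = (N : ℝ) ^ (w / 2) * (N : ℝ) ^ (w / 2) := by
        rw [← Real.rpow_add hN0]; congr 1; ring
      have h2 : (N : ℝ) ^ w ≤ (1 / Real.sqrt c) * (Real.sqrt k * (N : ℝ) ^ (w / 2)) := by
        rw [e1]
        have h3 : (N : ℝ) ^ (w / 2) ≤ 1 / Real.sqrt c * Real.sqrt k := by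
          rw [div_mul_eq_mul_div, one_mul, le_div_iff₀ hsc, mul_comm]
          exact hsqk
        have h4 : 0 ≤ (N : ℝ) ^ (w / 2) := (Real.rpow_pos_of_pos hN0 _).le
        calc (N : ℝ) ^ (w / 2) * (N : ℝ) ^ (w / 2)
            ≤ (1 / Real.sqrt c * Real.sqrt k) * (N : ℝ) ^ (w / 2) :=
              mul_le_mul_of_nonneg_right h3 h4
          _ = _ := by ring
      have e5 : (N : ℝ) ^ (w / 2) / (N : ℝ) ^ 2 = (N : ℝ) ^ (w / 2 - 2) := by
        rw [Real.rpow_sub hN0]
        congr 1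
        exact (Real.rpow_natCast (N : ℝ) 2).symm
      have hX : 0 ≤ Real.sqrt k * (N : ℝ) ^ (w / 2) :=
        mul_nonneg (Real.sqrt_nonneg _) (Real.rpow_pos_of_pos hN0 _).le
      calc C' / ((N : ℝ) * N - k) * ((N : ℝ) ^ w + Real.sqrt k * (N : ℝ) ^ (w / 2))
          ≤ C' / ((1 - c) / 2 * (N : ℝ) ^ 2) *
            ((1 / Real.sqrt c) * (Real.sqrt k * (N : ℝ) ^ (w / 2)) +
              Real.sqrt k * (N : ℝ) ^ (w / 2)) := by
            apply mul_le_mul
            · exact div_le_div_of_nonneg_left hC'0 hD0 hD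
            · linarith
            · linarith [hNl.le]
            · positivity
        _ = C' * (2 / (1 - c)) * (1 / Real.sqrt c + 1) *
            ((N : ℝ) ^ (w / 2) / (N : ℝ) ^ 2) * Real.sqrt k := by
            field_simp
        _ = C' * (2 / (1 - c)) * (1 / Real.sqrt c + 1) *
            (N : ℝ) ^ (w / 2 - 2) * Real.sqrt k := by rw [e5]
        _ ≤ C * (N : ℝ) ^ (w / 2 - 2) * Real.sqrt k := by
            apply mul_le_mul_of_nonneg_right _ (Real.sqrt_nonneg _)
            apply mul_le_mul_of_nonneg_right _ hpow0.le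
            rw [hC]; linarith
    · -- small N
      push Not at hk2
      have h1 : (1 - c) / 2 * (N : ℝ) ^ 2 ≤ 1 := by nlinarith
      refine htriv.trans ?_
      have h2 : (N : ℝ) ^ (-(2 : ℝ)) ≤ (N : ℝ) ^ (w / 2 - 2) :=
        Real.rpow_le_rpow_of_exponent_le hNR (by linarith)
      have h3 : (N : ℝ) ^ (-(2 : ℝ)) = 1 / (N : ℝ) ^ 2 := by
        rw [Real.rpow_neg hN0.le, one_div]
        congr 1
        exact Real.rpow_natCast (N : ℝ) 2
      have h4 : (1 - c) / 2 ≤ (N : ℝ) ^ (w / 2 - 2) := by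
        refine le_trans ?_ h2
        rw [h3, le_div_iff₀ (by positivity)]
        exact h1
      have h5 : (1 : ℝ) = 2 / (1 - c) * ((1 - c) / 2) * 1 := by field_simp
      calc (1 : ℝ) = 2 / (1 - c) * ((1 - c) / 2) * 1 := h5
        _ ≤ C * (N : ℝ) ^ (w / 2 - 2) * Real.sqrt k := by
          apply mul_le_mul _ hsk zero_le_one (by positivity)
          apply mul_le_mul _ h4 (by positivity) hC0
          rw [hC]; linarith
  · -- t = 1/2
    have ht' : t = 1 / 2 := le_antisymm ht2 (not_lt.1 hcase)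
    have hw2 : w = 2 := by rw [hlam, ht']; norm_num
    refine htriv.trans ?_
    rw [hw2] at hsqk ⊢
    have e1 : (N : ℝ) ^ ((2 : ℝ) / 2) = N := by norm_num
    have e2 : (N : ℝ) ^ ((2 : ℝ) / 2 - 2) = (N : ℝ)⁻¹ := by
      rw [show (2 : ℝ) / 2 - 2 = -1 by norm_num, Real.rpow_neg_one]
    rw [e1] at hsqk
    rw [e2]
    have h1 : 1 ≤ (1 / Real.sqrt c) * (N : ℝ)⁻¹ * Real.sqrt k := by
      have h2 : (1 / Real.sqrt c) * (N : ℝ)⁻¹ * (Real.sqrt c * N) = 1 := by field_simp
      calc (1 : ℝ) = (1 / Real.sqrt c) * (N : ℝ)⁻¹ * (Real.sqrt c * N) := h2.symm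
        _ ≤ _ := mul_le_mul_of_nonneg_left hsqk (by positivity)
    refine h1.trans ?_
    apply mul_le_mul_of_nonneg_right _ (Real.sqrt_nonneg _)
    apply mul_le_mul_of_nonneg_right _ (by positivity)
    rw [hC]; linarith

end Pool.H102.SC
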