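import Pool.Agent.H102R3.SCF

/-! # Approximation numbers of Schatten class identities -/

set_option autoImplicit false

namespace Pool.H102.SC

open Matrix MeasureTheory ProbabilityTheory

/-- the `n`-th approximation number of the identity `S_p^N → S_q^N` -/
noncomputable def approxNum (N : ℕ) (p q : ℝ) (n : ℕ) : ℝ :=
  sInf {ε : ℝ | 0 ≤ ε ∧ ∃ S : Matrix (Fin N) (Fin N) ℝ →ₗ[ℝ] Matrix (Fin N) (Fin N) ℝ,
    Module.finrank ℝ (LinearMap.range S) < n ∧
    ∀ A, schatten q (A - S A) ≤ ε * schatten p A}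

/-- the exponent `λ_{p,q}` -/
noncomputable def lam (p q : ℝ) : ℝ := max (3 - 2 / p) (1 + 2 / q)

variable {N : ℕ}

theorem approxNum_le (p q : ℝ) (n : ℕ) (ε : ℝ) (hε : 0 ≤ ε)
    (S : Matrix (Fin N) (Fin N) ℝ →ₗ[ℝ] Matrix (Fin N) (Fin N) ℝ)
    (hS : Module.finrank ℝ (LinearMap.range S) < n)
    (h : ∀ A, schatten q (A - S A) ≤ ε * schatten p A) : approxNum N p q n ≤ ε :=
  csInf_le ⟨0, fun _ hx => hx.1⟩ ⟨hε, S, hS, h⟩

theorem lp_anti (τ : Fin N → ℝ) (hτ : ∀ i, 0 ≤ τ i) (s t : ℝ) (hs : 0 < s) (hst : s ≤ t) :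
    (∑ i, τ i ^ t) ^ (1 / t) ≤ (∑ i, τ i ^ s) ^ (1 / s) := by
  have ht : 0 < t := by linarith
  set Ss : ℝ := ∑ i, τ i ^ s with hSs
  have hS0 : 0 ≤ Ss := Finset.sum_nonneg (fun i _ => Real.rpow_nonneg (hτ i) _)
  have hSt0 : 0 ≤ ∑ i, τ i ^ t := Finset.sum_nonneg (fun i _ => Real.rpow_nonneg (hτ i) _)
  set M : ℝ := Ss ^ (1 / s) with hM
  have hM0 : 0 ≤ M := Real.rpow_nonneg hS0 _
  have hMs : M ^ s = Ss := by
    rw [hM, ← Real.rpow_mul hS0, one_div_mul_cancel hs.ne', Real.rpow_one]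
  have hle : ∀ i, τ i ≤ M := by
    intro i
    have h1 : τ i ^ s ≤ M ^ s := by
      rw [hMs]
      exact Finset.single_le_sum (f := fun i => τ i ^ s)
        (fun j _ => Real.rpow_nonneg (hτ j) _) (Finset.mem_univ i)
    exact (Real.rpow_le_rpow_iff (hτ i) hM0 hs).1 h1
  have h2 : ∑ i, τ i ^ t ≤ M ^ t := by
    calc ∑ i, τ i ^ t ≤ ∑ i, M ^ (t - s) * τ i ^ s := by
          apply Finset.sum_le_sum; intro i _
          by_cases h0 : τ i = 0
          · rw [h0, Real.zero_rpow ht.ne', Real.zero_rpow hs.ne', mul_zero]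
          · have h3 : τ i ^ t = τ i ^ (t - s) * τ i ^ s := by
              rw [← Real.rpow_add (lt_of_le_of_ne (hτ i) (Ne.symm h0))]; congr 1; ring
            rw [h3]
            exact mul_le_mul_of_nonneg_right
              (Real.rpow_le_rpow (hτ i) (hle i) (by linarith)) (Real.rpow_nonneg (hτ i) _)
      _ = M ^ (t - s) * M ^ s := by rw [← Finset.mul_sum, hMs]
      _ ≤ M ^ t := by
          rcases hM0.eq_or_lt with h0 | h0
          · rw [← h0, Real.zero_rpow hs.ne', mul_zero, Real.zero_rpow ht.ne']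
          · rw [← Real.rpow_add h0]; apply le_of_eq; congr 1; ring
  calc (∑ i, τ i ^ t) ^ (1 / t) ≤ (M ^ t) ^ (1 / t) :=
        Real.rpow_le_rpow hSt0 h2 (by positivity)
    _ = M := by rw [← Real.rpow_mul hM0, mul_one_div_cancel ht.ne', Real.rpow_one]

theorem schatten_anti (s t : ℝ) (hs : 0 < s) (hst : s ≤ t) (A : Matrix (Fin N) (Fin N) ℝ) :
    schatten t A ≤ schatten s A :=
  lp_anti (fun i => sv A i) (fun i => sv_nonneg A i) s t hs hst

theorem clog_bound (hN : 1 ≤ N) : ((2 : ℝ) ^ (Nat.clog 2 N)) ≤ 2 * N := by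
  have h : 2 ^ (Nat.clog 2 N) ≤ 2 * N := by
    rcases hN.eq_or_lt with h | h
    · rw [← h]; simp
    · have h1 := Nat.pow_pred_clog_lt_self (by norm_num : 1 < 2) h
      have h2 : 0 < Nat.clog 2 N := Nat.clog_pos (by norm_num) h
      have h3 : 2 ^ (Nat.clog 2 N) = 2 * 2 ^ (Nat.clog 2 N).pred := by
        rw [← pow_succ', Nat.pred_eq_sub_one, Nat.sub_add_cancel h2]
      omega
  exact_mod_cast h

theorem sum_a (p₀ q₀ : ℝ) (hq : 2 < q₀) (hpq : 1 / p₀ + 1 / q₀ = 1) (hN : 1 ≤ N) :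
    ∑ a ∈ Finset.range (Nat.clog 2 N + 1), ((2 : ℝ) ^ (-(1 / p₀))) ^ a * 2 ^ (a + 1) ≤
      2 * ((2 : ℝ) ^ (1 / q₀)) ^ 2 / ((2 : ℝ) ^ (1 / q₀) - 1) * (N : ℝ) ^ (1 / q₀) := by
  have hq0 : 0 < q₀ := by linarith
  set θ : ℝ := (2 : ℝ) ^ (1 / q₀) with hθ
  have hθ1 : 1 < θ := Real.one_lt_rpow (by norm_num) (by positivity)
  set L := Nat.clog 2 N with hL
  have e1 : ∀ a : ℕ, ((2 : ℝ) ^ (-(1 / p₀))) ^ a * 2 ^ (a + 1) = 2 * θ ^ a := by
    intro a
    have h1 : (2 : ℝ) ^ (-(1 / p₀)) * 2 = θ := by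
      have h0 := Real.rpow_add (by norm_num : (0 : ℝ) < 2) (-(1 / p₀)) 1
      rw [Real.rpow_one] at h0
      rw [hθ, ← h0]
      congr 1; linarith
    rw [← h1, mul_pow, pow_succ]; ring
  simp_rw [e1]
  rw [← Finset.mul_sum, geom_sum_eq hθ1.ne']
  have h2 : θ ^ L ≤ θ * (N : ℝ) ^ (1 / q₀) := by
    have h3 : θ ^ L = ((2 : ℝ) ^ L) ^ (1 / q₀) := by
      rw [hθ, ← Real.rpow_natCast, ← Real.rpow_mul (by norm_num), mul_comm, Real.rpow_mul (by norm_num),
        Real.rpow_natCast]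
    rw [h3]
    calc ((2 : ℝ) ^ L) ^ (1 / q₀) ≤ (2 * (N : ℝ)) ^ (1 / q₀) :=
          Real.rpow_le_rpow (by positivity) (clog_bound hN) (by positivity)
      _ = θ * (N : ℝ) ^ (1 / q₀) := by rw [Real.mul_rpow (by norm_num) (by positivity)]
  have h4 : 0 < θ - 1 := by linarith
  rw [← mul_div_assoc, div_mul_eq_mul_div, div_le_div_iff_of_pos_right h4]
  have h5 : θ ^ (L + 1) = θ * θ ^ L := pow_succ' _ _
  rw [h5]
  have h6 : θ * θ ^ L ≤ θ * (θ * (N : ℝ) ^ (1 / q₀)) :=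
    mul_le_mul_of_nonneg_left h2 (by linarith)
  nlinarith

theorem sum_b (p₀ q₀ : ℝ) (hq : 2 < q₀) (hpq : 1 / p₀ + 1 / q₀ = 1) (L : ℕ) :
    ∑ a ∈ Finset.range (L + 1), ((2 : ℝ) ^ (-(1 / p₀))) ^ a * Real.sqrt (2 ^ (a + 1)) ≤
      2 / (1 - (2 : ℝ) ^ (1 / q₀ - 1 / 2)) := by
  have hq0 : 0 < q₀ := by linarith
  have hq2 : 1 / q₀ < 1 / 2 := by
    rw [div_lt_div_iff₀ hq0 (by norm_num)]; linarith
  set η : ℝ := (2 : ℝ) ^ (1 / q₀ - 1 / 2) with hη
  have hη0 : 0 < η := Real.rpow_pos_of_pos (by norm_num) _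
  have hη1 : η < 1 := Real.rpow_lt_one_of_one_lt_of_neg (by norm_num) (by linarith)
  have e1 : ∀ a : ℕ, ((2 : ℝ) ^ (-(1 / p₀))) ^ a * Real.sqrt (2 ^ (a + 1)) =
      Real.sqrt 2 * η ^ a := by
    intro a
    have h1 : (2 : ℝ) ^ (-(1 / p₀)) * Real.sqrt 2 = η := by
      rw [Real.sqrt_eq_rpow, ← Real.rpow_add (by norm_num), hη]
      congr 1; linarith
    have h2 : Real.sqrt ((2 : ℝ) ^ (a + 1)) = Real.sqrt 2 ^ a * Real.sqrt 2 := by
      rw [← pow_succ]
      rw [Real.sqrt_eq_iff_eq_sq (by positivity) (by positivity), ← pow_mul, mul_comm, pow_mul,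
        Real.sq_sqrt (by norm_num)]
    rw [h2, ← h1, mul_pow]; ring
  simp_rw [e1]
  rw [← Finset.mul_sum]
  have h3 : ∑ i ∈ Finset.range (L + 1), η ^ i ≤ 1 / (1 - η) := by
    rw [geom_sum_eq hη1.ne, le_div_iff₀ (by linarith)]
    have h4 : (η ^ (L + 1) - 1) / (η - 1) * (1 - η) = 1 - η ^ (L + 1) := by
      have : η - 1 ≠ 0 := by linarith
      field_simp
      ring
    rw [h4]
    have := pow_pos hη0 (L + 1)
    linarith
  have h5 : Real.sqrt 2 ≤ 2 := by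
    rw [Real.sqrt_le_left (by norm_num)]; norm_num
  have h6 : 0 ≤ 1 / (1 - η) := by
    apply one_div_nonneg.2; linarith
  calc Real.sqrt 2 * ∑ i ∈ Finset.range (L + 1), η ^ i ≤ 2 * (1 / (1 - η)) := by
        apply mul_le_mul h5 h3 _ (by norm_num)
        exact Finset.sum_nonneg (fun i _ => (pow_pos hη0 i).le)
    _ = 2 / (1 - η) := by ring

/-- the linear map of a big matrix -/
noncomputable def opL (M : Matrix (Fin N × Fin N) (Fin N × Fin N) ℝ) :
    Matrix (Fin N) (Fin N) ℝ →ₗ[ℝ] Matrix (Fin N) (Fin N) ℝ where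
  toFun A := opm M A
  map_add' A B := by
    ext i j
    simp only [opm, of_apply, Matrix.add_apply, ← Finset.sum_add_distrib]
    apply Finset.sum_congr rfl; intro q _
    ring
  map_smul' c A := by
    ext i j
    simp only [opm, of_apply, Matrix.smul_apply, smul_eq_mul, RingHom.id_apply, Finset.mul_sum]
    apply Finset.sum_congr rfl; intro q _
    ring

theorem opL_rank (M : Matrix (Fin N × Fin N) (Fin N × Fin N) ℝ) :
    Module.finrank ℝ (LinearMap.range (opL M)) ≤ M.rank := by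
  let W : (Fin N × Fin N → ℝ) →ₗ[ℝ] Matrix (Fin N) (Fin N) ℝ :=
    { toFun := fun f => Matrix.of fun i j => f (i, j)
      map_add' := fun f g => by ext i j; rfl
      map_smul' := fun c f => by ext i j; rfl }
  let V : Matrix (Fin N) (Fin N) ℝ →ₗ[ℝ] (Fin N × Fin N → ℝ) :=
    { toFun := fun A q => A q.1 q.2
      map_add' := fun f g => by funext i; rfl
      map_smul' := fun c f => by funext i; rfl }
  have h1 : opL M = W ∘ₗ (M.mulVecLin ∘ₗ V) := by
    apply LinearMap.ext; intro A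
    rfl
  have h2 : LinearMap.range (opL M) ≤ Submodule.map W (LinearMap.range M.mulVecLin) := by
    rw [h1, LinearMap.range_comp]
    apply Submodule.map_mono
    exact LinearMap.range_comp_le_range _ _
  calc Module.finrank ℝ (LinearMap.range (opL M))
      ≤ Module.finrank ℝ (Submodule.map W (LinearMap.range M.mulVecLin)) :=
        Submodule.finrank_mono h2
    _ ≤ Module.finrank ℝ (LinearMap.range M.mulVecLin) := Submodule.finrank_map_le _ _
    _ = M.rank := rfl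

theorem opm_one (A : Matrix (Fin N) (Fin N) ℝ) : opm 1 A = A := by
  ext i j
  simp only [opm, of_apply]
  rw [Finset.sum_eq_single (i, j)]
  · simp
  · intro b _ hb
    rw [Matrix.one_apply_ne (Ne.symm hb), zero_mul]
  · intro h; exact absurd (Finset.mem_univ _) h

theorem opm_sub (M M' : Matrix (Fin N × Fin N) (Fin N × Fin N) ℝ) (A : Matrix (Fin N) (Fin N) ℝ) :
    opm (M - M') A = opm M A - opm M' A := by
  ext i j
  simp only [opm, of_apply, Matrix.sub_apply, ← Finset.sum_sub_distrib]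
  apply Finset.sum_congr rfl; intro q _
  ring

/-- **main construction** -/
theorem main_diag (p₀ q₀ : ℝ) (hq : 2 < q₀) (hpq : 1 / p₀ + 1 / q₀ = 1) :
    ∃ C : ℝ, 0 ≤ C ∧ ∀ N k : ℕ, 1 ≤ N → 1 ≤ k → k < N * N →
      ∃ S : Matrix (Fin N) (Fin N) ℝ →ₗ[ℝ] Matrix (Fin N) (Fin N) ℝ,
        Module.finrank ℝ (LinearMap.range S) ≤ N * N - k ∧
        ∀ A, schatten q₀ (A - S A) ≤ C / ((N : ℝ) * N - k) *
          ((N : ℝ) ^ (1 + 2 / q₀) + Real.sqrt k * (N : ℝ) ^ (1 / 2 + 1 / q₀)) * schatten p₀ A := by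
  classical
  set C1 : ℝ := 2 * ((2 : ℝ) ^ (1 / q₀)) ^ 2 / ((2 : ℝ) ^ (1 / q₀) - 1) with hC1
  set C2 : ℝ := 2 / (1 - (2 : ℝ) ^ (1 / q₀ - 1 / 2)) with hC2
  have hq0 : 0 < q₀ := by linarith
  have hq2 : 1 / q₀ < 1 / 2 := by
    rw [div_lt_div_iff₀ hq0 (by norm_num)]; linarith
  have hC1p : 0 ≤ C1 := by
    have : 1 < (2 : ℝ) ^ (1 / q₀) := Real.one_lt_rpow (by norm_num) (by positivity)
    rw [hC1]
    apply div_nonneg (by positivity); linarith
  have hC2p : 0 ≤ C2 := by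
    have : (2 : ℝ) ^ (1 / q₀ - 1 / 2) < 1 :=
      Real.rpow_lt_one_of_one_lt_of_neg (by norm_num) (by linarith)
    rw [hC2]
    apply div_nonneg (by norm_num); linarith
  refine ⟨736 * (C1 ^ 2 + 2 * C1 * C2), by positivity, ?_⟩
  intro N k hN hk hkN
  have hNR : (1 : ℝ) ≤ N := by exact_mod_cast hN
  have hN0 : (0 : ℝ) < N := by linarith
  have hkR : (k : ℝ) < N * N := by exact_mod_cast hkN
  set L := Nat.clog 2 N with hL
  set ρ : ℝ := (2 : ℝ) ^ (-(1 / p₀)) with hρdef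
  have hρ : 0 ≤ ρ := (Real.rpow_pos_of_pos (by norm_num) _).le
  set m : ℕ := N * N - k with hm
  let e₀ : Fin N × Fin N ≃ Fin k ⊕ Fin m := Fintype.equivOfCardEq (by simp; omega)
  obtain ⟨U, hU⟩ := exists_projection (nuhat N L ρ hρ) (nuhat_cont N L ρ hρ) hk e₀ _
    (fun U => hB_bound hN hk L ρ hρ U)
  set Bd : ℝ := 736 * (N * (∑ a ∈ Finset.range (L + 1), ρ ^ a * 2 ^ (a + 1)) ^ 2 +
      Real.sqrt (k * N) * (2 * (∑ a ∈ Finset.range (L + 1), ρ ^ a * 2 ^ (a + 1)) *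
        (∑ a ∈ Finset.range (L + 1), ρ ^ a * Real.sqrt (2 ^ (a + 1))))) with hBd
  have hBd2 : Bd ≤ 736 * (C1 ^ 2 + 2 * C1 * C2) *
      ((N : ℝ) ^ (1 + 2 / q₀) + Real.sqrt k * (N : ℝ) ^ (1 / 2 + 1 / q₀)) := by
    have h1 := sum_a p₀ q₀ hq hpq hN
    have h2 := sum_b p₀ q₀ hq hpq L
    rw [← hC1] at h1
    rw [← hC2] at h2
    have hsa0 : 0 ≤ ∑ a ∈ Finset.range (L + 1), ρ ^ a * 2 ^ (a + 1) :=
      Finset.sum_nonneg (fun a _ => by positivity)
    have hsb0 : 0 ≤ ∑ a ∈ Finset.range (L + 1), ρ ^ a * Real.sqrt (2 ^ (a + 1)) :=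
      Finset.sum_nonneg (fun a _ => by positivity)
    set sa := ∑ a ∈ Finset.range (L + 1), ρ ^ a * 2 ^ (a + 1)
    set sb := ∑ a ∈ Finset.range (L + 1), ρ ^ a * Real.sqrt (2 ^ (a + 1))
    have hp : 0 ≤ (N : ℝ) ^ (1 / q₀) := Real.rpow_nonneg hN0.le _
    have h3 : sa ^ 2 ≤ (C1 * (N : ℝ) ^ (1 / q₀)) ^ 2 := pow_le_pow_left₀ hsa0 h1 2
    have h4 : 2 * sa * sb ≤ 2 * (C1 * (N : ℝ) ^ (1 / q₀)) * C2 := by
      apply mul_le_mul _ h2 hsb0 (by positivity)
      linarith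
    have e1 : (N : ℝ) * ((N : ℝ) ^ (1 / q₀)) ^ 2 = (N : ℝ) ^ (1 + 2 / q₀) := by
      rw [← Real.rpow_natCast, ← Real.rpow_mul hN0.le]
      have := Real.rpow_add hN0 1 (1 / q₀ * (2 : ℕ))
      rw [Real.rpow_one] at this
      rw [← this]
      congr 1
      push_cast
      ring
    have e2 : Real.sqrt (k * N) * (N : ℝ) ^ (1 / q₀) =
        Real.sqrt k * (N : ℝ) ^ (1 / 2 + 1 / q₀) := by
      rw [Real.sqrt_mul (by positivity), Real.rpow_add hN0, Real.sqrt_eq_rpow (N : ℝ)]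
      ring
    have h5 : 0 ≤ (N : ℝ) ^ (1 + 2 / q₀) := Real.rpow_nonneg hN0.le _
    have h6 : 0 ≤ Real.sqrt k * (N : ℝ) ^ (1 / 2 + 1 / q₀) :=
      mul_nonneg (Real.sqrt_nonneg _) (Real.rpow_nonneg hN0.le _)
    calc Bd ≤ 736 * (N * (C1 * (N : ℝ) ^ (1 / q₀)) ^ 2 +
          Real.sqrt (k * N) * (2 * (C1 * (N : ℝ) ^ (1 / q₀)) * C2)) := by
          rw [hBd]
          gcongr
      _ = 736 * (C1 ^ 2 * ((N : ℝ) * ((N : ℝ) ^ (1 / q₀)) ^ 2) +
          2 * C1 * C2 * (Real.sqrt (k * N) * (N : ℝ) ^ (1 / q₀))) := by ring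
      _ = 736 * (C1 ^ 2 * (N : ℝ) ^ (1 + 2 / q₀) +
          2 * C1 * C2 * (Real.sqrt k * (N : ℝ) ^ (1 / 2 + 1 / q₀))) := by rw [e1, e2]
      _ ≤ _ := by
          have h7 : 0 ≤ C1 ^ 2 := sq_nonneg _
          have h8 : 0 ≤ 2 * C1 * C2 := by positivity
          nlinarith [mul_nonneg h7 h6, mul_nonneg h8 h5]
  set P : Matrix (Fin N × Fin N) (Fin N × Fin N) ℝ :=
    diagonal (fun x => if (e₀ x).isLeft then (1 : ℝ) else 0) with hP
  set R : Matrix (Fin N × Fin N) (Fin N × Fin N) ℝ :=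
    star (U : Matrix (Fin N × Fin N) (Fin N × Fin N) ℝ) * P *
      (U : Matrix (Fin N × Fin N) (Fin N × Fin N) ℝ) with hR
  have hD : (0 : ℝ) < N * N - k := by linarith
  set M : Matrix (Fin N × Fin N) (Fin N × Fin N) ℝ := (((N : ℝ) * N) / (N * N - k)) • (1 - R)
    with hM
  have hUU : star (U : Matrix (Fin N × Fin N) (Fin N × Fin N) ℝ) *
      (U : Matrix (Fin N × Fin N) (Fin N × Fin N) ℝ) = 1 :=
    Matrix.mem_unitaryGroup_iff'.1 U.2
  refine ⟨opL M, ?_, ?_⟩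
  · refine (opL_rank M).trans ?_
    have h1 : M = star (U : Matrix (Fin N × Fin N) (Fin N × Fin N) ℝ) *
        ((((N : ℝ) * N) / (N * N - k)) • (1 - P)) *
        (U : Matrix (Fin N × Fin N) (Fin N × Fin N) ℝ) := by
      rw [hM, hR, Matrix.mul_smul, Matrix.smul_mul, Matrix.mul_sub, Matrix.sub_mul, Matrix.mul_one,
        hUU]
    have h2 : (((N : ℝ) * N) / (N * N - k)) • (1 - P) = diagonal (fun x =>
        (((N : ℝ) * N) / (N * N - k)) * (if (e₀ x).isLeft then (0 : ℝ) else 1)) := by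
      ext x y
      by_cases hxy : x = y
      · subst hxy
        simp only [hP, Matrix.smul_apply, Matrix.sub_apply, Matrix.one_apply_eq, diagonal_apply_eq,
          smul_eq_mul]
        split_ifs <;> ring
      · simp [hP, hxy]
    rw [h1]
    refine (Matrix.rank_mul_le_left _ _).trans ((Matrix.rank_mul_le_right _ _).trans ?_)
    rw [h2, Matrix.rank_diagonal]
    have h3 : Fintype.card {x : Fin N × Fin N // (((N : ℝ) * N) / (N * N - k)) *
        (if (e₀ x).isLeft then (0 : ℝ) else 1) ≠ 0} ≤ Fintype.card (Fin m) := by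
      let f : {x : Fin N × Fin N // (((N : ℝ) * N) / (N * N - k)) *
        (if (e₀ x).isLeft then (0 : ℝ) else 1) ≠ 0} → {y : Fin k ⊕ Fin m // ¬ y.isLeft} :=
        fun x => ⟨e₀ x.1, by
          intro h
          apply x.2
          rw [if_pos h, mul_zero]⟩
      have hf : Function.Injective f := by
        intro x y hxy
        have := congrArg Subtype.val hxy
        exact Subtype.ext (e₀.injective this)
      have h4 := Fintype.card_le_of_injective f hf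
      have h5 : Fintype.card {y : Fin k ⊕ Fin m // ¬ y.isLeft} ≤ Fintype.card (Fin m) := by
        apply Fintype.card_le_of_surjective (fun j : Fin m =>
          (⟨Sum.inr j, by simp⟩ : {y : Fin k ⊕ Fin m // ¬ y.isLeft}))
        rintro ⟨y, hy⟩
        rcases y with i | j
        · simp at hy
        · exact ⟨j, rfl⟩
      exact h4.trans h5
    simpa using h3
  · intro A
    have h1 : A - opL M A = opm (1 - M) A := by
      rw [opm_sub, opm_one]; rfl
    rw [h1]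
    have h2 : (1 : Matrix (Fin N × Fin N) (Fin N × Fin N) ℝ) - M =
        (1 / ((N : ℝ) * N - k)) • (star (U : Matrix (Fin N × Fin N) (Fin N × Fin N) ℝ) *
          ((Fintype.card (Fin N × Fin N) : ℝ) • P) *
          (U : Matrix (Fin N × Fin N) (Fin N × Fin N) ℝ) - (k : ℝ) • 1) := by
      rw [Matrix.mul_smul, Matrix.smul_mul, ← hR, hM, Fintype.card_prod, Fintype.card_fin]
      push_cast
      ext x y
      simp only [Matrix.sub_apply, Matrix.smul_apply, smul_eq_mul]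
      have hD' : (N : ℝ) * N - k ≠ 0 := hD.ne'
      have hD2 : (N : ℝ) ^ 2 - k ≠ 0 := by rw [pow_two]; exact hD'
      field_simp
      ring
    have h3 := nuhat_op (N := N) p₀ q₀ (by linarith) hpq L (Nat.le_pow_clog (by norm_num) N)
      (1 - M) A
    refine h3.trans ?_
    apply mul_le_mul_of_nonneg_right _ (schatten_nonneg _ _)
    have h4 : nuf N L ρ (1 - M) = nuhat N L ρ hρ (1 - M) := rfl
    rw [h4, h2, map_smul_eq_mul, Real.norm_of_nonneg (by positivity)]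
    calc 1 / ((N : ℝ) * N - k) * nuhat N L ρ hρ _ ≤ 1 / ((N : ℝ) * N - k) * Bd :=
          mul_le_mul_of_nonneg_left hU (by positivity)
      _ ≤ 1 / ((N : ℝ) * N - k) * (736 * (C1 ^ 2 + 2 * C1 * C2) *
          ((N : ℝ) ^ (1 + 2 / q₀) + Real.sqrt k * (N : ℝ) ^ (1 / 2 + 1 / q₀))) :=
          mul_le_mul_of_nonneg_left hBd2 (by positivity)
      _ = _ := by ring

end Pool.H102.SC
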