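import Mathlib
import Pool.Agent.Helper392.Mey.PL

set_option autoImplicit false
open MeasureTheory ProbabilityTheory Set
open scoped ENNReal

namespace Pool.H102.SK

/-- standard Gaussian measure on `ι → ℝ` -/
noncomputable abbrev G (ι : Type*) [Fintype ι] : Measure (ι → ℝ) :=
  Measure.pi fun _ => gaussianReal 0 1

/-- one dimensional Gaussian Prékopa–Leindler with the quadratic gain -/
theorem gpl1 (f g h : ℝ → ℝ≥0∞) (hf : Measurable f) (hg : Measurable g) (hh : Measurable h)
    (H : ∀ x y, f x * g y ≤ h ((x + y) / 2) ^ 2 * ENNReal.ofReal (Real.exp ((x - y) ^ 2 / 4))) :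
    (∫⁻ x, f x ∂(gaussianReal 0 1)) * (∫⁻ x, g x ∂(gaussianReal 0 1)) ≤
      (∫⁻ x, h x ∂(gaussianReal 0 1)) ^ 2 := by
  have key : ∀ k : ℝ → ℝ≥0∞, Measurable k →
      ∫⁻ x, k x ∂(gaussianReal 0 1) = ∫⁻ x, gaussianPDF 0 1 x * k x := by
    intro k hk
    rw [gaussianReal_of_var_ne_zero 0 (by norm_num : (1 : NNReal) ≠ 0),
      lintegral_withDensity_eq_lintegral_mul _ (measurable_gaussianPDF 0 1) hk]
    rfl
  rw [key f hf, key g hg, key h hh]
  refine Pool.Agent.Helper392.Mey.PL.pl1 _ _ _ ((measurable_gaussianPDF 0 1).mul hf)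
    ((measurable_gaussianPDF 0 1).mul hg) ((measurable_gaussianPDF 0 1).mul hh) ?_
  intro x y
  have e1 : gaussianPDF 0 1 x * gaussianPDF 0 1 y * ENNReal.ofReal (Real.exp ((x - y) ^ 2 / 4)) =
      gaussianPDF 0 1 ((x + y) / 2) ^ 2 := by
    simp only [gaussianPDF]
    rw [← ENNReal.ofReal_mul (gaussianPDFReal_nonneg _ _ _),
      ← ENNReal.ofReal_mul (mul_nonneg (gaussianPDFReal_nonneg _ _ _) (gaussianPDFReal_nonneg _ _ _)),
      ← ENNReal.ofReal_pow (gaussianPDFReal_nonneg _ _ _)]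
    congr 1
    simp only [gaussianPDFReal, NNReal.coe_one, mul_one, sub_zero]
    have : Real.exp (-((x + y) / 2) ^ 2 / 2) ^ 2 =
        Real.exp (-x ^ 2 / 2) * Real.exp (-y ^ 2 / 2) * Real.exp ((x - y) ^ 2 / 4) := by
      rw [← Real.exp_add, ← Real.exp_add, ← Real.exp_nat_mul]
      congr 1; push_cast; ring
    rw [mul_pow, this]; ring
  calc gaussianPDF 0 1 x * f x * (gaussianPDF 0 1 y * g y)
      = gaussianPDF 0 1 x * gaussianPDF 0 1 y * (f x * g y) := by ring
    _ ≤ gaussianPDF 0 1 x * gaussianPDF 0 1 y *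
        (h ((x + y) / 2) ^ 2 * ENNReal.ofReal (Real.exp ((x - y) ^ 2 / 4))) :=
        mul_le_mul_right (H x y) _
    _ = (gaussianPDF 0 1 x * gaussianPDF 0 1 y * ENNReal.ofReal (Real.exp ((x - y) ^ 2 / 4))) *
        h ((x + y) / 2) ^ 2 := by ring
    _ = (gaussianPDF 0 1 ((x + y) / 2) * h ((x + y) / 2)) ^ 2 := by rw [e1]; ring

theorem lint_succ (n : ℕ) (f : (Fin (n + 1) → ℝ) → ℝ≥0∞) (hf : Measurable f) :
    ∫⁻ x, f x ∂(G (Fin (n + 1))) =
      ∫⁻ x, ∫⁻ z, f (Fin.cons x z) ∂(G (Fin n)) ∂(gaussianReal 0 1) := by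
  have h := (measurePreserving_piFinSuccAbove (fun _ : Fin (n + 1) => gaussianReal 0 1) 0).symm
  rw [← h.lintegral_comp hf, lintegral_prod]
  · apply lintegral_congr; intro x
    apply lintegral_congr; intro z
    congr 1
    simp only [MeasurableEquiv.piFinSuccAbove_symm_apply, Fin.insertNthEquiv_zero]
    rfl
  · exact (hf.comp (MeasurableEquiv.piFinSuccAbove _ 0).symm.measurable).aemeasurable

theorem gpln : ∀ (n : ℕ) (f g h : (Fin n → ℝ) → ℝ≥0∞), Measurable f → Measurable g →
    Measurable h →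
    (∀ s t : Fin n → ℝ, f s * g t ≤ h (fun i => (s i + t i) / 2) ^ 2 *
      ENNReal.ofReal (Real.exp ((∑ i, (s i - t i) ^ 2) / 4))) →
    (∫⁻ s, f s ∂(G (Fin n))) * (∫⁻ s, g s ∂(G (Fin n))) ≤ (∫⁻ s, h s ∂(G (Fin n))) ^ 2 := by
  intro n
  induction n with
  | zero =>
    intro f g h hf hg hh H
    have hu : G (Fin 0) Set.univ = 1 := measure_univ
    rw [lintegral_unique, lintegral_unique, lintegral_unique, hu, mul_one, mul_one, mul_one]
    have := H default default
    simp only [Finset.univ_eq_empty, Finset.sum_empty, zero_div, Real.exp_zero,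
      ENNReal.ofReal_one, mul_one] at this
    convert this using 3
  | succ n ih =>
    intro f g h hf hg hh H
    rw [lint_succ n f hf, lint_succ n g hg, lint_succ n h hh]
    have hcons := Pool.Agent.Helper392.Mey.PL.measurable_cons n
    have hcons2 : ∀ a : ℝ, Measurable (fun v : Fin n → ℝ => (Fin.cons a v : Fin (n + 1) → ℝ)) :=
      fun a => hcons.comp (measurable_const.prodMk measurable_id)
    refine gpl1 _ _ _ ?_ ?_ ?_ ?_
    · exact (hf.comp hcons).lintegral_prod_right'
    · exact (hg.comp hcons).lintegral_prod_right'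
    · exact (hh.comp hcons).lintegral_prod_right'
    · intro x y
      set w : ℝ≥0∞ := ENNReal.ofReal (Real.exp ((x - y) ^ 2 / 8)) with hw
      have hw2 : w ^ 2 = ENNReal.ofReal (Real.exp ((x - y) ^ 2 / 4)) := by
        rw [hw, ← ENNReal.ofReal_pow (Real.exp_pos _).le, ← Real.exp_nat_mul]
        congr 2; push_cast; ring
      have := ih (fun v => f (Fin.cons x v)) (fun v => g (Fin.cons y v))
        (fun v => w * h (Fin.cons ((x + y) / 2) v)) (hf.comp (hcons2 x)) (hg.comp (hcons2 y))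
        (measurable_const.mul (hh.comp (hcons2 _))) ?_
      · refine this.trans ?_
        have e3 : ∫⁻ (s : Fin n → ℝ), w * h (Fin.cons ((x + y) / 2) s) ∂G (Fin n) =
            w * ∫⁻ (s : Fin n → ℝ), h (Fin.cons ((x + y) / 2) s) ∂G (Fin n) :=
          lintegral_const_mul w (hh.comp (hcons2 _))
        rw [e3, mul_pow, hw2, mul_comm]
      · intro s t
        have h1 := H (Fin.cons x s) (Fin.cons y t)
        refine h1.trans (le_of_eq ?_)
        have e1 : (fun i => ((Fin.cons x s : Fin (n+1) → ℝ) i + (Fin.cons y t : Fin (n+1) → ℝ) i) / 2) =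
            (Fin.cons ((x + y) / 2) (fun i => (s i + t i) / 2) : Fin (n+1) → ℝ) := by
          ext i
          refine Fin.cases ?_ (fun j => ?_) i <;> simp
        have e2 : ∑ i, ((Fin.cons x s : Fin (n+1) → ℝ) i - (Fin.cons y t : Fin (n+1) → ℝ) i) ^ 2 =
            (x - y) ^ 2 + ∑ i, (s i - t i) ^ 2 := by
          rw [Fin.sum_univ_succ]; simp
        have e4 : ENNReal.ofReal (Real.exp (((x - y) ^ 2 + ∑ i, (s i - t i) ^ 2) / 4)) =
            ENNReal.ofReal (Real.exp ((x - y) ^ 2 / 4)) *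
            ENNReal.ofReal (Real.exp ((∑ i, (s i - t i) ^ 2) / 4)) := by
          rw [← ENNReal.ofReal_mul (Real.exp_pos _).le, ← Real.exp_add, add_div]
        rw [e1, e2, mul_pow, hw2, e4]
        ring

/-- reindexing along an injection -/
theorem mp_comp {ι κ : Type*} [Fintype ι] [Fintype κ] (f : κ → ι) (hf : Function.Injective f) :
    MeasurePreserving (fun x : ι → ℝ => fun k => x (f k)) (G ι) (G κ) := by
  classical
  have hm : Measurable (fun x : ι → ℝ => fun k => x (f k)) := by fun_prop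
  refine ⟨hm, ?_⟩
  symm
  refine Measure.pi_eq fun s hs => ?_
  rw [Measure.map_apply hm (MeasurableSet.univ_pi hs)]
  set t : ι → Set ℝ := fun i => if h : ∃ k, f k = i then s h.choose else Set.univ with ht
  have htf : ∀ k, t (f k) = s k := by
    intro k
    have h : ∃ k', f k' = f k := ⟨k, rfl⟩
    simp only [ht, dif_pos h]
    rw [hf h.choose_spec]
  have e : (fun x : ι → ℝ => fun k => x (f k)) ⁻¹' (Set.univ.pi s) = Set.univ.pi t := by
    ext x
    simp only [Set.mem_preimage, Set.mem_univ_pi]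
    constructor
    · intro h i
      by_cases hi : ∃ k, f k = i
      · obtain ⟨k, rfl⟩ := hi
        rw [htf]; exact h k
      · simp only [ht, dif_neg hi]; trivial
    · intro h k
      rw [← htf]; exact h _
  rw [e, Measure.pi_pi]
  have : ∏ k, (gaussianReal 0 1) (s k) = ∏ i ∈ Finset.univ.image f, (gaussianReal 0 1) (t i) := by
    rw [Finset.prod_image (fun a _ b _ h => hf h)]
    exact Finset.prod_congr rfl fun k _ => by rw [htf]
  rw [this]
  symm
  apply Finset.prod_subset (Finset.subset_univ _)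
  intro i _ hi
  have : ¬ ∃ k, f k = i := by
    simpa using hi
  simp only [ht, dif_neg this, measure_univ]

/-- the functional inequality for an arbitrary finite index type -/
theorem gpl {ι : Type*} [Fintype ι] (f g : (ι → ℝ) → ℝ≥0∞) (hf : Measurable f) (hg : Measurable g)
    (H : ∀ s t : ι → ℝ, f s * g t ≤
      ENNReal.ofReal (Real.exp ((∑ i, (s i - t i) ^ 2) / 4))) :
    (∫⁻ s, f s ∂(G ι)) * (∫⁻ s, g s ∂(G ι)) ≤ 1 := by
  classical
  set e := Fintype.equivFin ι
  have mp := mp_comp (fun i : ι => e i) e.injective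
  rw [← mp.lintegral_comp hf, ← mp.lintegral_comp hg]
  have := gpln (Fintype.card ι) (fun x => f fun k => x (e k)) (fun x => g fun k => x (e k))
    (fun _ => 1) (hf.comp mp.measurable) (hg.comp mp.measurable) measurable_const ?_
  · simpa using this
  · intro s t
    simp only [one_pow, one_mul]
    refine (H _ _).trans (le_of_eq ?_)
    congr 3
    exact Equiv.sum_comp e (fun i => (s i - t i) ^ 2)

/-- exponential of an integral is at most the integral of the exponential (extended) -/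
theorem exp_int_le {Ω : Type*} [MeasurableSpace Ω] {μ : Measure Ω} [IsProbabilityMeasure μ]
    {f : Ω → ℝ} (hf : Integrable f μ) :
    ENNReal.ofReal (Real.exp (∫ x, f x ∂μ)) ≤ ∫⁻ x, ENNReal.ofReal (Real.exp (f x)) ∂μ := by
  set m := ∫ x, f x ∂μ
  have h1 : ∀ x, Real.exp m * (1 + (f x - m)) ≤ Real.exp (f x) := by
    intro x
    have := Real.add_one_le_exp (f x - m)
    calc Real.exp m * (1 + (f x - m)) ≤ Real.exp m * Real.exp (f x - m) := by
          gcongr; linarith
      _ = Real.exp (f x) := by rw [← Real.exp_add]; congr 1; ring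
  have hi : Integrable (fun x => Real.exp m * (1 + (f x - m))) μ :=
    ((integrable_const _).add (hf.sub (integrable_const _))).const_mul _
  have h2 : ∫ x, Real.exp m * (1 + (f x - m)) ∂μ = Real.exp m := by
    have e1 : ∫ x, (1 + (f x - m)) ∂μ = 1 := by
      have e2 := integral_add (μ := μ) (integrable_const (1 : ℝ)) (hf.sub (integrable_const m))
      have e3 := integral_sub (μ := μ) hf (integrable_const m)
      simp only [Pi.sub_apply] at e2
      rw [e2, e3]
      simp [m]
    rw [integral_const_mul, e1, mul_one]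
  calc ENNReal.ofReal (Real.exp m) = ENNReal.ofReal (∫ x, Real.exp m * (1 + (f x - m)) ∂μ) := by
        rw [h2]
    _ ≤ ∫⁻ x, ENNReal.ofReal (Real.exp m * (1 + (f x - m))) ∂μ := by
        rw [integral_eq_lintegral_pos_part_sub_lintegral_neg_part hi]
        refine (ENNReal.ofReal_le_ofReal (sub_le_self _ ENNReal.toReal_nonneg)).trans ?_
        exact ENNReal.ofReal_toReal_le
    _ ≤ ∫⁻ x, ENNReal.ofReal (Real.exp (f x)) ∂μ :=
        lintegral_mono fun x => ENNReal.ofReal_le_ofReal (h1 x)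

/-- one sided concentration for convex functions: `φ` has the subgradient `v` -/
theorem tau {ι : Type*} [Fintype ι] (φ : (ι → ℝ) → ℝ) (v : (ι → ℝ) → ι → ℝ)
    (hφ : Measurable φ) (hv : Measurable v) (hφi : Integrable φ (G ι))
    (hvi : Integrable (fun x => ∑ i, v x i ^ 2) (G ι))
    (hc : ∀ x y, φ x + ∑ i, v x i * (y i - x i) ≤ φ y) :
    ∫⁻ x, ENNReal.ofReal (Real.exp (-φ x)) ∂(G ι) ≤
      ENNReal.ofReal (Real.exp (-(∫ x, φ x ∂(G ι)) + ∫ x, ∑ i, v x i ^ 2 ∂(G ι))) := by
  have hvm : Measurable fun x => ∑ i, v x i ^ 2 :=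
    Finset.measurable_sum _ fun i _ => ((measurable_pi_apply i).comp hv).pow_const 2
  have h1 := gpl (fun x => ENNReal.ofReal (Real.exp (-φ x)))
    (fun x => ENNReal.ofReal (Real.exp (φ x - ∑ i, v x i ^ 2)))
    (by fun_prop) (by fun_prop) ?_
  · have h2 := exp_int_le (μ := G ι) (hφi.sub hvi)
    have h3 : ∫ x, (φ - fun x => ∑ i, v x i ^ 2) x ∂(G ι) =
        (∫ x, φ x ∂(G ι)) - ∫ x, ∑ i, v x i ^ 2 ∂(G ι) := integral_sub hφi hvi
    rw [h3] at h2
    have h4 : (∫⁻ x, ENNReal.ofReal (Real.exp (-φ x)) ∂(G ι)) *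
        ENNReal.ofReal (Real.exp ((∫ x, φ x ∂(G ι)) - ∫ x, ∑ i, v x i ^ 2 ∂(G ι))) ≤ 1 :=
      le_trans (mul_le_mul_right h2 _) h1
    have hpos : ENNReal.ofReal (Real.exp ((∫ x, φ x ∂(G ι)) - ∫ x, ∑ i, v x i ^ 2 ∂(G ι))) ≠ 0 := by
      simp [Real.exp_pos]
    have h5 := ENNReal.le_div_iff_mul_le (Or.inl hpos) (Or.inl ENNReal.ofReal_ne_top) |>.2 h4
    refine h5.trans (le_of_eq ?_)
    rw [one_div, ← ENNReal.ofReal_inv_of_pos (Real.exp_pos _), ← Real.exp_neg]
    congr 2; ring
  · intro s t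
    rw [← ENNReal.ofReal_mul (Real.exp_pos _).le, ← Real.exp_add]
    apply ENNReal.ofReal_le_ofReal
    apply Real.exp_le_exp.2
    have h := hc t s
    have h2 : 0 ≤ ∑ i, ((s i - t i) / 2 + v t i) ^ 2 := Finset.sum_nonneg fun i _ => sq_nonneg _
    have h3 : ∑ i, ((s i - t i) / 2 + v t i) ^ 2 =
        (∑ i, (s i - t i) ^ 2) / 4 + ∑ i, v t i * (s i - t i) + ∑ i, v t i ^ 2 := by
      rw [Finset.sum_div, ← Finset.sum_add_distrib, ← Finset.sum_add_distrib]
      exact Finset.sum_congr rfl fun i _ => by ring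
    linarith

end Pool.H102.SK
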