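import Mathlib
import Pool.Agent.H102R3.SKA

/-!
Project SK (MP_755967_pr, S19407): negative moments of the Sherrington–Kirkpatrick partition
function.  Definitions and task statements.  `G ι` (in `SKA`) is the standard Gaussian measure
`Measure.pi fun _ => gaussianReal 0 1` on `ι → ℝ`.
-/

set_option autoImplicit false
open MeasureTheory ProbabilityTheory Set

namespace Pool.H102.SK

section
variable {ι V : Type} [Fintype ι] [Fintype V]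

/-- partition function `∑_v exp (d v + ⟨a v, x⟩)` -/
noncomputable def Zf (a : V → ι → ℝ) (d : V → ℝ) (x : ι → ℝ) : ℝ :=
  ∑ v, Real.exp (d v + ∑ i, a v i * x i)

/-- free energy -/
noncomputable def Ff (a : V → ι → ℝ) (d : V → ℝ) (x : ι → ℝ) : ℝ := Real.log (Zf a d x)

/-- Gibbs weights -/
noncomputable def pf (a : V → ι → ℝ) (d : V → ℝ) (x : ι → ℝ) (v : V) : ℝ :=
  Real.exp (d v + ∑ i, a v i * x i) / Zf a d x

/-- Gibbs mean of `a` (the gradient of `Ff`) -/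
noncomputable def mf (a : V → ι → ℝ) (d : V → ℝ) (x : ι → ℝ) (i : ι) : ℝ :=
  ∑ v, pf a d x v * a v i

/-- `E ⟨m(X), m(rX + √(1-r²) Z)⟩` -/
noncomputable def Pair (m : (ι → ℝ) → ι → ℝ) (r : ℝ) : ℝ :=
  ∫ x, ∫ z, ∑ i, m x i * m (fun j => r * x j + Real.sqrt (1 - r ^ 2) * z j) i ∂(G ι) ∂(G ι)

/-- `E |E_Z m(cX + √(1-c²) Z)|²` -/
noncomputable def Psi (m : (ι → ℝ) → ι → ℝ) (c : ℝ) : ℝ :=
  ∫ x, ∑ i, (∫ z, m (fun j => c * x j + Real.sqrt (1 - c ^ 2) * z j) i ∂(G ι)) ^ 2 ∂(G ι)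

/-- two coupled copies: the first copy sees `x`, the second `sin θ x + cos θ z` -/
noncomputable def cp (a : V → ι → ℝ) (θ : ℝ) (v : V × V) : ι ⊕ ι → ℝ :=
  Sum.elim (fun i => a v.1 i + Real.sin θ * a v.2 i) (fun i => Real.cos θ * a v.2 i)

end

/-- SK interaction vector, zero field -/
noncomputable def skA (β : ℝ) (N : ℕ) (σ : Fin N → Fin 2) (p : Fin N × Fin N) : ℝ :=
  if p.1 < p.2 then β / Real.sqrt N * ((-1 : ℝ) ^ (σ p.1).val * (-1 : ℝ) ^ (σ p.2).val) else 0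

/-- `N R²`, with `R` the overlap -/
noncomputable def Q (N : ℕ) (σ τ : Fin N → Fin 2) : ℝ :=
  (∑ i, (-1 : ℝ) ^ (σ i).val * (-1 : ℝ) ^ (τ i).val) ^ 2 / N

/-- expected free energy of SK -/
noncomputable def EF (β : ℝ) (N : ℕ) : ℝ := ∫ x, Ff (skA β N) (fun _ => 0) x ∂(G (Fin N × Fin N))

/-- T1: rotation invariance -/
def TRot : Prop := ∀ (ι : Type) [Fintype ι] (θ : ℝ),
  MeasurePreserving (fun p : (ι → ℝ) × (ι → ℝ) =>
    ((fun i => Real.cos θ * p.1 i + Real.sin θ * p.2 i : ι → ℝ),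
      (fun i => -Real.sin θ * p.1 i + Real.cos θ * p.2 i : ι → ℝ)))
    ((G ι).prod (G ι)) ((G ι).prod (G ι))

/-- T2: pair functional (from `TRot`) -/
def TPair : Prop := ∀ (ι : Type) [Fintype ι] (m : (ι → ℝ) → ι → ℝ) (B : ℝ), Measurable m →
  (∀ x, ∑ i, m x i ^ 2 ≤ B) → ∀ c : ℝ, 0 ≤ c → c ≤ 1 →
    Psi m c = Pair m (c ^ 2) ∧ (Pair m c) ^ 2 ≤ B * Psi m c

/-- T3: one sided concentration of the free energy (from `tau` in SKA applied twice, and `TRot`) -/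
def TLower : Prop := ∀ (ι V : Type) [Fintype ι] [Fintype V] [Nonempty V] (a : V → ι → ℝ) (L : ℝ),
  (∀ v, ∑ i, a v i ^ 2 ≤ L) → ∀ c l : ℝ, 0 ≤ c → c ≤ 1 → 0 ≤ l →
    ∫⁻ x, ENNReal.ofReal (Real.exp (-(l * Ff a (fun _ => 0) x))) ∂(G ι) ≤
      ENNReal.ofReal (Real.exp (-(l * ∫ x, Ff a (fun _ => 0) x ∂(G ι)) +
        l ^ 2 * ((1 - c ^ 2) * L + c ^ 2 * Psi (mf a (fun _ => 0)) c)))

/-- T4: monotonicity under interpolation (derivative under the integral + Stein) -/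
def TMono : Prop := ∀ (κ V : Type) [Fintype κ] [Fintype V] [Nonempty V]
  (b b' : ℝ → V → κ → ℝ) (d d' : ℝ → V → ℝ) (K T : ℝ), 0 ≤ T →
  (∀ θ v i, HasDerivAt (fun t => b t v i) (b' θ v i) θ) →
  (∀ θ v, HasDerivAt (fun t => d t v) (d' θ v) θ) →
  (∀ θ v i, |b θ v i| ≤ K) → (∀ θ v i, |b' θ v i| ≤ K) → (∀ θ v, |d θ v| ≤ K) →
  (∀ θ v, |d' θ v| ≤ K) →
  (∀ θ ∈ Set.Icc 0 T, ∀ v w,
    d' θ v + ∑ i, b' θ v i * b θ v i - ∑ i, b' θ v i * b θ w i ≤ 0) →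
  ∫ x, Ff (b T) (d T) x ∂(G κ) ≤ ∫ x, Ff (b 0) (d 0) x ∂(G κ)

/-- T5: the uncoupled system (gauge symmetry) -/
def TIndep : Prop := ∃ C : ℝ, 0 ≤ C ∧ ∀ (β : ℝ) (N : ℕ), 0 < N →
  ∫ x, Ff (cp (skA β N) 0) (fun v => (1 / 4) * Q N v.1 v.2) x
    ∂(G ((Fin N × Fin N) ⊕ (Fin N × Fin N))) ≤ 2 * EF β N + C

/-- T6: Guerra–Toninelli superadditivity (from `TMono`) -/
def TGT : Prop := ∀ (β : ℝ) (N M : ℕ), 0 < N → 0 < M → EF β N + EF β M ≤ EF β (N + M)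

/-- T7: chaos at small correlation (from `TMono`, `TIndep`, `TRot`) -/
def TChaos : Prop := ∀ β : ℝ, 0 < β → ∃ C r₀ : ℝ, 0 < r₀ ∧ ∀ N : ℕ, 0 < N → ∀ r : ℝ, 0 ≤ r →
  r ≤ r₀ → r ≤ 1 → Pair (mf (skA β N) (fun _ => 0)) r ≤ C

/-- inner products of the interaction vectors -/
def TInner : Prop := ∀ (β : ℝ) (N : ℕ), 0 < N → ∀ σ τ : Fin N → Fin 2,
  ∑ p, skA β N σ p * skA β N τ p = β ^ 2 / 2 * (Q N σ τ - 1)

/-- T8: crude upper bound -/
def TUpper : Prop := ∀ (β : ℝ) (N : ℕ), 0 < N → EF β N ≤ (1 + β ^ 2) * N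

/-- the SK Hamiltonian of the frozen statement -/
theorem frozen_Z (β : ℝ) (N : ℕ) (g : Fin N × Fin N → ℝ) :
    (∑ σ : Fin N → Fin 2,
              Real.exp (β / Real.sqrt (N : ℝ) *
                ∑ i : Fin N, ∑ j : Fin N,
                  if i < j then g (i, j) * (-1 : ℝ) ^ (σ i).val * (-1 : ℝ) ^ (σ j).val else 0)) =
      Zf (skA β N) (fun _ => 0) g := by
  unfold Zf
  refine Finset.sum_congr rfl fun σ _ => ?_
  rw [zero_add, Fintype.sum_prod_type, Finset.mul_sum]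
  congr 1
  refine Finset.sum_congr rfl fun i _ => ?_
  rw [Finset.mul_sum]
  refine Finset.sum_congr rfl fun j _ => ?_
  simp only [skA]
  split_ifs <;> ring

end Pool.H102.SK
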