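import Mathlib
import Pool.Agent.H102R3.SKS

set_option autoImplicit false
open MeasureTheory ProbabilityTheory Set Filter Topology

namespace Pool.H102.SK

section basic
variable {ι V : Type} [Fintype ι] [Fintype V] [Nonempty V]

theorem Zf_pos (a : V → ι → ℝ) (d : V → ℝ) (x : ι → ℝ) : 0 < Zf a d x :=
  Finset.sum_pos (fun _ _ => Real.exp_pos _) Finset.univ_nonempty

omit [Nonempty V] in
theorem Zf_continuous (a : V → ι → ℝ) (d : V → ℝ) : Continuous (Zf a d) := by
  unfold Zf; fun_prop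

theorem Ff_continuous (a : V → ι → ℝ) (d : V → ℝ) : Continuous (Ff a d) :=
  (Zf_continuous a d).log fun x => (Zf_pos a d x).ne'

theorem pf_nonneg (a : V → ι → ℝ) (d : V → ℝ) (x : ι → ℝ) (v : V) : 0 ≤ pf a d x v :=
  div_nonneg (Real.exp_pos _).le (Zf_pos a d x).le

theorem pf_sum (a : V → ι → ℝ) (d : V → ℝ) (x : ι → ℝ) : ∑ v, pf a d x v = 1 := by
  unfold pf
  rw [← Finset.sum_div]
  exact div_self (Zf_pos a d x).ne'

theorem pf_le_one (a : V → ι → ℝ) (d : V → ℝ) (x : ι → ℝ) (v : V) : pf a d x v ≤ 1 := by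
  rw [← pf_sum a d x]
  exact Finset.single_le_sum (fun w _ => pf_nonneg a d x w) (Finset.mem_univ v)

theorem pf_continuous (a : V → ι → ℝ) (d : V → ℝ) (v : V) : Continuous fun x => pf a d x v := by
  unfold pf
  refine Continuous.div (by fun_prop) (Zf_continuous a d) fun x => (Zf_pos a d x).ne'

theorem mf_continuous (a : V → ι → ℝ) (d : V → ℝ) : Continuous (mf a d) := by
  rw [continuous_pi_iff]
  intro i
  unfold mf
  exact continuous_finsetSum _ fun v _ => (pf_continuous a d v).mul continuous_const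

theorem mf_sq (a : V → ι → ℝ) (d : V → ℝ) (L : ℝ) (hL : ∀ v, ∑ i, a v i ^ 2 ≤ L) (x : ι → ℝ) :
    ∑ i, mf a d x i ^ 2 ≤ L := by
  have h1 : ∀ i, mf a d x i ^ 2 ≤ ∑ v, pf a d x v * a v i ^ 2 := by
    intro i
    have h2 : 0 ≤ ∑ v, pf a d x v * (a v i - mf a d x i) ^ 2 :=
      Finset.sum_nonneg fun v _ => mul_nonneg (pf_nonneg a d x v) (sq_nonneg _)
    have h3 : ∑ v, pf a d x v * (a v i - mf a d x i) ^ 2 =
        ∑ v, pf a d x v * a v i ^ 2 - mf a d x i ^ 2 := by
      have e1 : ∀ v, pf a d x v * (a v i - mf a d x i) ^ 2 =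
          pf a d x v * a v i ^ 2 - 2 * mf a d x i * (pf a d x v * a v i) +
            mf a d x i ^ 2 * pf a d x v := fun v => by ring
      simp only [e1]
      rw [Finset.sum_add_distrib, Finset.sum_sub_distrib, ← Finset.mul_sum, ← Finset.mul_sum,
        pf_sum]
      have : ∑ v, pf a d x v * a v i = mf a d x i := rfl
      rw [this]; ring
    linarith
  calc ∑ i, mf a d x i ^ 2 ≤ ∑ i, ∑ v, pf a d x v * a v i ^ 2 := Finset.sum_le_sum fun i _ => h1 i
    _ = ∑ v, pf a d x v * ∑ i, a v i ^ 2 := by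
        rw [Finset.sum_comm]; simp only [Finset.mul_sum]
    _ ≤ ∑ v, pf a d x v * L :=
        Finset.sum_le_sum fun v _ => mul_le_mul_of_nonneg_left (hL v) (pf_nonneg a d x v)
    _ = L := by rw [← Finset.sum_mul, pf_sum, one_mul]

/-- linear growth of the free energy -/
theorem Ff_abs_le (a : V → ι → ℝ) (d : V → ℝ) (K : ℝ) (hd : ∀ v, |d v| ≤ K)
    (ha : ∀ v i, |a v i| ≤ K) (x : ι → ℝ) :
    |Ff a d x| ≤ Real.log (Fintype.card V) + K + K * ∑ i, |x i| := by
  have h0 : ∀ v, |d v + ∑ i, a v i * x i| ≤ K + K * ∑ i, |x i| := by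
    intro v
    refine (abs_add_le _ _).trans (add_le_add (hd v) ?_)
    refine (Finset.abs_sum_le_sum_abs _ _).trans ?_
    rw [Finset.mul_sum]
    exact Finset.sum_le_sum fun i _ => by rw [abs_mul]; gcongr; exact ha v i
  have hcard : (1 : ℝ) ≤ Fintype.card V := by
    exact_mod_cast Fintype.card_pos
  have hlog : 0 ≤ Real.log (Fintype.card V) := Real.log_nonneg hcard
  have hZ := Zf_pos a d x
  rw [abs_le]
  constructor
  · have v0 : V := Classical.arbitrary V
    have h1 : Real.exp (d v0 + ∑ i, a v0 i * x i) ≤ Zf a d x :=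
      Finset.single_le_sum (f := fun v => Real.exp (d v + ∑ i, a v i * x i))
        (fun w _ => (Real.exp_pos _).le) (Finset.mem_univ v0)
    have h2 : d v0 + ∑ i, a v0 i * x i ≤ Ff a d x := by
      rw [Ff, ← Real.log_exp (d v0 + ∑ i, a v0 i * x i)]
      exact Real.log_le_log (Real.exp_pos _) h1
    have h3 := (abs_le.1 (h0 v0)).1
    linarith
  · have h1 : Zf a d x ≤ Fintype.card V * Real.exp (K + K * ∑ i, |x i|) := by
      unfold Zf
      calc ∑ v, Real.exp (d v + ∑ i, a v i * x i) ≤ ∑ _v : V, Real.exp (K + K * ∑ i, |x i|) :=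
            Finset.sum_le_sum fun v _ => Real.exp_le_exp.2 ((le_abs_self _).trans (h0 v))
        _ = _ := by rw [Finset.sum_const, Finset.card_univ, nsmul_eq_mul]
    have h2 := Real.log_le_log hZ h1
    rw [Real.log_mul (by positivity) (Real.exp_pos _).ne', Real.log_exp] at h2
    have : Ff a d x = Real.log (Zf a d x) := rfl
    linarith

theorem eval_integrable {κ : Type} [Fintype κ] (i : κ) : Integrable (fun x : κ → ℝ => x i) (G κ) := by
  have mp : MeasurePreserving (fun x : κ → ℝ => x i) (G κ) (gaussianReal 0 1) :=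
    measurePreserving_eval (fun _ : κ => gaussianReal 0 1) i
  have : Integrable (fun t : ℝ => t) (gaussianReal 0 1) :=
    (memLp_id_gaussianReal 1).integrable (by norm_num)
  exact mp.integrable_comp_of_integrable this

theorem Ff_integrable (a : V → ι → ℝ) (d : V → ℝ) : Integrable (Ff a d) (G ι) := by
  obtain ⟨K, hK⟩ : ∃ K : ℝ, (∀ v, |d v| ≤ K) ∧ ∀ v i, |a v i| ≤ K := by
    refine ⟨∑ v, |d v| + ∑ v, ∑ i, |a v i|, fun v => ?_, fun v i => ?_⟩
    · have h1 := Finset.single_le_sum (f := fun v => |d v|) (fun w _ => abs_nonneg _)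
        (Finset.mem_univ v)
      have h2 : 0 ≤ ∑ v, ∑ i, |a v i| :=
        Finset.sum_nonneg fun _ _ => Finset.sum_nonneg fun _ _ => abs_nonneg _
      linarith
    · have h1 := Finset.single_le_sum (f := fun v => ∑ i, |a v i|)
        (fun w _ => Finset.sum_nonneg fun _ _ => abs_nonneg _) (Finset.mem_univ v)
      have h2 := Finset.single_le_sum (f := fun i => |a v i|)
        (fun w _ => abs_nonneg _) (Finset.mem_univ i)
      have h3 : 0 ≤ ∑ v, |d v| := Finset.sum_nonneg fun _ _ => abs_nonneg _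
      linarith
  refine Integrable.mono' (g := fun x => Real.log (Fintype.card V) + K + K * ∑ i, |x i|) ?_
    (Ff_continuous a d).aestronglyMeasurable
    (Eventually.of_forall fun x => by
      rw [Real.norm_eq_abs]; exact Ff_abs_le a d K hK.1 hK.2 x)
  exact (integrable_const _).add
    ((integrable_finsetSum _ fun i _ => (eval_integrable i).abs).const_mul _)

end basic

theorem Q_self (N : ℕ) (σ : Fin N → Fin 2) : Q N σ σ = N := by
  have h : ∀ i, (-1 : ℝ) ^ (σ i).val * (-1 : ℝ) ^ (σ i).val = 1 := by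
    intro i; rw [← mul_pow]; norm_num
  unfold Q
  simp only [h]
  simp only [Finset.sum_const, Finset.card_univ, Fintype.card_fin, nsmul_eq_mul, mul_one]
  rcases Nat.eq_zero_or_pos N with rfl | hN
  · simp
  · have : (N : ℝ) ≠ 0 := by positivity
    field_simp

theorem skA_sq (hN : TInner) (β : ℝ) (N : ℕ) (h : 0 < N) (σ : Fin N → Fin 2) :
    ∑ p, skA β N σ p ^ 2 ≤ β ^ 2 / 2 * N := by
  have := hN β N h σ σ
  rw [Q_self] at this
  have e : ∑ p, skA β N σ p ^ 2 = ∑ p, skA β N σ p * skA β N σ p :=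
    Finset.sum_congr rfl fun p _ => by ring
  rw [e, this]
  nlinarith [sq_nonneg β]

theorem EF_zero (β : ℝ) : EF β 0 = 0 := by
  unfold EF
  have : ∀ x, Ff (skA β 0) (fun _ => 0) x = 0 := by
    intro x
    unfold Ff Zf
    simp
  simp [this]

/-- the free energy per site converges -/
theorem EF_tendsto (hG : TGT) (hU : TUpper) (β : ℝ) :
    ∃ L : ℝ, Tendsto (fun N : ℕ => EF β N / N) atTop (𝓝 L) := by
  have hs : Subadditive fun n : ℕ => -EF β n := by
    intro m n
    rcases Nat.eq_zero_or_pos m with rfl | hm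
    · simp [EF_zero]
    rcases Nat.eq_zero_or_pos n with rfl | hn
    · simp [EF_zero]
    have := hG β m n hm hn
    simp only
    linarith
  have hb : BddBelow (Set.range fun n : ℕ => -EF β n / n) := by
    refine ⟨-(1 + β ^ 2), ?_⟩
    rintro _ ⟨n, rfl⟩
    simp only
    rcases Nat.eq_zero_or_pos n with rfl | hn
    · simp only [Nat.cast_zero, div_zero]; nlinarith [sq_nonneg β]
    · have := hU β n hn
      have hn' : (0 : ℝ) < n := by exact_mod_cast hn
      rw [le_div_iff₀ hn']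
      linarith
  have := hs.tendsto_lim hb
  refine ⟨-hs.lim, ?_⟩
  have h2 := this.neg
  refine h2.congr fun n => ?_
  ring

theorem Pair_nonneg (hP : TPair) {ι : Type} [Fintype ι] (m : (ι → ℝ) → ι → ℝ) (B : ℝ)
    (hm : Measurable m) (hB : ∀ x, ∑ i, m x i ^ 2 ≤ B) (r : ℝ) (h0 : 0 ≤ r) (h1 : r ≤ 1) :
    0 ≤ Pair m r := by
  have h := (hP ι m B hm hB (Real.sqrt r) (Real.sqrt_nonneg _)
    (by rw [Real.sqrt_le_one]; exact h1)).1
  rw [Real.sq_sqrt h0] at h
  rw [← h]
  unfold Psi
  exact integral_nonneg fun x => Finset.sum_nonneg fun i _ => sq_nonneg _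

/-- superconcentration: `Pair r / N → 0` for every `r < 1` -/
theorem Pair_tendsto (hP : TPair) (hN : TInner) (hC : TChaos) (β : ℝ) (hβ : 0 < β) (r : ℝ)
    (h0 : 0 ≤ r) (h1 : r < 1) :
    Tendsto (fun N : ℕ => Pair (mf (skA β N) (fun _ => 0)) r / N) atTop (𝓝 0) := by
  obtain ⟨C, r₀, hr₀, hC⟩ := hC β hβ
  have nonneg : ∀ N : ℕ, 0 < N → ∀ r : ℝ, 0 ≤ r → r ≤ 1 →
      0 ≤ Pair (mf (skA β N) (fun _ => 0)) r := fun N hNp r h0 h1 =>
    Pair_nonneg hP _ (β ^ 2 / 2 * N) (mf_continuous _ _).measurable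
      (mf_sq _ _ _ (skA_sq hN β N hNp)) r h0 h1
  have key : ∀ k : ℕ, ∀ r : ℝ, 0 ≤ r → r < 1 → r ^ (2 ^ k) ≤ r₀ →
      Tendsto (fun N : ℕ => Pair (mf (skA β N) (fun _ => 0)) r / N) atTop (𝓝 0) := by
    intro k
    induction k with
    | zero =>
      intro r h0 h1 hr
      rw [pow_zero, pow_one] at hr
      have hlim : Tendsto (fun N : ℕ => C / (N : ℝ)) atTop (𝓝 0) :=
        tendsto_const_div_atTop_nhds_zero_nat C
      refine tendsto_of_tendsto_of_tendsto_of_le_of_le' tendsto_const_nhds hlim ?_ ?_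
      · filter_upwards [eventually_gt_atTop 0] with N hNp
        exact div_nonneg (nonneg N hNp r h0 h1.le) (Nat.cast_nonneg _)
      · filter_upwards [eventually_gt_atTop 0] with N hNp
        exact div_le_div_of_nonneg_right (hC N hNp r h0 hr h1.le) (Nat.cast_nonneg _)
    | succ k ih =>
      intro r h0 h1 hr
      have h3 := ih (r ^ 2) (by positivity) (by nlinarith) (by
        rw [← pow_mul, mul_comm, ← pow_succ]; exact hr)
      have h4 : Tendsto (fun N : ℕ => Real.sqrt (β ^ 2 / 2 *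
          (Pair (mf (skA β N) (fun _ => 0)) (r ^ 2) / N))) atTop (𝓝 0) := by
        have := (h3.const_mul (β ^ 2 / 2)).sqrt
        simpa using this
      refine tendsto_of_tendsto_of_tendsto_of_le_of_le' tendsto_const_nhds h4 ?_ ?_
      · filter_upwards [eventually_gt_atTop 0] with N hNp
        exact div_nonneg (nonneg N hNp r h0 h1.le) (Nat.cast_nonneg _)
      · filter_upwards [eventually_gt_atTop 0] with N hNp
        have hN' : (0 : ℝ) < N := by exact_mod_cast hNp
        have h5 := hP _ (mf (skA β N) (fun _ => 0)) (β ^ 2 / 2 * N) (mf_continuous _ _).measurable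
          (mf_sq _ _ _ (skA_sq hN β N hNp)) r h0 h1.le
        rw [h5.1] at h5
        apply Real.le_sqrt_of_sq_le
        rw [div_pow, div_le_iff₀ (by positivity)]
        refine h5.2.trans (le_of_eq ?_)
        field_simp
  obtain ⟨k, hk⟩ : ∃ k : ℕ, r ^ (2 ^ k) ≤ r₀ := by
    have h2 : Tendsto (fun k : ℕ => r ^ (2 ^ k)) atTop (𝓝 0) :=
      (tendsto_pow_atTop_nhds_zero_of_lt_one h0 h1).comp
        (tendsto_pow_atTop_atTop_of_one_lt (by norm_num))
    exact ((h2.eventually (Iic_mem_nhds hr₀)).exists)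
  exact key k r h0 h1 hk

/-- bounds for the negative moment -/
theorem moment_bounds (hL : TLower) (hN : TInner) (β : ℝ) (N : ℕ) (hNp : 0 < N) (a : ℝ) (ha : a < 0)
    (c : ℝ) (hc0 : 0 ≤ c) (hc1 : c ≤ 1) :
    a * EF β N ≤ Real.log (∫ g, (Zf (skA β N) (fun _ => 0) g) ^ a ∂(G (Fin N × Fin N))) ∧
    Real.log (∫ g, (Zf (skA β N) (fun _ => 0) g) ^ a ∂(G (Fin N × Fin N))) ≤
      a * EF β N + a ^ 2 * ((1 - c ^ 2) * (β ^ 2 / 2 * N) +
        c ^ 2 * Psi (mf (skA β N) (fun _ => 0)) c) := by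
  set A := skA β N
  have e1 : ∀ g, (Zf A (fun _ => 0) g) ^ a = Real.exp (-((-a) * Ff A (fun _ => 0) g)) := by
    intro g
    rw [Real.rpow_def_of_pos (Zf_pos _ _ _)]
    congr 1
    unfold Ff; ring
  have hmeas : AEStronglyMeasurable (fun g => (Zf A (fun _ => 0) g) ^ a) (G (Fin N × Fin N)) := by
    simp only [e1]
    exact ((continuous_const.mul (Ff_continuous A _)).neg.rexp).aestronglyMeasurable
  have hint : ∫ g, (Zf A (fun _ => 0) g) ^ a ∂(G (Fin N × Fin N)) =
      (∫⁻ g, ENNReal.ofReal (Real.exp (-((-a) * Ff A (fun _ => 0) g))) ∂(G (Fin N × Fin N))).toReal := by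
    rw [integral_eq_lintegral_of_nonneg_ae
      (Eventually.of_forall fun g => Real.rpow_nonneg (Zf_pos _ _ _).le _) hmeas]
    simp only [e1]
  set J := ∫⁻ g, ENNReal.ofReal (Real.exp (-((-a) * Ff A (fun _ => 0) g))) ∂(G (Fin N × Fin N))
  have hup := hL (Fin N × Fin N) (Fin N → Fin 2) A (β ^ 2 / 2 * N) (skA_sq hN β N hNp) c (-a)
    hc0 hc1 (by linarith)
  have hlo := exp_int_le (μ := G (Fin N × Fin N))
    (f := fun g => -((-a) * Ff A (fun _ => 0) g)) (((Ff_integrable A _).const_mul _).neg)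
  have e2 : ∫ g, -((-a) * Ff A (fun _ => 0) g) ∂(G (Fin N × Fin N)) = a * EF β N := by
    rw [integral_neg, integral_const_mul]; unfold EF; ring
  rw [e2] at hlo
  change J ≤ _ at hup
  change _ ≤ J at hlo
  have hJfin : J ≠ ⊤ := ne_top_of_le_ne_top ENNReal.ofReal_ne_top hup
  have hlo' : Real.exp (a * EF β N) ≤ J.toReal := by
    rw [← ENNReal.toReal_ofReal (Real.exp_pos _).le]
    exact ENNReal.toReal_mono hJfin hlo
  have hJpos : 0 < J.toReal := (Real.exp_pos _).trans_le hlo'
  have hup' : J.toReal ≤ Real.exp (-((-a) * ∫ x, Ff A (fun _ => 0) x ∂(G (Fin N × Fin N))) +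
        (-a) ^ 2 * ((1 - c ^ 2) * (β ^ 2 / 2 * N) + c ^ 2 * Psi (mf A (fun _ => 0)) c)) := by
    rw [← ENNReal.toReal_ofReal (Real.exp_pos _).le]
    exact ENNReal.toReal_mono ENNReal.ofReal_ne_top hup
  rw [hint]
  constructor
  · rw [Real.le_log_iff_exp_le hJpos]; exact hlo'
  · have := Real.log_le_log hJpos hup'
    rw [Real.log_exp] at this
    refine this.trans (le_of_eq ?_)
    unfold EF
    ring

/-- the frozen statement from the tasks -/
theorem final (hP : TPair) (hL : TLower) (hG : TGT) (hC : TChaos) (hN : TInner) (hU : TUpper) :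
  ∀ β : ℝ, 0 < β → ∀ a : ℝ, a < 0 →
    ∃ L : ℝ,
      Tendsto (fun N : ℕ => (1 / (N : ℝ)) *
          ∫ g, Real.log (∑ σ : Fin N → Fin 2,
              Real.exp (β / Real.sqrt (N : ℝ) *
                ∑ i : Fin N, ∑ j : Fin N,
                  if i < j then g (i, j) * (-1 : ℝ) ^ (σ i).val * (-1 : ℝ) ^ (σ j).val else 0))
            ∂(Measure.pi fun _ : Fin N × Fin N => gaussianReal 0 1))
        atTop (nhds L) ∧
      Tendsto (fun N : ℕ => (1 / (a * (N : ℝ))) *
          Real.log (∫ g, (∑ σ : Fin N → Fin 2,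
              Real.exp (β / Real.sqrt (N : ℝ) *
                ∑ i : Fin N, ∑ j : Fin N,
                  if i < j then g (i, j) * (-1 : ℝ) ^ (σ i).val * (-1 : ℝ) ^ (σ j).val else 0)) ^ a
            ∂(Measure.pi fun _ : Fin N × Fin N => gaussianReal 0 1)))
        atTop (nhds L) := by
  intro β hβ a ha
  obtain ⟨L, hLim⟩ := EF_tendsto hG hU β
  simp only [frozen_Z]
  refine ⟨L, ?_, ?_⟩
  · refine hLim.congr fun N => ?_
    rw [div_eq_inv_mul, one_div]
    rfl
  · have hdiff : Tendsto (fun N : ℕ => (1 / (a * (N : ℝ))) *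
        Real.log (∫ g, (Zf (skA β N) (fun _ => 0) g) ^ a ∂(G (Fin N × Fin N))) - EF β N / N)
        atTop (𝓝 0) := by
      rw [Metric.tendsto_atTop]
      intro ε hε
      -- choose c
      set l := -a with hl
      have hlpos : 0 < l := by rw [hl]; linarith
      set δ := ε / (2 * (l * (β ^ 2 / 2) + 1)) with hδ
      have hden : 0 < l * (β ^ 2 / 2) + 1 := by positivity
      have hδpos : 0 < δ := by positivity
      set q := max (1 - δ) 0 with hq
      have hq0 : 0 ≤ q := le_max_right _ _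
      have hq1 : q < 1 := max_lt (by linarith) one_pos
      set c := Real.sqrt q with hc
      have hc2 : c ^ 2 = q := Real.sq_sqrt hq0
      have hc0 : 0 ≤ c := Real.sqrt_nonneg _
      have hc1 : c ≤ 1 := by rw [hc, Real.sqrt_le_one]; exact hq1.le
      have hcδ : 1 - c ^ 2 ≤ δ := by
        rw [hc2]; have := le_max_left (1 - δ) 0; linarith
      have hpt := Pair_tendsto hP hN hC β hβ q hq0 hq1
      have hpt2 : Tendsto (fun N : ℕ => l * q * (Pair (mf (skA β N) (fun _ => 0)) q / N)) atTop (𝓝 0) := by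
        simpa using hpt.const_mul (l * q)
      have hev := hpt2.eventually (gt_mem_nhds (show (0:ℝ) < ε / 2 by positivity))
      obtain ⟨N₀, hN₀⟩ := Filter.eventually_atTop.1 (hev.and (eventually_gt_atTop 0))
      refine ⟨N₀, fun N hNN => ?_⟩
      obtain ⟨hsm, hNp⟩ := hN₀ N hNN
      have hN' : (0 : ℝ) < N := by exact_mod_cast hNp
      obtain ⟨hlo, hup⟩ := moment_bounds hL hN β N hNp a ha c hc0 hc1
      have hPsi := (hP _ (mf (skA β N) (fun _ => 0)) (β ^ 2 / 2 * N) (mf_continuous _ _).measurable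
          (mf_sq _ _ _ (skA_sq hN β N hNp)) c hc0 hc1).1
      rw [hPsi, hc2] at hup
      set X := Real.log (∫ g, (Zf (skA β N) (fun _ => 0) g) ^ a ∂(G (Fin N × Fin N)))
      set E := EF β N
      set P := Pair (mf (skA β N) (fun _ => 0)) q
      have haN : a * N < 0 := mul_neg_of_neg_of_pos ha hN'
      have e0 : 1 / (a * (N : ℝ)) * X - E / N = (X - a * E) / (a * N) := by
        have hane : a ≠ 0 := ha.ne
        field_simp
      rw [Real.dist_eq, sub_zero, e0, abs_div, abs_of_nonneg (by linarith : 0 ≤ X - a * E),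
        abs_of_neg haN, div_lt_iff₀ (by linarith)]
      have h1 : X - a * E ≤ a ^ 2 * ((1 - q) * (β ^ 2 / 2 * N) + q * P) := by linarith
      refine lt_of_le_of_lt h1 ?_
      have h2 : a ^ 2 * ((1 - q) * (β ^ 2 / 2 * N) + q * P) =
          (l * N) * ((1 - q) * (l * (β ^ 2 / 2)) + l * q * (P / N)) := by
        rw [hl]; field_simp; ring
      have h3 : -(a * (N : ℝ)) = l * N := by rw [hl]; ring
      rw [h2, h3, mul_comm ε]
      apply mul_lt_mul_of_pos_left _ (by positivity)
      have h4 : (1 - q) * (l * (β ^ 2 / 2)) ≤ ε / 2 := by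
        have h5 : (1 - q) * (l * (β ^ 2 / 2)) ≤ δ * (l * (β ^ 2 / 2) + 1) := by
          rw [← hc2]
          have h6 : 0 ≤ l * (β ^ 2 / 2) := by positivity
          nlinarith
        refine h5.trans (le_of_eq ?_)
        rw [hδ]; field_simp
      linarith
    have := hdiff.add hLim
    simp only [zero_add, sub_add_cancel] at this
    exact this

end Pool.H102.SK
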