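import Mathlib
import Pool.Agent.H102R3.SKF

set_option autoImplicit false
open MeasureTheory ProbabilityTheory Set Filter Topology

namespace Pool.H102.SK

theorem pdf_deriv (t : ℝ) :
    HasDerivAt (gaussianPDFReal 0 1) (-(t * gaussianPDFReal 0 1 t)) t := by
  have h : gaussianPDFReal 0 1 = fun x : ℝ =>
      (Real.sqrt (2 * Real.pi * ((1 : NNReal) : ℝ)))⁻¹ *
        Real.exp (-(x - 0) ^ 2 / (2 * ((1 : NNReal) : ℝ))) := by
    rw [gaussianPDFReal_def]
  rw [h]
  have h1 : HasDerivAt (fun x : ℝ => -(x - 0) ^ 2 / (2 * ((1 : NNReal) : ℝ))) (-t) t := by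
    have := (((hasDerivAt_id t).sub_const (0:ℝ)).pow 2).neg.div_const (2 * ((1 : NNReal) : ℝ))
    refine this.congr_deriv ?_
    simp only [id, sub_zero, NNReal.coe_one, mul_one]
    norm_num
    ring
  have h2 := (h1.exp).const_mul (Real.sqrt (2 * Real.pi * ((1 : NNReal) : ℝ)))⁻¹
  refine h2.congr_deriv ?_
  ring

theorem integrable_gauss_iff (f : ℝ → ℝ) (hf : Integrable f (gaussianReal 0 1)) :
    Integrable fun t => f t * gaussianPDFReal 0 1 t := by
  rw [gaussianReal_of_var_ne_zero 0 (by norm_num : (1 : NNReal) ≠ 0),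
    integrable_withDensity_iff_integrable_smul' (measurable_gaussianPDF 0 1)
      (Eventually.of_forall fun _ => gaussianPDF_lt_top)] at hf
  refine hf.congr (Eventually.of_forall fun t => ?_)
  simp only [smul_eq_mul, toReal_gaussianPDF]
  ring

theorem stein1 (g g' : ℝ → ℝ) (C : ℝ) (hd : ∀ t, HasDerivAt g (g' t) t) (hC : ∀ t, |g t| ≤ C)
    (hC' : ∀ t, |g' t| ≤ C) (hm' : Measurable g') :
    ∫ t, t * g t ∂(gaussianReal 0 1) = ∫ t, g' t ∂(gaussianReal 0 1) := by
  have hgm : Measurable g := by
    have : Continuous g := continuous_iff_continuousAt.2 fun t => (hd t).continuousAt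
    exact this.measurable
  have hid : Integrable (fun t : ℝ => t) (gaussianReal 0 1) :=
    (memLp_id_gaussianReal 1).integrable (by norm_num)
  have i1 : Integrable (fun t => t * g t) (gaussianReal 0 1) :=
    hid.mul_bdd (c := C) hgm.aestronglyMeasurable (Eventually.of_forall fun t => hC t)
  have i2 : Integrable g' (gaussianReal 0 1) :=
    Integrable.of_bound hm'.aestronglyMeasurable C (Eventually.of_forall fun t => hC' t)
  have i3 : Integrable g (gaussianReal 0 1) :=
    Integrable.of_bound hgm.aestronglyMeasurable C (Eventually.of_forall fun t => hC t)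
  have j1 := integrable_gauss_iff _ i1
  have j2 := integrable_gauss_iff _ i2
  have j3 := integrable_gauss_iff _ i3
  have key := integral_mul_deriv_eq_deriv_mul_of_integrable (u := g) (u' := g')
    (v := gaussianPDFReal 0 1) (v' := fun t => -(t * gaussianPDFReal 0 1 t))
    (fun x _ => hd x) (fun x _ => pdf_deriv x)
    (j1.neg.congr (Eventually.of_forall fun t => by simp only [Pi.neg_apply, Pi.mul_apply]; ring))
    (j2.congr (Eventually.of_forall fun t => by simp only [Pi.mul_apply]))
    (j3.congr (Eventually.of_forall fun t => by simp only [Pi.mul_apply]))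
  rw [integral_gaussianReal_eq_integral_smul (by norm_num),
    integral_gaussianReal_eq_integral_smul (by norm_num)]
  have e1 : ∫ x, gaussianPDFReal 0 1 x • (x * g x) =
      -∫ x, g x * -(x * gaussianPDFReal 0 1 x) := by
    rw [← integral_neg]
    congr 1; ext x; simp only [smul_eq_mul]; ring
  have e2 : ∫ x, gaussianPDFReal 0 1 x • g' x = ∫ x, g' x * gaussianPDFReal 0 1 x := by
    congr 1; ext x; simp only [smul_eq_mul]; ring
  rw [e1, e2, key, neg_neg]

section
variable {κ : Type} [Fintype κ] [DecidableEq κ]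

/-- resampling one coordinate preserves the Gaussian measure -/
theorem mp_update (i : κ) :
    MeasurePreserving (fun p : (κ → ℝ) × ℝ => Function.update p.1 i p.2)
      ((G κ).prod (gaussianReal 0 1)) (G κ) := by
  have hm : Measurable (fun p : (κ → ℝ) × ℝ => Function.update p.1 i p.2) := by
    rw [measurable_pi_iff]
    intro j
    by_cases h : j = i
    · subst h; simpa using measurable_snd
    · simp only [Function.update_of_ne h]; fun_prop
  refine ⟨hm, ?_⟩
  symm
  refine Measure.pi_eq fun s hs => ?_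
  rw [Measure.map_apply hm (MeasurableSet.univ_pi hs)]
  have e : (fun p : (κ → ℝ) × ℝ => Function.update p.1 i p.2) ⁻¹' (Set.univ.pi s) =
      (Set.univ.pi (Function.update s i Set.univ)) ×ˢ (s i) := by
    ext ⟨x, t⟩
    simp only [Set.mem_preimage, Set.mem_univ_pi, Set.mem_prod]
    constructor
    · intro h
      refine ⟨fun j => ?_, by simpa using h i⟩
      by_cases hj : j = i
      · subst hj; simp
      · rw [Function.update_of_ne hj]; simpa [Function.update_of_ne hj] using h j
    · rintro ⟨h1, h2⟩ j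
      by_cases hj : j = i
      · subst hj; simpa using h2
      · rw [Function.update_of_ne hj]; simpa [Function.update_of_ne hj] using h1 j
  rw [e, Measure.prod_prod, Measure.pi_pi]
  rw [← Finset.mul_prod_erase _ _ (Finset.mem_univ i), ← Finset.mul_prod_erase _ _ (Finset.mem_univ i)]
  simp only [Function.update_self, measure_univ, one_mul]
  rw [mul_comm]
  congr 1
  apply Finset.prod_congr rfl
  intro j hj
  rw [Function.update_of_ne (Finset.ne_of_mem_erase hj)]

theorem stein (i : κ) (f f' : (κ → ℝ) → ℝ) (C : ℝ) (hf : Measurable f) (hf' : Measurable f')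
    (hC : ∀ x, |f x| ≤ C) (hC' : ∀ x, |f' x| ≤ C)
    (hd : ∀ x, HasDerivAt (fun t => f (Function.update x i t)) (f' x) (x i)) :
    ∫ x, x i * f x ∂(G κ) = ∫ x, f' x ∂(G κ) := by
  have mp := mp_update i
  have hi1 : Integrable (fun x : κ → ℝ => x i * f x) (G κ) :=
    (eval_integrable i).mul_bdd (c := C) hf.aestronglyMeasurable (Eventually.of_forall fun t => hC t)
  have hi2 : Integrable f' (G κ) :=
    Integrable.of_bound hf'.aestronglyMeasurable C (Eventually.of_forall fun t => hC' t)
  have e : ∀ F : (κ → ℝ) → ℝ, Measurable F → Integrable F (G κ) →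
      ∫ x, F x ∂(G κ) = ∫ x, ∫ t, F (Function.update x i t) ∂(gaussianReal 0 1) ∂(G κ) := by
    intro F hF hFi
    conv_lhs => rw [← mp.map_eq]
    rw [integral_map mp.measurable.aemeasurable hF.aestronglyMeasurable, integral_prod]
    exact mp.integrable_comp_of_integrable hFi
  rw [e (fun x => x i * f x) ((measurable_pi_apply i).mul hf) hi1, e f' hf' hi2]
  congr 1
  ext x
  have h1 : ∀ t, Function.update x i t i = t := fun t => Function.update_self ..
  simp only [h1]
  refine stein1 (fun t => f (Function.update x i t)) (fun t => f' (Function.update x i t)) C ?_ ?_ ?_ ?_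
  · intro t
    have := hd (Function.update x i t)
    simpa using this
  · intro t; exact hC _
  · intro t; exact hC' _
  · exact hf'.comp (measurable_update x)

end

section
variable {κ V : Type} [Fintype κ] [Fintype V] [Nonempty V]

omit [Nonempty V] in
theorem Zf_hasDerivAt (b b' : ℝ → V → κ → ℝ) (d d' : ℝ → V → ℝ) (θ : ℝ)
    (hb : ∀ v i, HasDerivAt (fun t => b t v i) (b' θ v i) θ)
    (hd : ∀ v, HasDerivAt (fun t => d t v) (d' θ v) θ) (x : κ → ℝ) :
    HasDerivAt (fun t => Zf (b t) (d t) x)
      (∑ v, Real.exp (d θ v + ∑ i, b θ v i * x i) * (d' θ v + ∑ i, b' θ v i * x i)) θ := by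
  unfold Zf
  apply HasDerivAt.fun_sum
  intro v _
  apply HasDerivAt.exp
  apply (hd v).add
  apply HasDerivAt.fun_sum
  intro i _
  exact (hb v i).mul_const _

theorem Ff_hasDerivAt (b b' : ℝ → V → κ → ℝ) (d d' : ℝ → V → ℝ) (θ : ℝ)
    (hb : ∀ v i, HasDerivAt (fun t => b t v i) (b' θ v i) θ)
    (hd : ∀ v, HasDerivAt (fun t => d t v) (d' θ v) θ) (x : κ → ℝ) :
    HasDerivAt (fun t => Ff (b t) (d t) x)
      (∑ v, pf (b θ) (d θ) x v * (d' θ v + ∑ i, b' θ v i * x i)) θ := by
  have h := (Zf_hasDerivAt b b' d d' θ hb hd x).log (Zf_pos (b θ) (d θ) x).ne'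
  refine h.congr_deriv ?_
  rw [Finset.sum_div]
  refine Finset.sum_congr rfl fun v _ => ?_
  unfold pf; ring

theorem pf_hasDerivAt [DecidableEq κ] (b : V → κ → ℝ) (d : V → ℝ) (i : κ) (v : V) (x : κ → ℝ) :
    HasDerivAt (fun t => pf b d (Function.update x i t) v)
      (pf b d x v * (b v i - mf b d x i)) (x i) := by
  have hlin : ∀ w, HasDerivAt (fun t => d w + ∑ j, b w j * Function.update x i t j) (b w i) (x i) := by
    intro w
    have h1 : ∀ j, HasDerivAt (fun t => b w j * Function.update x i t j)
        (if j = i then b w i else 0) (x i) := by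
      intro j
      by_cases h : j = i
      · subst h
        simp only [Function.update_self, if_true]
        simpa using (hasDerivAt_id (x j)).const_mul (b w j)
      · simp only [Function.update_of_ne h, if_neg h]
        exact hasDerivAt_const _ _
    have h2 := HasDerivAt.fun_sum (u := Finset.univ) fun j _ => h1 j
    have h3 := h2.const_add (d w)
    refine h3.congr_deriv ?_
    simp
  have hx : Function.update x i (x i) = x := Function.update_eq_self i x
  have hZ : HasDerivAt (fun t => Zf b d (Function.update x i t))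
      (∑ w, Real.exp (d w + ∑ j, b w j * x j) * b w i) (x i) := by
    unfold Zf
    have := HasDerivAt.fun_sum (u := (Finset.univ : Finset V)) fun w _ => (hlin w).exp
    refine this.congr_deriv ?_
    rw [hx]
  have hN := (hlin v).exp
  have h := hN.div hZ (by rw [hx]; exact (Zf_pos b d x).ne')
  refine (h.congr_deriv ?_)
  rw [hx]
  have hne := (Zf_pos b d x).ne'
  have hm : mf b d x i = (∑ w, Real.exp (d w + ∑ j, b w j * x j) * b w i) / Zf b d x := by
    unfold mf pf
    rw [Finset.sum_div]
    exact Finset.sum_congr rfl fun w _ => by ring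
  rw [hm]
  unfold pf
  field_simp

theorem mf_abs_le (b : V → κ → ℝ) (d : V → ℝ) (K : ℝ) (hb : ∀ v i, |b v i| ≤ K) (x : κ → ℝ) (i : κ) :
    |mf b d x i| ≤ K := by
  unfold mf
  calc |∑ v, pf b d x v * b v i| ≤ ∑ v, |pf b d x v * b v i| := Finset.abs_sum_le_sum_abs _ _
    _ ≤ ∑ v, pf b d x v * K := Finset.sum_le_sum fun v _ => by
        rw [abs_mul, abs_of_nonneg (pf_nonneg b d x v)]
        exact mul_le_mul_of_nonneg_left (hb v i) (pf_nonneg b d x v)
    _ = K := by rw [← Finset.sum_mul, pf_sum, one_mul]

theorem stein_pf (b : V → κ → ℝ) (d : V → ℝ) (K : ℝ) (hb : ∀ v i, |b v i| ≤ K) (i : κ) (v : V) :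
    ∫ x, x i * pf b d x v ∂(G κ) = ∫ x, pf b d x v * (b v i - mf b d x i) ∂(G κ) := by
  classical
  have hK : 0 ≤ K := (abs_nonneg _).trans (hb (Classical.arbitrary V) i)
  refine stein i (fun x => pf b d x v) (fun x => pf b d x v * (b v i - mf b d x i)) (1 + 2 * K)
    (pf_continuous b d v).measurable ?_ ?_ ?_ ?_
  · have h1 : Continuous fun x => mf b d x i := (continuous_apply i).comp (mf_continuous b d)
    exact ((pf_continuous b d v).mul (continuous_const.sub h1)).measurable
  · intro x
    rw [abs_of_nonneg (pf_nonneg b d x v)]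
    linarith [pf_le_one b d x v]
  · intro x
    rw [abs_mul, abs_of_nonneg (pf_nonneg b d x v)]
    have h1 : |b v i - mf b d x i| ≤ 2 * K := by
      refine (abs_sub _ _).trans ?_
      linarith [hb v i, mf_abs_le b d K hb x i]
    have h2 := pf_le_one b d x v
    have h3 := pf_nonneg b d x v
    nlinarith [abs_nonneg (b v i - mf b d x i)]
  · intro x
    exact pf_hasDerivAt b d i v x

theorem pf_integrable (b : V → κ → ℝ) (d : V → ℝ) (v : V) : Integrable (fun x => pf b d x v) (G κ) :=
  Integrable.of_bound (pf_continuous b d v).aestronglyMeasurable 1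
    (Eventually.of_forall fun x => by
      rw [Real.norm_eq_abs, abs_of_nonneg (pf_nonneg b d x v)]; exact pf_le_one b d x v)

theorem xpf_integrable (b : V → κ → ℝ) (d : V → ℝ) (v : V) (i : κ) :
    Integrable (fun x => x i * pf b d x v) (G κ) :=
  (eval_integrable i).mul_bdd (c := 1) (pf_continuous b d v).aestronglyMeasurable
    (Eventually.of_forall fun x => by
      rw [Real.norm_eq_abs, abs_of_nonneg (pf_nonneg b d x v)]; exact pf_le_one b d x v)

theorem pfm_integrable (b : V → κ → ℝ) (d : V → ℝ) (K : ℝ) (hb : ∀ v i, |b v i| ≤ K) (v : V) (i : κ) :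
    Integrable (fun x => pf b d x v * (b v i - mf b d x i)) (G κ) := by
  have h1 : Continuous fun x => mf b d x i := (continuous_apply i).comp (mf_continuous b d)
  refine (pf_integrable b d v).mul_bdd (c := 2 * K)
    (continuous_const.sub h1).aestronglyMeasurable (Eventually.of_forall fun x => ?_)
  rw [Real.norm_eq_abs]
  refine (abs_sub _ _).trans ?_
  linarith [hb v i, mf_abs_le b d K hb x i]

/-- the derivative of the expected free energy has the sign of the covariance condition -/
theorem deriv_nonpos (b b' : V → κ → ℝ) (d d' : V → ℝ) (K : ℝ) (hb : ∀ v i, |b v i| ≤ K)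
    (hc : ∀ v w, d' v + ∑ i, b' v i * b v i - ∑ i, b' v i * b w i ≤ 0) :
    ∫ x, ∑ v, pf b d x v * (d' v + ∑ i, b' v i * x i) ∂(G κ) ≤ 0 := by
  have e1 : ∀ x : κ → ℝ, ∑ v, pf b d x v * (d' v + ∑ i, b' v i * x i) =
      ∑ v, (d' v * pf b d x v + ∑ i, b' v i * (x i * pf b d x v)) := by
    intro x
    refine Finset.sum_congr rfl fun v _ => ?_
    rw [mul_add, Finset.mul_sum]
    congr 1
    · ring
    · exact Finset.sum_congr rfl fun i _ => by ring
  simp only [e1]
  have hint1 : ∀ v, Integrable (fun x => d' v * pf b d x v) (G κ) :=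
    fun v => (pf_integrable b d v).const_mul _
  have hint2 : ∀ v i, Integrable (fun x : κ → ℝ => b' v i * (x i * pf b d x v)) (G κ) :=
    fun v i => (xpf_integrable b d v i).const_mul _
  have hint2' : ∀ v i, Integrable (fun x : κ → ℝ => b' v i * (pf b d x v * (b v i - mf b d x i))) (G κ) :=
    fun v i => (pfm_integrable b d K hb v i).const_mul _
  have hint3 : ∀ v, Integrable (fun x : κ → ℝ => ∑ i, b' v i * (x i * pf b d x v)) (G κ) :=
    fun v => integrable_finsetSum _ fun i _ => hint2 v i
  have hint3' : ∀ v, Integrable (fun x : κ → ℝ => ∑ i, b' v i * (pf b d x v * (b v i - mf b d x i))) (G κ) :=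
    fun v => integrable_finsetSum _ fun i _ => hint2' v i
  have e2 : ∫ x : κ → ℝ, ∑ v, (d' v * pf b d x v + ∑ i, b' v i * (x i * pf b d x v)) ∂(G κ) =
      ∫ x : κ → ℝ, ∑ v, (d' v * pf b d x v +
        ∑ i, b' v i * (pf b d x v * (b v i - mf b d x i))) ∂(G κ) := by
    have g1 : ∀ v, Integrable (fun x : κ → ℝ => d' v * pf b d x v +
        ∑ i, b' v i * (x i * pf b d x v)) (G κ) := fun v => (hint1 v).add (hint3 v)
    have g2 : ∀ v, Integrable (fun x : κ → ℝ => d' v * pf b d x v +
        ∑ i, b' v i * (pf b d x v * (b v i - mf b d x i))) (G κ) := fun v => (hint1 v).add (hint3' v)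
    rw [integral_finsetSum _ fun v _ => g1 v, integral_finsetSum _ fun v _ => g2 v]
    refine Finset.sum_congr rfl fun v _ => ?_
    rw [integral_add (hint1 v) (hint3 v), integral_add (hint1 v) (hint3' v),
      integral_finsetSum _ fun i _ => hint2 v i, integral_finsetSum _ fun i _ => hint2' v i]
    congr 1
    refine Finset.sum_congr rfl fun i _ => ?_
    rw [integral_const_mul, integral_const_mul, stein_pf b d K hb i v]
  rw [e2]
  refine integral_nonpos fun x => ?_
  simp only [Pi.zero_apply]
  have e3 : ∑ v, (d' v * pf b d x v + ∑ i, b' v i * (pf b d x v * (b v i - mf b d x i))) =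
      ∑ v, ∑ w, pf b d x v * pf b d x w *
        (d' v + ∑ i, b' v i * b v i - ∑ i, b' v i * b w i) := by
    refine Finset.sum_congr rfl fun v _ => ?_
    have h1 : ∑ w, pf b d x v * pf b d x w *
        (d' v + ∑ i, b' v i * b v i - ∑ i, b' v i * b w i) =
        pf b d x v * (d' v + ∑ i, b' v i * b v i) * (∑ w, pf b d x w) -
        pf b d x v * ∑ w, ∑ i, pf b d x w * (b' v i * b w i) := by
      rw [Finset.mul_sum, Finset.mul_sum, ← Finset.sum_sub_distrib]
      refine Finset.sum_congr rfl fun w _ => ?_
      rw [← Finset.mul_sum]; ring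
    rw [h1, pf_sum, mul_one, Finset.sum_comm]
    have h2 : ∀ i, ∑ w, pf b d x w * (b' v i * b w i) = b' v i * mf b d x i := by
      intro i
      unfold mf
      rw [Finset.mul_sum]
      exact Finset.sum_congr rfl fun w _ => by ring
    simp only [h2]
    rw [mul_add, Finset.mul_sum, Finset.mul_sum, mul_comm (d' v), add_sub_assoc,
      ← Finset.sum_sub_distrib]
    congr 1
    exact Finset.sum_congr rfl fun i _ => by ring
  rw [e3]
  exact Finset.sum_nonpos fun v _ => Finset.sum_nonpos fun w _ =>
    mul_nonpos_of_nonneg_of_nonpos (mul_nonneg (pf_nonneg b d x v) (pf_nonneg b d x w)) (hc v w)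

end

theorem tmono : TMono := by
  intro κ V _ _ _ b b' d d' K T hT hb hd hbK hb'K hdK hd'K hc
  set U : ℝ → ℝ := fun θ => ∫ x, Ff (b θ) (d θ) x ∂(G κ) with hU
  set F' : ℝ → (κ → ℝ) → ℝ := fun θ x =>
    ∑ v, pf (b θ) (d θ) x v * (d' θ v + ∑ i, b' θ v i * x i) with hF'
  have hder : ∀ θ, HasDerivAt U (∫ x, F' θ x ∂(G κ)) θ := by
    intro θ
    refine (hasDerivAt_integral_of_dominated_loc_of_deriv_le (F := fun θ x => Ff (b θ) (d θ) x)
      (F' := F') (bound := fun x => K + K * ∑ i, |x i|) (s := Set.univ) Filter.univ_mem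
      ?_ ?_ ?_ ?_ ?_ ?_).2
    · exact Eventually.of_forall fun t => (Ff_continuous (b t) (d t)).aestronglyMeasurable
    · exact Ff_integrable _ _
    · apply Continuous.aestronglyMeasurable
      simp only [hF']
      exact continuous_finsetSum _ fun v _ => (pf_continuous (b θ) (d θ) v).mul (by fun_prop)
    · refine Eventually.of_forall fun x t _ => ?_
      simp only [hF', Real.norm_eq_abs]
      calc |∑ v, pf (b t) (d t) x v * (d' t v + ∑ i, b' t v i * x i)|
          ≤ ∑ v, |pf (b t) (d t) x v * (d' t v + ∑ i, b' t v i * x i)| :=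
            Finset.abs_sum_le_sum_abs _ _
        _ ≤ ∑ v, pf (b t) (d t) x v * (K + K * ∑ i, |x i|) := Finset.sum_le_sum fun v _ => by
            rw [abs_mul, abs_of_nonneg (pf_nonneg _ _ x v)]
            refine mul_le_mul_of_nonneg_left ?_ (pf_nonneg _ _ x v)
            refine (abs_add_le _ _).trans (add_le_add (hd'K t v) ?_)
            refine (Finset.abs_sum_le_sum_abs _ _).trans ?_
            rw [Finset.mul_sum]
            exact Finset.sum_le_sum fun i _ => by rw [abs_mul]; gcongr; exact hb'K t v i
        _ = K + K * ∑ i, |x i| := by rw [← Finset.sum_mul, pf_sum, one_mul]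
    · exact (integrable_const _).add
        ((integrable_finsetSum _ fun i _ => (eval_integrable i).abs).const_mul _)
    · refine Eventually.of_forall fun x t _ => ?_
      exact Ff_hasDerivAt b b' d d' t (hb t) (hd t) x
  have hanti : AntitoneOn U (Set.Icc 0 T) := by
    refine antitoneOn_of_deriv_nonpos (convex_Icc 0 T)
      (fun θ _ => (hder θ).continuousAt.continuousWithinAt)
      (fun θ _ => (hder θ).differentiableAt.differentiableWithinAt) ?_
    intro θ hθ
    rw [interior_Icc] at hθ
    rw [(hder θ).deriv]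
    exact deriv_nonpos (b θ) (b' θ) (d θ) (d' θ) K (hbK θ) (hc θ (Set.Ioo_subset_Icc_self hθ))
  exact hanti (Set.left_mem_Icc.2 hT) (Set.right_mem_Icc.2 hT) hT

end Pool.H102.SK
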